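import Pool.Agent.NC.Sign

/-!
# Functions invariant under `Γ_0(6)` which are bounded at the four cusps are constant
-/

namespace Pool.Agent.NC

open scoped BigOperators MatrixGroups
open ModularForm (eta)
open Complex (I exp)
open Real (pi)

/-- Invariance under `Γ_0(6)`. -/
def Inv (R : ℂ → ℂ) : Prop := ∀ a b c d : ℤ, a * d - 6 * b * c = 1 → ∀ z : ℂ, 0 < z.im →
  R ((a * z + b) / (6 * c * z + d)) = R z

/-- Boundedness for large imaginary part. -/
def Bdd (R : ℂ → ℂ) : Prop := ∃ C Y : ℝ, ∀ z : ℂ, 0 < z.im → Y ≤ z.im → ‖R z‖ ≤ C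

/- MODULE CU1 -/
private theorem CU1_step (R : ℂ → ℂ) (p q r s : ℤ) (hdet : p * s - 6 * q * r = 1)
    (hR : ∀ z : ℂ, 0 < z.im → R ((p * z + q) / (6 * r * z + s)) = R z) (a b c d : ℤ)
    (h : a * d - 6 * b * c = 1 ∧ ∀ z : ℂ, 0 < z.im → R ((a * z + b) / (6 * c * z + d)) = R z)
    (a' b' c' d' : ℤ) (ha : a' = a * p + 6 * b * r) (hb : b' = a * q + b * s)
    (hc : c' = c * p + d * r) (hd : d' = 6 * c * q + d * s) :
    a' * d' - 6 * b' * c' = 1 ∧
      ∀ z : ℂ, 0 < z.im → R ((a' * z + b') / (6 * c' * z + d')) = R z := by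
  refine ⟨?_, fun z hz ↦ ?_⟩
  · subst ha hb hc hd
    calc (a * p + 6 * b * r) * (6 * c * q + d * s) - 6 * (a * q + b * s) * (c * p + d * r) =
        (a * d - 6 * b * c) * (p * s - 6 * q * r) := by ring
      _ = 1 := by rw [h.1, hdet, one_mul]
  · have h0 : p * s - q * (6 * r) = 1 := by rw [← hdet]; ring
    obtain ⟨h1, h2⟩ := moeb_im_int p q (6 * r) s (by rw [h0]; norm_num) z hz
    have h3 : ((6 * r : ℤ) : ℂ) = 6 * r := by push_cast; ring
    rw [h3] at h1 h2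
    obtain ⟨D, hD⟩ : ∃ D : ℂ, D = 6 * r * z + s := ⟨_, rfl⟩
    obtain ⟨N, hN⟩ : ∃ N : ℂ, N = p * z + q := ⟨_, rfl⟩
    have h4 := h.2 _ h2
    rw [hR z hz, ← hD, ← hN] at h4
    rw [← hD] at h1
    rw [← h4]
    have e1 : (a : ℂ) * (N / D) + b = (a * N + b * D) / D := by field_simp
    have e2 : 6 * (c : ℂ) * (N / D) + d = (6 * c * N + d * D) / D := by field_simp
    rw [e1, e2, div_div_div_cancel_right₀ h1, hN, hD, ha, hb, hc, hd]
    push_cast
    congr 2 <;> ring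

private theorem CU1_w6 (z : ℂ) (hz : 0 < z.im) : z ≠ 0 ∧ 0 < (-1 / (6 * z)).im := by
  have h := moeb_im_int 0 (-1) 6 0 (by norm_num) z hz
  have h1 : ((0 : ℤ) : ℂ) * z + ((-1 : ℤ) : ℂ) = -1 := by push_cast; ring
  have h2 : ((6 : ℤ) : ℂ) * z + ((0 : ℤ) : ℂ) = 6 * z := by push_cast; ring
  rw [h1, h2] at h
  exact ⟨right_ne_zero_of_mul h.1, h.2⟩

private theorem CU1_w3 (z : ℂ) (hz : 0 < z.im) :
    6 * z - 3 ≠ 0 ∧ 0 < ((3 * z - 2) / (6 * z - 3)).im := by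
  have h := moeb_im_int 3 (-2) 6 (-3) (by norm_num) z hz
  have h1 : ((3 : ℤ) : ℂ) * z + ((-2 : ℤ) : ℂ) = 3 * z - 2 := by push_cast; ring
  have h2 : ((6 : ℤ) : ℂ) * z + ((-3 : ℤ) : ℂ) = 6 * z - 3 := by push_cast; ring
  rw [h1, h2] at h
  exact h

private theorem CU1_lin (z : ℂ) (hz : 0 < z.im) (k l : ℝ) (hk : k ≠ 0) :
    (k : ℂ) * z + (l : ℂ) ≠ 0 := by
  intro h
  have h1 := congrArg Complex.im h
  simp at h1
  rcases h1 with h1 | h1
  · exact hk h1
  · exact hz.ne' h1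

/-- PROOF: `R (U z) = R z`: `U z = -1/(6(w-1))`, `w = -1/(6z)`; `R (V z) = R z`: `V z = W_3(W_3 z - 1)`
(as in `f_U`, `f_V`), the inverses in the same way; then `gamma_induction` for
`Q a b c d := a d - 6 b c = 1 ∧ ∀ z, 0 < Im z → R (γ z) = R z`. -/
theorem inv_of_gens (R : ℂ → ℂ) (hT : ∀ z : ℂ, 0 < z.im → R (z + 1) = R z)
    (h3 : ∀ z : ℂ, 0 < z.im → R ((3 * z - 2) / (6 * z - 3)) = R z)
    (h6 : ∀ z : ℂ, 0 < z.im → R (-1 / (6 * z)) = R z) : Inv R := by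
  have hTm : ∀ z : ℂ, 0 < z.im → R (z - 1) = R z := by
    intro z hz
    have h := hT (z - 1) (by rw [Complex.sub_im, Complex.one_im, sub_zero]; exact hz)
    rw [sub_add_cancel] at h
    exact h.symm
  have hm1 : ∀ w : ℂ, (w - 1).im = w.im := fun w ↦ by
    rw [Complex.sub_im, Complex.one_im, sub_zero]
  have hp1 : ∀ w : ℂ, (w + 1).im = w.im := fun w ↦ by
    rw [Complex.add_im, Complex.one_im, add_zero]
  have gT : ∀ z : ℂ, 0 < z.im → R ((((1 : ℤ) : ℂ) * z + ((1 : ℤ) : ℂ)) /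
      (6 * ((0 : ℤ) : ℂ) * z + ((1 : ℤ) : ℂ))) = R z := by
    intro z hz
    have e : (((1 : ℤ) : ℂ) * z + ((1 : ℤ) : ℂ)) /
      (6 * ((0 : ℤ) : ℂ) * z + ((1 : ℤ) : ℂ)) = z + 1 := by push_cast; ring
    rw [e, hT z hz]
  have gT' : ∀ z : ℂ, 0 < z.im → R ((((1 : ℤ) : ℂ) * z + ((-1 : ℤ) : ℂ)) /
      (6 * ((0 : ℤ) : ℂ) * z + ((1 : ℤ) : ℂ))) = R z := by
    intro z hz
    have e : (((1 : ℤ) : ℂ) * z + ((-1 : ℤ) : ℂ)) /
      (6 * ((0 : ℤ) : ℂ) * z + ((1 : ℤ) : ℂ)) = z - 1 := by push_cast; ring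
    rw [e, hTm z hz]
  have gU : ∀ z : ℂ, 0 < z.im → R ((((1 : ℤ) : ℂ) * z + ((0 : ℤ) : ℂ)) /
      (6 * ((1 : ℤ) : ℂ) * z + ((1 : ℤ) : ℂ))) = R z := by
    intro z hz
    obtain ⟨hz0, hw⟩ := CU1_w6 z hz
    have hD : (6 * z + 1 : ℂ) ≠ 0 := by
      have h := CU1_lin z hz 6 1 (by norm_num)
      simpa using h
    have hw1 : 0 < (-1 / (6 * z) - 1).im := by rw [hm1]; exact hw
    have e : (((1 : ℤ) : ℂ) * z + ((0 : ℤ) : ℂ)) /
      (6 * ((1 : ℤ) : ℂ) * z + ((1 : ℤ) : ℂ)) = -1 / (6 * (-1 / (6 * z) - 1)) := by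
      have h1 : 6 * (-1 / (6 * z) - 1) = -(6 * z + 1) / z := by field_simp; ring
      rw [h1, div_div_eq_mul_div, neg_one_mul, neg_div_neg_eq]
      push_cast
      congr 1 <;> ring
    rw [e, h6 _ hw1, hTm _ hw, h6 z hz]
  have gU' : ∀ z : ℂ, 0 < z.im → R ((((1 : ℤ) : ℂ) * z + ((0 : ℤ) : ℂ)) /
      (6 * ((-1 : ℤ) : ℂ) * z + ((1 : ℤ) : ℂ))) = R z := by
    intro z hz
    obtain ⟨hz0, hw⟩ := CU1_w6 z hz
    have hw1 : 0 < (-1 / (6 * z) + 1).im := by rw [hp1]; exact hw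
    have e : (((1 : ℤ) : ℂ) * z + ((0 : ℤ) : ℂ)) /
      (6 * ((-1 : ℤ) : ℂ) * z + ((1 : ℤ) : ℂ)) = -1 / (6 * (-1 / (6 * z) + 1)) := by
      have h1 : 6 * (-1 / (6 * z) + 1) = -(-6 * z + 1) / z := by field_simp; ring
      rw [h1, div_div_eq_mul_div, neg_one_mul, neg_div_neg_eq]
      push_cast
      congr 1 <;> ring
    rw [e, h6 _ hw1, hT _ hw, h6 z hz]
  have gV : ∀ z : ℂ, 0 < z.im → R ((((7 : ℤ) : ℂ) * z + ((-3 : ℤ) : ℂ)) /
      (6 * ((2 : ℤ) : ℂ) * z + ((-5 : ℤ) : ℂ))) = R z := by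
    intro z hz
    obtain ⟨hz0, hw⟩ := CU1_w3 z hz
    have hD : (6 * ((2 : ℤ) : ℂ) * z + ((-5 : ℤ) : ℂ)) ≠ 0 := by
      have h := CU1_lin z hz 12 (-5) (by norm_num)
      have h' : ((12 : ℝ) : ℂ) * z + ((-5 : ℝ) : ℂ) = 6 * ((2 : ℤ) : ℂ) * z + ((-5 : ℤ) : ℂ) := by
        push_cast; ring
      rwa [h'] at h
    have hw1 : 0 < ((3 * z - 2) / (6 * z - 3) - 1).im := by rw [hm1]; exact hw
    obtain ⟨hD2, -⟩ := CU1_w3 _ hw1
    have e : (((7 : ℤ) : ℂ) * z + ((-3 : ℤ) : ℂ)) /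
      (6 * ((2 : ℤ) : ℂ) * z + ((-5 : ℤ) : ℂ)) =
        (3 * ((3 * z - 2) / (6 * z - 3) - 1) - 2) / (6 * ((3 * z - 2) / (6 * z - 3) - 1) - 3) := by
      rw [div_eq_div_iff hD hD2]
      have h1 : (3 * z - 2) / (6 * z - 3) * (6 * z - 3) = 3 * z - 2 := div_mul_cancel₀ _ hz0
      refine mul_right_cancel₀ hz0 ?_
      push_cast
      linear_combination (((7 : ℂ) * z - 3) * 6 - 3 * (12 * z - 5)) * h1
    rw [e, h3 _ hw1, hTm _ hw, h3 z hz]
  have gV' : ∀ z : ℂ, 0 < z.im → R ((((-5 : ℤ) : ℂ) * z + ((3 : ℤ) : ℂ)) /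
      (6 * ((-2 : ℤ) : ℂ) * z + ((7 : ℤ) : ℂ))) = R z := by
    intro z hz
    obtain ⟨hz0, hw⟩ := CU1_w3 z hz
    have hD : (6 * ((-2 : ℤ) : ℂ) * z + ((7 : ℤ) : ℂ)) ≠ 0 := by
      have h := CU1_lin z hz (-12) 7 (by norm_num)
      have h' : ((-12 : ℝ) : ℂ) * z + ((7 : ℝ) : ℂ) = 6 * ((-2 : ℤ) : ℂ) * z + ((7 : ℤ) : ℂ) := by
        push_cast; ring
      rwa [h'] at h
    have hw1 : 0 < ((3 * z - 2) / (6 * z - 3) + 1).im := by rw [hp1]; exact hw
    obtain ⟨hD2, -⟩ := CU1_w3 _ hw1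
    have e : (((-5 : ℤ) : ℂ) * z + ((3 : ℤ) : ℂ)) /
      (6 * ((-2 : ℤ) : ℂ) * z + ((7 : ℤ) : ℂ)) =
        (3 * ((3 * z - 2) / (6 * z - 3) + 1) - 2) / (6 * ((3 * z - 2) / (6 * z - 3) + 1) - 3) := by
      rw [div_eq_div_iff hD hD2]
      have h1 : (3 * z - 2) / (6 * z - 3) * (6 * z - 3) = 3 * z - 2 := div_mul_cancel₀ _ hz0
      refine mul_right_cancel₀ hz0 ?_
      push_cast
      linear_combination (((-5 : ℂ) * z + 3) * 6 - 3 * (-12 * z + 7)) * h1
    rw [e, h3 _ hw1, hT _ hw, h3 z hz]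
  have key := gamma_induction
    (fun a b c d ↦ a * d - 6 * b * c = 1 ∧
      ∀ z : ℂ, 0 < z.im → R ((a * z + b) / (6 * c * z + d)) = R z)
    ⟨by norm_num, fun z hz ↦ by
      have e : (((1 : ℤ) : ℂ) * z + ((0 : ℤ) : ℂ)) /
        (6 * ((0 : ℤ) : ℂ) * z + ((1 : ℤ) : ℂ)) = z := by push_cast; ring
      rw [e]⟩
    (fun a b c d h ↦ ⟨by rw [← h.1]; ring, fun z hz ↦ by
      have e : (((-a : ℤ) : ℂ) * z + ((-b : ℤ) : ℂ)) /
        (6 * ((-c : ℤ) : ℂ) * z + ((-d : ℤ) : ℂ)) = (a * z + b) / (6 * c * z + d) := by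
        rw [← neg_div_neg_eq ((a : ℂ) * z + b)]
        push_cast
        congr 1 <;> ring
      rw [e, h.2 z hz]⟩)
    (fun a b c d h ↦ CU1_step R 1 1 0 1 (by norm_num) gT a b c d h _ _ _ _ (by ring) (by ring)
      (by ring) (by ring))
    (fun a b c d h ↦ CU1_step R 1 (-1) 0 1 (by norm_num) gT' a b c d h _ _ _ _ (by ring)
      (by ring) (by ring) (by ring))
    (fun a b c d h ↦ CU1_step R 1 0 1 1 (by norm_num) gU a b c d h _ _ _ _ (by ring) (by ring)
      (by ring) (by ring))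
    (fun a b c d h ↦ CU1_step R 1 0 (-1) 1 (by norm_num) gU' a b c d h _ _ _ _ (by ring)
      (by ring) (by ring) (by ring))
    (fun a b c d h ↦ CU1_step R 7 (-3) 2 (-5) (by norm_num) gV a b c d h _ _ _ _ (by ring)
      (by ring) (by ring) (by ring))
    (fun a b c d h ↦ CU1_step R (-5) 3 (-2) 7 (by norm_num) gV' a b c d h _ _ _ _ (by ring)
      (by ring) (by ring) (by ring))
  exact fun a b c d hdet z hz ↦ (key a b c d hdet).2 z hz
/- END CU1 -/

/- MODULE CU2 -/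
private theorem CU2_cop {e a c : ℤ} (h1 : IsCoprime e c) (h2 : IsCoprime a c) :
    ∃ D B : ℤ, e * a * D - B * c = 1 := by
  obtain ⟨u, v, h⟩ := h1.mul_left h2
  exact ⟨u, -v, by linear_combination h⟩

private theorem CU2_im {z : ℂ} (hz : 0 < z.im) (β : ℤ) {e : ℝ} (he : 0 < e) :
    0 < ((z + β) / (e : ℂ)).im := by
  have h1 : ((z + β) / (e : ℂ)).im = z.im / e := by
    rw [Complex.div_ofReal_im, Complex.add_im, Complex.intCast_im, add_zero]
  rw [h1]
  positivity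

/-- Every matrix of `SL_2(ℤ)` is a matrix of Atkin-Lehner type `e` times `(1 β; 0 e)`.
PROOF: `g = gcd(c, 6)`, `e = 6/g`. `gcd(e a, c) = 1` because `gcd(a, c) = 1` and `gcd(e, c) = 1`
(`6` is squarefree). Choose `A' D' ...`: the first column `(e a, e c)`, `e c = 6 (c/g)`, and `D, B`
with `e a D - c B = 1`: `W = (e a, B; e c, e D)`; `W⁻¹ (a b; c d) = (1/e) (1, β; 0, e)`,
`β = e D b - B d`. For `e = 1, 3, 2, 6` write `W = γ W_e` with `γ ∈ Γ_0(6)` as in `f_three`,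
`f_two`, `f_six`. -/
theorem decomp (a b c d : ℤ) (h : a * d - b * c = 1) :
    ∃ (a' b' c' d' β : ℤ), a' * d' - 6 * b' * c' = 1 ∧
      ((∀ z : ℂ, 0 < z.im → (a * z + b) / (c * z + d) =
          (a' * (z + β) + b') / (6 * c' * (z + β) + d')) ∨
       (∀ z : ℂ, 0 < z.im → ∃ w : ℂ, w = (2 * ((z + β) / 2) - 1) / (6 * ((z + β) / 2) - 2) ∧
          0 < w.im ∧ (a * z + b) / (c * z + d) = (a' * w + b') / (6 * c' * w + d')) ∨
       (∀ z : ℂ, 0 < z.im → ∃ w : ℂ, w = (3 * ((z + β) / 3) - 2) / (6 * ((z + β) / 3) - 3) ∧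
          0 < w.im ∧ (a * z + b) / (c * z + d) = (a' * w + b') / (6 * c' * w + d')) ∨
       (∀ z : ℂ, 0 < z.im → ∃ w : ℂ, w = -1 / (6 * ((z + β) / 6)) ∧
          0 < w.im ∧ (a * z + b) / (c * z + d) = (a' * w + b') / (6 * c' * w + d'))) := by
  have hac : IsCoprime a c := ⟨d, -b, by linear_combination h⟩
  have hC : (a : ℂ) * d - b * c = 1 := by exact_mod_cast h
  have h23 : (∃ k, c = 6 * k) ∨ (∃ k, c = 3 * k ∧ IsCoprime 2 c) ∨
      (∃ k, c = 2 * k ∧ IsCoprime 3 c) ∨ (IsCoprime 2 c ∧ IsCoprime 3 c) := by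
    have e2 : c % 2 = 1 → IsCoprime 2 c := fun h => ⟨-(c / 2), 1, by omega⟩
    have e3 : c % 3 = 1 → IsCoprime 3 c := fun h => ⟨-(c / 3), 1, by omega⟩
    have e3' : c % 3 = 2 → IsCoprime 3 c := fun h => ⟨c / 3 + 1, -1, by omega⟩
    by_cases h2 : c % 2 = 0
    · by_cases h3 : c % 3 = 0
      · exact Or.inl ⟨c / 6, by omega⟩
      · refine Or.inr (Or.inr (Or.inl ⟨c / 2, by omega, ?_⟩))
        rcases (by omega : c % 3 = 1 ∨ c % 3 = 2) with h | h
        · exact e3 h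
        · exact e3' h
    · by_cases h3 : c % 3 = 0
      · exact Or.inr (Or.inl ⟨c / 3, by omega, e2 (by omega)⟩)
      · refine Or.inr (Or.inr (Or.inr ⟨e2 (by omega), ?_⟩))
        rcases (by omega : c % 3 = 1 ∨ c % 3 = 2) with h | h
        · exact e3 h
        · exact e3' h
  rcases h23 with ⟨k, hk⟩ | ⟨k, hk, h2⟩ | ⟨k, hk, h3⟩ | ⟨h2, h3⟩
  · refine ⟨a, b, k, d, 0, by rw [← h, hk]; ring, Or.inl fun z hz => ?_⟩
    rw [hk]
    push_cast
    rw [add_zero]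
  · obtain ⟨D, B, hDB⟩ := CU2_cop h2 hac
    have hD : 2 * (a : ℂ) * D - B * c = 1 := by exact_mod_cast hDB
    have hkC : (c : ℂ) = 3 * k := by exact_mod_cast hk
    refine ⟨-2 * a - 3 * B, a + B, -(k + D), c + 2 * D, 2 * D * b - B * d, ?_,
      Or.inr (Or.inl fun z hz => ⟨_, rfl, ?_, ?_⟩)⟩
    · linear_combination hDB - 2 * (a + B) * hk
    · have h4 := (moeb_im_int 2 (-1) 6 (-2) (by norm_num) _
        (CU2_im hz (2 * D * b - B * d) (e := 2) (by norm_num))).2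
      push_cast at h4 ⊢
      simpa only [sub_eq_add_neg] using h4
    · obtain ⟨u, hu⟩ : ∃ u, u = (z + ((2 * D * b - B * d : ℤ) : ℂ)) / 2 := ⟨_, rfl⟩
      have hui : 0 < u.im := by
        rw [hu]
        have := CU2_im hz (2 * D * b - B * d) (e := 2) (by norm_num)
        push_cast at this ⊢
        exact this
      rw [← hu]
      have hS : 6 * u - 2 ≠ 0 := by
        have := (moeb_im_int 2 (-1) 6 (-2) (by norm_num) _ hui).1
        push_cast at this
        simpa only [sub_eq_add_neg] using this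
      have hzu : z = 2 * u - (2 * D * b - B * d) := by
        rw [hu]
        push_cast
        ring
      have e1 : ((-2 * a - 3 * B : ℤ) : ℂ) * ((2 * u - 1) / (6 * u - 2)) + ((a + B : ℤ) : ℂ) =
          (a * z + b) / (6 * u - 2) := by
        rw [eq_div_iff hS, add_mul, mul_assoc, div_mul_cancel₀ _ hS, hzu]
        push_cast
        linear_combination b * hD - B * hC
      have e2 : 6 * ((-(k + D) : ℤ) : ℂ) * ((2 * u - 1) / (6 * u - 2)) + ((c + 2 * D : ℤ) : ℂ) =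
          (c * z + d) / (6 * u - 2) := by
        rw [eq_div_iff hS, add_mul, mul_assoc, div_mul_cancel₀ _ hS, hzu]
        push_cast
        linear_combination d * hD - 2 * D * hC + (4 * u - 2) * hkC
      rw [e1, e2, div_div_div_cancel_right₀ hS]
  · obtain ⟨D, B, hDB⟩ := CU2_cop h3 hac
    have hD : 3 * (a : ℂ) * D - B * c = 1 := by exact_mod_cast hDB
    have hkC : (c : ℂ) = 2 * k := by exact_mod_cast hk
    refine ⟨-3 * a - 2 * B, 2 * a + B, -(k + D), 2 * c + 3 * D, 3 * D * b - B * d, ?_,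
      Or.inr (Or.inr (Or.inl fun z hz => ⟨_, rfl, ?_, ?_⟩))⟩
    · linear_combination hDB - 3 * (2 * a + B) * hk
    · have h4 := (moeb_im_int 3 (-2) 6 (-3) (by norm_num) _
        (CU2_im hz (3 * D * b - B * d) (e := 3) (by norm_num))).2
      push_cast at h4 ⊢
      simpa only [sub_eq_add_neg] using h4
    · obtain ⟨u, hu⟩ : ∃ u, u = (z + ((3 * D * b - B * d : ℤ) : ℂ)) / 3 := ⟨_, rfl⟩
      have hui : 0 < u.im := by
        rw [hu]
        have := CU2_im hz (3 * D * b - B * d) (e := 3) (by norm_num)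
        push_cast at this ⊢
        exact this
      rw [← hu]
      have hS : 6 * u - 3 ≠ 0 := by
        have := (moeb_im_int 3 (-2) 6 (-3) (by norm_num) _ hui).1
        push_cast at this
        simpa only [sub_eq_add_neg] using this
      have hzu : z = 3 * u - (3 * D * b - B * d) := by
        rw [hu]
        push_cast
        ring
      have e1 : ((-3 * a - 2 * B : ℤ) : ℂ) * ((3 * u - 2) / (6 * u - 3)) +
          ((2 * a + B : ℤ) : ℂ) = (a * z + b) / (6 * u - 3) := by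
        rw [eq_div_iff hS, add_mul, mul_assoc, div_mul_cancel₀ _ hS, hzu]
        push_cast
        linear_combination b * hD - B * hC
      have e2 : 6 * ((-(k + D) : ℤ) : ℂ) * ((3 * u - 2) / (6 * u - 3)) +
          ((2 * c + 3 * D : ℤ) : ℂ) = (c * z + d) / (6 * u - 3) := by
        rw [eq_div_iff hS, add_mul, mul_assoc, div_mul_cancel₀ _ hS, hzu]
        push_cast
        linear_combination d * hD - 3 * D * hC + (9 * u - 6) * hkC
      rw [e1, e2, div_div_div_cancel_right₀ hS]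
  · obtain ⟨D, B, hDB⟩ := CU2_cop (e := 6) (by
      have := h2.mul_left h3
      norm_num at this
      exact this) hac
    have hD : 6 * (a : ℂ) * D - B * c = 1 := by exact_mod_cast hDB
    refine ⟨-B, a, -D, c, 6 * D * b - B * d, ?_,
      Or.inr (Or.inr (Or.inr fun z hz => ⟨_, rfl, ?_, ?_⟩))⟩
    · linear_combination hDB
    · have h4 := (moeb_im_int 0 (-1) 6 0 (by norm_num) _
        (CU2_im hz (6 * D * b - B * d) (e := 6) (by norm_num))).2
      push_cast at h4 ⊢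
      simpa only [zero_mul, zero_add, add_zero] using h4
    · obtain ⟨u, hu⟩ : ∃ u, u = (z + ((6 * D * b - B * d : ℤ) : ℂ)) / 6 := ⟨_, rfl⟩
      have hui : 0 < u.im := by
        rw [hu]
        have := CU2_im hz (6 * D * b - B * d) (e := 6) (by norm_num)
        push_cast at this ⊢
        exact this
      rw [← hu]
      have hS : 6 * u ≠ 0 := by
        have := (moeb_im_int 0 (-1) 6 0 (by norm_num) _ hui).1
        push_cast at this
        simpa only [add_zero] using this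
      have hzu : z = 6 * u - (6 * D * b - B * d) := by
        rw [hu]
        push_cast
        ring
      have e1 : ((-B : ℤ) : ℂ) * (-1 / (6 * u)) + (a : ℂ) = (a * z + b) / (6 * u) := by
        rw [eq_div_iff hS, add_mul, mul_assoc, div_mul_cancel₀ _ hS, hzu]
        push_cast
        linear_combination b * hD - B * hC
      have e2 : 6 * ((-D : ℤ) : ℂ) * (-1 / (6 * u)) + (c : ℂ) = (c * z + d) / (6 * u) := by
        rw [eq_div_iff hS, add_mul, mul_assoc, div_mul_cancel₀ _ hS, hzu]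
        push_cast
        linear_combination d * hD - 6 * D * hC
      rw [e1, e2, div_div_div_cancel_right₀ hS]
/- END CU2 -/

/- MODULE CU3 -/
/-- PROOF: `decomp`, `Inv`, and `Im ((z + β)/e) = Im z / e → ∞`. -/
theorem bdd_all (R : ℂ → ℂ) (hinv : Inv R) (h1 : Bdd R)
    (h2 : Bdd fun z ↦ R ((2 * z - 1) / (6 * z - 2)))
    (h3 : Bdd fun z ↦ R ((3 * z - 2) / (6 * z - 3))) (h6 : Bdd fun z ↦ R (-1 / (6 * z)))
    (a b c d : ℤ) (h : a * d - b * c = 1) : Bdd fun z ↦ R ((a * z + b) / (c * z + d)) := by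
  obtain ⟨a', b', c', d', β, hdet, hh⟩ := decomp a b c d h
  have him : ∀ (z : ℂ) (k : ℝ), 0 < k → ((z + β) / (k : ℂ)).im = z.im / k := by
    intro z k hk
    rw [Complex.div_ofReal_im, Complex.add_im, Complex.intCast_im, add_zero]
  rcases hh with hh | hh | hh | hh
  · obtain ⟨C, Y, hC⟩ := h1
    refine ⟨C, Y, fun z hz hY ↦ ?_⟩
    have e1 : (z + β : ℂ).im = z.im := by
      rw [Complex.add_im, Complex.intCast_im, add_zero]
    show ‖R ((a * z + b) / (c * z + d))‖ ≤ C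
    rw [hh z hz, hinv a' b' c' d' hdet (z + β) (by rw [e1]; exact hz)]
    exact hC _ (by rw [e1]; exact hz) (by rw [e1]; exact hY)
  · obtain ⟨C, Y, hC⟩ := h2
    refine ⟨C, 2 * Y, fun z hz hY ↦ ?_⟩
    obtain ⟨w, hw, hw0, hw1⟩ := hh z hz
    have e1 := him z 2 (by norm_num)
    have e2 : ((2 : ℝ) : ℂ) = 2 := by norm_num
    rw [e2] at e1
    show ‖R ((a * z + b) / (c * z + d))‖ ≤ C
    rw [hw1, hinv a' b' c' d' hdet w hw0, hw]
    exact hC ((z + β) / 2) (by rw [e1]; positivity) (by rw [e1]; linarith)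
  · obtain ⟨C, Y, hC⟩ := h3
    refine ⟨C, 3 * Y, fun z hz hY ↦ ?_⟩
    obtain ⟨w, hw, hw0, hw1⟩ := hh z hz
    have e1 := him z 3 (by norm_num)
    have e2 : ((3 : ℝ) : ℂ) = 3 := by norm_num
    rw [e2] at e1
    show ‖R ((a * z + b) / (c * z + d))‖ ≤ C
    rw [hw1, hinv a' b' c' d' hdet w hw0, hw]
    exact hC ((z + β) / 3) (by rw [e1]; positivity) (by rw [e1]; linarith)
  · obtain ⟨C, Y, hC⟩ := h6
    refine ⟨C, 6 * Y, fun z hz hY ↦ ?_⟩
    obtain ⟨w, hw, hw0, hw1⟩ := hh z hz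
    have e1 := him z 6 (by norm_num)
    have e2 : ((6 : ℝ) : ℂ) = 6 := by norm_num
    rw [e2] at e1
    show ‖R ((a * z + b) / (c * z + d))‖ ≤ C
    rw [hw1, hinv a' b' c' d' hdet w hw0, hw]
    exact hC ((z + β) / 6) (by rw [e1]; positivity) (by rw [e1]; linarith)
/- END CU3 -/

/- MODULE CU4 -/
private theorem CU4_smul (g : SL(2, ℤ)) (τ : UpperHalfPlane) :
    ((g • τ : UpperHalfPlane) : ℂ) =
      (((g 0 0 : ℤ) : ℂ) * τ + ((g 0 1 : ℤ) : ℂ)) / (((g 1 0 : ℤ) : ℂ) * τ + ((g 1 1 : ℤ) : ℂ)) := by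
  rw [UpperHalfPlane.coe_specialLinearGroup_apply]
  simp

private theorem CU4_det (g : SL(2, ℤ)) : g 0 0 * g 1 1 - g 0 1 * g 1 0 = 1 := by
  have h1 := g.det_coe
  rwa [Matrix.det_fin_two] at h1

private theorem CU4_mem {g : SL(2, ℤ)} (hg : g ∈ CongruenceSubgroup.Gamma0 6) :
    ∃ k : ℤ, g 1 0 = 6 * k := by
  rw [CongruenceSubgroup.Gamma0_mem, ZMod.intCast_zmod_eq_zero_iff_dvd] at hg
  obtain ⟨k, hk⟩ := hg
  exact ⟨k, by simpa using hk⟩

/-- LIOUVILLE for `Γ_0(6)`. PROOF: define `F : ModularForm ((CongruenceSubgroup.Gamma0 6).map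
(Matrix.SpecialLinearGroup.mapGL ℝ)) 0` (an arithmetic group, instances in Mathlib) by
`F τ = R (τ : ℂ)`: slash invariance is `hinv`, holomorphy from `hR` (`UpperHalfPlane.mdifferentiable_iff`),
boundedness at the cusps: `Subgroup.IsArithmetic.isCusp_iff_isCusp_SL2Z`,
`OnePoint.isBoundedAt_iff_forall_SL2Z` and `hb`. Then `ModularForm.eq_const_of_weight_zero`. -/
theorem const_of_bdd' (R : ℂ → ℂ) (hR : DifferentiableOn ℂ R {z | 0 < z.im}) (hinv : Inv R)
    (hb : ∀ a b c d : ℤ, a * d - b * c = 1 → Bdd fun z ↦ R ((a * z + b) / (c * z + d))) :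
    ∃ k : ℂ, ∀ z : ℂ, 0 < z.im → R z = k := by
  let F : ModularForm ((CongruenceSubgroup.Gamma0 6).map
      (Matrix.SpecialLinearGroup.mapGL ℝ)) 0 :=
    { toFun := fun τ => R (τ : ℂ)
      slash_action_eq' := by
        rintro γ ⟨g, hg, rfl⟩
        obtain ⟨k, hk⟩ := CU4_mem hg
        funext τ
        have h1 := ModularForm.SL_slash_apply (k := 0) (f := fun τ : UpperHalfPlane => R (τ : ℂ))
          g τ
        rw [neg_zero, zpow_zero, mul_one] at h1
        refine h1.trans ?_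
        rw [CU4_smul, hk]
        have h2 := hinv (g 0 0) (g 0 1) k (g 1 1) (by
          have h3 := CU4_det g
          rw [hk] at h3
          linear_combination h3) (τ : ℂ) τ.im_pos
        push_cast
        exact h2
      holo' := by
        rw [UpperHalfPlane.mdifferentiable_iff]
        refine hR.congr fun z hz => ?_
        simp only [Function.comp_apply]
        rw [UpperHalfPlane.ofComplex_apply_of_im_pos hz]
        rfl
      bdd_at_cusps' := by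
        intro c hc
        rw [Subgroup.IsArithmetic.isCusp_iff_isCusp_SL2Z] at hc
        rw [OnePoint.isBoundedAt_iff_forall_SL2Z hc]
        intro g _
        obtain ⟨C, Y, hCY⟩ := hb (g 0 0) (g 0 1) (g 1 0) (g 1 1) (CU4_det g)
        rw [UpperHalfPlane.isBoundedAtImInfty_iff]
        refine ⟨C, Y, fun τ hτ => ?_⟩
        rw [ModularForm.SL_slash_apply, neg_zero, zpow_zero, mul_one, CU4_smul]
        exact hCY (τ : ℂ) τ.im_pos hτ }
  obtain ⟨k, hk⟩ := F.eq_const_of_weight_zero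
  exact ⟨k, fun z hz => congrFun hk ⟨z, hz⟩⟩
/- END CU4 -/

/-- Liouville, final form. -/
theorem const_of_bdd (R : ℂ → ℂ) (hR : DifferentiableOn ℂ R {z | 0 < z.im}) (hinv : Inv R)
    (h1 : Bdd R) (h2 : Bdd fun z ↦ R ((2 * z - 1) / (6 * z - 2)))
    (h3 : Bdd fun z ↦ R ((3 * z - 2) / (6 * z - 3))) (h6 : Bdd fun z ↦ R (-1 / (6 * z))) :
    ∃ k : ℂ, ∀ z : ℂ, 0 < z.im → R z = k :=
  const_of_bdd' R hR hinv (bdd_all R hinv h1 h2 h3 h6)

/- MODULE CU5 -/
private theorem CU5_im (a b c d : ℝ) (z : ℂ) (hz : (c : ℂ) * z + d ≠ 0) :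
    (((a : ℂ) * z + b) / ((c : ℂ) * z + d)).im = (a * d - b * c) * z.im / ‖(c : ℂ) * z + d‖ ^ 2 := by
  have h1 : ‖(c : ℂ) * z + d‖ ^ 2 = Complex.normSq ((c : ℂ) * z + d) := Complex.sq_norm _
  have h2 : Complex.normSq ((c : ℂ) * z + d) ≠ 0 := (Complex.normSq_pos.2 hz).ne'
  rw [h1, Complex.div_im]
  simp only [Complex.add_im, Complex.mul_im, Complex.ofReal_re, Complex.ofReal_im, Complex.add_re,
    Complex.mul_re, zero_mul, add_zero, sub_zero]
  rw [← sub_div]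
  congr 1
  ring

private theorem CU5_phi (a b c d : ℝ) (hdet : 0 < a * d - b * c) {z : ℂ} (hz : 0 < z.im)
    (h : ‖f (((a : ℂ) * z + b) / ((c : ℂ) * z + d))‖ =
      ‖(c : ℂ) * z + d‖ ^ 2 / (a * d - b * c) * ‖f z‖) :
    ‖f (((a : ℂ) * z + b) / ((c : ℂ) * z + d))‖ * (((a : ℂ) * z + b) / ((c : ℂ) * z + d)).im =
      ‖f z‖ * z.im := by
  have h1 := (moeb_im a b c d hdet z hz).1
  have h2 : ‖(c : ℂ) * z + d‖ ≠ 0 := norm_ne_zero_iff.2 h1
  rw [CU5_im a b c d z h1, h]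
  field_simp

private theorem CU5_one (a b c d : ℤ) (h : a * d - 6 * b * c = 1) {z : ℂ} (hz : 0 < z.im) :
    ‖f ((a * z + b) / (6 * c * z + d))‖ * (((a : ℂ) * z + b) / (6 * c * z + d)).im =
      ‖f z‖ * z.im := by
  have hR : (a : ℝ) * d - b * (6 * c) = 1 := by
    have : (a : ℝ) * d - 6 * b * c = 1 := by exact_mod_cast h
    linarith
  have h1 := CU5_phi (a : ℝ) b (6 * c) d (by rw [hR]; exact one_pos) hz (by
    rw [hR, div_one]
    push_cast
    rw [f_one a b c d h z hz, norm_mul, norm_mul, norm_zpow, norm_neg, norm_one, one_zpow,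
      one_mul, norm_pow])
  push_cast at h1
  exact h1

private theorem CU5_two {z : ℂ} (hz : 0 < z.im) :
    ‖f ((2 * z - 1) / (6 * z - 2))‖ * ((2 * z - 1) / (6 * z - 2)).im = ‖f z‖ * z.im := by
  have h1 := CU5_phi 2 (-1) 6 (-2) (by norm_num) hz (by
    push_cast
    rw [← sub_eq_add_neg, ← sub_eq_add_neg, f_W2 z hz, norm_mul, norm_neg, norm_div, norm_pow]
    norm_num)
  push_cast at h1
  rwa [← sub_eq_add_neg, ← sub_eq_add_neg] at h1

private theorem CU5_three {z : ℂ} (hz : 0 < z.im) :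
    ‖f ((3 * z - 2) / (6 * z - 3))‖ * ((3 * z - 2) / (6 * z - 3)).im = ‖f z‖ * z.im := by
  have h1 := CU5_phi 3 (-2) 6 (-3) (by norm_num) hz (by
    push_cast
    rw [← sub_eq_add_neg, ← sub_eq_add_neg, f_W3 z hz, norm_mul, norm_neg, norm_div, norm_pow]
    norm_num)
  push_cast at h1
  rwa [← sub_eq_add_neg, ← sub_eq_add_neg] at h1

private theorem CU5_six {z : ℂ} (hz : 0 < z.im) :
    ‖f (-1 / (6 * z))‖ * (-1 / (6 * z)).im = ‖f z‖ * z.im := by
  have h1 := CU5_phi 0 (-1) 6 0 (by norm_num) hz (by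
    push_cast
    have h6 : ‖(6 : ℂ)‖ = 6 := by norm_num
    rw [zero_mul, zero_add, add_zero, f_W6 z hz, norm_mul, norm_neg, norm_mul, norm_pow, norm_mul,
      h6]
    ring)
  push_cast at h1
  rwa [zero_mul, zero_add, add_zero] at h1

private theorem CU5_size : ∃ C : ℝ, ∀ z : ℂ, 1 ≤ z.im → ‖f z‖ * z.im ≤ C := by
  obtain ⟨_, C, _, hC, hs⟩ := f_size
  refine ⟨C, fun z hz => ?_⟩
  have h1 := (hs z hz).2
  have h2 : z.im * Real.exp (-(pi * z.im)) ≤ 1 := by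
    rw [Real.exp_neg, ← div_eq_mul_inv, div_le_one (Real.exp_pos _)]
    have h3 := Real.add_one_le_exp (pi * z.im)
    have h4 := Real.pi_gt_three
    nlinarith
  calc ‖f z‖ * z.im ≤ C * Real.exp (-(pi * z.im)) * z.im :=
        mul_le_mul_of_nonneg_right h1 (by linarith)
    _ = C * (z.im * Real.exp (-(pi * z.im))) := by ring
    _ ≤ C * 1 := mul_le_mul_of_nonneg_left h2 hC.le
    _ = C := mul_one C

/-- `|f(z)| Im z` is bounded. PROOF: the function `τ ↦ ‖f τ‖ * Im τ` on `ℍ` is continuous and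
invariant under `Γ_0(6)` by `f_one` (`Im(γ τ) = Im τ / |6cτ+d|^2`), and for each matrix of `SL_2(ℤ)`
bounded at infinity by `decomp`, `f_W2`, `f_W3`, `f_W6`, `f_size`
(`‖f (W_e w)‖ Im (W_e w) = ‖f w‖ Im w`, and `‖f w‖ Im w → 0` for `Im w → ∞`):
`ModularGroup.exists_bound_of_subgroup_invariant` (group
`(CongruenceSubgroup.Gamma0 6).map (mapGL ℝ)`). -/
theorem f_bound : ∃ C : ℝ, ∀ z : ℂ, 0 < z.im → ‖f z‖ * z.im ≤ C := by
  obtain ⟨C0, hC0⟩ := CU5_size
  have hcont : Continuous (fun τ : UpperHalfPlane => ‖f (τ : ℂ)‖ * (τ : ℂ).im) := by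
    have h1 : Continuous (fun τ : UpperHalfPlane => f (τ : ℂ)) :=
      differentiableOn_f.continuousOn.comp_continuous UpperHalfPlane.continuous_coe
        (fun τ => τ.im_pos)
    exact h1.norm.mul (Complex.continuous_im.comp UpperHalfPlane.continuous_coe)
  have hnn : ∀ z : ℂ, 0 < z.im → ‖‖f z‖ * z.im‖ = ‖f z‖ * z.im := fun z hz => by
    rw [Real.norm_eq_abs, abs_of_nonneg (mul_nonneg (norm_nonneg _) hz.le)]
  obtain ⟨C, hC⟩ := ModularGroup.exists_bound_of_subgroup_invariant hcont (by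
    intro g
    rw [UpperHalfPlane.isBoundedAtImInfty_iff]
    refine ⟨C0, 6, fun τ hτ => ?_⟩
    rw [CU4_smul]
    obtain ⟨a', b', c', d', β, hdet, hdec⟩ := decomp (g 0 0) (g 0 1) (g 1 0) (g 1 1) (CU4_det g)
    have him : ∀ e : ℝ, 0 < e → (((τ : ℂ) + (β : ℂ)) / (e : ℂ)).im = (τ : ℂ).im / e := by
      intro e he
      rw [Complex.div_ofReal_im, Complex.add_im, Complex.intCast_im, add_zero]
    have hτ' : 6 ≤ (τ : ℂ).im := hτ
    rcases hdec with hd | hd | hd | hd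
    · have h1 := him 1 one_pos
      rw [Complex.ofReal_one, div_one, div_one] at h1
      rw [hd τ τ.im_pos, CU5_one a' b' c' d' hdet (by rw [h1]; exact τ.im_pos),
        hnn _ (by rw [h1]; exact τ.im_pos)]
      exact hC0 _ (by rw [h1]; linarith)
    · obtain ⟨w, hw, hwi, he⟩ := hd τ τ.im_pos
      have h1 := him 2 (by norm_num)
      push_cast at h1
      have h2 : 0 < (((τ : ℂ) + (β : ℂ)) / 2).im := by rw [h1]; linarith
      rw [he, CU5_one a' b' c' d' hdet hwi, hw, CU5_two h2, hnn _ h2]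
      exact hC0 _ (by rw [h1]; linarith)
    · obtain ⟨w, hw, hwi, he⟩ := hd τ τ.im_pos
      have h1 := him 3 (by norm_num)
      push_cast at h1
      have h2 : 0 < (((τ : ℂ) + (β : ℂ)) / 3).im := by rw [h1]; linarith
      rw [he, CU5_one a' b' c' d' hdet hwi, hw, CU5_three h2, hnn _ h2]
      exact hC0 _ (by rw [h1]; linarith)
    · obtain ⟨w, hw, hwi, he⟩ := hd τ τ.im_pos
      have h1 := him 6 (by norm_num)
      push_cast at h1
      have h2 : 0 < (((τ : ℂ) + (β : ℂ)) / 6).im := by rw [h1]; linarith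
      rw [he, CU5_one a' b' c' d' hdet hwi, hw, CU5_six h2, hnn _ h2]
      exact hC0 _ (by rw [h1]; linarith))
    (Γ := (CongruenceSubgroup.Gamma0 6).map (Matrix.SpecialLinearGroup.mapGL ℝ)) (by
    rintro γ ⟨g, hg, rfl⟩ τ
    obtain ⟨k, hk⟩ := CU4_mem hg
    have h1 : (Matrix.SpecialLinearGroup.mapGL ℝ g) • τ = g • τ := rfl
    rw [h1, CU4_smul, hk]
    have h2 := CU5_one (g 0 0) (g 0 1) k (g 1 1) (by
      have h3 := CU4_det g
      rw [hk] at h3
      linear_combination h3) (z := (τ : ℂ)) τ.im_pos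
    push_cast
    exact h2)
  refine ⟨C, fun z hz => ?_⟩
  have h1 := hC ⟨z, hz⟩
  rw [hnn _ (UpperHalfPlane.im_pos _)] at h1
  exact h1
/- END CU5 -/

end Pool.Agent.NC
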