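import Mathlib

/-!
# Prime twists of a curve without complex multiplication: common definitions (MP_577099_nt)

`E D : y² = x (x - D) (x - 9 D)`, the quadratic twists of a curve of conductor `24`, and
`f = η(z) η(2z) η(3z) η(6z) = ∑ a(n) e^(π i n z)`.
-/

namespace Pool.Agent.NC

open scoped BigOperators PowerSeries
open PowerSeries (coeff X)

/-- The curve `y² = x (x - D) (x - 9 D)` over the rational numbers. -/
def E (D : ℤ) : WeierstrassCurve ℚ := ⟨0, -10 * (D : ℚ), 0, 9 * (D : ℚ) ^ 2, 0⟩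

/-- The conductor of `E D` for squarefree `D`. -/
def cond (D : ℤ) : ℕ :=
  (if D % 4 = 1 then 8 else 16) * (if 3 ∣ D then 1 else 3) * D.natAbs ^ 2

/-- The root number of `E D` for squarefree `D`. -/
def w (D : ℤ) : ℤ :=
  if 3 ∣ D then
    (if D % 4 = 1 then (if D.natAbs % 8 = 1 ∨ D.natAbs % 8 = 3 then 1 else -1)
      else if D % 4 = 3 then (if 0 < D then 1 else -1) else (if 0 < D then -1 else 1))
  else
    (if D % 4 = 1 then (if D.natAbs % 8 = 1 ∨ D.natAbs % 8 = 7 then 1 else -1) else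
      if D % 4 = 3 then 1 else -1) * (if D.natAbs % 3 = 1 then 1 else -1)

/-- The completed L-function of the curve `W` (with the number `C` in the place of the conductor)
extends to an entire function `Λ` with `Λ(s) = w Λ(1 - s)`. Here `W.LSeries` is the L-series of
mathlib (Euler product over all primes, local factors from the reductions of minimal models), and
`s ↦ W.LSeries (s + 1/2)` is the normalisation with critical strip centred at `1/2`. -/
def HasFE (W : WeierstrassCurve ℚ) (C : ℕ) (w : ℤ) : Prop :=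
  ∃ Λ : ℂ → ℂ, Differentiable ℂ Λ ∧
    (∀ s : ℂ, 1 < s.re → LSeriesSummable (fun n ↦ (W.LFunction n : ℂ)) (s + 1 / 2) ∧
      Λ s = (C : ℂ) ^ (s / 2) * (2 * (Real.pi : ℂ)) ^ (-s) * Complex.Gamma (s + 1 / 2) *
        W.LSeries (s + 1 / 2)) ∧
    ∀ s : ℂ, Λ s = w * Λ (1 - s)

/-! ### Formal power series over the integers -/

/-- Euler's product `∏ (1 - X^n)`, `n ≥ 1`. -/
noncomputable def eul : ℤ⟦X⟧ := PowerSeries.pentagonalSeries ℤ

/-- `∏ (1 - X^(d n))`. -/
noncomputable def e2 : ℤ⟦X⟧ := PowerSeries.expand 2 (by norm_num) eul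
/-- `∏ (1 - X^(3 n))`. -/
noncomputable def e3 : ℤ⟦X⟧ := PowerSeries.expand 3 (by norm_num) eul
/-- `∏ (1 - X^(6 n))`. -/
noncomputable def e6 : ℤ⟦X⟧ := PowerSeries.expand 6 (by norm_num) eul

/-- `P = ∏ (1 - X^n) (1 - X^(2n)) (1 - X^(3n)) (1 - X^(6n))`, so that `f = e^(π i z) P(q)`. -/
noncomputable def P : ℤ⟦X⟧ := eul * e2 * e3 * e6

/-- `H = ∏ (1 - X^n)^5 (1 - X^(3n)) / ((1 - X^(2n)) (1 - X^(6n))^5)`, so that the Hauptmodul is
`h = q⁻¹ H(q)`. -/
noncomputable def H : ℤ⟦X⟧ := eul ^ 5 * e3 * PowerSeries.invOfUnit (e2 * e6 ^ 5) 1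

/-- `X d/dX`. -/
noncomputable def th (φ : ℤ⟦X⟧) : ℤ⟦X⟧ := X * PowerSeries.derivative ℤ φ

/-- `G = q h' / h`, given by its coefficients: `-1` at `0` and
`- 5 σ(n) + 2 σ(n/2) - 3 σ(n/3) + 30 σ(n/6)` at `n ≥ 1` (where `σ(x) = 0` if `x` is not an
integer). -/
noncomputable def G : ℤ⟦X⟧ := PowerSeries.mk fun n ↦
  if n = 0 then -1 else
    -5 * (ArithmeticFunction.sigma 1 n : ℤ) +
      2 * (if 2 ∣ n then (ArithmeticFunction.sigma 1 (n / 2) : ℤ) else 0) -
      3 * (if 3 ∣ n then (ArithmeticFunction.sigma 1 (n / 3) : ℤ) else 0) +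
      30 * (if 6 ∣ n then (ArithmeticFunction.sigma 1 (n / 6) : ℤ) else 0)

/-- The coefficients of `f = ∑ a(n) e^(π i n z)`. -/
noncomputable def a (n : ℕ) : ℤ := if Odd n then coeff ((n - 1) / 2) P else 0

/-- The coefficients of the L-series of `E D`. -/
noncomputable def A (D : ℤ) (n : ℕ) : ℤ := jacobiSym D n * a n

/-! ### Functions on the upper half plane -/

/-- `f(z) = η(z) η(2z) η(3z) η(6z)`. -/
noncomputable def f (z : ℂ) : ℂ :=
  ModularForm.eta z * ModularForm.eta (2 * z) * ModularForm.eta (3 * z) * ModularForm.eta (6 * z)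

/-- The Hauptmodul `h(z) = η(z)^5 η(3z) / (η(2z) η(6z)^5)`. -/
noncomputable def h (z : ℂ) : ℂ :=
  ModularForm.eta z ^ 5 * ModularForm.eta (3 * z) /
    (ModularForm.eta (2 * z) * ModularForm.eta (6 * z) ^ 5)

/-- Number of affine points of `y² = x (x - 1) (x - 9)` modulo `p`. -/
noncomputable def cnt (p : ℕ) : ℕ :=
  Nat.card {P : ZMod p × ZMod p // P.2 ^ 2 = P.1 * (P.1 - 1) * (P.1 - 9)}

end Pool.Agent.NC
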