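import Pool.Agent.NC.Defs

/-!
# Basic facts on the eta function, on `f` and on `h`
-/

namespace Pool.Agent.NC

open scoped BigOperators
open ModularForm (eta)
open Complex (I exp)
open Real (pi)

/- MODULE ET1 -/
/-- The eta function under `z ↦ z + 1`. PROOF: by definition `eta z = 𝕢 24 z * ∏' n, (1 - eta_q n z)`
(`ModularForm.eta`, `ModularForm.eta_q_eq_cexp`); `eta_q n (z + 1) = eta_q n z` because
`exp (2 π i (n + 1)) = 1`, and `Function.Periodic.qParam 24 (z + 1) = exp (2 π i (z + 1) / 24)`. -/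
theorem eta_add_one (z : ℂ) : eta (z + 1) = exp (pi * I / 12) * eta z := by
  have h1 : Function.Periodic.qParam 1 (z + 1) = Function.Periodic.qParam 1 z := by
    unfold Function.Periodic.qParam
    have e : 2 * (pi : ℂ) * I * (z + 1) / ((1 : ℝ) : ℂ) =
        2 * (pi : ℂ) * I * z / ((1 : ℝ) : ℂ) + 2 * pi * I := by
      push_cast; ring
    rw [e, Complex.exp_add, Complex.exp_two_pi_mul_I, mul_one]
  have h2 : Function.Periodic.qParam 24 (z + 1) =
      exp (pi * I / 12) * Function.Periodic.qParam 24 z := by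
    unfold Function.Periodic.qParam
    rw [← Complex.exp_add]
    congr 1
    push_cast
    ring
  have h3 : ∀ n, ModularForm.eta_q n (z + 1) = ModularForm.eta_q n z := by
    intro n
    show Function.Periodic.qParam 1 (z + 1) ^ (n + 1) = Function.Periodic.qParam 1 z ^ (n + 1)
    rw [h1]
  unfold eta
  rw [h2, tprod_congr fun n => by rw [h3 n], mul_assoc]
/- END ET1 -/

/- MODULE ET2 -/
/-- Positivity of the imaginary part. PROOF: `Im((az+b)/(cz+d)) = (ad - bc) Im z / |cz+d|²`
(write out `Complex.div_im` or multiply numerator and denominator by the conjugate). -/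
theorem moeb_im (a b c d : ℝ) (h : 0 < a * d - b * c) (z : ℂ) (hz : 0 < z.im) :
    (c : ℂ) * z + d ≠ 0 ∧ 0 < (((a : ℂ) * z + b) / ((c : ℂ) * z + d)).im := by
  have hne : (c : ℂ) * z + d ≠ 0 := by
    intro h0
    have him := congrArg Complex.im h0
    have hre := congrArg Complex.re h0
    simp at him hre
    rcases him with hc | hc
    · rw [hc] at hre h
      simp at hre
      rw [hre] at h
      simp at h
    · exact hz.ne' hc
  refine ⟨hne, ?_⟩
  have hN : 0 < Complex.normSq ((c : ℂ) * z + d) := Complex.normSq_pos.2 hne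
  have key : (((a : ℂ) * z + b) / ((c : ℂ) * z + d)).im =
      (a * d - b * c) * z.im / Complex.normSq ((c : ℂ) * z + d) := by
    rw [Complex.div_im]
    simp only [Complex.add_im, Complex.mul_im, Complex.ofReal_re, Complex.ofReal_im,
      Complex.add_re, Complex.mul_re]
    field_simp
    ring
  rw [key]
  positivity

/-- The same for integer entries. -/
theorem moeb_im_int (a b c d : ℤ) (h : 0 < a * d - b * c) (z : ℂ) (hz : 0 < z.im) :
    (c : ℂ) * z + d ≠ 0 ∧ 0 < (((a : ℂ) * z + b) / ((c : ℂ) * z + d)).im := by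
  have h1 : 0 < (a : ℝ) * d - b * c := by exact_mod_cast h
  have h2 := moeb_im a b c d h1 z hz
  push_cast at h2
  exact h2
/- END ET2 -/

/- MODULE ET3 -/
/-- `Δ = η^24` is modular. PROOF: `CuspForm.discriminant : CuspForm 𝒮ℒ 12` (or
`SlashInvariantForm.slash_action_generators_SL2Z` with `ModularForm.discriminant_S_invariant`,
`ModularForm.discriminant_T_invariant`) gives `Δ ∣[12] γ = Δ` for every `γ : SL(2, ℤ)`; evaluate at
`⟨z, hz⟩ : ℍ` with `ModularForm.SL_slash_apply`, `UpperHalfPlane.specialLinearGroup_apply`;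
`Δ z = (eta z)^24` by definition of `ModularForm.discriminant`. -/
theorem eta24 (a b c d : ℤ) (h : a * d - b * c = 1) (z : ℂ) (hz : 0 < z.im) :
    eta ((a * z + b) / (c * z + d)) ^ 24 = (c * z + d) ^ 12 * eta z ^ 24 := by
  set γ : Matrix.SpecialLinearGroup (Fin 2) ℤ := ⟨!![a, b; c, d], by
    rw [Matrix.det_fin_two_of]; exact h⟩ with hγ
  have h1 := SlashInvariantForm.slash_action_generators_SL2Z
    ModularForm.discriminant_S_invariant ModularForm.discriminant_T_invariant γ
  have h2 := congrFun h1 (⟨z, hz⟩ : UpperHalfPlane)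
  rw [ModularForm.SL_slash_apply] at h2
  have h3 : ((γ • (⟨z, hz⟩ : UpperHalfPlane) : UpperHalfPlane) : ℂ) =
      (a * z + b) / (c * z + d) := by
    rw [UpperHalfPlane.specialLinearGroup_apply]
    simp [hγ]
  have h4 : UpperHalfPlane.denom γ (⟨z, hz⟩ : UpperHalfPlane) = c * z + d := by
    exact ModularGroup.denom_apply _ _
  have h5 : (c : ℂ) * z + d ≠ 0 := by
    rw [← h4]
    exact UpperHalfPlane.denom_ne_zero _ _
  rw [ModularForm.discriminant, ModularForm.discriminant, h3, h4] at h2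
  change eta ((a * z + b) / (c * z + d)) ^ 24 * (c * z + d) ^ (-12 : ℤ) = eta z ^ 24 at h2
  have h6 : ((c : ℂ) * z + d) ^ (-12 : ℤ) = (((c : ℂ) * z + d) ^ 12)⁻¹ := by
    rw [zpow_neg]
    rfl
  rw [h6] at h2
  rw [← h2, mul_left_comm, mul_inv_cancel₀ (pow_ne_zero 12 h5), mul_one]
/- END ET3 -/

/- MODULE ET4 -/
/-- Size of the eta function in a half plane `Im z ≥ 1`. PROOF: `‖𝕢 24 z‖ = exp (-2 π Im z / 24)`
(`Function.Periodic.norm_qParam`), and `Q(q) = ∏' (1 - q^(n+1))` is continuous and has no zero on the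
compact disc `‖q‖ ≤ exp (-2 π)` (`ModularForm.differentiableOn_tprod_one_sub_pow`,
`ModularForm.eta_tprod_ne_zero`, at `q = 0` the product is `1`), so it is bounded above and below in
absolute value; or directly `1/2 ≤ ∏ (1 - r^n)` and `∏ (1 + r^n) ≤ 2`. -/
theorem eta_size : ∃ c C : ℝ, 0 < c ∧ 0 < C ∧ ∀ z : ℂ, 1 ≤ z.im →
    c * Real.exp (-(pi * z.im / 12)) ≤ ‖eta z‖ ∧ ‖eta z‖ ≤ C * Real.exp (-(pi * z.im / 12)) := by
  set F : ℂ → ℂ := fun q => ∏' n : ℕ, (1 - q ^ (n + 1)) with hF
  set r : ℝ := Real.exp (-(2 * pi)) with hr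
  have hr1 : r < 1 := by
    rw [hr, Real.exp_lt_one_iff]
    have := Real.pi_pos
    linarith
  have hsub : Metric.closedBall (0 : ℂ) r ⊆ Metric.ball 0 1 :=
    Metric.closedBall_subset_ball hr1
  have hcont : ContinuousOn F (Metric.closedBall (0 : ℂ) r) :=
    (ModularForm.differentiableOn_tprod_one_sub_pow.continuousOn).mono hsub
  have hne : ∀ q ∈ Metric.closedBall (0 : ℂ) r, F q ≠ 0 := by
    intro q hq
    have hq1 : ‖q‖ < 1 := by simpa using hsub hq
    refine tprod_one_add_ne_zero_of_summable (f := fun n : ℕ => -q ^ (n + 1)) ?_ ?_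
    · intro i h1
      have h2 : q ^ (i + 1) = 1 := by linear_combination -h1
      have h3 : ‖q‖ ^ (i + 1) = 1 := by rw [← norm_pow, h2, norm_one]
      have h4 : ‖q‖ ^ (i + 1) < 1 := pow_lt_one₀ (norm_nonneg _) hq1 (by omega)
      linarith
    · simpa using (summable_nat_add_iff 1).mpr (summable_geometric_of_lt_one (norm_nonneg _) hq1)
  have hcpt : IsCompact (Metric.closedBall (0 : ℂ) r) := isCompact_closedBall 0 r
  have hnon : (Metric.closedBall (0 : ℂ) r).Nonempty :=
    ⟨0, Metric.mem_closedBall_self (Real.exp_pos _).le⟩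
  obtain ⟨q0, hq0, hmin⟩ := hcpt.exists_isMinOn hnon hcont.norm
  obtain ⟨q1, hq1, hmax⟩ := hcpt.exists_isMaxOn hnon hcont.norm
  refine ⟨‖F q0‖, ‖F q1‖, norm_pos_iff.2 (hne q0 hq0), norm_pos_iff.2 (hne q1 hq1), ?_⟩
  intro z hz
  have h1 : eta z = Function.Periodic.qParam 24 z * F (Function.Periodic.qParam 1 z) := rfl
  have h2 : ‖Function.Periodic.qParam 24 z‖ = Real.exp (-(pi * z.im / 12)) := by
    rw [Function.Periodic.norm_qParam]
    congr 1
    ring
  have h3 : Function.Periodic.qParam 1 z ∈ Metric.closedBall (0 : ℂ) r := by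
    rw [mem_closedBall_zero_iff, Function.Periodic.norm_qParam, hr, Real.exp_le_exp]
    have := Real.pi_pos
    nlinarith
  have h4 := isMinOn_iff.1 hmin _ h3
  have h5 := isMaxOn_iff.1 hmax _ h3
  rw [h1, norm_mul, h2, mul_comm (Real.exp _) ‖F _‖]
  exact ⟨mul_le_mul_of_nonneg_right h4 (Real.exp_pos _).le,
    mul_le_mul_of_nonneg_right h5 (Real.exp_pos _).le⟩
/- END ET4 -/

/- MODULE ET5 -/
/-- PROOF: `u` is holomorphic on the upper half plane and `u^24 = c ≠ 0`, so `24 u^23 u' = 0`,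
`u ≠ 0`, `u' = 0`, and `u` is constant on the convex open set `{0 < Im z}`
(`IsOpen.is_const_of_deriv_eq_zero` / `Convex.is_const_of_fderivWithin_eq_zero`). -/
theorem const_of_pow (u : ℂ → ℂ) (hu : DifferentiableOn ℂ u {z | 0 < z.im}) (c : ℂ) (hc : c ≠ 0)
    (h : ∀ z : ℂ, 0 < z.im → u z ^ 24 = c) : ∃ k : ℂ, k ^ 24 = c ∧ ∀ z : ℂ, 0 < z.im → u z = k := by
  have hopen : IsOpen {z : ℂ | 0 < z.im} := isOpen_lt continuous_const Complex.continuous_im
  have hconn : IsPreconnected {z : ℂ | 0 < z.im} := (convex_halfSpace_im_gt 0).isPreconnected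
  have hI : (0 : ℝ) < (I : ℂ).im := by simp
  have hd : Set.EqOn (deriv u) 0 {z : ℂ | 0 < z.im} := by
    intro z hz
    have h1 : HasDerivAt u (deriv u z) z := (hu.differentiableAt (hopen.mem_nhds hz)).hasDerivAt
    have h2 : HasDerivAt (fun z => u z ^ 24) (24 * u z ^ 23 * deriv u z) z := by
      have := h1.fun_pow 24
      simpa using this
    have h3 : HasDerivAt (fun z => u z ^ 24) 0 z := by
      apply (hasDerivAt_const z c).congr_of_eventuallyEq
      filter_upwards [hopen.mem_nhds hz] with y hy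
      exact h y hy
    have h4 := h2.unique h3
    have h5 : u z ≠ 0 := by
      intro h6
      have := h z hz
      rw [h6] at this
      exact hc (by rw [← this]; norm_num)
    have h6 : (24 : ℂ) * u z ^ 23 ≠ 0 := mul_ne_zero (by norm_num) (pow_ne_zero _ h5)
    exact (mul_eq_zero.1 h4).resolve_left h6
  refine ⟨u I, h I hI, fun z hz => ?_⟩
  exact hopen.is_const_of_deriv_eq_zero hconn hu hd hz hI
/- END ET5 -/

/- MODULE ET6 -/
private theorem et6_im (d : ℕ) (hd : 0 < d) (z : ℂ) (hz : 0 < z.im) : 0 < ((d : ℂ) * z).im := by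
  have h1 : ((d : ℂ) * z).im = d * z.im := by simp [Complex.mul_im]
  rw [h1]
  have h2 : (0 : ℝ) < d := by exact_mod_cast hd
  positivity

private theorem et6_ne (d : ℕ) (hd : 0 < d) (z : ℂ) (hz : 0 < z.im) : eta ((d : ℂ) * z) ≠ 0 :=
  ModularForm.eta_ne_zero (et6_im d hd z hz)

private theorem et6_diff (d : ℕ) (hd : 0 < d) :
    DifferentiableOn ℂ (fun z : ℂ => eta ((d : ℂ) * z)) {z | 0 < z.im} := by
  intro z hz
  apply DifferentiableAt.differentiableWithinAt
  have h1 : DifferentiableAt ℂ eta ((d : ℂ) * z) :=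
    ModularForm.differentiableAt_eta_of_mem_upperHalfPlaneSet (et6_im d hd z hz)
  exact h1.comp z (by fun_prop)

private theorem et6_diff1 : DifferentiableOn ℂ eta {z | 0 < z.im} := by
  intro z hz
  exact (ModularForm.differentiableAt_eta_of_mem_upperHalfPlaneSet hz).differentiableWithinAt

private theorem et6_addn (n : ℕ) (z : ℂ) : eta (z + n) = exp (n * (pi * I / 12)) * eta z := by
  induction n with
  | zero => simp
  | succ n ih =>
    rw [Nat.cast_succ, ← add_assoc, eta_add_one, ih, ← mul_assoc, ← Complex.exp_add]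
    congr 2
    ring

/-- PROOF: `ModularForm.eta_ne_zero`, `0 < Im (d z)`. -/
theorem f_ne_zero (z : ℂ) (hz : 0 < z.im) : f z ≠ 0 := by
  rw [f]
  have h2 := et6_ne 2 (by norm_num) z hz
  have h3 := et6_ne 3 (by norm_num) z hz
  have h6 := et6_ne 6 (by norm_num) z hz
  push_cast at h2 h3 h6
  exact mul_ne_zero (mul_ne_zero (mul_ne_zero (ModularForm.eta_ne_zero hz) h2) h3) h6

theorem h_ne_zero (z : ℂ) (hz : 0 < z.im) : h z ≠ 0 := by
  rw [h]
  have h2 := et6_ne 2 (by norm_num) z hz
  have h3 := et6_ne 3 (by norm_num) z hz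
  have h6 := et6_ne 6 (by norm_num) z hz
  push_cast at h2 h3 h6
  exact div_ne_zero (mul_ne_zero (pow_ne_zero _ (ModularForm.eta_ne_zero hz)) h3)
    (mul_ne_zero h2 (pow_ne_zero _ h6))

/-- PROOF: `ModularForm.differentiableAt_eta_of_mem_upperHalfPlaneSet`. -/
theorem differentiableOn_f : DifferentiableOn ℂ f {z | 0 < z.im} := by
  have h2 := et6_diff 2 (by norm_num)
  have h3 := et6_diff 3 (by norm_num)
  have h6 := et6_diff 6 (by norm_num)
  push_cast at h2 h3 h6
  exact ((et6_diff1.mul h2).mul h3).mul h6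

theorem differentiableOn_h : DifferentiableOn ℂ h {z | 0 < z.im} := by
  have h2 := et6_diff 2 (by norm_num)
  have h3 := et6_diff 3 (by norm_num)
  have h6 := et6_diff 6 (by norm_num)
  push_cast at h2 h3 h6
  refine ((et6_diff1.pow 5).mul h3).div (h2.mul (h6.pow 5)) ?_
  intro z hz
  have h2 := et6_ne 2 (by norm_num) z hz
  have h6 := et6_ne 6 (by norm_num) z hz
  push_cast at h2 h6
  exact mul_ne_zero h2 (pow_ne_zero _ h6)

/-- PROOF: four times `eta_add_one` (`eta (2 (z + 1)) = eta (2 z + 1 + 1)` ...), total factor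
`exp (12 π i / 12) = -1`. -/
theorem f_add_one (z : ℂ) : f (z + 1) = -f z := by
  have h2 : eta (2 * (z + 1)) = exp (2 * (pi * I / 12)) * eta (2 * z) := by
    have := et6_addn 2 (2 * z)
    push_cast at this
    rw [← this]
    congr 1
    ring
  have h3 : eta (3 * (z + 1)) = exp (3 * (pi * I / 12)) * eta (3 * z) := by
    have := et6_addn 3 (3 * z)
    push_cast at this
    rw [← this]
    congr 1
    ring
  have h6 : eta (6 * (z + 1)) = exp (6 * (pi * I / 12)) * eta (6 * z) := by
    have := et6_addn 6 (6 * z)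
    push_cast at this
    rw [← this]
    congr 1
    ring
  rw [f, f, eta_add_one, h2, h3, h6]
  have he : exp (pi * I / 12) * exp (2 * (pi * I / 12)) * exp (3 * (pi * I / 12)) *
      exp (6 * (pi * I / 12)) = -1 := by
    rw [← Complex.exp_add, ← Complex.exp_add, ← Complex.exp_add, ← Complex.exp_pi_mul_I]
    congr 1
    ring
  linear_combination (eta z * eta (2 * z) * eta (3 * z) * eta (6 * z)) * he

/-- PROOF: total exponent `5 + 3 - 2 - 30 = -24`, factor `exp (-24 π i / 12) = 1`. -/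
theorem h_add_one (z : ℂ) : h (z + 1) = h z := by
  have h2 : eta (2 * (z + 1)) = exp (2 * (pi * I / 12)) * eta (2 * z) := by
    have := et6_addn 2 (2 * z)
    push_cast at this
    rw [← this]
    congr 1
    ring
  have h3 : eta (3 * (z + 1)) = exp (3 * (pi * I / 12)) * eta (3 * z) := by
    have := et6_addn 3 (3 * z)
    push_cast at this
    rw [← this]
    congr 1
    ring
  have h6 : eta (6 * (z + 1)) = exp (6 * (pi * I / 12)) * eta (6 * z) := by
    have := et6_addn 6 (6 * z)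
    push_cast at this
    rw [← this]
    congr 1
    ring
  rw [h, h, eta_add_one, h2, h3, h6]
  set u := exp (pi * I / 12) with hu
  have e2 : exp (2 * (pi * I / 12)) = u ^ 2 := by rw [hu, ← Complex.exp_nat_mul]; norm_num
  have e3 : exp (3 * (pi * I / 12)) = u ^ 3 := by rw [hu, ← Complex.exp_nat_mul]; norm_num
  have e6 : exp (6 * (pi * I / 12)) = u ^ 6 := by rw [hu, ← Complex.exp_nat_mul]; norm_num
  have e24 : u ^ 24 = 1 := by
    rw [hu, ← Complex.exp_nat_mul, ← Complex.exp_two_pi_mul_I]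
    congr 1
    push_cast
    ring
  have hu0 : u ≠ 0 := Complex.exp_ne_zero _
  rw [e2, e3, e6]
  have hnum : (u * eta z) ^ 5 * (u ^ 3 * eta (3 * z)) = u ^ 8 * (eta z ^ 5 * eta (3 * z)) := by
    ring
  have hden : u ^ 2 * eta (2 * z) * (u ^ 6 * eta (6 * z)) ^ 5 =
      u ^ 8 * (eta (2 * z) * eta (6 * z) ^ 5) := by
    linear_combination (u ^ 8 * (eta (2 * z) * eta (6 * z) ^ 5)) * e24
  rw [hnum, hden, mul_div_mul_left _ _ (pow_ne_zero 8 hu0)]

/-- PROOF: four times `eta_size` (`Im (d z) ≥ 1`), `1 + 2 + 3 + 6 = 12`. -/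
theorem f_size : ∃ c C : ℝ, 0 < c ∧ 0 < C ∧ ∀ z : ℂ, 1 ≤ z.im →
    c * Real.exp (-(pi * z.im)) ≤ ‖f z‖ ∧ ‖f z‖ ≤ C * Real.exp (-(pi * z.im)) := by
  obtain ⟨c, C, hc, hC, hs⟩ := eta_size
  refine ⟨c ^ 4, C ^ 4, by positivity, by positivity, ?_⟩
  intro z hz
  have i2 : ((2 : ℂ) * z).im = 2 * z.im := by simp [Complex.mul_im]
  have i3 : ((3 : ℂ) * z).im = 3 * z.im := by simp [Complex.mul_im]
  have i6 : ((6 : ℂ) * z).im = 6 * z.im := by simp [Complex.mul_im]
  have s1 := hs z hz
  have s2 := hs (2 * z) (by rw [i2]; linarith)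
  have s3 := hs (3 * z) (by rw [i3]; linarith)
  have s6 := hs (6 * z) (by rw [i6]; linarith)
  rw [i2] at s2
  rw [i3] at s3
  rw [i6] at s6
  have hexp : Real.exp (-(pi * z.im / 12)) * Real.exp (-(pi * (2 * z.im) / 12)) *
      Real.exp (-(pi * (3 * z.im) / 12)) * Real.exp (-(pi * (6 * z.im) / 12)) =
      Real.exp (-(pi * z.im)) := by
    rw [← Real.exp_add, ← Real.exp_add, ← Real.exp_add]
    congr 1
    ring
  have hf : ‖f z‖ = ‖eta z‖ * ‖eta (2 * z)‖ * ‖eta (3 * z)‖ * ‖eta (6 * z)‖ := by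
    rw [f, norm_mul, norm_mul, norm_mul]
  rw [hf, ← hexp]
  constructor
  · calc c ^ 4 * (Real.exp (-(pi * z.im / 12)) * Real.exp (-(pi * (2 * z.im) / 12)) *
          Real.exp (-(pi * (3 * z.im) / 12)) * Real.exp (-(pi * (6 * z.im) / 12)))
        = (c * Real.exp (-(pi * z.im / 12))) * (c * Real.exp (-(pi * (2 * z.im) / 12))) *
          (c * Real.exp (-(pi * (3 * z.im) / 12))) * (c * Real.exp (-(pi * (6 * z.im) / 12))) := by
          ring
      _ ≤ ‖eta z‖ * ‖eta (2 * z)‖ * ‖eta (3 * z)‖ * ‖eta (6 * z)‖ := by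
          gcongr
          · exact s1.1
          · exact s2.1
          · exact s3.1
          · exact s6.1
  · calc ‖eta z‖ * ‖eta (2 * z)‖ * ‖eta (3 * z)‖ * ‖eta (6 * z)‖
        ≤ (C * Real.exp (-(pi * z.im / 12))) * (C * Real.exp (-(pi * (2 * z.im) / 12))) *
          (C * Real.exp (-(pi * (3 * z.im) / 12))) * (C * Real.exp (-(pi * (6 * z.im) / 12))) := by
          gcongr
          · exact s1.2
          · exact s2.2
          · exact s3.2
          · exact s6.2
      _ = C ^ 4 * (Real.exp (-(pi * z.im / 12)) * Real.exp (-(pi * (2 * z.im) / 12)) *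
          Real.exp (-(pi * (3 * z.im) / 12)) * Real.exp (-(pi * (6 * z.im) / 12))) := by
          ring
/- END ET6 -/

end Pool.Agent.NC
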