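import Pool.Agent.NC.Rep

/-!
# The Hecke operators
-/

namespace Pool.Agent.NC

open scoped BigOperators
open Complex (I exp)
open Real (pi)

/-- The Hecke operator `T_p`, `p` prime, not dividing `6`, on `f`. -/
noncomputable def Tp (p : ℕ) (z : ℂ) : ℂ :=
  (∑ j ∈ Finset.range p, f ((z + 2 * j) / p)) / p + p * f (p * z)

/- MODULE HK1 -/
private theorem HK1_root (p : ℕ) (hp : p.Prime) (n : ℕ) :
    ∑ j ∈ Finset.range p, exp (2 * pi * I * n * j / p) = if p ∣ n then (p : ℂ) else 0 := by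
  have hp0 : (p : ℂ) ≠ 0 := by exact_mod_cast hp.ne_zero
  have hpi : (2 * (pi : ℂ) * I) ≠ 0 := Complex.two_pi_I_ne_zero
  set ζ : ℂ := exp (2 * pi * I * n / p) with hζ
  have h1 : ∀ j ∈ Finset.range p, exp (2 * pi * I * n * j / p) = ζ ^ j := by
    intro j _
    rw [hζ, ← Complex.exp_nat_mul]
    congr 1
    ring
  rw [Finset.sum_congr rfl h1]
  split_ifs with h
  · obtain ⟨k, rfl⟩ := h
    have h2 : ζ = 1 := by
      rw [hζ, Complex.exp_eq_one_iff]
      refine ⟨k, ?_⟩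
      push_cast
      field_simp
    rw [h2]
    simp
  · have h2 : ζ ≠ 1 := by
      intro h3
      rw [hζ, Complex.exp_eq_one_iff] at h3
      obtain ⟨k, hk⟩ := h3
      have h4 : (n : ℂ) = k * p := by
        have h5 : (2 * (pi : ℂ) * I) * n = (2 * (pi : ℂ) * I) * (k * p) := by
          rw [div_eq_iff hp0] at hk
          rw [hk]
          ring
        exact mul_left_cancel₀ hpi h5
      have h6 : (n : ℤ) = k * p := by exact_mod_cast h4
      apply h
      have h7 : (p : ℤ) ∣ (n : ℤ) := ⟨k, by rw [h6]; ring⟩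
      exact_mod_cast h7
    have h3 : ζ ^ p = 1 := by
      rw [hζ, ← Complex.exp_nat_mul, Complex.exp_eq_one_iff]
      refine ⟨n, ?_⟩
      push_cast
      field_simp
    have h4 := mul_geom_sum ζ p
    rw [h3, sub_self] at h4
    rcases mul_eq_zero.1 h4 with h5 | h5
    · exact absurd (sub_eq_zero.1 h5) h2
    · exact h5

private theorem HK1_inj (p : ℕ) (hp : p.Prime) : Function.Injective (fun n : ℕ ↦ p * n) :=
  fun _ _ hxy ↦ Nat.eq_of_mul_eq_mul_left hp.pos hxy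


private theorem HK1_im (p : ℕ) (hp : p.Prime) (j : ℤ) (z : ℂ) (hz : 0 < z.im) :
    0 < ((z + 2 * (j : ℂ)) / p : ℂ).im := by
  have hpR : (0 : ℝ) < p := by exact_mod_cast hp.pos
  have h2 : ((z + 2 * (j : ℂ)) / p : ℂ) = ((1 / (p : ℝ) : ℝ) : ℂ) * (z + ((2 * (j : ℝ) : ℝ) : ℂ)) := by
    push_cast
    ring
  rw [h2, Complex.im_ofReal_mul, Complex.add_im, Complex.ofReal_im, add_zero]
  positivity

/-- PROOF: `hasSum_f` at `(z + 2j)/p` and `∑_j exp (2 π i n j / p) = p` or `0`; the sum over the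
multiples of `p` is reindexed. -/
theorem hasSum_Tp (p : ℕ) (hp : p.Prime) (z : ℂ) (hz : 0 < z.im) :
    HasSum (fun n : ℕ ↦ ((a (p * n) : ℂ) + p * (if p ∣ n then (a (n / p) : ℂ) else 0)) *
      exp (pi * I * n * z)) (Tp p z) := by
  have hp0 : (p : ℂ) ≠ 0 := by exact_mod_cast hp.ne_zero
  have hpR : (0 : ℝ) < p := by exact_mod_cast hp.pos
  have hinj := HK1_inj p hp
  -- the first part
  have h1 : HasSum (fun n : ℕ ↦ ∑ j ∈ Finset.range p,
      (a n : ℂ) * exp (pi * I * n * ((z + 2 * j) / p))) (∑ j ∈ Finset.range p, f ((z + 2 * j) / p)) :=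
    hasSum_sum fun j _ ↦ hasSum_f _ (by
      have := HK1_im p hp j z hz
      rwa [Int.cast_natCast] at this)
  have h2 := h1.div_const (p : ℂ)
  have h3 : HasSum (fun n : ℕ ↦ (a (p * n) : ℂ) * exp (pi * I * n * z))
      ((∑ j ∈ Finset.range p, f ((z + 2 * j) / p)) / p) := by
    have h4 : ∀ n : ℕ, (∑ j ∈ Finset.range p, (a n : ℂ) * exp (pi * I * n * ((z + 2 * j) / p))) / p =
        (a n : ℂ) * exp (pi * I * n * z / p) * ((if p ∣ n then (p : ℂ) else 0) / p) := by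
      intro n
      rw [← HK1_root p hp n, mul_div_assoc', Finset.mul_sum]
      congr 1
      refine Finset.sum_congr rfl fun j _ ↦ ?_
      rw [mul_assoc ((a n : ℤ) : ℂ), ← Complex.exp_add]
      congr 2
      field_simp
    have h5 : HasSum (fun n : ℕ ↦ (a n : ℂ) * exp (pi * I * n * z / p) *
        ((if p ∣ n then (p : ℂ) else 0) / p)) ((∑ j ∈ Finset.range p, f ((z + 2 * j) / p)) / p) :=
      h2.congr_fun fun n ↦ (h4 n).symm
    have h6 := (hinj.hasSum_iff (f := fun n : ℕ ↦ (a n : ℂ) * exp (pi * I * n * z / p) *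
        ((if p ∣ n then (p : ℂ) else 0) / p)) (by
      intro n hn
      have hdn : ¬ p ∣ n := by
        rintro ⟨k, rfl⟩
        exact hn ⟨k, rfl⟩
      rw [if_neg hdn, zero_div, mul_zero])).2 h5
    refine h6.congr_fun fun n ↦ ?_
    show (a (p * n) : ℂ) * exp (pi * I * n * z) = (a (p * n) : ℂ) *
      exp (pi * I * ((p * n : ℕ) : ℂ) * z / p) * ((if p ∣ p * n then (p : ℂ) else 0) / p)
    rw [if_pos (dvd_mul_right p n), div_self hp0, mul_one]
    congr 2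
    push_cast
    field_simp
  -- the second part
  have h7 : HasSum (fun n : ℕ ↦ ((if p ∣ n then (a (n / p) : ℂ) else 0)) * exp (pi * I * n * z))
      (f (p * z)) := by
    have h8 := hasSum_f (p * z) (by
      have h9 : ((p : ℂ) * z) = ((p : ℝ) : ℂ) * z := by push_cast; ring
      rw [h9, Complex.im_ofReal_mul]
      positivity)
    refine (hinj.hasSum_iff ?_).1 (h8.congr_fun fun n ↦ ?_)
    · intro n hn
      have hdn : ¬ p ∣ n := by
        rintro ⟨k, rfl⟩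
        exact hn ⟨k, rfl⟩
      rw [if_neg hdn, zero_mul]
    · show ((if p ∣ p * n then (a (p * n / p) : ℂ) else 0)) * exp (pi * I * ((p * n : ℕ) : ℂ) * z) =
        (a n : ℂ) * exp (pi * I * n * (p * z))
      rw [if_pos (dvd_mul_right p n), Nat.mul_div_cancel_left n hp.pos]
      congr 2
      push_cast
      ring
  have h10 := h3.add (h7.mul_left (p : ℂ))
  refine h10.congr_fun fun n ↦ ?_
  ring

/-- PROOF: all exponents `n` in `hasSum_Tp` with a coefficient `≠ 0` are odd (`a_even`, `p` odd). -/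
theorem Tp_add_one (p : ℕ) (hp : p.Prime) (h2 : p ≠ 2) (z : ℂ) (hz : 0 < z.im) :
    Tp p (z + 1) = -Tp p z := by
  have h1 := hasSum_Tp p hp (z + 1) (by simpa using hz)
  have h3 := (hasSum_Tp p hp z hz).neg
  have hpo : Odd p := hp.odd_of_ne_two h2
  refine h1.unique (h3.congr_fun fun n ↦ ?_)
  rcases Nat.even_or_odd n with hn | hn
  · have h4 : a (p * n) = 0 := a_even _ (hn.mul_left p)
    have h5 : (if p ∣ n then (a (n / p) : ℂ) else 0) = 0 := by
      split_ifs with h6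
      · obtain ⟨k, rfl⟩ := h6
        rw [Nat.mul_div_cancel_left k hp.pos]
        have h7 : Even k := by
          rcases Nat.even_mul.1 hn with h8 | h8
          · exact absurd hpo (Nat.not_odd_iff_even.2 h8)
          · exact h8
        rw [a_even k h7, Int.cast_zero]
      · rfl
    rw [h4, h5]
    simp
  · have h4 : exp (pi * I * n * (z + 1)) = -exp (pi * I * n * z) := by
      obtain ⟨k, rfl⟩ := hn
      have h5 : (pi * I * ((2 * k + 1 : ℕ) : ℂ) * (z + 1)) =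
          pi * I * ((2 * k + 1 : ℕ) : ℂ) * z + pi * I + (k : ℕ) * (2 * pi * I) := by
        push_cast
        ring
      rw [h5, Complex.exp_add, Complex.exp_add, Complex.exp_pi_mul_I,
        Complex.exp_nat_mul_two_pi_mul_I]
      ring
    rw [h4]
    ring

/-- PROOF: `f_size` (`Im ((z + 2j)/p) = Im z / p` is not enough); use `hasSum_Tp`: the coefficient
at `n = 0` is `0`, all others `≤ C n^2`... : `‖Tp p z‖ ≤ ∑_(n ≥ 1) |c_n| exp (-π n Im z) ≤
exp (-π (Im z - 1)) ∑ |c_n| exp (-π n)` for `Im z ≥ 1`. -/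
theorem Tp_size (p : ℕ) (hp : p.Prime) (h2 : p ≠ 2) :
    ∃ C : ℝ, ∀ z : ℂ, 1 ≤ z.im → ‖Tp p z‖ ≤ C * Real.exp (-(pi * z.im)) := by
  have hpo : Odd p := hp.odd_of_ne_two h2
  set c : ℕ → ℂ := fun n ↦ (a (p * n) : ℂ) + p * (if p ∣ n then (a (n / p) : ℂ) else 0) with hc
  have h0 : c 0 = 0 := by
    rw [hc]
    show (a (p * 0) : ℂ) + p * (if p ∣ 0 then (a (0 / p) : ℂ) else 0) = 0
    rw [mul_zero, Nat.zero_div, a_even 0 Even.zero]
    simp
  have hI : 0 < (I : ℂ).im := by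
    rw [Complex.I_im]
    exact zero_lt_one
  have h3 := (hasSum_Tp p hp I hI).summable.norm
  have hn : ∀ (n : ℕ) (z : ℂ), ‖exp (pi * I * n * z)‖ = Real.exp (-(pi * n * z.im)) := by
    intro n z
    rw [Complex.norm_exp]
    congr 1
    have h4 : (pi * I * n * z : ℂ) = ((pi * n : ℝ) : ℂ) * (I * z) := by
      push_cast
      ring
    rw [h4, Complex.re_ofReal_mul, Complex.I_mul_re]
    ring
  refine ⟨Real.exp pi * ∑' n : ℕ, ‖c n * exp (pi * I * n * I)‖, fun z hz ↦ ?_⟩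
  have h4 := hasSum_Tp p hp z (by linarith)
  have h5 : HasSum (fun n : ℕ ↦ Real.exp (-(pi * (z.im - 1))) * ‖c n * exp (pi * I * n * I)‖)
      (Real.exp (-(pi * (z.im - 1))) * ∑' n : ℕ, ‖c n * exp (pi * I * n * I)‖) :=
    h3.hasSum.mul_left _
  refine (HasSum.norm_le_of_bounded h4 h5 fun n ↦ ?_).trans (le_of_eq ?_)
  · show ‖c n * exp (pi * I * n * z)‖ ≤ _
    rcases Nat.eq_zero_or_pos n with h6 | h6
    · subst h6
      rw [h0, zero_mul, zero_mul, norm_zero, mul_zero]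
    · rw [norm_mul, norm_mul, hn, hn, Complex.I_im]
      have h7 : Real.exp (-(pi * n * z.im)) ≤
          Real.exp (-(pi * (z.im - 1))) * Real.exp (-(pi * n * 1)) := by
        rw [← Real.exp_add]
        apply Real.exp_le_exp.2
        have h8 : (1 : ℝ) ≤ n := by exact_mod_cast h6
        have h9 := Real.pi_pos
        have h10 : 0 ≤ pi * ((n : ℝ) - 1) * (z.im - 1) :=
          mul_nonneg (mul_nonneg h9.le (by linarith)) (by linarith)
        nlinarith
      calc ‖c n‖ * Real.exp (-(pi * n * z.im))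
          ≤ ‖c n‖ * (Real.exp (-(pi * (z.im - 1))) * Real.exp (-(pi * n * 1))) :=
            mul_le_mul_of_nonneg_left h7 (norm_nonneg _)
        _ = _ := by ring
  · have h6 : Real.exp (-(pi * (z.im - 1))) = Real.exp pi * Real.exp (-(pi * z.im)) := by
      rw [← Real.exp_add]
      congr 1
      ring
    rw [h6]
    ring
/- END HK1 -/

/-- The terms of `T_p`, indexed by the projective line over `ZMod p`. -/
noncomputable def TF (p : ℕ) (x : Option (ZMod p)) (z : ℂ) : ℂ :=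
  match x with
  | none => p * f (p * z)
  | some j => f ((z + 2 * (j.val : ℂ)) / p) / p

/- MODULE HK2 -/
/-- PROOF: `Finset.range p ≃ ZMod p`, `j ↦ j` (`p ≠ 0`), `Fintype.sum_option`. -/
theorem Tp_eq_sum (p : ℕ) [Fact p.Prime] (z : ℂ) : Tp p z = ∑ x : Option (ZMod p), TF p x z := by
  rw [Fintype.sum_option]
  unfold Tp
  have h1 : ∑ j ∈ Finset.range p, f ((z + 2 * j) / p) / p = ∑ x : ZMod p, TF p (some x) z := by
    refine Finset.sum_nbij' (fun j : ℕ ↦ (j : ZMod p)) (fun x : ZMod p ↦ x.val) ?_ ?_ ?_ ?_ ?_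
    · intro j _
      exact Finset.mem_univ _
    · intro x _
      exact Finset.mem_range.2 (ZMod.val_lt x)
    · intro j hj
      exact ZMod.val_cast_of_lt (Finset.mem_range.1 hj)
    · intro x _
      exact ZMod.natCast_zmod_val x
    · intro j hj
      show _ = f ((z + 2 * (((j : ZMod p).val : ℕ) : ℂ)) / p) / p
      rw [ZMod.val_cast_of_lt (Finset.mem_range.1 hj)]
  rw [← h1, ← Finset.sum_div]
  show _ = p * f (p * z) + _
  ring

/-- `TF p (some j)` may be computed with any integer representing `j`. PROOF: two representatives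
differ by `p k`, and `f (w + 2 k) = f w`. -/
theorem TF_some (p : ℕ) [Fact p.Prime] (j : ℤ) (z : ℂ) :
    TF p (some (j : ZMod p)) z = f ((z + 2 * (j : ℂ)) / p) / p := by
  have hp0 : (p : ℂ) ≠ 0 := by exact_mod_cast (Fact.out : p.Prime).ne_zero
  have h1 : (((j : ZMod p).val : ℕ) : ℤ) = j % p := ZMod.val_intCast j
  have h2 : j = (((j : ZMod p).val : ℕ) : ℤ) + p * (j / p) := by
    rw [h1]
    exact (Int.emod_add_mul_ediv j p).symm
  have hper : Function.Periodic f 2 := by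
    intro w
    have h3 : w + 2 = w + 1 + 1 := by ring
    rw [h3, f_add_one, f_add_one, neg_neg]
  have h4 : ((z + 2 * (j : ℂ)) / p) =
      (z + 2 * (((j : ZMod p).val : ℕ) : ℂ)) / p + ((j / p : ℤ) : ℂ) * 2 := by
    have h5 : (j : ℂ) = (((j : ZMod p).val : ℕ) : ℂ) + p * ((j / p : ℤ) : ℂ) := by
      exact_mod_cast h2
    rw [h5]
    field_simp
    ring
  rw [h4, hper.int_mul (j / p)]
  rfl

/-- The Moebius permutation. `α δ β` integers with `e² α δ - 6 β = e`, `e ∣ 6`, `p` prime to `6`: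
the map `g (some j) = none` if `e α + 12 j = 0` in `ZMod p`, and
`(β + 2 j e δ)/(2 (e α + 12 j))` otherwise, `g none = e δ / 12`, is injective. PROOF:
`(β + 2jeδ)(eα + 12k) - (β + 2keδ)(eα + 12j) = 2 (j - k)(e² α δ - 6β) = 2 (j - k) e`, and `2 e` is
a unit modulo `p`; `j` with `e α + 12 j = 0` is unique; `g (some j) = g none`, i.e.
`12 (β + 2jeδ) = 2 e δ (eα + 12 j)`, gives `12 β = 2 e² α δ`, so `2 e = 0`, a contradiction. -/
theorem moeb_injective (p : ℕ) [Fact p.Prime] (hp : ¬ p ∣ 6) (e α β δ : ℤ) (he : e ∣ 6)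
    (h : e ^ 2 * α * δ - 6 * β = e) :
    Function.Injective (fun x : Option (ZMod p) ↦ match x with
      | none => some ((e * δ : ZMod p) / 12)
      | some j => if (e * α : ZMod p) + 12 * j = 0 then none else
          some (((β : ZMod p) + 2 * j * (e * δ)) / (2 * ((e * α : ZMod p) + 12 * j)))) := by
  have hpp : p.Prime := Fact.out
  have hz : ∀ m : ℤ, m ∣ 6 → (m : ZMod p) ≠ 0 := by
    intro m hm h1
    rw [ZMod.intCast_zmod_eq_zero_iff_dvd] at h1
    have h2 : (p : ℤ) ∣ 6 := h1.trans hm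
    exact hp (by exact_mod_cast h2)
  have he0 : (e : ZMod p) ≠ 0 := hz e he
  have h20 : (2 : ZMod p) ≠ 0 := by
    have := hz 2 (by norm_num)
    exact_mod_cast this
  have h60 : (6 : ZMod p) ≠ 0 := by
    have := hz 6 (by norm_num)
    exact_mod_cast this
  have h120 : (12 : ZMod p) ≠ 0 := by
    have h1 : (12 : ZMod p) = 2 * 6 := by norm_num
    rw [h1]
    exact mul_ne_zero h20 h60
  have hrel : (e : ZMod p) ^ 2 * α * δ - 6 * β = e := by exact_mod_cast congrArg (Int.cast : ℤ → ZMod p) h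
  have key : ∀ j : ZMod p, (e * α : ZMod p) + 12 * j ≠ 0 →
      ((e * δ : ZMod p) / 12) ≠
        (((β : ZMod p) + 2 * j * (e * δ)) / (2 * ((e * α : ZMod p) + 12 * j))) := by
    intro j hj h1
    rw [div_eq_div_iff h120 (mul_ne_zero h20 hj)] at h1
    have h2 : (2 : ZMod p) * ((e : ZMod p) ^ 2 * α * δ - 6 * β) = 0 := by linear_combination h1
    rw [hrel] at h2
    exact (mul_ne_zero h20 he0) h2
  intro x y hxy
  rcases x with _ | j <;> rcases y with _ | k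
  · rfl
  · simp only at hxy
    split_ifs at hxy with h1
    exact absurd (Option.some.inj hxy) (key k h1)
  · simp only at hxy
    split_ifs at hxy with h1
    exact absurd (Option.some.inj hxy).symm (key j h1)
  · simp only at hxy
    split_ifs at hxy with h1 h2 h2
    · have h3 : (12 : ZMod p) * (j - k) = 0 := by linear_combination h1 - h2
      rcases mul_eq_zero.1 h3 with h4 | h4
      · exact absurd h4 h120
      · rw [sub_eq_zero.1 h4]
    · have h3 := Option.some.inj hxy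
      rw [div_eq_div_iff (mul_ne_zero h20 h1) (mul_ne_zero h20 h2)] at h3
      have h4 : (2 : ZMod p) * (2 * ((j - k) * ((e : ZMod p) ^ 2 * α * δ - 6 * β))) = 0 := by
        linear_combination h3
      rw [hrel] at h4
      have h5 := (mul_eq_zero.1 h4).resolve_left h20
      have h6 := (mul_eq_zero.1 h5).resolve_left h20
      have h7 := (mul_eq_zero.1 h6).resolve_right he0
      rw [sub_eq_zero.1 h7]
/- END HK2 -/

/-- The sign of a matrix `(e a b; 6c e d)` of type `e`. -/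
def sgn (e a b c d : ℤ) : ℤ := if e = 1 ∨ e = 3 then (if Even (b + c) then 1 else -1) else
  (if Even (a + d) then -1 else 1)

/- MODULE HK3 -/
private theorem HK3_pow (n : ℤ) : ((-1 : ℂ)) ^ n = ((if Even n then 1 else -1 : ℤ) : ℂ) := by
  split_ifs with h
  · rw [h.neg_one_zpow]; simp
  · rw [(Int.not_even_iff_odd.1 h).neg_one_zpow]; simp

/-- `f_one`, `f_two`, `f_three`, `f_six` in one formula. -/
theorem f_all (e a b c d : ℤ) (he : e = 1 ∨ e = 2 ∨ e = 3 ∨ e = 6)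
    (h : e ^ 2 * a * d - 6 * b * c = e) (z : ℂ) (hz : 0 < z.im) :
    f ((e * a * z + b) / (6 * c * z + e * d)) =
      sgn e a b c d * ((6 * c * z + e * d) ^ 2 / e) * f z := by
  rcases he with rfl | rfl | rfl | rfl
  · have h1 := f_one a b c d (by linarith) z hz
    rw [HK3_pow] at h1
    have h2 : sgn 1 a b c d = if Even (b + c) then 1 else -1 := by simp [sgn]
    rw [h2]
    push_cast at h1 ⊢
    rw [one_mul, one_mul, div_one]
    exact h1
  · have h1 := f_two a b c d (by linarith) z hz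
    rw [HK3_pow] at h1
    have h2 : sgn 2 a b c d = -(if Even (a + d) then 1 else -1) := by
      simp only [sgn]
      split_ifs <;> simp_all
    rw [h2]
    push_cast at h1 ⊢
    exact h1
  · have h1 := f_three a b c d (by linarith) z hz
    rw [HK3_pow] at h1
    have h2 : sgn 3 a b c d = if Even (b + c) then 1 else -1 := by simp [sgn]
    rw [h2]
    push_cast at h1 ⊢
    exact h1
  · have h1 := f_six a b c d (by linarith) z hz
    rw [HK3_pow] at h1
    have h2 : sgn 6 a b c d = -(if Even (a + d) then 1 else -1) := by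
      simp only [sgn]
      split_ifs <;> simp_all
    rw [h2]
    push_cast at h1 ⊢
    exact h1
/- END HK3 -/

/- MODULE HK4 -/
private theorem HK4_dvd {p : ℕ} (hpp : p.Prime) (hp : ¬ p ∣ 6) {e x : ℤ}
    (he : e = 1 ∨ e = 2 ∨ e = 3 ∨ e = 6) (h : (p : ℤ) ∣ e * x) : (p : ℤ) ∣ x := by
  have h1 : Prime (p : ℤ) := Nat.prime_iff_prime_int.1 hpp
  rcases h1.dvd_or_dvd h with h2 | h2
  · exfalso
    apply hp
    have h3 : e ∣ 6 := by
      rcases he with rfl | rfl | rfl | rfl <;> norm_num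
    have h4 : (p : ℤ) ∣ 6 := h2.trans h3
    exact_mod_cast h4
  · exact h2

private theorem HK4_odd {p : ℕ} (hpp : p.Prime) (hp : ¬ p ∣ 6) : ∃ k : ℤ, (p : ℤ) = 2 * k + 1 := by
  have h1 : p ≠ 2 := by
    rintro rfl
    exact hp (by norm_num)
  obtain ⟨k, hk⟩ := hpp.odd_of_ne_two h1
  exact ⟨k, by rw [hk]; push_cast; ring⟩

private theorem HK4_quot {e : ℤ} (he : e = 1 ∨ e = 2 ∨ e = 3 ∨ e = 6) :
    ∃ r : ℤ, e * r = 12 ∧ ((e = 2 ∨ e = 6) → ∃ s : ℤ, r = 2 * s) := by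
  rcases he with rfl | rfl | rfl | rfl
  · exact ⟨12, by norm_num, fun _ ↦ ⟨6, by norm_num⟩⟩
  · exact ⟨6, by norm_num, fun _ ↦ ⟨3, by norm_num⟩⟩
  · exact ⟨4, by norm_num, fun _ ↦ ⟨2, by norm_num⟩⟩
  · exact ⟨2, by norm_num, fun _ ↦ ⟨1, by norm_num⟩⟩

private theorem HK4_sgn {e a b c d a' b' c' d' : ℤ} (he : e = 1 ∨ e = 2 ∨ e = 3 ∨ e = 6)
    (h1 : (e = 1 ∨ e = 3) → (Even (b + c) ↔ Even (b' + c')))
    (h2 : (e = 2 ∨ e = 6) → (Even (a + d) ↔ Even (a' + d'))) :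
    sgn e a b c d = sgn e a' b' c' d' := by
  unfold sgn
  by_cases h3 : e = 1 ∨ e = 3
  · rw [if_pos h3, if_pos h3]
    have h4 := h1 h3
    by_cases h5 : Even (b + c)
    · rw [if_pos h5, if_pos (h4.1 h5)]
    · rw [if_neg h5, if_neg (fun h6 ↦ h5 (h4.2 h6))]
  · rw [if_neg h3, if_neg h3]
    have h4 := h2 (by tauto)
    by_cases h5 : Even (a + d)
    · rw [if_pos h5, if_pos (h4.1 h5)]
    · rw [if_neg h5, if_neg (fun h6 ↦ h5 (h4.2 h6))]

private theorem HK4_den {e : ℤ} (he : e = 1 ∨ e = 2 ∨ e = 3 ∨ e = 6) (δ : ℤ) (z : ℂ)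
    (hz : 0 < z.im) : (e : ℂ) ≠ 0 ∧ (6 * z + e * δ : ℂ) ≠ 0 := by
  constructor
  · have h1 : e ≠ 0 := by rcases he with rfl | rfl | rfl | rfl <;> norm_num
    exact_mod_cast h1
  · intro h
    have h1 := congrArg Complex.im h
    have h2 : (6 * z + e * δ : ℂ) = ((6 : ℝ) : ℂ) * z + ((e * δ : ℝ) : ℂ) := by push_cast; ring
    rw [h2, Complex.add_im, Complex.im_ofReal_mul, Complex.ofReal_im, add_zero,
      Complex.zero_im] at h1
    linarith


private theorem HK4_even (x y : ℤ) : Even (x + 2 * y) ↔ Even x := by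
  rw [Int.even_add]
  have h1 : Even (2 * y) := even_two_mul y
  tauto

/-- The case of `some j` with `p ∤ e α + 12 j`. PROOF: put `W z = (eαz+β)/(6z+eδ)`; choose the
integer `j'` with `p ∣ β + 2jeδ - 2j'(eα+12j)`. Then `(W z + 2j)/p = W' ((z + 2j')/p)` for
`W' = (eα+12j, (β+2jeδ-2j'(eα+12j))/p; 6p, eδ-12j')`, of type `e` with
`α' = α + (12/e) j`, `γ' = p`, `δ' = δ - (12/e) j'` and the same sign (`sgn`: for `e = 1, 3`,
`p β' = β + even`, `p` odd; for `e = 2, 6`, `12/e` is even); `6 p ((z+2j')/p) + eδ - 12 j' =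
6 z + e δ`. `TF_some` for `j` and `j'`. -/
theorem TF_case1 (p : ℕ) [Fact p.Prime] (hp : ¬ p ∣ 6) (e α β δ : ℤ)
    (he : e = 1 ∨ e = 2 ∨ e = 3 ∨ e = 6) (h : e ^ 2 * α * δ - 6 * β = e) (j : ZMod p)
    (hj : (e * α : ZMod p) + 12 * j ≠ 0) (z : ℂ) (hz : 0 < z.im) :
    TF p (some j) ((e * α * z + β) / (6 * z + e * δ)) =
      sgn e α β 1 δ * ((6 * z + e * δ) ^ 2 / e) *
        TF p (some (((β : ZMod p) + 2 * j * (e * δ)) / (2 * ((e * α : ZMod p) + 12 * j)))) z := by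
  have hpp : p.Prime := Fact.out
  have hp0 : (p : ℂ) ≠ 0 := by exact_mod_cast hpp.ne_zero
  obtain ⟨he0, hden⟩ := HK4_den he δ z hz
  obtain ⟨r, hr, hr2⟩ := HK4_quot he
  obtain ⟨k, hk⟩ := HK4_odd hpp hp
  set x : ZMod p := (((β : ZMod p) + 2 * j * (e * δ)) / (2 * ((e * α : ZMod p) + 12 * j))) with hx
  obtain ⟨J, hJ⟩ : ∃ J : ℤ, (J : ZMod p) = j := ⟨(j.val : ℤ), by
    rw [Int.cast_natCast, ZMod.natCast_zmod_val]⟩
  obtain ⟨J', hJ'⟩ : ∃ J' : ℤ, (J' : ZMod p) = x := ⟨(x.val : ℤ), by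
    rw [Int.cast_natCast, ZMod.natCast_zmod_val]⟩
  have h20 : (2 : ZMod p) ≠ 0 := by
    intro h1
    have h2 : ((2 : ℤ) : ZMod p) = 0 := by exact_mod_cast h1
    rw [ZMod.intCast_zmod_eq_zero_iff_dvd] at h2
    have h3 : (p : ℤ) ∣ 6 := h2.trans (by norm_num)
    exact hp (by exact_mod_cast h3)
  obtain ⟨m, hm⟩ : (p : ℤ) ∣ β + 2 * J * (e * δ) - 2 * J' * (e * α + 12 * J) := by
    rw [← ZMod.intCast_zmod_eq_zero_iff_dvd]
    push_cast
    rw [hJ, hJ', hx]
    have h1 : (2 * ((e * α : ZMod p) + 12 * j)) ≠ 0 := mul_ne_zero h20 hj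
    have h2 := div_mul_cancel₀ ((β : ZMod p) + 2 * j * (e * δ)) h1
    linear_combination -h2
  have hw := HK1_im p hpp J' z hz
  set w : ℂ := (z + 2 * (J' : ℂ)) / p with hwd
  have hpw : (p : ℂ) * w = z + 2 * J' := by
    rw [hwd]
    field_simp
  have hrC : (e : ℂ) * r = 12 := by exact_mod_cast hr
  have hmC : (β : ℂ) + 2 * J * (e * δ) - 2 * J' * (e * α + 12 * J) = p * m := by exact_mod_cast hm
  have hf := f_all e (α + r * J) m p (δ - r * J') he (by
    linear_combination h + 6 * hm + (e * J * δ - e * α * J' - J * J' * (e * r + 12)) * hr) w hw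
  rw [← hJ, ← hJ', TF_some, TF_some, ← hwd]
  have hD : (6 * (p : ℤ) * w + e * ((δ - r * J' : ℤ) : ℂ) : ℂ) = 6 * z + e * δ := by
    push_cast
    linear_combination 6 * hpw - J' * hrC
  have hN : (((e : ℂ) * α * z + β) / (6 * z + e * δ) + 2 * J) / p =
      (e * ((α + r * J : ℤ) : ℂ) * w + m) / (6 * (p : ℤ) * w + e * ((δ - r * J' : ℤ) : ℂ)) := by
    rw [hD, div_add' _ _ _ hden, div_div, div_eq_div_iff (mul_ne_zero hden hp0) hden]
    push_cast
    have h9 : (e : ℂ) * α * z + β + 2 * J * (6 * z + e * δ) =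
        (e * (α + r * J) * w + m) * p := by
      linear_combination -(e * α + 12 * J : ℂ) * hpw + hmC - J * w * p * hrC
    rw [h9]
    ring
  rw [hN, hf, hD]
  have hs : sgn e (α + r * J) m p (δ - r * J') = sgn e α β 1 δ := by
    refine HK4_sgn he (fun _ ↦ ?_) (fun h9 ↦ ?_)
    · have h10 : m + p = β + 1 + 2 * (J * (e * δ) - J' * (e * α + 12 * J) - k * m + k) := by
        have h11 : (p : ℤ) * m = 2 * (k * m) + m := by rw [hk]; ring
        linarith [hm, hk, h11]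
      rw [h10]
      exact HK4_even _ _
    · obtain ⟨s, hs⟩ := hr2 h9
      have h10 : α + r * J + (δ - r * J') = α + δ + 2 * (s * J - s * J') := by
        rw [hs]; ring
      rw [h10]
      exact HK4_even _ _
  rw [hs]
  ring
/- END HK4 -/

/- MODULE HK5 -/
/-- The case of `some j` with `p ∣ e α + 12 j` (`j` also for an integer representing it). PROOF:
`(W z + 2j)/p = W' (p z)` with `W' = ((eα+12j)/p, β+2jeδ; 6, p e δ)`, type `e`,
`α' = (α + (12/e) j)/p`, `γ' = 1`, `δ' = p δ`, the same sign; `6 (p z) + p e δ = p (6z + eδ)`. -/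
theorem TF_case2 (p : ℕ) [Fact p.Prime] (hp : ¬ p ∣ 6) (e α β δ : ℤ)
    (he : e = 1 ∨ e = 2 ∨ e = 3 ∨ e = 6) (h : e ^ 2 * α * δ - 6 * β = e) (j : ZMod p)
    (hj : (e * α : ZMod p) + 12 * j = 0) (z : ℂ) (hz : 0 < z.im) :
    TF p (some j) ((e * α * z + β) / (6 * z + e * δ)) =
      sgn e α β 1 δ * ((6 * z + e * δ) ^ 2 / e) * TF p none z := by
  have hpp : p.Prime := Fact.out
  have hp0 : (p : ℂ) ≠ 0 := by exact_mod_cast hpp.ne_zero
  have hpR : (0 : ℝ) < p := by exact_mod_cast hpp.pos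
  obtain ⟨he0, hden⟩ := HK4_den he δ z hz
  obtain ⟨r, hr, hr2⟩ := HK4_quot he
  obtain ⟨k, hk⟩ := HK4_odd hpp hp
  obtain ⟨J, hJ⟩ : ∃ J : ℤ, (J : ZMod p) = j := ⟨(j.val : ℤ), by
    rw [Int.cast_natCast, ZMod.natCast_zmod_val]⟩
  obtain ⟨A, hA⟩ : (p : ℤ) ∣ α + r * J := by
    refine HK4_dvd hpp hp he ?_
    rw [← ZMod.intCast_zmod_eq_zero_iff_dvd]
    have h1 : e * (α + r * J) = e * α + 12 * J := by linear_combination J * hr
    rw [h1]
    push_cast
    rw [hJ]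
    exact hj
  have hrC : (e : ℂ) * r = 12 := by exact_mod_cast hr
  have hAC : (α : ℂ) + r * J = p * A := by exact_mod_cast hA
  have hpz : 0 < ((p : ℂ) * z).im := by
    have h9 : ((p : ℂ) * z) = ((p : ℝ) : ℂ) * z := by push_cast; ring
    rw [h9, Complex.im_ofReal_mul]
    positivity
  have hf := f_all e A (β + 2 * J * (e * δ)) 1 (p * δ) he (by
    linear_combination h - e ^ 2 * δ * hA + e * δ * J * hr) (p * z) hpz
  rw [← hJ, TF_some]
  have hD : (6 * ((1 : ℤ) : ℂ) * (p * z) + e * ((p * δ : ℤ) : ℂ) : ℂ) = p * (6 * z + e * δ) := by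
    push_cast
    ring
  have hN : (((e : ℂ) * α * z + β) / (6 * z + e * δ) + 2 * J) / p =
      (e * (A : ℂ) * (p * z) + ((β + 2 * J * (e * δ) : ℤ) : ℂ)) /
        (6 * ((1 : ℤ) : ℂ) * (p * z) + e * ((p * δ : ℤ) : ℂ)) := by
    rw [hD, div_add' _ _ _ hden, div_div, div_eq_div_iff (mul_ne_zero hden hp0)
      (mul_ne_zero hp0 hden)]
    push_cast
    linear_combination (e * z * (6 * z + e * δ) * p : ℂ) * hAC - (J * z * (6 * z + e * δ) * p) * hrC
  rw [hN, hf, hD]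
  have hs : sgn e A (β + 2 * J * (e * δ)) 1 (p * δ) = sgn e α β 1 δ := by
    refine HK4_sgn he (fun _ ↦ ?_) (fun h9 ↦ ?_)
    · have h10 : β + 2 * J * (e * δ) + 1 = β + 1 + 2 * (J * (e * δ)) := by ring
      rw [h10]
      exact HK4_even _ _
    · obtain ⟨s, hs⟩ := hr2 h9
      have h10 : A + p * δ = α + δ + 2 * (s * J - k * A + k * δ) := by
        have h11 : (p : ℤ) * A = 2 * (k * A) + A := by rw [hk]; ring
        have h12 : (p : ℤ) * δ = 2 * (k * δ) + δ := by rw [hk]; ring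
        have h13 : r * J = 2 * (s * J) := by rw [hs]; ring
        linarith [hA, h11, h12, h13]
      rw [h10]
      exact HK4_even _ _
  rw [hs]
  show _ = _ * (p * f (p * z))
  field_simp

/-- The case of `none`. PROOF: `p W z = W' ((z + 2j')/p)` with `12 j' = e δ mod p`,
`W' = (p e α, β - 2j'eα; 6, (eδ - 12 j')/p)`; `6 (z + 2j')/p + (eδ - 12j')/p = (6z + eδ)/p`. -/
theorem TF_case3 (p : ℕ) [Fact p.Prime] (hp : ¬ p ∣ 6) (e α β δ : ℤ)
    (he : e = 1 ∨ e = 2 ∨ e = 3 ∨ e = 6) (h : e ^ 2 * α * δ - 6 * β = e)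
    (z : ℂ) (hz : 0 < z.im) :
    TF p none ((e * α * z + β) / (6 * z + e * δ)) =
      sgn e α β 1 δ * ((6 * z + e * δ) ^ 2 / e) * TF p (some ((e * δ : ZMod p) / 12)) z := by
  have hpp : p.Prime := Fact.out
  have hp0 : (p : ℂ) ≠ 0 := by exact_mod_cast hpp.ne_zero
  have hpR : (0 : ℝ) < p := by exact_mod_cast hpp.pos
  obtain ⟨he0, hden⟩ := HK4_den he δ z hz
  obtain ⟨r, hr, hr2⟩ := HK4_quot he
  obtain ⟨k, hk⟩ := HK4_odd hpp hp
  set x : ZMod p := (e * δ : ZMod p) / 12 with hx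
  obtain ⟨J', hJ'⟩ : ∃ J' : ℤ, (J' : ZMod p) = x := ⟨(x.val : ℤ), by
    rw [Int.cast_natCast, ZMod.natCast_zmod_val]⟩
  have h120 : (12 : ZMod p) ≠ 0 := by
    have hz : ∀ m : ℤ, m ∣ 6 → (m : ZMod p) ≠ 0 := by
      intro m hm h1
      rw [ZMod.intCast_zmod_eq_zero_iff_dvd] at h1
      have h2 : (p : ℤ) ∣ 6 := h1.trans hm
      exact hp (by exact_mod_cast h2)
    have h1 := hz 2 (by norm_num)
    have h2 := hz 6 (by norm_num)
    have h3 : (12 : ZMod p) = ((2 : ℤ) : ZMod p) * ((6 : ℤ) : ZMod p) := by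
      push_cast
      norm_num
    rw [h3]
    exact mul_ne_zero h1 h2
  obtain ⟨B, hB⟩ : (p : ℤ) ∣ δ - r * J' := by
    refine HK4_dvd hpp hp he ?_
    rw [← ZMod.intCast_zmod_eq_zero_iff_dvd]
    have h1 : e * (δ - r * J') = e * δ - 12 * J' := by linear_combination -J' * hr
    rw [h1]
    push_cast
    rw [hJ', hx]
    have h2 := div_mul_cancel₀ (e * δ : ZMod p) h120
    linear_combination -h2
  have hrC : (e : ℂ) * r = 12 := by exact_mod_cast hr
  have hBC : (δ : ℂ) - r * J' = p * B := by exact_mod_cast hB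
  have hw := HK1_im p hpp J' z hz
  set w : ℂ := (z + 2 * (J' : ℂ)) / p with hwd
  have hpw : (p : ℂ) * w = z + 2 * J' := by
    rw [hwd]
    field_simp
  have hf := f_all e (p * α) (β - 2 * J' * (e * α)) 1 B he (by
    linear_combination h - e ^ 2 * α * hB - e * α * J' * hr) w hw
  rw [← hJ', TF_some, ← hwd]
  have hD : (6 * ((1 : ℤ) : ℂ) * w + e * (B : ℂ) : ℂ) = (6 * z + e * δ) / p := by
    rw [eq_div_iff hp0]
    push_cast
    linear_combination 6 * hpw - e * hBC - J' * hrC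
  have hN : (p : ℂ) * (((e : ℂ) * α * z + β) / (6 * z + e * δ)) =
      (e * ((p * α : ℤ) : ℂ) * w + ((β - 2 * J' * (e * α) : ℤ) : ℂ)) /
        (6 * ((1 : ℤ) : ℂ) * w + e * (B : ℂ)) := by
    rw [hD, div_div_eq_mul_div, mul_div_assoc', div_left_inj' hden]
    push_cast
    linear_combination -(e * α * p : ℂ) * hpw
  show p * f (p * _) = _
  rw [hN, hf, hD]
  have hs : sgn e (p * α) (β - 2 * J' * (e * α)) 1 B = sgn e α β 1 δ := by
    refine HK4_sgn he (fun _ ↦ ?_) (fun h9 ↦ ?_)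
    · have h10 : β - 2 * J' * (e * α) + 1 = β + 1 + 2 * (-(J' * (e * α))) := by ring
      rw [h10]
      exact HK4_even _ _
    · obtain ⟨s, hs⟩ := hr2 h9
      have h10 : p * α + B = α + δ + 2 * (k * α - s * J' - k * B) := by
        have h11 : (p : ℤ) * B = 2 * (k * B) + B := by rw [hk]; ring
        have h12 : (p : ℤ) * α = 2 * (k * α) + α := by rw [hk]; ring
        have h13 : r * J' = 2 * (s * J') := by rw [hs]; ring
        linarith [hB, h11, h12, h13]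
      rw [h10]
      exact HK4_even _ _
  rw [hs]
  field_simp
/- END HK5 -/

/- MODULE HK6 -/
private theorem HK6_gen (p : ℕ) (hp : p.Prime) (h6 : ¬ p ∣ 6) (e α β δ : ℤ)
    (he : e = 1 ∨ e = 2 ∨ e = 3 ∨ e = 6) (h : e ^ 2 * α * δ - 6 * β = e) (z : ℂ)
    (hz : 0 < z.im) :
    Tp p ((e * α * z + β) / (6 * z + e * δ)) =
      sgn e α β 1 δ * ((6 * z + e * δ) ^ 2 / e) * Tp p z := by
  have : Fact p.Prime := ⟨hp⟩
  have he6 : e ∣ 6 := by
    rcases he with rfl | rfl | rfl | rfl <;> norm_num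
  have hinj := moeb_injective p h6 e α β δ he6 h
  have hbij := Finite.injective_iff_bijective.1 hinj
  rw [Tp_eq_sum, Tp_eq_sum, Finset.mul_sum, ← Function.Bijective.sum_comp hbij
    (fun x ↦ (sgn e α β 1 δ : ℂ) * ((6 * z + e * δ) ^ 2 / e) * TF p x z)]
  refine Finset.sum_congr rfl fun x _ ↦ ?_
  cases x with
  | none => exact TF_case3 p h6 e α β δ he h z hz
  | some j =>
    show TF p (some j) _ = (sgn e α β 1 δ : ℂ) * ((6 * z + e * δ) ^ 2 / e) *
      TF p (if (e * α : ZMod p) + 12 * j = 0 then none else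
          some (((β : ZMod p) + 2 * j * (e * δ)) / (2 * ((e * α : ZMod p) + 12 * j)))) z
    split_ifs with hj
    · exact TF_case2 p h6 e α β δ he h j hj z hz
    · exact TF_case1 p h6 e α β δ he h j hj z hz

/-- PROOF: `Tp_eq_sum`, the three cases, and `moeb_injective` (an injective map of a finite set is
a bijection: reindex the sum). Then `(α, β, δ) = (0, -1, 0)` for `e = 6`, `(1, -2, -1)` for `e = 3`,
`(1, -1, -1)` for `e = 2`. -/
theorem Tp_W (p : ℕ) (hp : p.Prime) (h6 : ¬ p ∣ 6) (z : ℂ) (hz : 0 < z.im) :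
    Tp p (-1 / (6 * z)) = -(6 * z ^ 2) * Tp p z ∧
    Tp p ((3 * z - 2) / (6 * z - 3)) = -((6 * z - 3) ^ 2 / 3) * Tp p z ∧
    Tp p ((2 * z - 1) / (6 * z - 2)) = -((6 * z - 2) ^ 2 / 2) * Tp p z := by
  refine ⟨?_, ?_, ?_⟩
  · have h1 := HK6_gen p hp h6 6 0 (-1) 0 (by norm_num) (by norm_num) z hz
    have e1 : (((6 : ℤ) : ℂ) * ((0 : ℤ) : ℂ) * z + ((-1 : ℤ) : ℂ)) /
        (6 * z + ((6 : ℤ) : ℂ) * ((0 : ℤ) : ℂ)) = -1 / (6 * z) := by
      push_cast; congr 1 <;> ring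
    have e2 : (sgn 6 0 (-1) 1 0 : ℤ) = -1 := by decide
    rw [e1, e2] at h1
    rw [h1]
    push_cast
    ring
  · have h1 := HK6_gen p hp h6 3 1 (-2) (-1) (by norm_num) (by norm_num) z hz
    have e1 : (((3 : ℤ) : ℂ) * ((1 : ℤ) : ℂ) * z + ((-2 : ℤ) : ℂ)) /
        (6 * z + ((3 : ℤ) : ℂ) * ((-1 : ℤ) : ℂ)) = (3 * z - 2) / (6 * z - 3) := by
      push_cast; congr 1 <;> ring
    have e2 : (sgn 3 1 (-2) 1 (-1) : ℤ) = -1 := by decide
    rw [e1, e2] at h1
    rw [h1]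
    push_cast
    ring
  · have h1 := HK6_gen p hp h6 2 1 (-1) (-1) (by norm_num) (by norm_num) z hz
    have e1 : (((2 : ℤ) : ℂ) * ((1 : ℤ) : ℂ) * z + ((-1 : ℤ) : ℂ)) /
        (6 * z + ((2 : ℤ) : ℂ) * ((-1 : ℤ) : ℂ)) = (2 * z - 1) / (6 * z - 2) := by
      push_cast; congr 1 <;> ring
    have e2 : (sgn 2 1 (-1) 1 (-1) : ℤ) = -1 := by decide
    rw [e1, e2] at h1
    rw [h1]
    push_cast
    ring
/- END HK6 -/

/- MODULE HK7 -/
private theorem HK7_diff (p : ℕ) (hp : p.Prime) :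
    DifferentiableOn ℂ (Tp p) {z | 0 < z.im} := by
  have hU : IsOpen {z : ℂ | 0 < z.im} := isOpen_lt continuous_const Complex.continuous_im
  have hp0 : (0 : ℝ) < p := by exact_mod_cast hp.pos
  have hf : ∀ z : ℂ, 0 < z.im → DifferentiableAt ℂ f z := fun z hz ↦
    (differentiableOn_f z hz).differentiableAt (hU.mem_nhds hz)
  intro z hz
  have hz' : 0 < z.im := hz
  apply DifferentiableAt.differentiableWithinAt
  have h1 : ∀ j ∈ Finset.range p, DifferentiableAt ℂ (fun z : ℂ ↦ f ((z + 2 * j) / p)) z := by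
    intro j _
    have h2 : 0 < ((z + 2 * (j : ℂ)) / (p : ℂ)).im := by
      have e : ((z + 2 * (j : ℂ)) / ((p : ℝ) : ℂ)).im = z.im / p := by
        rw [Complex.div_ofReal_im]
        simp
      have e' : (((p : ℝ) : ℂ)) = (p : ℂ) := by push_cast; rfl
      rw [e'] at e
      rw [e]
      positivity
    have h3 : DifferentiableAt ℂ (fun z : ℂ ↦ (z + 2 * (j : ℂ)) / (p : ℂ)) z := by fun_prop
    exact (hf _ h2).comp z h3
  have h4 : DifferentiableAt ℂ (fun z : ℂ ↦ f (p * z)) z := by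
    have h2 : 0 < ((p : ℂ) * z).im := by
      have e : ((p : ℂ) * z).im = p * z.im := by simp
      rw [e]
      positivity
    have h3 : DifferentiableAt ℂ (fun z : ℂ ↦ (p : ℂ) * z) z := by fun_prop
    exact (hf _ h2).comp z h3
  show DifferentiableAt ℂ (fun z ↦ (∑ j ∈ Finset.range p, f ((z + 2 * j) / p)) / p +
    p * f (p * z)) z
  exact ((DifferentiableAt.fun_sum h1).div_const _).add (h4.const_mul _)

/-- PROOF: `R = Tp p / f` is holomorphic, `R (z+1) = R z` (`Tp_add_one`, `f_add_one`),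
`R (W_e z) = R z` (`Tp_W`, `f_W6`, `f_W3`, `f_W2`), so `Inv R` by `inv_of_gens`; bounded for
`Im z ≥ 1` by `Tp_size`, `f_size`; `const_of_bdd`. -/
theorem Tp_eigen (p : ℕ) (hp : p.Prime) (h6 : ¬ p ∣ 6) :
    ∃ k : ℂ, ∀ z : ℂ, 0 < z.im → Tp p z = k * f z := by
  have hp2 : p ≠ 2 := by
    rintro rfl
    exact h6 (by norm_num)
  obtain ⟨R, hR⟩ : ∃ R : ℂ → ℂ, R = fun z ↦ Tp p z / f z := ⟨_, rfl⟩
  have hRz : ∀ z, R z = Tp p z / f z := fun z ↦ by rw [hR]
  have hT : ∀ z : ℂ, 0 < z.im → R (z + 1) = R z := by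
    intro z hz
    rw [hRz, hRz, Tp_add_one p hp hp2 z hz, f_add_one, neg_div_neg_eq]
  have aux : ∀ (K : ℂ) (u v : ℂ), K ≠ 0 → (K * u) / (K * v) = u / v := fun K u v hK ↦
    mul_div_mul_left _ _ hK
  have hne6 : ∀ z : ℂ, 0 < z.im → z ≠ 0 := by
    intro z hz h
    rw [h, Complex.zero_im] at hz
    exact lt_irrefl _ hz
  have hlin : ∀ (z : ℂ), 0 < z.im → ∀ k : ℝ, (6 * z - (k : ℂ)) ≠ 0 := by
    intro z hz k h
    have h1 := congrArg Complex.im h
    simp at h1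
    exact hz.ne' h1
  have h6' : ∀ z : ℂ, 0 < z.im → R (-1 / (6 * z)) = R z := by
    intro z hz
    rw [hRz, hRz, (Tp_W p hp h6 z hz).1, f_W6 z hz, aux]
    have := hne6 z hz
    simp [this]
  have h3' : ∀ z : ℂ, 0 < z.im → R ((3 * z - 2) / (6 * z - 3)) = R z := by
    intro z hz
    rw [hRz, hRz, (Tp_W p hp h6 z hz).2.1, f_W3 z hz, aux]
    have h1 := hlin z hz 3
    have h2 : (6 * z - 3 : ℂ) ≠ 0 := by simpa using h1
    exact neg_ne_zero.2 (div_ne_zero (pow_ne_zero 2 h2) (by norm_num))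
  have h2' : ∀ z : ℂ, 0 < z.im → R ((2 * z - 1) / (6 * z - 2)) = R z := by
    intro z hz
    rw [hRz, hRz, (Tp_W p hp h6 z hz).2.2, f_W2 z hz, aux]
    have h1 := hlin z hz 2
    have h2 : (6 * z - 2 : ℂ) ≠ 0 := by simpa using h1
    exact neg_ne_zero.2 (div_ne_zero (pow_ne_zero 2 h2) (by norm_num))
  have hinv : Inv R := inv_of_gens R hT h3' h6'
  have hb : Bdd R := by
    obtain ⟨C, hC⟩ := Tp_size p hp hp2
    obtain ⟨c, C', hc, hC', hs⟩ := f_size
    refine ⟨C / c, 1, fun z hz hz1 ↦ ?_⟩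
    rw [hRz, norm_div]
    have h1 := hC z hz1
    have h2 := (hs z hz1).1
    have he := Real.exp_pos (-(pi * z.im))
    have h3 : 0 < ‖f z‖ := lt_of_lt_of_le (mul_pos hc he) h2
    have hC0 : 0 ≤ C := by
      by_contra hneg
      have : C * Real.exp (-(pi * z.im)) < 0 := mul_neg_of_neg_of_pos (not_le.1 hneg) he
      linarith [norm_nonneg (Tp p z)]
    rw [div_le_div_iff₀ h3 hc]
    calc ‖Tp p z‖ * c ≤ C * Real.exp (-(pi * z.im)) * c := mul_le_mul_of_nonneg_right h1 hc.le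
      _ = C * (c * Real.exp (-(pi * z.im))) := by ring
      _ ≤ C * ‖f z‖ := mul_le_mul_of_nonneg_left h2 hC0
  have hd : DifferentiableOn ℂ R {z | 0 < z.im} := by
    rw [hR]
    exact (HK7_diff p hp).fun_div differentiableOn_f fun z hz ↦ f_ne_zero z hz
  have hb2 : ∀ g : ℂ → ℂ, (∀ z : ℂ, 0 < z.im → R (g z) = R z) → Bdd fun z ↦ R (g z) := by
    intro g hg
    obtain ⟨C, Y, h⟩ := hb
    refine ⟨C, Y, fun z hz hY ↦ ?_⟩
    show ‖R (g z)‖ ≤ C
    rw [hg z hz]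
    exact h z hz hY
  obtain ⟨k, hk⟩ := const_of_bdd R hd hinv hb (hb2 _ h2') (hb2 _ h3') (hb2 _ h6')
  refine ⟨k, fun z hz ↦ ?_⟩
  have h1 := hk z hz
  rw [hRz, div_eq_iff (f_ne_zero z hz)] at h1
  exact h1

/-- PROOF: `Tp_eigen`, `hasSum_Tp`, `hasSum_f`, `coeff_unique`: `a(pn) + p a(n/p) = k a(n)` for all
`n`; `n = 1`: `k = a(p)` (`a 1 = 1`). -/
theorem a_rec_p (p : ℕ) (hp : p.Prime) (h6 : ¬ p ∣ 6) (n : ℕ) :
    a (p * n) = a p * a n - p * (if p ∣ n then a (n / p) else 0) := by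
  obtain ⟨k, hk⟩ := Tp_eigen p hp h6
  have h1 := coeff_unique
    (fun n ↦ (a (p * n) : ℂ) + p * (if p ∣ n then (a (n / p) : ℂ) else 0))
    (fun n ↦ k * (a n : ℂ)) (fun z hz ↦ ⟨k * f z, by
      have h2 := hasSum_Tp p hp z hz
      rw [hk z hz] at h2
      exact h2, by
      have h2 := (hasSum_f z hz).mul_left k
      have e : (fun n : ℕ ↦ k * (a n : ℂ) * exp (pi * I * n * z)) =
          fun n : ℕ ↦ k * ((a n : ℂ) * exp (pi * I * n * z)) := by
        funext n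
        rw [mul_assoc]
      rw [e]
      exact h2⟩)
  have h3 : k = (a p : ℂ) := by
    have h4 := congrFun h1 1
    have h5 : ¬ p ∣ 1 := hp.one_lt.ne' ∘ Nat.dvd_one.1
    simp only [mul_one, h5, if_false, mul_zero, add_zero, a_values.1, Int.cast_one] at h4
    exact h4.symm
  have h4 := congrFun h1 n
  simp only [h3] at h4
  have h5 : ((a (p * n) + p * (if p ∣ n then a (n / p) else 0) : ℤ) : ℂ) =
      ((a p * a n : ℤ) : ℂ) := by
    push_cast
    rw [← h4]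
  have h6 : a (p * n) + p * (if p ∣ n then a (n / p) else 0) = a p * a n := by exact_mod_cast h5
  rw [← h6]
  ring
/- END HK7 -/

/-! ### The operator `U_3` -/

/-- The operator `U_3` on `f`. -/
noncomputable def U3 (z : ℂ) : ℂ := (∑ j ∈ Finset.range 3, f ((z + 2 * j) / 3)) / 3

/- MODULE HU1 -/
private theorem HU1_root (n : ℕ) :
    (∑ j ∈ Finset.range 3, exp (2 * pi * I * n * j / 3)) = if 3 ∣ n then 3 else 0 := by
  have hw : ∀ j : ℕ, exp (2 * pi * I * n * j / 3) = exp (2 * pi * I * n / 3) ^ j := by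
    intro j
    rw [← Complex.exp_nat_mul]
    congr 1
    ring
  rw [Finset.sum_congr rfl fun j _ => hw j]
  split_ifs with h
  · obtain ⟨k, hk⟩ := h
    have h1 : exp (2 * pi * I * n / 3) = 1 := by
      rw [Complex.exp_eq_one_iff]
      refine ⟨k, ?_⟩
      rw [hk]
      push_cast
      ring
    rw [h1]
    norm_num
  · have h1 : exp (2 * pi * I * n / 3) ≠ 1 := by
      intro h2
      rw [Complex.exp_eq_one_iff] at h2
      obtain ⟨k, hk⟩ := h2
      apply h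
      have h3 : (2 * pi * I : ℂ) ≠ 0 := by
        simp [Real.pi_ne_zero]
      have h4 : (n : ℂ) = 3 * k := by
        have h5 : (2 * pi * I) * ((n : ℂ) - 3 * k) = 0 := by
          linear_combination 3 * hk
        rcases mul_eq_zero.1 h5 with h6 | h6
        · exact absurd h6 h3
        · exact sub_eq_zero.1 h6
      have h5 : (n : ℤ) = 3 * k := by exact_mod_cast h4
      have h6 : (3 : ℤ) ∣ n := ⟨k, h5⟩
      exact_mod_cast h6
    have h2 : exp (2 * pi * I * n / 3) ^ 3 = 1 := by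
      rw [← Complex.exp_nat_mul, Complex.exp_eq_one_iff]
      refine ⟨n, ?_⟩
      push_cast
      ring
    have h3 : (exp (2 * pi * I * n / 3) - 1) * (∑ j ∈ Finset.range 3,
        exp (2 * pi * I * n / 3) ^ j) = 0 := by
      rw [mul_geom_sum, h2, sub_self]
    rcases mul_eq_zero.1 h3 with h4 | h4
    · exact absurd (sub_eq_zero.1 h4) h1
    · exact h4

/-- PROOF: as `hasSum_Tp`. -/
theorem hasSum_U3 (z : ℂ) (hz : 0 < z.im) :
    HasSum (fun n : ℕ ↦ (a (3 * n) : ℂ) * exp (pi * I * n * z)) (U3 z) := by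
  have h1 : ∀ j ∈ Finset.range 3, HasSum (fun n : ℕ ↦ (a n : ℂ) *
      exp (pi * I * n * ((z + 2 * j) / 3))) (f ((z + 2 * j) / 3)) := by
    intro j _
    apply hasSum_f
    have h2 : ((z + 2 * j) / 3).im = z.im / 3 := by
      have : ((z + 2 * j) / 3) = (z + ((2 * j : ℕ) : ℝ)) / ((3 : ℝ) : ℂ) := by
        push_cast
        ring
      rw [this, Complex.div_ofReal_im, Complex.add_im, Complex.ofReal_im, add_zero]
    rw [h2]
    positivity
  have h2 := (hasSum_sum h1).div_const 3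
  have h3 : ∀ n : ℕ, (∑ j ∈ Finset.range 3, (a n : ℂ) * exp (pi * I * n * ((z + 2 * j) / 3))) / 3 =
      if 3 ∣ n then (a n : ℂ) * exp (pi * I * n * (z / 3)) else 0 := by
    intro n
    have h4 : ∀ j ∈ Finset.range 3, (a n : ℂ) * exp (pi * I * n * ((z + 2 * j) / 3)) =
        (a n : ℂ) * exp (pi * I * n * (z / 3)) * exp (2 * pi * I * n * j / 3) := by
      intro j _
      have he : exp (pi * I * n * ((z + 2 * j) / 3)) =
          exp (pi * I * n * (z / 3)) * exp (2 * pi * I * n * j / 3) := by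
        rw [← Complex.exp_add]
        congr 1
        ring
      rw [he]
      exact (mul_assoc _ _ _).symm
    rw [Finset.sum_congr rfl h4, ← Finset.mul_sum, HU1_root]
    split_ifs
    · ring
    · simp
  have h5 : HasSum (fun n : ℕ => if 3 ∣ n then (a n : ℂ) * exp (pi * I * n * (z / 3)) else 0)
      (U3 z) := by
    unfold U3
    have h6 := h2
    simp only [h3] at h6
    exact h6
  have hinj : Function.Injective (fun m : ℕ => 3 * m) := fun x y hxy => by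
    simpa using hxy
  have h6 := (hinj.hasSum_iff (f := fun n : ℕ => if 3 ∣ n then (a n : ℂ) *
    exp (pi * I * n * (z / 3)) else 0) (by
      intro x hx
      rw [if_neg]
      rintro ⟨k, hk⟩
      exact hx ⟨k, hk.symm⟩)).2 h5
  have he : (fun n : ℕ ↦ (a (3 * n) : ℂ) * exp (pi * I * n * z)) =
      (fun n : ℕ => if 3 ∣ n then (a n : ℂ) * exp (pi * I * n * (z / 3)) else 0) ∘
        (fun m : ℕ => 3 * m) := by
    funext m
    rw [Function.comp_apply, if_pos (dvd_mul_right 3 m)]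
    congr 2
    push_cast
    ring
  rw [he]
  exact h6

theorem U3_size : ∃ C : ℝ, ∀ z : ℂ, 1 ≤ z.im → ‖U3 z‖ ≤ C * Real.exp (-(pi * z.im)) := by
  have hI : HasSum (fun n : ℕ ↦ (a (3 * n) : ℂ) * exp (pi * I * n * I)) (U3 I) :=
    hasSum_U3 I (by simp)
  have hn : ∀ (n : ℕ) (z : ℂ), ‖(a (3 * n) : ℂ) * exp (pi * I * n * z)‖ =
      |(a (3 * n) : ℝ)| * Real.exp (-(pi * n * z.im)) := by
    intro n z
    rw [norm_mul, Complex.norm_exp, Complex.norm_intCast]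
    congr 2
    have : (pi * I * n * z : ℂ) = ((pi * n : ℝ) : ℂ) * (I * z) := by
      push_cast
      ring
    rw [this, Complex.re_ofReal_mul, Complex.I_mul_re]
    ring
  have hs : Summable (fun n : ℕ => |(a (3 * n) : ℝ)| * Real.exp (-(pi * n))) := by
    have h1 := hI.summable.norm
    simp only [hn] at h1
    simpa using h1
  refine ⟨(∑' n : ℕ, |(a (3 * n) : ℝ)| * Real.exp (-(pi * n))) * Real.exp pi, ?_⟩
  intro z hz
  have h1 := hasSum_U3 z (by linarith)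
  have hb : ∀ n : ℕ, ‖(a (3 * n) : ℂ) * exp (pi * I * n * z)‖ ≤
      |(a (3 * n) : ℝ)| * Real.exp (-(pi * n)) * (Real.exp pi * Real.exp (-(pi * z.im))) := by
    intro n
    rw [hn]
    rcases Nat.eq_zero_or_pos n with h0 | h0
    · subst h0
      have h2 : a (3 * 0) = 0 := a_even _ (by simp)
      rw [h2]
      simp
    · have he : |(a (3 * n) : ℝ)| * Real.exp (-(pi * n)) * (Real.exp pi * Real.exp (-(pi * z.im))) =
          |(a (3 * n) : ℝ)| * (Real.exp (-(pi * n)) * (Real.exp pi * Real.exp (-(pi * z.im)))) :=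
        mul_assoc _ _ _
      rw [he]
      apply mul_le_mul_of_nonneg_left _ (abs_nonneg _)
      rw [← Real.exp_add, ← Real.exp_add, Real.exp_le_exp]
      have h2 : (1 : ℝ) ≤ n := by exact_mod_cast h0
      have h3 : 0 ≤ pi * (((n : ℝ) - 1) * (z.im - 1)) := by
        apply mul_nonneg Real.pi_pos.le
        apply mul_nonneg <;> linarith
      nlinarith [h3]
  rw [← h1.tsum_eq]
  have h2 : Summable (fun n : ℕ => |(a (3 * n) : ℝ)| * Real.exp (-(pi * n)) *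
      (Real.exp pi * Real.exp (-(pi * z.im)))) := hs.mul_right _
  refine (norm_tsum_le_tsum_norm (Summable.of_nonneg_of_le (fun n => norm_nonneg _) hb h2)).trans ?_
  refine (Summable.tsum_le_tsum hb (Summable.of_nonneg_of_le (fun n => norm_nonneg _) hb h2)
    h2).trans (le_of_eq ?_)
  rw [tsum_mul_right]
  ring
/- END HU1 -/

/- MODULE HU2 -/
private theorem HU2_im (z : ℂ) (hz : 0 < z.im) (k : ℤ) : 0 < ((z + 2 * (k : ℂ)) / 3).im := by
  have h2 : ((z + 2 * (k : ℂ)) / 3).im = z.im / 3 := by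
    have : ((z + 2 * (k : ℂ)) / 3) = (z + ((2 * k : ℤ) : ℝ)) / ((3 : ℝ) : ℂ) := by
      push_cast
      ring
    rw [this, Complex.div_ofReal_im, Complex.add_im, Complex.ofReal_im, add_zero]
  rw [h2]
  positivity

private theorem HU2_per (z : ℂ) (k : ℤ) :
    f ((z + 2 * ((k + 3 : ℤ) : ℂ)) / 3) = f ((z + 2 * (k : ℂ)) / 3) := by
  have h1 : (z + 2 * ((k + 3 : ℤ) : ℂ)) / 3 = ((z + 2 * (k : ℂ)) / 3 + 1) + 1 := by
    push_cast
    ring
  rw [h1, f_add_one, f_add_one, neg_neg]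

private theorem HU2_sum (z : ℂ) (k : ℤ) :
    f ((z + 2 * (k : ℂ)) / 3) + f ((z + 2 * ((k + 1 : ℤ) : ℂ)) / 3) +
      f ((z + 2 * ((k + 2 : ℤ) : ℂ)) / 3) = 3 * U3 z := by
  have h0 : 3 * U3 z = f ((z + 2 * ((0 : ℤ) : ℂ)) / 3) + f ((z + 2 * ((0 + 1 : ℤ) : ℂ)) / 3) +
      f ((z + 2 * ((0 + 2 : ℤ) : ℂ)) / 3) := by
    unfold U3
    rw [Finset.sum_range_succ, Finset.sum_range_succ, Finset.sum_range_one]
    push_cast
    ring_nf
  have hstep : ∀ k : ℤ, f ((z + 2 * ((k + 1 : ℤ) : ℂ)) / 3) +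
      f ((z + 2 * ((k + 1 + 1 : ℤ) : ℂ)) / 3) + f ((z + 2 * ((k + 1 + 2 : ℤ) : ℂ)) / 3) =
      f ((z + 2 * (k : ℂ)) / 3) + f ((z + 2 * ((k + 1 : ℤ) : ℂ)) / 3) +
      f ((z + 2 * ((k + 2 : ℤ) : ℂ)) / 3) := by
    intro k
    have h1 := HU2_per z k
    rw [show k + 1 + 2 = k + 3 by ring, show k + 1 + 1 = k + 2 by ring, h1]
    ring
  rw [h0]
  induction k using Int.induction_on with
  | zero => rfl
  | succ n ih =>
    rw [hstep]
    exact ih
  | pred n ih =>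
    have h1 := hstep (-(n : ℤ) - 1)
    have e1 : -(n : ℤ) - 1 + 1 = -(n : ℤ) := by ring
    have e2 : -(n : ℤ) - 1 + 2 = -(n : ℤ) + 1 := by ring
    simp only [e1, e2] at h1 ⊢
    rw [← h1, show -(n : ℤ) + 2 = -(n : ℤ) + 2 from rfl]
    exact ih

private theorem HU2_U3 (z : ℂ) : U3 z = (f ((z + 2 * ((0 : ℤ) : ℂ)) / 3) +
    f ((z + 2 * ((1 : ℤ) : ℂ)) / 3) + f ((z + 2 * ((2 : ℤ) : ℂ)) / 3)) / 3 := by
  unfold U3
  rw [Finset.sum_range_succ, Finset.sum_range_succ, Finset.sum_range_one]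
  push_cast
  rfl

/-- `U_3 f` under `Γ_0(6)`. PROOF: for `γ = (a b; 6c d)` and `j`, `(γ z + 2j)/3 = γ' ((z + 2j')/3)`,
`γ' = (a + 12 j c, (b + 2jd - 2j'(a + 12jc))/3; 18 c, d - 12 j' c)`, where `j' ∈ {0, 1, 2}` is the
solution of `2 j' a = b + 2 j d` modulo `3` (`3 ∤ a`); `j ↦ j'` is a bijection of `{0, 1, 2}`
(`3 ∤ d`); `f_one`, the sign does not change; `18 c (z + 2j')/3 + d - 12 j' c = 6 c z + d`. -/
theorem U3_one (a b c d : ℤ) (h : a * d - 6 * b * c = 1) (z : ℂ) (hz : 0 < z.im) :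
    U3 ((a * z + b) / (6 * c * z + d)) = (-1) ^ (b + c) * (6 * c * z + d) ^ 2 * U3 z := by
  have hden : (6 * c * z + d : ℂ) ≠ 0 := by
    have h1 := (moeb_im_int a b (6 * c) d (by linarith) z hz).1
    push_cast at h1
    exact h1
  obtain ⟨k, hk⟩ : ∃ k : ℤ, a ^ 2 = 1 + 3 * k := by
    have h1 : a % 3 = 0 ∨ a % 3 = 1 ∨ a % 3 = 2 := by omega
    rcases h1 with h1 | h1 | h1
    · exfalso
      obtain ⟨m, hm⟩ := Int.dvd_of_emod_eq_zero h1
      rw [hm] at h
      have h2 : 3 * (m * d - 2 * b * c) = 1 := by linarith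
      omega
    · obtain ⟨m, hm⟩ : ∃ m : ℤ, a = 3 * m + 1 := ⟨a / 3, by omega⟩
      exact ⟨3 * m ^ 2 + 2 * m, by rw [hm]; ring⟩
    · obtain ⟨m, hm⟩ : ∃ m : ℤ, a = 3 * m + 2 := ⟨a / 3, by omega⟩
      exact ⟨3 * m ^ 2 + 4 * m + 1, by rw [hm]; ring⟩
  obtain ⟨m, hm⟩ : ∃ m : ℤ, d - a = 3 * m :=
    ⟨a * (2 * b * c - k) - k * (d - a), by
      have h1 : a * (d - a) = 3 * (2 * b * c - k) := by linarith
      have h2 : a ^ 2 * (d - a) = 3 * a * (2 * b * c - k) := by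
        have : a ^ 2 * (d - a) = a * (a * (d - a)) := by ring
        rw [this, h1]
        ring
      rw [hk] at h2
      linarith⟩
  have key : ∀ j : ℤ, f (((a * z + b) / (6 * c * z + d) + 2 * (j : ℂ)) / 3) =
      (-1) ^ (b + c) * (6 * c * z + d) ^ 2 * f ((z + 2 * ((j - a * b : ℤ) : ℂ)) / 3) := by
    intro j
    obtain ⟨N, hN⟩ : ∃ N : ℤ, N = j * m + k * b - 4 * j ^ 2 * c + 4 * a * b * j * c := ⟨_, rfl⟩
    have hB : 3 * (b + 2 * N) = b + 2 * j * d - 2 * (j - a * b) * (a + 12 * j * c) := by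
      rw [hN]
      have h1 : d = a + 3 * m := by linarith
      rw [h1]
      have h2 : 2 * b * a ^ 2 = 2 * b * (1 + 3 * k) := by rw [hk]
      linarith
    have hdet : (a + 12 * j * c) * (d - 12 * (j - a * b) * c) - 6 * (b + 2 * N) * (3 * c) = 1 := by
      have h1 : 6 * (b + 2 * N) * (3 * c) = 6 * c * (3 * (b + 2 * N)) := by ring
      rw [h1, hB, ← h]
      ring
    have h1 := f_one (a + 12 * j * c) (b + 2 * N) (3 * c) (d - 12 * (j - a * b) * c) hdet
      ((z + 2 * ((j - a * b : ℤ) : ℂ)) / 3) (HU2_im z hz _)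
    have hBc : (3 : ℂ) * (b + 2 * N) = b + 2 * j * d - 2 * (j - a * b) * (a + 12 * j * c) := by
      exact_mod_cast hB
    have h2 : (6 * ((3 * c : ℤ) : ℂ) * ((z + 2 * ((j - a * b : ℤ) : ℂ)) / 3) +
        ((d - 12 * (j - a * b) * c : ℤ) : ℂ)) = 6 * c * z + d := by
      push_cast
      ring
    have h3 : (((a + 12 * j * c : ℤ) : ℂ) * ((z + 2 * ((j - a * b : ℤ) : ℂ)) / 3) +
        ((b + 2 * N : ℤ) : ℂ)) / (6 * c * z + d) =
        ((a * z + b) / (6 * c * z + d) + 2 * (j : ℂ)) / 3 := by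
      rw [div_add' _ _ _ hden, div_div, div_eq_div_iff hden (mul_ne_zero hden (by norm_num))]
      push_cast
      linear_combination (6 * c * z + d) * hBc
    rw [h2, h3] at h1
    rw [h1]
    congr 2
    have h4 : b + 2 * N + 3 * c = (b + c) + 2 * (N + c) := by ring
    rw [h4, zpow_add₀ (by norm_num : (-1 : ℂ) ≠ 0), (even_two_mul (N + c)).neg_one_zpow, mul_one]
  rw [HU2_U3, key 0, key 1, key 2, ← mul_add, ← mul_add]
  have h5 := HU2_sum z (0 - a * b)
  rw [show 0 - a * b + 1 = 1 - a * b by ring, show 0 - a * b + 2 = 2 - a * b by ring] at h5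
  rw [h5]
  ring
/- END HU2 -/

/- MODULE HU3 -/
/-- `U_3 f` under `W_2 = (2 -1; 6 -2)`. PROOF: the same with
`(W z + 2j)/3 = W' ((z + 2j')/3)`, `W' = (2 + 12j, (-1 - 4j - 2j'(2+12j))/3; 18, -2 - 12 j')`, type
`2`: `-1 - 4j = 4 j'` modulo `3`: `j' = 2 + 2j`. -/
theorem U3_W2 (z : ℂ) (hz : 0 < z.im) :
    U3 ((2 * z - 1) / (6 * z - 2)) = -((6 * z - 2) ^ 2 / 2) * U3 z := by
  have hden : (6 * z - 2 : ℂ) ≠ 0 := by
    have h1 := (moeb_im_int 2 (-1) 6 (-2) (by norm_num) z hz).1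
    push_cast at h1
    rwa [← sub_eq_add_neg] at h1
  have key : ∀ j : ℤ, f (((2 * z - 1) / (6 * z - 2) + 2 * (j : ℂ)) / 3) =
      -((6 * z - 2) ^ 2 / 2) * f ((z + 2 * ((2 + 2 * j : ℤ) : ℂ)) / 3) := by
    intro j
    have h1 := f_two (1 + 6 * j) (-3 - 20 * j - 16 * j ^ 2) 3 (-1 - 6 * (2 + 2 * j)) (by ring)
      ((z + 2 * ((2 + 2 * j : ℤ) : ℂ)) / 3) (HU2_im z hz _)
    have h2 : (6 * ((3 : ℤ) : ℂ) * ((z + 2 * ((2 + 2 * j : ℤ) : ℂ)) / 3) +
        2 * ((-1 - 6 * (2 + 2 * j) : ℤ) : ℂ)) = 6 * z - 2 := by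
      push_cast
      ring
    have h3 : (2 * ((1 + 6 * j : ℤ) : ℂ) * ((z + 2 * ((2 + 2 * j : ℤ) : ℂ)) / 3) +
        ((-3 - 20 * j - 16 * j ^ 2 : ℤ) : ℂ)) / (6 * z - 2) =
        ((2 * z - 1) / (6 * z - 2) + 2 * (j : ℂ)) / 3 := by
      rw [div_add' _ _ _ hden, div_div, div_eq_div_iff hden (mul_ne_zero hden (by norm_num))]
      push_cast
      ring
    rw [h2, h3] at h1
    rw [h1]
    have h4 : (1 + 6 * j) + (-1 - 6 * (2 + 2 * j)) = 2 * (-3 * j - 6) := by ring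
    rw [h4, (even_two_mul (-3 * j - 6)).neg_one_zpow]
    ring
  rw [HU2_U3, key 0, key 1, key 2, ← mul_add, ← mul_add]
  have h5 := HU2_sum z 2
  have h7 := HU2_per z (2 + 1)
  have h8 : f ((z + 2 * ((2 + 2 * 0 : ℤ) : ℂ)) / 3) + f ((z + 2 * ((2 + 2 * 1 : ℤ) : ℂ)) / 3) +
      f ((z + 2 * ((2 + 2 * 2 : ℤ) : ℂ)) / 3) = 3 * U3 z := by
    rw [show (2 + 2 * 0 : ℤ) = 2 from rfl, show (2 + 2 * 1 : ℤ) = 2 + 2 from rfl,
      show (2 + 2 * 2 : ℤ) = 2 + 1 + 3 from rfl, h7, ← h5]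
    ring
  rw [h8]
  ring
/- END HU3 -/

/- MODULE HU4 -/
private theorem HU4_eq (x y u v t : ℂ) (hy : y ≠ 0) (hv : v ≠ 0)
    (h : (x + t * y) * v = u * (3 * y)) : (x / y + t) / 3 = u / v := by
  rw [div_add' _ _ _ hy, div_div, div_eq_div_iff (mul_ne_zero hy (by norm_num)) hv, h]
  ring

/-- `U_3 f` at the cusp of `W_3`. PROOF: with `W = (3 -2; 6 -3)`, the three arguments
`(W z + 2j)/3` are: `j = 0`: `(3z-2)/(18z-9)`, which is `γ ((3 z + β)/3) = γ (z + β/3)` with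
`γ = (1 B; 6 D) ∈ Γ_0(6)`; `j = 1`: first column `(15, 18) = 3 (5, 6)`, `γ = (5 B; 6 D)`, again
`γ (z + β/3)`; `j = 2`: `(27z-14)/(18z-9) = (9w+4)/(6w+3)` with `w = 3z - 2` (type `3`, use
`f_three` with `a = 3, b = 4, c = 1, d = 1`). By `f_one`, `f_three` each `f`-value is
`± (const) (6z-3)^2 f(z + β/3)` or `f(3z-2)`; bounded by `C |6z-3|^2 exp(-π Im z)` (`f_size`). -/
theorem U3_W3_size : ∃ C : ℝ, ∀ z : ℂ, 1 ≤ z.im →
    ‖U3 ((3 * z - 2) / (6 * z - 3))‖ ≤ C * ‖6 * z - 3‖ ^ 2 * Real.exp (-(pi * z.im)) := by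
  obtain ⟨c, C, hc, hC, hs⟩ := f_size
  refine ⟨5 / 3 * C, fun z hz ↦ ?_⟩
  have hz0 : 0 < z.im := by linarith
  have him : ∀ k : ℝ, ((z - (k : ℂ)).im) = z.im := by
    intro k
    rw [Complex.sub_im, Complex.ofReal_im, sub_zero]
  have hne : (6 * z - 3 : ℂ) ≠ 0 := by
    intro h
    have h1 := congrArg Complex.im h
    simp at h1
    linarith
  -- the three arguments
  have e0 : ((3 * z - 2) / (6 * z - 3) + 2 * ((0 : ℕ) : ℂ)) / 3 =
      (((1 : ℤ) : ℂ) * (z - ((2 / 3 : ℝ) : ℂ)) + ((0 : ℤ) : ℂ)) /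
        (6 * ((1 : ℤ) : ℂ) * (z - ((2 / 3 : ℝ) : ℂ)) + ((1 : ℤ) : ℂ)) := by
    have h1 : (6 * ((1 : ℤ) : ℂ) * (z - ((2 / 3 : ℝ) : ℂ)) + ((1 : ℤ) : ℂ)) = 6 * z - 3 := by
      push_cast; ring
    rw [h1]
    refine HU4_eq _ _ _ _ _ hne hne ?_
    push_cast
    ring
  have e1 : ((3 * z - 2) / (6 * z - 3) + 2 * ((1 : ℕ) : ℂ)) / 3 =
      (((5 : ℤ) : ℂ) * (z - ((1 / 3 : ℝ) : ℂ)) + ((-1 : ℤ) : ℂ)) /
        (6 * ((1 : ℤ) : ℂ) * (z - ((1 / 3 : ℝ) : ℂ)) + ((-1 : ℤ) : ℂ)) := by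
    have h1 : (6 * ((1 : ℤ) : ℂ) * (z - ((1 / 3 : ℝ) : ℂ)) + ((-1 : ℤ) : ℂ)) = 6 * z - 3 := by
      push_cast; ring
    rw [h1]
    refine HU4_eq _ _ _ _ _ hne hne ?_
    push_cast
    ring
  have e2 : ((3 * z - 2) / (6 * z - 3) + 2 * ((2 : ℕ) : ℂ)) / 3 =
      (3 * ((3 : ℤ) : ℂ) * (3 * z - 2) + ((4 : ℤ) : ℂ)) /
        (6 * ((1 : ℤ) : ℂ) * (3 * z - 2) + 3 * ((1 : ℤ) : ℂ)) := by
    have h1 : (6 * ((1 : ℤ) : ℂ) * (3 * z - 2) + 3 * ((1 : ℤ) : ℂ)) = 3 * (6 * z - 3) := by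
      push_cast; ring
    rw [h1]
    refine HU4_eq _ _ _ _ _ hne (mul_ne_zero (by norm_num) hne) ?_
    push_cast
    ring
  have f0 := f_one 1 0 1 1 (by norm_num) (z - ((2 / 3 : ℝ) : ℂ)) (by rw [him]; exact hz0)
  have f1 := f_one 5 (-1) 1 (-1) (by norm_num) (z - ((1 / 3 : ℝ) : ℂ)) (by rw [him]; exact hz0)
  have him3 : (3 * z - 2 : ℂ).im = 3 * z.im := by simp
  have f2 := f_three 3 4 1 1 (by norm_num) (3 * z - 2) (by rw [him3]; linarith)
  rw [← e0] at f0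
  rw [← e1] at f1
  rw [← e2] at f2
  have g0 : ‖f (((3 * z - 2) / (6 * z - 3) + 2 * ((0 : ℕ) : ℂ)) / 3)‖ ≤
      C * ‖6 * z - 3‖ ^ 2 * Real.exp (-(pi * z.im)) := by
    rw [f0]
    have h1 : (6 * ((1 : ℤ) : ℂ) * (z - ((2 / 3 : ℝ) : ℂ)) + ((1 : ℤ) : ℂ)) = 6 * z - 3 := by
      push_cast; ring
    have h2 := (hs (z - ((2 / 3 : ℝ) : ℂ)) (by rw [him]; exact hz)).2
    rw [him] at h2
    rw [h1, norm_mul, norm_mul, norm_pow, norm_zpow, norm_neg, norm_one, one_zpow, one_mul]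
    calc ‖6 * z - 3‖ ^ 2 * ‖f (z - ((2 / 3 : ℝ) : ℂ))‖ ≤
        ‖6 * z - 3‖ ^ 2 * (C * Real.exp (-(pi * z.im))) :=
          mul_le_mul_of_nonneg_left h2 (by positivity)
      _ = _ := by ring
  have g1 : ‖f (((3 * z - 2) / (6 * z - 3) + 2 * ((1 : ℕ) : ℂ)) / 3)‖ ≤
      C * ‖6 * z - 3‖ ^ 2 * Real.exp (-(pi * z.im)) := by
    rw [f1]
    have h1 : (6 * ((1 : ℤ) : ℂ) * (z - ((1 / 3 : ℝ) : ℂ)) + ((-1 : ℤ) : ℂ)) = 6 * z - 3 := by
      push_cast; ring
    have h2 := (hs (z - ((1 / 3 : ℝ) : ℂ)) (by rw [him]; exact hz)).2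
    rw [him] at h2
    rw [h1, norm_mul, norm_mul, norm_pow, norm_zpow, norm_neg, norm_one, one_zpow, one_mul]
    calc ‖6 * z - 3‖ ^ 2 * ‖f (z - ((1 / 3 : ℝ) : ℂ))‖ ≤
        ‖6 * z - 3‖ ^ 2 * (C * Real.exp (-(pi * z.im))) :=
          mul_le_mul_of_nonneg_left h2 (by positivity)
      _ = _ := by ring
  have g2 : ‖f (((3 * z - 2) / (6 * z - 3) + 2 * ((2 : ℕ) : ℂ)) / 3)‖ ≤
      3 * (C * ‖6 * z - 3‖ ^ 2 * Real.exp (-(pi * z.im))) := by
    rw [f2]
    have h1 : (6 * ((1 : ℤ) : ℂ) * (3 * z - 2) + 3 * ((1 : ℤ) : ℂ)) ^ 2 / 3 =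
        3 * (6 * z - 3) ^ 2 := by
      push_cast; ring
    have h2 := (hs (3 * z - 2) (by rw [him3]; linarith)).2
    rw [him3] at h2
    have h3 : Real.exp (-(pi * (3 * z.im))) ≤ Real.exp (-(pi * z.im)) := by
      apply Real.exp_le_exp.2
      nlinarith [Real.pi_pos]
    rw [h1, norm_mul, norm_mul, norm_mul, norm_pow, norm_zpow, norm_neg, norm_one, one_zpow,
      one_mul]
    have h4 : ‖(3 : ℂ)‖ = 3 := by norm_num
    rw [h4]
    calc 3 * ‖6 * z - 3‖ ^ 2 * ‖f (3 * z - 2)‖ ≤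
        3 * ‖6 * z - 3‖ ^ 2 * (C * Real.exp (-(pi * (3 * z.im)))) :=
          mul_le_mul_of_nonneg_left h2 (by positivity)
      _ ≤ 3 * ‖6 * z - 3‖ ^ 2 * (C * Real.exp (-(pi * z.im))) := by gcongr
      _ = _ := by ring
  unfold U3
  rw [Finset.sum_range_succ, Finset.sum_range_succ, Finset.sum_range_one, norm_div]
  have h5 : ‖(3 : ℂ)‖ = 3 := by norm_num
  rw [h5, div_le_iff₀ (by norm_num)]
  refine (norm_add₃_le).trans ?_
  linarith
/- END HU4 -/

/- MODULE HU5 -/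
/-- `U_3 f` at the cusp of `W_6`. PROOF: `(-1/(6z) + 2j)/3`: `j = 0`: `-1/(6 (3z))` (`f_W6`);
`j = 1`: `(12z-1)/(18z) = (4w+1)/(6w+2)` with `w = z - 1/3` (type `2`: `f_two` with
`a = 2, b = 1, c = 1, d = 1`); `j = 2`: `(24z-1)/(18z) = (8w+5)/(6w+4)`, `w = z - 2/3` (`f_two` with
`a = 4, b = 5, c = 1, d = 2`). -/
theorem U3_W6_size : ∃ C : ℝ, ∀ z : ℂ, 1 ≤ z.im →
    ‖U3 (-1 / (6 * z))‖ ≤ C * ‖z‖ ^ 2 * Real.exp (-(pi * z.im)) := by
  obtain ⟨c, C, hc, hC, hs⟩ := f_size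
  refine ⟨30 * C, fun z hz ↦ ?_⟩
  have hz0 : 0 < z.im := by linarith
  have him : ∀ k : ℝ, ((z - (k : ℂ)).im) = z.im := by
    intro k
    rw [Complex.sub_im, Complex.ofReal_im, sub_zero]
  have hne : z ≠ 0 := by
    intro h
    rw [h, Complex.zero_im] at hz0
    exact lt_irrefl _ hz0
  have e0 : (-1 / (6 * z) + 2 * ((0 : ℕ) : ℂ)) / 3 = -1 / (6 * (3 * z)) := by
    field_simp
    push_cast
    ring
  have e1 : (-1 / (6 * z) + 2 * ((1 : ℕ) : ℂ)) / 3 =
      (2 * ((2 : ℤ) : ℂ) * (z - ((1 / 3 : ℝ) : ℂ)) + ((1 : ℤ) : ℂ)) /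
        (6 * ((1 : ℤ) : ℂ) * (z - ((1 / 3 : ℝ) : ℂ)) + 2 * ((1 : ℤ) : ℂ)) := by
    have h1 : (6 * ((1 : ℤ) : ℂ) * (z - ((1 / 3 : ℝ) : ℂ)) + 2 * ((1 : ℤ) : ℂ)) = 6 * z := by
      push_cast; ring
    rw [h1]
    field_simp
    push_cast
    ring
  have e2 : (-1 / (6 * z) + 2 * ((2 : ℕ) : ℂ)) / 3 =
      (2 * ((4 : ℤ) : ℂ) * (z - ((2 / 3 : ℝ) : ℂ)) + ((5 : ℤ) : ℂ)) /
        (6 * ((1 : ℤ) : ℂ) * (z - ((2 / 3 : ℝ) : ℂ)) + 2 * ((2 : ℤ) : ℂ)) := by
    have h1 : (6 * ((1 : ℤ) : ℂ) * (z - ((2 / 3 : ℝ) : ℂ)) + 2 * ((2 : ℤ) : ℂ)) = 6 * z := by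
      push_cast; ring
    rw [h1]
    field_simp
    push_cast
    ring
  have him3 : (3 * z : ℂ).im = 3 * z.im := by simp
  have f0 := f_W6 (3 * z) (by rw [him3]; linarith)
  have f1 := f_two 2 1 1 1 (by norm_num) (z - ((1 / 3 : ℝ) : ℂ)) (by rw [him]; exact hz0)
  have f2 := f_two 4 5 1 2 (by norm_num) (z - ((2 / 3 : ℝ) : ℂ)) (by rw [him]; exact hz0)
  rw [← e0] at f0
  rw [← e1] at f1
  rw [← e2] at f2
  have g0 : ‖f ((-1 / (6 * z) + 2 * ((0 : ℕ) : ℂ)) / 3)‖ ≤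
      54 * (C * ‖z‖ ^ 2 * Real.exp (-(pi * z.im))) := by
    rw [f0]
    have h1 : -(6 * (3 * z) ^ 2) = -54 * z ^ 2 := by ring
    have h2 := (hs (3 * z) (by rw [him3]; linarith)).2
    rw [him3] at h2
    have h3 : Real.exp (-(pi * (3 * z.im))) ≤ Real.exp (-(pi * z.im)) := by
      apply Real.exp_le_exp.2
      nlinarith [Real.pi_pos]
    have h4 : ‖(-54 : ℂ)‖ = 54 := by norm_num
    rw [h1, norm_mul, norm_mul, norm_pow, h4]
    calc 54 * ‖z‖ ^ 2 * ‖f (3 * z)‖ ≤ 54 * ‖z‖ ^ 2 * (C * Real.exp (-(pi * (3 * z.im)))) :=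
          mul_le_mul_of_nonneg_left h2 (by positivity)
      _ ≤ 54 * ‖z‖ ^ 2 * (C * Real.exp (-(pi * z.im))) := by gcongr
      _ = _ := by ring
  have g1 : ‖f ((-1 / (6 * z) + 2 * ((1 : ℕ) : ℂ)) / 3)‖ ≤
      18 * (C * ‖z‖ ^ 2 * Real.exp (-(pi * z.im))) := by
    rw [f1]
    have h1 : (6 * ((1 : ℤ) : ℂ) * (z - ((1 / 3 : ℝ) : ℂ)) + 2 * ((1 : ℤ) : ℂ)) ^ 2 / 2 =
        18 * z ^ 2 := by
      push_cast; ring
    have h2 := (hs (z - ((1 / 3 : ℝ) : ℂ)) (by rw [him]; exact hz)).2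
    rw [him] at h2
    have h4 : ‖(18 : ℂ)‖ = 18 := by norm_num
    rw [h1, norm_mul, norm_mul, norm_neg, norm_mul, norm_pow, norm_zpow, norm_neg, norm_one,
      one_zpow, one_mul, h4]
    calc 18 * ‖z‖ ^ 2 * ‖f (z - ((1 / 3 : ℝ) : ℂ))‖ ≤
        18 * ‖z‖ ^ 2 * (C * Real.exp (-(pi * z.im))) :=
          mul_le_mul_of_nonneg_left h2 (by positivity)
      _ = _ := by ring
  have g2 : ‖f ((-1 / (6 * z) + 2 * ((2 : ℕ) : ℂ)) / 3)‖ ≤
      18 * (C * ‖z‖ ^ 2 * Real.exp (-(pi * z.im))) := by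
    rw [f2]
    have h1 : (6 * ((1 : ℤ) : ℂ) * (z - ((2 / 3 : ℝ) : ℂ)) + 2 * ((2 : ℤ) : ℂ)) ^ 2 / 2 =
        18 * z ^ 2 := by
      push_cast; ring
    have h2 := (hs (z - ((2 / 3 : ℝ) : ℂ)) (by rw [him]; exact hz)).2
    rw [him] at h2
    have h4 : ‖(18 : ℂ)‖ = 18 := by norm_num
    rw [h1, norm_mul, norm_mul, norm_neg, norm_mul, norm_pow, norm_zpow, norm_neg, norm_one,
      one_zpow, one_mul, h4]
    calc 18 * ‖z‖ ^ 2 * ‖f (z - ((2 / 3 : ℝ) : ℂ))‖ ≤
        18 * ‖z‖ ^ 2 * (C * Real.exp (-(pi * z.im))) :=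
          mul_le_mul_of_nonneg_left h2 (by positivity)
      _ = _ := by ring
  unfold U3
  rw [Finset.sum_range_succ, Finset.sum_range_succ, Finset.sum_range_one, norm_div]
  have h5 : ‖(3 : ℂ)‖ = 3 := by norm_num
  rw [h5, div_le_iff₀ (by norm_num)]
  refine (norm_add₃_le).trans ?_
  linarith
/- END HU5 -/

/- MODULE HU6 -/
/-- PROOF: `R = U3 / f`: `Inv R` by `U3_one`, `f_one`; bounded at the four cusps by `U3_size`,
`U3_W2`, `U3_W3_size`, `U3_W6_size` and `f_size`, `f_W2`, `f_W3`, `f_W6`; `const_of_bdd`; then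
coefficients: `a (3n) = k a(n)`, `k = a 3`. -/
theorem a_rec_three (n : ℕ) : a (3 * n) = a 3 * a n := by
  obtain ⟨cf, Cf, hcf, hCf, hfs⟩ := f_size
  obtain ⟨k, hk⟩ := const_of_bdd (fun z => U3 z / f z)
    (by
      have hU : DifferentiableOn ℂ U3 {z | 0 < z.im} := by
        unfold U3
        refine DifferentiableOn.div_const (DifferentiableOn.fun_sum fun j _ => ?_) _
        refine differentiableOn_f.comp (g := f) (f := fun z : ℂ => (z + 2 * j) / 3) ?_ ?_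
        · fun_prop
        · intro z hz
          have := HU2_im z hz j
          simpa using this
      exact hU.div differentiableOn_f fun z hz => f_ne_zero z hz)
    (by
      intro a b c d h z hz
      have hden : (6 * c * z + d : ℂ) ≠ 0 := by
        have h1 := (moeb_im_int a b (6 * c) d (by linarith) z hz).1
        push_cast at h1
        exact h1
      change U3 ((a * z + b) / (6 * c * z + d)) / f ((a * z + b) / (6 * c * z + d)) = U3 z / f z
      rw [U3_one a b c d h z hz, f_one a b c d h z hz]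
      rw [mul_div_mul_left]
      exact mul_ne_zero (zpow_ne_zero _ (by norm_num)) (pow_ne_zero 2 hden))
    (by
      obtain ⟨C, hC⟩ := U3_size
      refine ⟨C / cf, 1, ?_⟩
      intro z hz hz1
      change ‖U3 z / f z‖ ≤ C / cf
      rw [norm_div, div_le_div_iff₀ (norm_pos_iff.2 (f_ne_zero z hz)) hcf]
      have h1 := hC z hz1
      have h2 := (hfs z hz1).1
      have hE := Real.exp_pos (-(pi * z.im))
      have hC0 : 0 ≤ C := by
        have h3 : 0 ≤ C * Real.exp (-(pi * z.im)) := (norm_nonneg _).trans h1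
        exact nonneg_of_mul_nonneg_left h3 hE
      calc ‖U3 z‖ * cf ≤ C * Real.exp (-(pi * z.im)) * cf := by gcongr
        _ = C * (cf * Real.exp (-(pi * z.im))) := by ring
        _ ≤ C * ‖f z‖ := by gcongr)
    (by
      obtain ⟨C, hC⟩ := U3_size
      refine ⟨C / cf, 1, ?_⟩
      intro z hz hz1
      have hden : (6 * z - 2 : ℂ) ≠ 0 := by
        have h1 := (moeb_im_int 2 (-1) 6 (-2) (by norm_num) z hz).1
        push_cast at h1
        rwa [← sub_eq_add_neg] at h1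
      change ‖U3 ((2 * z - 1) / (6 * z - 2)) / f ((2 * z - 1) / (6 * z - 2))‖ ≤ C / cf
      rw [U3_W2 z hz, f_W2 z hz, mul_div_mul_left _ _ (neg_ne_zero.2
        (div_ne_zero (pow_ne_zero 2 hden) (by norm_num)))]
      rw [norm_div, div_le_div_iff₀ (norm_pos_iff.2 (f_ne_zero z hz)) hcf]
      have h1 := hC z hz1
      have h2 := (hfs z hz1).1
      have hE := Real.exp_pos (-(pi * z.im))
      have hC0 : 0 ≤ C := by
        have h3 : 0 ≤ C * Real.exp (-(pi * z.im)) := (norm_nonneg _).trans h1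
        exact nonneg_of_mul_nonneg_left h3 hE
      calc ‖U3 z‖ * cf ≤ C * Real.exp (-(pi * z.im)) * cf := by gcongr
        _ = C * (cf * Real.exp (-(pi * z.im))) := by ring
        _ ≤ C * ‖f z‖ := by gcongr)
    (by
      obtain ⟨C, hC⟩ := U3_W3_size
      refine ⟨3 * C / cf, 1, ?_⟩
      intro z hz hz1
      have hden : (6 * z - 3 : ℂ) ≠ 0 := by
        have h1 := (moeb_im_int 3 (-2) 6 (-3) (by norm_num) z hz).1
        push_cast at h1
        rwa [← sub_eq_add_neg] at h1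
      change ‖U3 ((3 * z - 2) / (6 * z - 3)) / f ((3 * z - 2) / (6 * z - 3))‖ ≤ 3 * C / cf
      have hN : 0 < ‖6 * z - 3‖ ^ 2 := by
        have := norm_pos_iff.2 hden
        positivity
      have hfW : ‖f ((3 * z - 2) / (6 * z - 3))‖ = ‖6 * z - 3‖ ^ 2 / 3 * ‖f z‖ := by
        rw [f_W3 z hz, norm_mul, norm_neg, norm_div, norm_pow]
        norm_num
      have hfp : 0 < ‖f z‖ := norm_pos_iff.2 (f_ne_zero z hz)
      rw [norm_div, hfW, div_le_div_iff₀ (by positivity) hcf]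
      have h1 := hC z hz1
      have h2 := (hfs z hz1).1
      have hE := Real.exp_pos (-(pi * z.im))
      have hC0 : 0 ≤ C := by
        have h3 : 0 ≤ C * ‖6 * z - 3‖ ^ 2 * Real.exp (-(pi * z.im)) := (norm_nonneg _).trans h1
        have h4 : 0 ≤ C * ‖6 * z - 3‖ ^ 2 := nonneg_of_mul_nonneg_left h3 hE
        exact nonneg_of_mul_nonneg_left h4 hN
      calc ‖U3 ((3 * z - 2) / (6 * z - 3))‖ * cf ≤
            C * ‖6 * z - 3‖ ^ 2 * Real.exp (-(pi * z.im)) * cf := by gcongr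
        _ = C * ‖6 * z - 3‖ ^ 2 * (cf * Real.exp (-(pi * z.im))) := by ring
        _ ≤ C * ‖6 * z - 3‖ ^ 2 * ‖f z‖ := by gcongr
        _ = 3 * C * (‖6 * z - 3‖ ^ 2 / 3 * ‖f z‖) := by ring)
    (by
      obtain ⟨C, hC⟩ := U3_W6_size
      refine ⟨C / (6 * cf), 1, ?_⟩
      intro z hz hz1
      have hz0 : z ≠ 0 := by
        rintro rfl
        simp at hz
      change ‖U3 (-1 / (6 * z)) / f (-1 / (6 * z))‖ ≤ C / (6 * cf)
      have hN : 0 < ‖z‖ ^ 2 := by
        have := norm_pos_iff.2 hz0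
        positivity
      have hfW : ‖f (-1 / (6 * z))‖ = 6 * ‖z‖ ^ 2 * ‖f z‖ := by
        rw [f_W6 z hz, norm_mul, norm_neg, norm_mul, norm_pow]
        norm_num
      have hfp : 0 < ‖f z‖ := norm_pos_iff.2 (f_ne_zero z hz)
      rw [norm_div, hfW, div_le_div_iff₀ (by positivity) (by positivity)]
      have h1 := hC z hz1
      have h2 := (hfs z hz1).1
      have hE := Real.exp_pos (-(pi * z.im))
      have hC0 : 0 ≤ C := by
        have h3 : 0 ≤ C * ‖z‖ ^ 2 * Real.exp (-(pi * z.im)) := (norm_nonneg _).trans h1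
        have h4 : 0 ≤ C * ‖z‖ ^ 2 := nonneg_of_mul_nonneg_left h3 hE
        exact nonneg_of_mul_nonneg_left h4 hN
      calc ‖U3 (-1 / (6 * z))‖ * (6 * cf) ≤
            C * ‖z‖ ^ 2 * Real.exp (-(pi * z.im)) * (6 * cf) := by gcongr
        _ = C * (6 * ‖z‖ ^ 2) * (cf * Real.exp (-(pi * z.im))) := by ring
        _ ≤ C * (6 * ‖z‖ ^ 2) * ‖f z‖ := by gcongr
        _ = C * (6 * ‖z‖ ^ 2 * ‖f z‖) := by ring)
  have hUf : ∀ z : ℂ, 0 < z.im → U3 z = k * f z := by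
    intro z hz
    have h1 := hk z hz
    rwa [div_eq_iff (f_ne_zero z hz)] at h1
  have hco := coeff_unique (fun n => (a (3 * n) : ℂ)) (fun n => k * (a n : ℂ)) (by
    intro z hz
    refine ⟨U3 z, hasSum_U3 z hz, ?_⟩
    rw [hUf z hz]
    have h1 := (hasSum_f z hz).mul_left k
    simpa only [mul_assoc] using h1)
  have h1 := congrFun hco 1
  have h2 := congrFun hco n
  simp only [mul_one, a_values.1, Int.cast_one] at h1
  rw [← h1] at h2
  exact_mod_cast h2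
/- END HU6 -/

/-- The Hecke relations. -/
theorem a_rec : a 1 = 1 ∧ ∀ q n : ℕ, q.Prime → 0 < n →
    a (q * n) = a q * a n - (if q ∣ 6 then 0 else (q : ℤ)) * (if q ∣ n then a (n / q) else 0) := by
  refine ⟨a_values.1, fun q n hq hn ↦ ?_⟩
  by_cases h6 : q ∣ 6
  · rw [if_pos h6, zero_mul, sub_zero]
    have h1 : q ∣ 2 * 3 := h6
    rcases (Nat.Prime.dvd_mul hq).1 h1 with h | h
    · have := (Nat.prime_dvd_prime_iff_eq hq Nat.prime_two).1 h
      subst this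
      rw [a_even _ (even_two_mul n), a_values.2.1, zero_mul]
    · have := (Nat.prime_dvd_prime_iff_eq hq Nat.prime_three).1 h
      subst this
      exact a_rec_three n
  · rw [if_neg h6]
    exact a_rec_p q hq h6 n

end Pool.Agent.NC
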