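import Pool.Agent.NC.Defs
import Pool.Agent.PTR.Local

/-!
# The local factors of the L-function of mathlib for `y² = x (x - D) (x - 9 D)`

`Δ = 82944 D⁶ = 2¹⁰ 3⁴ D⁶`, `c₄ = 1168 D²`, `c₆ = 38080 D³`.
-/

namespace Pool.Agent.NC

open scoped BigOperators Polynomial
open IsLocalRing Pool.Agent.PTR

/-- The curve `y² = x (x - D) (x - 9 D)` over a field. -/
def cE (K : Type*) [Field K] (D : ℤ) : WeierstrassCurve K := ⟨0, -10 * (D : K), 0, 9 * (D : K) ^ 2, 0⟩

/-- Number of affine points of `y² = x (x - D) (x - 9 D)` modulo `p`. -/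
noncomputable def cntD (D : ℤ) (p : ℕ) : ℕ :=
  Nat.card {P : ZMod p × ZMod p // P.2 ^ 2 = P.1 * (P.1 - D) * (P.1 - 9 * D)}

section

variable (R : Type*) [CommRing R] [IsDomain R] [IsDiscreteValuationRing R]
  {K : Type*} [Field K] [Algebra R K] [IsFractionRing R K]

/-! ### Generalities -/

private theorem int_of_pow (x : K) (n : ℕ) (hn : 0 < n) (y : R) (hxy : x ^ n = algebraMap R K y) :
    ∃ z : R, algebraMap R K z = x := by
  apply IsIntegrallyClosed.isIntegral_iff.1
  refine IsIntegral.of_pow (n := n) hn ?_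
  rw [hxy]
  exact isIntegral_algebraMap

private theorem val_unit {r : R} (hr : IsUnit r) :
    (IsDiscreteValuationRing.maximalIdeal R).valuation K (algebraMap R K r) = 1 := by
  refine le_antisymm (IsDedekindDomain.HeightOneSpectrum.valuation_le_one _ r) ?_
  by_contra hcon
  push Not at hcon
  have h2 := (IsDedekindDomain.HeightOneSpectrum.valuation_lt_one_iff_mem (K := K)
    (IsDiscreteValuationRing.maximalIdeal R) r).1 hcon
  exact (mem_maximalIdeal r).1 h2 hr

private theorem unit_of_val {r : R}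
    (h1 : (IsDiscreteValuationRing.maximalIdeal R).valuation K (algebraMap R K r) = 1) : IsUnit r := by
  by_contra hcon
  have h2 : r ∈ IsLocalRing.maximalIdeal R := (mem_maximalIdeal _).2 hcon
  have h3 := (IsDedekindDomain.HeightOneSpectrum.valuation_lt_one_iff_mem (K := K)
    (IsDiscreteValuationRing.maximalIdeal R) r).2 h2
  rw [h1] at h3
  exact lt_irrefl _ h3

/-- If `u ^ n x = e ϖ ^ k` with units `x`, `e` then `n ∣ k` and `u` is in `R`, of valuation `k / n`. -/
private theorem val_pow (u : K) (n : ℕ) (hn : 0 < n) (x e ϖ : R) (hx : IsUnit x) (he : IsUnit e)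
    (hϖ : Irreducible ϖ) (k : ℕ) (h : u ^ n * algebraMap R K x = algebraMap R K (e * ϖ ^ k)) :
    ∃ (m : ℕ) (a : R), algebraMap R K a = u ∧ k = n * m ∧
      IsDiscreteValuationRing.addVal R a = m := by
  obtain ⟨x, rfl⟩ := hx
  have hx0 : algebraMap R K ((x⁻¹ : Rˣ) : R) * algebraMap R K (x : R) = 1 := by
    rw [← map_mul, Units.inv_mul, map_one]
  have h1 : u ^ n = algebraMap R K (((x⁻¹ : Rˣ) : R) * (e * ϖ ^ k)) := by
    rw [map_mul, ← h]
    linear_combination (-u ^ n) * hx0
  obtain ⟨a, ha⟩ := int_of_pow R u n hn _ h1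
  have h2 : a ^ n = ((x⁻¹ : Rˣ) : R) * (e * ϖ ^ k) := by
    apply IsFractionRing.injective R K
    rw [map_pow, ha, h1]
  have h3 := congrArg (IsDiscreteValuationRing.addVal R) h2
  rw [IsDiscreteValuationRing.addVal_pow, IsDiscreteValuationRing.addVal_mul,
    IsDiscreteValuationRing.addVal_mul, IsDiscreteValuationRing.addVal_eq_zero_of_unit,
    IsDiscreteValuationRing.addVal_eq_zero_iff.mpr he, IsDiscreteValuationRing.addVal_pow,
    IsDiscreteValuationRing.addVal_uniformizer hϖ] at h3
  cases h4 : IsDiscreteValuationRing.addVal R a with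
  | top =>
    rw [h4] at h3
    exfalso
    have h5 : (n : ℕ) • (⊤ : ℕ∞) = ⊤ := by
      obtain ⟨j, rfl⟩ := Nat.exists_eq_succ_of_ne_zero hn.ne'
      rw [succ_nsmul]
      exact add_top _
    rw [h5] at h3
    simp at h3
  | coe m =>
    rw [h4] at h3
    have h5 : ((n * m : ℕ) : ℕ∞) = ((k : ℕ) : ℕ∞) := by
      simpa using h3
    exact ⟨m, a, ha, (ENat.natCast_inj.mp h5).symm, h4⟩

/-- Good reduction of a change of variables: the valuation of the discriminant is divisible by 12. -/
theorem good_val (W : WeierstrassCurve K) (ϖ e : R) (hϖ : Irreducible ϖ) (he : IsUnit e) (k : ℕ)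
    (hΔ : W.Δ = algebraMap R K (e * ϖ ^ k)) (C : WeierstrassCurve.VariableChange K)
    (h : (C • W).HasGoodReduction R) : 12 ∣ k := by
  have h1 := h.goodReduction
  have hi : (C • W).IsIntegral R := inferInstance
  rw [← WeierstrassCurve.integralModel_Δ_eq R (C • W)] at h1
  have hu := unit_of_val R h1
  have h2 : (C.u : K) ^ 12 * algebraMap R K ((C • W).integralModel R).Δ = algebraMap R K (e * ϖ ^ k) := by
    rw [WeierstrassCurve.integralModel_Δ_eq, WeierstrassCurve.variableChange_Δ, ← hΔ, ← mul_assoc,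
      ← mul_pow, Units.mul_inv, one_pow, one_mul]
  obtain ⟨m, a, -, hk, -⟩ := val_pow R _ 12 (by norm_num) _ e ϖ hu he hϖ k h2
  exact ⟨m, hk⟩

/-- Multiplicative reduction of a change of variables. -/
theorem mult_val (W : WeierstrassCurve K) (ϖ e e' : R) (hϖ : Irreducible ϖ) (he : IsUnit e)
    (he' : IsUnit e') (k l : ℕ)
    (hΔ : W.Δ = algebraMap R K (e * ϖ ^ k)) (hc : W.c₄ = algebraMap R K (e' * ϖ ^ l))
    (C : WeierstrassCurve.VariableChange K)
    (h : (C • W).HasMultiplicativeReduction R) : ∃ m : ℕ, l = 4 * m ∧ 12 * m ≤ k := by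
  have h1 := h.multiplicativeReduction
  have hi : (C • W).IsIntegral R := inferInstance
  rw [← WeierstrassCurve.integralModel_c₄_eq R (C • W)] at h1
  have hu := unit_of_val R h1
  have h2 : (C.u : K) ^ 4 * algebraMap R K ((C • W).integralModel R).c₄ = algebraMap R K (e' * ϖ ^ l) := by
    rw [WeierstrassCurve.integralModel_c₄_eq, WeierstrassCurve.variableChange_c₄, ← hc, ← mul_assoc,
      ← mul_pow, Units.mul_inv, one_pow, one_mul]
  obtain ⟨m, a, ha, hl, hm⟩ := val_pow R _ 4 (by norm_num) _ e' ϖ hu he' hϖ l h2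
  refine ⟨m, hl, ?_⟩
  have h3 : a ^ 12 * ((C • W).integralModel R).Δ = e * ϖ ^ k := by
    apply IsFractionRing.injective R K
    rw [map_mul, map_pow, ha, WeierstrassCurve.integralModel_Δ_eq, WeierstrassCurve.variableChange_Δ,
      ← hΔ, ← mul_assoc, ← mul_pow, Units.mul_inv, one_pow, one_mul]
  have h4 := congrArg (IsDiscreteValuationRing.addVal R) h3
  rw [IsDiscreteValuationRing.addVal_mul, IsDiscreteValuationRing.addVal_mul,
    IsDiscreteValuationRing.addVal_eq_zero_iff.mpr he, IsDiscreteValuationRing.addVal_pow,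
    IsDiscreteValuationRing.addVal_pow, IsDiscreteValuationRing.addVal_uniformizer hϖ, hm] at h4
  have h5 : ((12 * m : ℕ) : ℕ∞) ≤ ((k : ℕ) : ℕ∞) := by
    have h6 : ((12 * m : ℕ) : ℕ∞) = 12 • (m : ℕ∞) := by simp
    have h7 : ((k : ℕ) : ℕ∞) = 0 + k • (1 : ℕ∞) := by simp
    rw [h6, h7, ← h4]
    exact le_self_add
  exact_mod_cast h5

/-! ### The curve `cE K D` -/

private theorem cE_delta (D : ℤ) : (cE K D).Δ = 82944 * (D : K) ^ 6 := by
  simp only [cE, WeierstrassCurve.Δ, WeierstrassCurve.b₂, WeierstrassCurve.b₄, WeierstrassCurve.b₆,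
    WeierstrassCurve.b₈]
  ring

private theorem cE_c4 (D : ℤ) : (cE K D).c₄ = 1168 * (D : K) ^ 2 := by
  simp only [cE, WeierstrassCurve.c₄, WeierstrassCurve.b₂, WeierstrassCurve.b₄]
  ring

private theorem cE_c6 (D : ℤ) : (cE K D).c₆ = 38080 * (D : K) ^ 3 := by
  simp only [cE, WeierstrassCurve.c₆, WeierstrassCurve.b₂, WeierstrassCurve.b₄, WeierstrassCurve.b₆]
  ring

private theorem cE_deltaR (D : ℤ) : (cE K D).Δ = algebraMap R K (82944 * (D : R) ^ 6) := by
  rw [cE_delta, map_mul, map_pow, map_intCast, map_ofNat]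

private theorem cE_c4R (D : ℤ) : (cE K D).c₄ = algebraMap R K (1168 * (D : R) ^ 2) := by
  rw [cE_c4, map_mul, map_pow, map_intCast, map_ofNat]

private theorem cE_c6R (D : ℤ) : (cE K D).c₆ = algebraMap R K (38080 * (D : R) ^ 3) := by
  rw [cE_c6, map_mul, map_pow, map_intCast, map_ofNat]

private theorem cE_int (D : ℤ) : (cE K D).IsIntegral R :=
  WeierstrassCurve.isIntegral_of_exists_lift R ⟨0, map_zero _⟩
    ⟨-10 * (D : R), by rw [map_mul, map_intCast, map_neg, map_ofNat]; rfl⟩ ⟨0, map_zero _⟩
    ⟨9 * (D : R) ^ 2, by rw [map_mul, map_pow, map_intCast, map_ofNat]; rfl⟩ ⟨0, map_zero _⟩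

private theorem unit_int {R : Type*} [CommRing R] (q : ℕ) (n : ℤ) (hq : q.Prime)
    [IsLocalRing R] (hirr : Irreducible ((q : ℕ) : R)) (hn : ¬ q ∣ n.natAbs) : IsUnit ((n : ℤ) : R) := by
  have hco : IsCoprime ((q : ℕ) : ℤ) n := by
    rw [Int.isCoprime_iff_gcd_eq_one]
    show Nat.gcd (Int.natAbs (q : ℤ)) n.natAbs = 1
    rw [Int.natAbs_natCast]
    exact (Nat.Prime.coprime_iff_not_dvd hq).mpr hn
  have h2 : IsCoprime ((q : ℕ) : R) ((n : ℤ) : R) := by
    have := hco.map (Int.castRingHom R)
    simpa using this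
  by_contra hnu
  obtain ⟨a, b, hab⟩ := h2
  have h3 : a * (q : R) + b * (n : R) ∈ maximalIdeal R :=
    Ideal.add_mem _ (Ideal.mul_mem_left _ _ ((mem_maximalIdeal _).mpr hirr.not_isUnit))
      (Ideal.mul_mem_left _ _ ((mem_maximalIdeal _).mpr hnu))
  rw [hab] at h3
  exact (Ideal.ne_top_iff_one _).mp (Ideal.IsPrime.ne_top inferInstance) h3

/-- The minimal model of `W` has a discriminant of valuation at least that of `W`. -/
private theorem minimal_val (W : WeierstrassCurve K) (hI : W.IsIntegral R) :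
    (IsDiscreteValuationRing.maximalIdeal R).valuation K W.Δ ≤
      (IsDiscreteValuationRing.maximalIdeal R).valuation K (W.minimal R).Δ := by
  have hmin : WeierstrassCurve.IsMinimal R (W.minimal R) := inferInstance
  obtain ⟨C, hC⟩ : ∃ C : WeierstrassCurve.VariableChange K, C • W.minimal R = W :=
    ⟨(W.exists_isMinimal R).choose⁻¹, by rw [WeierstrassCurve.minimal, inv_smul_smul]⟩
  have h1 := hmin.val_Δ_maximal.2 (j := C) (by
    show (C • W.minimal R).IsIntegral R
    rw [hC]
    exact hI)
  have e1 : ((WeierstrassCurve.valuation_Δ_aux R (C • W.minimal R) :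
      { v : WithZero (Multiplicative ℤ) // v ≤ 1 }) : WithZero (Multiplicative ℤ)) =
      (IsDiscreteValuationRing.maximalIdeal R).valuation K W.Δ := by
    rw [hC, WeierstrassCurve.valuation_Δ_aux_eq_of_isIntegral]
  have e2 : ((WeierstrassCurve.valuation_Δ_aux R
      ((1 : WeierstrassCurve.VariableChange K) • W.minimal R) :
      { v : WithZero (Multiplicative ℤ) // v ≤ 1 }) : WithZero (Multiplicative ℤ)) =
      (IsDiscreteValuationRing.maximalIdeal R).valuation K (W.minimal R).Δ := by
    rw [one_smul, WeierstrassCurve.valuation_Δ_aux_eq_of_isIntegral]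
  rcases le_total (WeierstrassCurve.valuation_Δ_aux R
      ((1 : WeierstrassCurve.VariableChange K) • W.minimal R))
      (WeierstrassCurve.valuation_Δ_aux R (C • W.minimal R)) with h | h
  · have h3 := Subtype.coe_le_coe.2 (h1 h)
    rw [← e1, ← e2]
    exact h3
  · have h3 := Subtype.coe_le_coe.2 h
    rw [← e1, ← e2]
    exact h3

/-! ### Good reduction -/

private theorem good_cE (D : ℤ) (hD : IsUnit ((6 * D : ℤ) : R)) :
    ((cE K D).minimal R).HasGoodReduction R := by
  have hmin : WeierstrassCurve.IsMinimal R ((cE K D).minimal R) := inferInstance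
  refine { hmin with goodReduction := ?_ }
  have hu : IsUnit (82944 * (D : R) ^ 6) := by
    have h1 : (82944 : R) * (D : R) ^ 6 * 9 = (2 * (2 : R)) ^ 2 * ((6 * D : ℤ) : R) ^ 6 := by
      push_cast
      ring
    have h6 : IsUnit ((6 : R) * D) := by
      have : ((6 * D : ℤ) : R) = 6 * D := by push_cast; ring
      rw [← this]
      exact hD
    have h6' : IsUnit (6 : R) := isUnit_of_mul_isUnit_left h6
    have h2' : IsUnit (2 : R) := by
      have : (6 : R) = 2 * 3 := by norm_num
      rw [this] at h6'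
      exact isUnit_of_mul_isUnit_left h6'
    have h3 : IsUnit ((82944 : R) * (D : R) ^ 6 * 9) := by
      rw [h1]
      exact ((h2'.mul h2').pow 2).mul (hD.pow 6)
    exact isUnit_of_mul_isUnit_left h3
  have h1 := minimal_val R (cE K D) (cE_int R D)
  rw [cE_deltaR R, val_unit R hu] at h1
  refine le_antisymm ?_ h1
  obtain ⟨r, hr⟩ := WeierstrassCurve.Δ_integral_of_isIntegral R ((cE K D).minimal R)
  rw [← hr]
  exact IsDedekindDomain.HeightOneSpectrum.valuation_le_one _ r

/-- A change of variables between two integral models with unit discriminant is integral. -/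
private theorem change_integral (D : ℤ) (hD : IsUnit ((6 * D : ℤ) : R))
    (C : WeierstrassCurve.VariableChange K) (hC : (C • cE K D).HasGoodReduction R) :
    ∃ (u : Rˣ) (r s t : R), algebraMap R K u = (C.u : K) ∧ algebraMap R K r = C.r ∧
      algebraMap R K s = C.s ∧ algebraMap R K t = C.t := by
  have hi : (C • cE K D).IsIntegral R := inferInstance
  have hW : IsUnit ((C • cE K D).integralModel R).Δ := by
    have h1 := hC.goodReduction
    rw [← WeierstrassCurve.integralModel_Δ_eq R (C • cE K D)] at h1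
    exact unit_of_val R h1
  set W := (C • cE K D).integralModel R with hWd
  have h6 : IsUnit ((6 : R) * D) := by
    have : ((6 * D : ℤ) : R) = 6 * D := by push_cast; ring
    rw [← this]
    exact hD
  have h6' : IsUnit (6 : R) := isUnit_of_mul_isUnit_left h6
  have hD' : IsUnit (D : R) := isUnit_of_mul_isUnit_right h6
  have h23 : (6 : R) = 2 * 3 := by norm_num
  have h2 : IsUnit (2 : R) := by
    rw [h23] at h6'
    exact isUnit_of_mul_isUnit_left h6'
  have h3 : IsUnit (3 : R) := by
    rw [h23] at h6'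
    exact isUnit_of_mul_isUnit_right h6'
  have hu64 : IsUnit (82944 * (D : R) ^ 6) := by
    have h1 : (82944 : R) * (D : R) ^ 6 = 2 ^ 10 * 3 ^ 4 * (D : R) ^ 6 := by norm_num
    rw [h1]
    exact ((h2.pow 10).mul (h3.pow 4)).mul (hD'.pow 6)
  -- `u`
  have hΔ : algebraMap R K W.Δ = (C.u⁻¹ : Kˣ) ^ 12 * algebraMap R K (82944 * (D : R) ^ 6) := by
    rw [hWd, WeierstrassCurve.integralModel_Δ_eq, WeierstrassCurve.variableChange_Δ,
      cE_deltaR R]
  obtain ⟨d, hd⟩ := hW
  obtain ⟨e, he⟩ := hu64
  have hu12 : (C.u : K) ^ 12 = algebraMap R K ((d⁻¹ : Rˣ) * (e : R)) := by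
    rw [← hd, ← he] at hΔ
    have h1 : (C.u : K) ^ 12 * algebraMap R K d = algebraMap R K e := by
      rw [hΔ, ← mul_assoc, ← mul_pow, Units.mul_inv, one_pow, one_mul]
    rw [map_mul, ← h1]
    have h3 : algebraMap R K (d⁻¹ : Rˣ) * algebraMap R K d = 1 := by
      rw [← map_mul, Units.inv_mul, map_one]
    linear_combination (-(C.u : K) ^ 12) * h3
  obtain ⟨u, hu⟩ := int_of_pow R _ 12 (by norm_num) _ hu12
  have hu12' : u ^ 12 = (d⁻¹ : Rˣ) * (e : R) := by
    apply IsFractionRing.injective R K
    rw [map_pow, hu, hu12]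
  have huu : IsUnit u := by
    have : IsUnit (u ^ 12) := by
      rw [hu12']
      exact (d⁻¹).isUnit.mul e.isUnit
    exact (isUnit_pow_iff (by norm_num)).1 this
  obtain ⟨u, rfl⟩ := huu
  have huinv : ∀ n : ℕ, (C.u : K) ^ n * ((C.u⁻¹ : Kˣ) : K) ^ n = 1 := by
    intro n
    rw [← mul_pow, Units.mul_inv, one_pow]
  obtain ⟨w, hw⟩ := h2
  have hw' : algebraMap R K (w⁻¹ : Rˣ) * 2 = 1 := by
    have h3 : algebraMap R K (w⁻¹ : Rˣ) * algebraMap R K w = 1 := by
      rw [← map_mul, Units.inv_mul, map_one]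
    rw [hw, map_ofNat] at h3
    exact h3
  obtain ⟨z, hz⟩ := h3
  have hz' : algebraMap R K (z⁻¹ : Rˣ) * 3 = 1 := by
    have h3 : algebraMap R K (z⁻¹ : Rˣ) * algebraMap R K z = 1 := by
      rw [← map_mul, Units.inv_mul, map_one]
    rw [hz, map_ofNat] at h3
    exact h3
  have e1 : (cE K D).a₁ = 0 := rfl
  have e2 : (cE K D).a₂ = -10 * (D : K) := rfl
  have e3 : (cE K D).a₃ = 0 := rfl
  -- `s`
  have hs : algebraMap R K ((w⁻¹ : Rˣ) * (u * W.a₁)) = C.s := by
    rw [map_mul, map_mul, hu, hWd, WeierstrassCurve.integralModel_a₁_eq,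
      WeierstrassCurve.variableChange_a₁]
    rw [e1]
    have h3 := huinv 1
    linear_combination (algebraMap R K (w⁻¹ : Rˣ) * 2 * C.s) * h3 + C.s * hw'
  -- `t`
  have ht : algebraMap R K ((w⁻¹ : Rˣ) * (u ^ 3 * W.a₃)) = C.t := by
    rw [map_mul, map_mul, map_pow, hu, hWd, WeierstrassCurve.integralModel_a₃_eq,
      WeierstrassCurve.variableChange_a₃]
    rw [e1, e3]
    have h3 := huinv 3
    linear_combination (algebraMap R K (w⁻¹ : Rˣ) * 2 * C.t) * h3 + C.t * hw'
  -- `r`
  have hr : algebraMap R K ((z⁻¹ : Rˣ) * (u ^ 2 * W.a₂ + 10 * D +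
      ((w⁻¹ : Rˣ) * (u * W.a₁)) ^ 2)) = C.r := by
    rw [map_mul, map_add, map_add, map_mul, map_pow, map_mul, map_pow, map_intCast, map_ofNat, hs, hu,
      hWd, WeierstrassCurve.integralModel_a₂_eq, WeierstrassCurve.variableChange_a₂, e1, e2]
    have h3 := huinv 2
    linear_combination (algebraMap R K (z⁻¹ : Rˣ) * (-10 * (D : K) + 3 * C.r - C.s ^ 2)) * h3 + C.r * hz'
  exact ⟨u, _, _, _, hu, hr, hs, ht⟩

private theorem card_reduction (D : ℤ) (q : ℕ) (hq : q.Prime) (hcard : Nat.card (ResidueField R) = q)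
    (hD : IsUnit ((6 * D : ℤ) : R)) :
    (Nat.card ((((cE K D).minimal R).reduction R).toAffine.Point) : ℤ) = 1 + cntD D q := by
  have hgood := good_cE R (K := K) D hD
  have hfin : Finite (ResidueField R) :=
    Nat.finite_of_card_ne_zero (by rw [hcard]; exact hq.ne_zero)
  set C := ((cE K D).exists_isMinimal R).choose with hC
  have hCm : (cE K D).minimal R = C • cE K D := rfl
  obtain ⟨u, r, s, t, hu, hr, hs, ht⟩ := change_integral R (K := K) D hD C hgood
  let W0 : WeierstrassCurve R := ⟨0, -10 * (D : R), 0, 9 * (D : R) ^ 2, 0⟩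
  let CR : WeierstrassCurve.VariableChange R := ⟨u, r, s, t⟩
  have hW0 : W0.map (algebraMap R K) = cE K D := by
    ext
    · exact map_zero _
    · show algebraMap R K (-10 * (D : R)) = -10 * (D : K)
      rw [map_mul, map_intCast, map_neg, map_ofNat]
    · exact map_zero _
    · show algebraMap R K (9 * (D : R) ^ 2) = 9 * (D : K) ^ 2
      rw [map_mul, map_pow, map_intCast, map_ofNat]
    · exact map_zero _
  have hCR : CR.map (algebraMap R K) = C := by
    ext
    · exact hu
    · exact hr
    · exact hs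
    · exact ht
  have hint : ((cE K D).minimal R).integralModel R = CR • W0 := by
    apply WeierstrassCurve.map_injective (IsFractionRing.injective R K)
    show (((cE K D).minimal R).integralModel R).map (algebraMap R K) =
      (CR • W0).map (algebraMap R K)
    rw [← WeierstrassCurve.map_variableChange, hCR, hW0]
    exact WeierstrassCurve.baseChange_integralModel_eq R ((cE K D).minimal R)
  have hred : ((cE K D).minimal R).reduction R =
      CR.map (residue R) • W0.map (residue R) := by
    rw [WeierstrassCurve.reduction, hint, WeierstrassCurve.map_variableChange]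
  have hΔ : (((cE K D).minimal R).reduction R).Δ ≠ 0 := by
    rw [WeierstrassCurve.reduction, WeierstrassCurve.map_Δ]
    intro h0
    have h1 := hgood.goodReduction
    rw [← WeierstrassCurve.integralModel_Δ_eq R ((cE K D).minimal R)] at h1
    exact (mem_maximalIdeal _).1 ((residue_eq_zero_iff _).1 h0) (unit_of_val R h1)
  rw [card_point _ hΔ, hred, card_equation_change]
  push_cast
  congr 2
  have : Fintype (ResidueField R) := Fintype.ofFinite _
  have hcard' : Fintype.card (ResidueField R) = q := by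
    rw [← Nat.card_eq_fintype_card, hcard]
  let φ := ZMod.ringEquivOfPrime (ResidueField R) hq hcard'
  refine Nat.card_congr (Equiv.subtypeEquiv (Equiv.prodCongr φ.toEquiv φ.toEquiv) ?_).symm
  rintro ⟨x, y⟩
  show y ^ 2 = x * (x - D) * (x - 9 * D) ↔
    (W0.map (residue R)).toAffine.Equation (φ x) (φ y)
  rw [WeierstrassCurve.Affine.equation_iff]
  show y ^ 2 = x * (x - D) * (x - 9 * D) ↔
    (φ y) ^ 2 + residue R 0 * φ x * φ y + residue R 0 * φ y =
      (φ x) ^ 3 + residue R (-10 * (D : R)) * (φ x) ^ 2 + residue R (9 * (D : R) ^ 2) * φ x + residue R 0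
  rw [map_zero, map_mul, map_mul, map_pow, map_intCast, map_neg, map_ofNat, map_ofNat,
    ← φ.injective.eq_iff, map_pow, map_mul, map_mul, map_sub, map_sub, map_mul, map_intCast, map_ofNat]
  constructor
  · intro h
    linear_combination h
  · intro h
    linear_combination h

theorem localPolynomial_good (D : ℤ) (q : ℕ) (hq : q.Prime)
    (hcard : Nat.card (ResidueField R) = q) (hirr : Irreducible ((q : ℕ) : R))
    (hD : ¬ q ∣ (6 * D).natAbs) :
    (cE K D).localPolynomial R =
      1 - Polynomial.C ((q : ℤ) - cntD D q) * Polynomial.X + Polynomial.C (q : ℤ) * Polynomial.X ^ 2 := by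
  have hu : IsUnit ((6 * D : ℤ) : R) := unit_int q (6 * D) hq hirr hD
  have hg := good_cE (K := K) R D hu
  have hc := card_reduction (K := K) R D q hq hcard hu
  unfold WeierstrassCurve.localPolynomial
  simp only [hg, if_true, hcard]
  rw [hc]
  have : (q : ℤ) + 1 - (1 + cntD D q) = (q : ℤ) - cntD D q := by ring
  rw [this]

/-! ### Additive reduction -/

theorem localPolynomial_add (D : ℤ) (ϖ e e' : R) (hϖ : Irreducible ϖ) (he : IsUnit e)
    (he' : IsUnit e') (k l : ℕ) (h12 : ¬ 12 ∣ k) (h4 : ∀ m : ℕ, l = 4 * m → k < 12 * m)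
    (hΔ : 82944 * (D : R) ^ 6 = e * ϖ ^ k) (hc : 1168 * (D : R) ^ 2 = e' * ϖ ^ l) :
    (cE K D).localPolynomial R = 1 := by
  have hm : ¬ ((cE K D).minimal R).HasMultiplicativeReduction R := by
    intro h
    obtain ⟨m, h5, h6⟩ := mult_val R (cE K D) ϖ e e' hϖ he he' k l (by rw [cE_deltaR R, hΔ])
      (by rw [cE_c4R R, hc]) _ h
    have h7 := h4 m h5
    omega
  have hsm : ¬ ((cE K D).minimal R).HasSplitMultiplicativeReduction R := fun h ↦ hm h.1
  have hg : ¬ ((cE K D).minimal R).HasGoodReduction R := by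
    intro h
    exact h12 (good_val R (cE K D) ϖ e hϖ he k (by rw [cE_deltaR R, hΔ]) _ h)
  unfold WeierstrassCurve.localPolynomial
  simp [hm, hsm, hg]

/-! ### Multiplicative reduction at `3` -/

private theorem three_c4 (D : ℤ) (hirr : Irreducible ((3 : ℕ) : R)) (hD : ¬ (3 : ℤ) ∣ D) :
    IsUnit (1168 * (D : R) ^ 2) := by
  have h1 : IsUnit ((1168 : ℤ) : R) := unit_int 3 1168 Nat.prime_three hirr (by norm_num)
  have h2 : IsUnit ((D : ℤ) : R) := unit_int 3 D Nat.prime_three hirr (by
    rwa [← Int.natCast_dvd])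
  have : (1168 : R) = ((1168 : ℤ) : R) := by norm_num
  rw [this]
  exact h1.mul (h2.pow 2)

private theorem three_mult (D : ℤ) (hirr : Irreducible ((3 : ℕ) : R)) (hD : ¬ (3 : ℤ) ∣ D) :
    ((cE K D).minimal R).HasMultiplicativeReduction R := by
  have hc := three_c4 R D hirr hD
  have h2 : IsUnit ((D : ℤ) : R) := unit_int 3 D Nat.prime_three hirr (by
    rwa [← Int.natCast_dvd])
  have h1024 : IsUnit ((1024 : ℤ) : R) := unit_int 3 1024 Nat.prime_three hirr (by norm_num)
  have hu : IsUnit (1024 * (D : R) ^ 6) := by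
    have : (1024 : R) = ((1024 : ℤ) : R) := by norm_num
    rw [this]
    exact h1024.mul (h2.pow 6)
  have hg : ¬ ((cE K D).minimal R).HasGoodReduction R := by
    intro h
    have h3 := good_val R (cE K D) ((3 : ℕ) : R) _ hirr hu 4 (by
      rw [cE_deltaR R]
      congr 1
      push_cast
      ring) _ h
    omega
  rcases WeierstrassCurve.hasGoodReduction_or_hasMultiplicativeReduction_or_hasAdditiveReduction R
    (W := (cE K D).minimal R) with h | h | h
  · exact absurd h hg
  · exact h
  · exfalso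
    have h3 := h.additiveReduction
    have h4 := minimal_val R (cE K D) (cE_int R D)
    set C := ((cE K D).exists_isMinimal R).choose with hC
    have hCm : (cE K D).minimal R = C • cE K D := rfl
    rw [hCm, WeierstrassCurve.variableChange_c₄, map_mul, map_pow, cE_c4R R, val_unit R hc, mul_one] at h3
    rw [hCm, WeierstrassCurve.variableChange_Δ, map_mul, map_pow] at h4
    have h5 : (IsDiscreteValuationRing.maximalIdeal R).valuation K ((C.u⁻¹ : Kˣ) : K) < 1 := by
      by_contra hcon
      push Not at hcon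
      exact absurd h3 (not_lt.2 (one_le_pow₀ hcon))
    have h6 : (IsDiscreteValuationRing.maximalIdeal R).valuation K ((C.u⁻¹ : Kˣ) : K) ^ 12 < 1 :=
      pow_lt_one₀ zero_le h5 (by norm_num)
    have h7 : (IsDiscreteValuationRing.maximalIdeal R).valuation K (cE K D).Δ ≠ 0 := by
      rw [Valuation.ne_zero_iff, cE_deltaR R]
      intro h8
      rw [← map_zero (algebraMap R K)] at h8
      have h9 := IsFractionRing.injective R K h8
      have h10 : (1024 * (D : R) ^ 6) * ((3 : ℕ) : R) ^ 4 = 0 := by
        rw [← h9]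
        push_cast
        ring
      rcases mul_eq_zero.1 h10 with h11 | h11
      · exact hu.ne_zero h11
      · exact hirr.ne_zero (pow_eq_zero_iff (by norm_num) |>.1 h11)
    have h8 : (IsDiscreteValuationRing.maximalIdeal R).valuation K ((C.u⁻¹ : Kˣ) : K) ^ 12 *
        (IsDiscreteValuationRing.maximalIdeal R).valuation K (cE K D).Δ <
        1 * (IsDiscreteValuationRing.maximalIdeal R).valuation K (cE K D).Δ :=
      mul_lt_mul_of_pos_right h6 (zero_lt_iff.2 h7)
    rw [one_mul] at h8
    exact absurd h4 (not_le.2 h8)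

/-- The polynomial of the definition of split multiplicative reduction in characteristic `3`. -/
private theorem three_splits {k : Type*} [Field k] (h3 : (3 : k) = 0) (c a₁ a₂ x : k) (hc : c ≠ 0)
    (hx : x = 0) :
    (Polynomial.C c * Polynomial.X ^ 2 + Polynomial.C (a₁ * c) * Polynomial.X -
      Polynomial.C (x + a₂ * c)).Splits ↔ IsSquare (a₁ ^ 2 + 4 * a₂) := by
  subst hx
  have h2 : (2 : k) ≠ 0 := by
    intro h
    have h4 : (1 : k) = 3 - 2 := by norm_num
    rw [h3, h, sub_zero] at h4
    exact one_ne_zero h4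
  constructor
  · intro h
    have hdeg : (Polynomial.C c * Polynomial.X ^ 2 + Polynomial.C (a₁ * c) * Polynomial.X -
      Polynomial.C (0 + a₂ * c)).degree = 2 := by
      have e : (Polynomial.C c * Polynomial.X ^ 2 + Polynomial.C (a₁ * c) * Polynomial.X -
        Polynomial.C (0 + a₂ * c)) = Polynomial.C c * Polynomial.X ^ 2 +
          Polynomial.C (a₁ * c) * Polynomial.X + Polynomial.C (-(0 + a₂ * c)) := by
        rw [Polynomial.C_neg, sub_eq_add_neg]
      rw [e]
      exact Polynomial.degree_quadratic hc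
    obtain ⟨x, hx⟩ := h.exists_eval_eq_zero (by rw [hdeg]; exact two_ne_zero)
    simp only [Polynomial.eval_sub, Polynomial.eval_add, Polynomial.eval_mul, Polynomial.eval_C,
      Polynomial.eval_pow, Polynomial.eval_X] at hx
    have h4 : c * (x ^ 2 + a₁ * x - a₂) = 0 := by linear_combination hx
    have h5 : x ^ 2 + a₁ * x - a₂ = 0 := (mul_eq_zero.1 h4).resolve_left hc
    exact ⟨2 * x + a₁, by linear_combination -4 * h5⟩
  · rintro ⟨b, hb⟩
    have e : (Polynomial.C c * Polynomial.X ^ 2 + Polynomial.C (a₁ * c) * Polynomial.X -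
        Polynomial.C (0 + a₂ * c)) = Polynomial.C c * (Polynomial.X - Polynomial.C ((-a₁ + b) / 2)) *
          (Polynomial.X - Polynomial.C ((-a₁ - b) / 2)) := by
      have h4 : (-a₁ + b) / 2 + (-a₁ - b) / 2 = -a₁ := by
        field_simp
        ring
      have h5 : (-a₁ + b) / 2 * ((-a₁ - b) / 2) = -a₂ := by
        field_simp
        linear_combination hb
      have h6 : Polynomial.C ((-a₁ + b) / 2) + Polynomial.C ((-a₁ - b) / 2) = -Polynomial.C a₁ := by
        rw [← Polynomial.C_add, h4, Polynomial.C_neg]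
      have h7 : Polynomial.C ((-a₁ + b) / 2) * Polynomial.C ((-a₁ - b) / 2) = -Polynomial.C a₂ := by
        rw [← Polynomial.C_mul, h5, Polynomial.C_neg]
      rw [Polynomial.C_mul, zero_add, Polynomial.C_mul]
      linear_combination (Polynomial.C c * Polynomial.X) * h6 - Polynomial.C c * h7
    rw [e]
    exact ((Polynomial.Splits.C c).mul (Polynomial.Splits.X_sub_C _)).mul (Polynomial.Splits.X_sub_C _)

private theorem three_field {k : Type*} [Field k] (hk : Nat.card k = 3) :
    (3 : k) = 0 ∧ (∀ x : k, x ^ 3 = x) ∧ ∀ D : ℤ, ¬ (3 : ℤ) ∣ D → (IsSquare (-(D : k)) ↔ D % 3 = 2) := by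
  have hfin : Finite k := Nat.finite_of_card_ne_zero (by rw [hk]; norm_num)
  have : Fintype k := Fintype.ofFinite _
  have hcard' : Fintype.card k = 3 := by
    rw [← Nat.card_eq_fintype_card, hk]
  let φ := ZMod.ringEquivOfPrime k Nat.prime_three hcard'
  have h3 : (3 : k) = 0 := by
    have h4 : φ (3 : ZMod 3) = 0 := by
      have : (3 : ZMod 3) = 0 := by decide
      rw [this, map_zero]
    rw [← h4, map_ofNat]
  have hcube : ∀ x : k, x ^ 3 = x := by
    intro x
    have := FiniteField.pow_card x
    rwa [hcard'] at this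
  refine ⟨h3, hcube, ?_⟩
  intro D hD
  have h4 : IsSquare (-(D : k)) ↔ IsSquare (-(D : ZMod 3)) := by
    constructor
    · rintro ⟨b, hb⟩
      refine ⟨φ.symm b, ?_⟩
      rw [← map_mul, ← hb, map_neg, map_intCast]
    · rintro ⟨b, hb⟩
      refine ⟨φ b, ?_⟩
      rw [← map_mul, ← hb, map_neg, map_intCast]
  rw [h4]
  have h5 : (D : ZMod 3) = ((D % 3 : ℤ) : ZMod 3) := by
    rw [ZMod.intCast_eq_intCast_iff]
    exact (Int.mod_modEq _ _).symm
  have h6 : D % 3 = 1 ∨ D % 3 = 2 := by omega
  rcases h6 with h6 | h6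
  · rw [h5, h6]
    refine ⟨fun h ↦ ?_, fun h ↦ by omega⟩
    exfalso
    revert h
    decide
  · rw [h5, h6]
    refine ⟨fun _ ↦ rfl, fun _ ↦ ?_⟩
    decide

private theorem three_split (D : ℤ) (hcard : Nat.card (ResidueField R) = 3)
    (hirr : Irreducible ((3 : ℕ) : R)) (hD : ¬ (3 : ℤ) ∣ D) :
    ((cE K D).minimal R).HasSplitMultiplicativeReduction R ↔ D % 3 = 2 := by
  have hm := three_mult R (K := K) D hirr hD
  have hc := three_c4 R D hirr hD
  obtain ⟨h3, hcube, hsq⟩ := three_field hcard
  set C := ((cE K D).exists_isMinimal R).choose with hC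
  have hCm : (cE K D).minimal R = C • cE K D := rfl
  set I := ((cE K D).minimal R).integralModel R with hI
  -- the unit u
  have hIc : IsUnit I.c₄ := by
    have h1 := hm.multiplicativeReduction
    rw [← WeierstrassCurve.integralModel_c₄_eq R ((cE K D).minimal R)] at h1
    exact unit_of_val R h1
  have h4 : (C.u : K) ^ 4 * algebraMap R K I.c₄ = algebraMap R K (1168 * (D : R) ^ 2) := by
    rw [hI, WeierstrassCurve.integralModel_c₄_eq, hCm, WeierstrassCurve.variableChange_c₄, ← cE_c4R R,
      ← mul_assoc, ← mul_pow, Units.mul_inv, one_pow, one_mul]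
  obtain ⟨m, a, ha, hm0, hma⟩ := val_pow R _ 4 (by norm_num) _ (1168 * (D : R) ^ 2) _ hIc hc hirr 0
    (by rw [h4, pow_zero, mul_one])
  have hau : IsUnit a := by
    rw [← IsDiscreteValuationRing.addVal_eq_zero_iff, hma]
    have : m = 0 := by omega
    rw [this]
    rfl
  have h6 : a ^ 6 * I.c₆ = 38080 * (D : R) ^ 3 := by
    apply IsFractionRing.injective R K
    rw [map_mul, map_pow, ha, hI, WeierstrassCurve.integralModel_c₆_eq, hCm,
      WeierstrassCurve.variableChange_c₆, ← cE_c6R R, ← mul_assoc, ← mul_pow, Units.mul_inv, one_pow,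
      one_mul]
  have h7 := congrArg (residue R) h6
  rw [map_mul, map_mul, map_pow, map_pow, map_intCast, map_ofNat, hcube] at h7
  have ha0 : residue R a ≠ 0 := by
    intro h
    exact (mem_maximalIdeal _).1 ((residue_eq_zero_iff _).1 h) hau
  have ha2 : residue R a ^ 2 = 1 := by
    have h8 := hcube (residue R a)
    have h9 : residue R a * (residue R a ^ 2 - 1) = 0 := by linear_combination h8
    have h10 := (mul_eq_zero.1 h9).resolve_left ha0
    linear_combination h10
  have ha6 : residue R a ^ 6 = 1 := by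
    have : residue R a ^ 6 = (residue R a ^ 2) ^ 3 := by ring
    rw [this, ha2, one_pow]
  rw [ha6, one_mul] at h7
  have hb : residue R I.c₆ = -(residue R I.b₂) := by
    have h8 : I.c₆ = -I.b₂ ^ 3 + 36 * I.b₂ * I.b₄ - 216 * I.b₆ := rfl
    rw [h8, map_sub, map_add, map_neg, map_pow, map_mul, map_mul, map_mul, map_ofNat, map_ofNat, hcube]
    have e1 : (36 : ResidueField R) = 0 := by
      have : (36 : ResidueField R) = 12 * 3 := by norm_num
      rw [this, h3, mul_zero]
    have e2 : (216 : ResidueField R) = 0 := by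
      have : (216 : ResidueField R) = 72 * 3 := by norm_num
      rw [this, h3, mul_zero]
    rw [e1, e2]
    ring
  have hb2 : residue R I.b₂ = -(D : ResidueField R) := by
    have e1 : (38080 : ResidueField R) = 1 := by
      have : (38080 : ResidueField R) = 12693 * 3 + 1 := by norm_num
      rw [this, h3, mul_zero, zero_add]
    rw [e1, one_mul] at h7
    rw [← h7, hb, neg_neg]
  have hIc0 : residue R I.c₄ ≠ 0 := by
    intro h
    exact (mem_maximalIdeal _).1 ((residue_eq_zero_iff _).1 h) hIc
  have hx : residue R (54 * I.b₆ - 3 * I.b₂ * I.b₄) = 0 := by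
    have : (54 * I.b₆ - 3 * I.b₂ * I.b₄) = 3 * (18 * I.b₆ - I.b₂ * I.b₄) := by ring
    rw [this, map_mul, map_ofNat, h3, zero_mul]
  rw [WeierstrassCurve.hasSplitMultiplicativeReduction_iff]
  have key : ((letI I := ((cE K D).minimal R).integralModel R
    Polynomial.Splits <| .map (algebraMap R (ResidueField R)) <|
      Polynomial.C I.c₄ * Polynomial.X ^ 2 + Polynomial.C (I.a₁ * I.c₄) * Polynomial.X -
        Polynomial.C (54 * I.b₆ - 3 * I.b₂ * I.b₄ + I.a₂ * I.c₄)) ↔ D % 3 = 2) := by
    have e : Polynomial.map (algebraMap R (ResidueField R)) (Polynomial.C I.c₄ * Polynomial.X ^ 2 +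
        Polynomial.C (I.a₁ * I.c₄) * Polynomial.X -
        Polynomial.C (54 * I.b₆ - 3 * I.b₂ * I.b₄ + I.a₂ * I.c₄)) =
        Polynomial.C (residue R I.c₄) * Polynomial.X ^ 2 +
        Polynomial.C (residue R I.a₁ * residue R I.c₄) * Polynomial.X -
        Polynomial.C (residue R (54 * I.b₆ - 3 * I.b₂ * I.b₄) + residue R I.a₂ * residue R I.c₄) := by
      rw [Polynomial.map_sub, Polynomial.map_add, Polynomial.map_mul, Polynomial.map_mul,
        Polynomial.map_pow, Polynomial.map_X, Polynomial.map_C, Polynomial.map_C, Polynomial.map_C]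
      show Polynomial.C (residue R I.c₄) * Polynomial.X ^ 2 +
        Polynomial.C (residue R (I.a₁ * I.c₄)) * Polynomial.X -
        Polynomial.C (residue R (54 * I.b₆ - 3 * I.b₂ * I.b₄ + I.a₂ * I.c₄)) = _
      rw [map_mul (residue R), map_add (residue R), map_mul (residue R) I.a₂]
    show (Polynomial.map (algebraMap R (ResidueField R)) (Polynomial.C I.c₄ * Polynomial.X ^ 2 +
        Polynomial.C (I.a₁ * I.c₄) * Polynomial.X -
        Polynomial.C (54 * I.b₆ - 3 * I.b₂ * I.b₄ + I.a₂ * I.c₄))).Splits ↔ D % 3 = 2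
    rw [e, three_splits h3 _ _ _ _ hIc0 hx]
    have e2 : residue R I.a₁ ^ 2 + 4 * residue R I.a₂ = residue R I.b₂ := by
      have : I.b₂ = I.a₁ ^ 2 + 4 * I.a₂ := rfl
      rw [this, map_add, map_pow, map_mul, map_ofNat]
    rw [e2, hb2]
    exact hsq D hD
  constructor
  · rintro ⟨_, hspl⟩
    exact key.1 hspl
  · intro h
    exact ⟨hm, key.2 h⟩

theorem localPolynomial_three (D : ℤ) (hcard : Nat.card (ResidueField R) = 3)
    (hirr : Irreducible ((3 : ℕ) : R)) (hD : ¬ (3 : ℤ) ∣ D) :
    (cE K D).localPolynomial R =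
      1 - Polynomial.C (-(jacobiSym D 3)) * Polynomial.X := by
  have hm := three_mult R (K := K) D hirr hD
  have hs := three_split R (K := K) D hcard hirr hD
  have hg := hm.not_hasGoodReduction
  have h6 : D % 3 = 1 ∨ D % 3 = 2 := by omega
  rcases h6 with h6 | h6
  · have hj : jacobiSym D 3 = 1 := by
      rw [jacobiSym.mod_left]
      have : D % ((3 : ℕ) : ℤ) = 1 := by push_cast; exact h6
      rw [this]
      exact jacobiSym.one_left 3
    have hns : ¬ ((cE K D).minimal R).HasSplitMultiplicativeReduction R := by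
      rw [hs]
      omega
    unfold WeierstrassCurve.localPolynomial
    simp [hm, hns, hg, hj]
  · have hj : jacobiSym D 3 = -1 := by
      rw [jacobiSym.mod_left]
      have : D % ((3 : ℕ) : ℤ) = 2 := by push_cast; exact h6
      rw [this]
      norm_num
    have hns : ((cE K D).minimal R).HasSplitMultiplicativeReduction R := by
      rw [hs]
      exact h6
    unfold WeierstrassCurve.localPolynomial
    simp [hns, hg, hj]

end

/-! ### Counting points of the twists -/

private theorem count_char (q : ℕ) [Fact q.Prime] (h2 : q ≠ 2) (g : ZMod q → ZMod q) :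
    (Nat.card {P : ZMod q × ZMod q // P.2 ^ 2 = g P.1} : ℤ) =
      q + ∑ x : ZMod q, quadraticChar (ZMod q) (g x) := by
  classical
  have hc : ringChar (ZMod q) ≠ 2 := by
    rwa [ZMod.ringChar_zmod_n]
  have e : {P : ZMod q × ZMod q // P.2 ^ 2 = g P.1} ≃ Σ x : ZMod q, {y : ZMod q // y ^ 2 = g x} :=
    { toFun := fun P ↦ ⟨P.1.1, P.1.2, P.2⟩
      invFun := fun P ↦ ⟨(P.1, P.2.1), P.2.2⟩
      left_inv := fun _ ↦ rfl
      right_inv := fun _ ↦ rfl }
  rw [Nat.card_congr e, Nat.card_sigma]
  push_cast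
  have h1 : ∀ x : ZMod q, (Nat.card {y : ZMod q // y ^ 2 = g x} : ℤ) =
      quadraticChar (ZMod q) (g x) + 1 := by
    intro x
    rw [← quadraticChar_card_sqrts hc (g x), Nat.card_eq_fintype_card, Fintype.card_subtype]
    congr 2
    ext y
    simp
  rw [Finset.sum_congr rfl (fun x _ ↦ h1 x), Finset.sum_add_distrib]
  simp [ZMod.card]
  ring

theorem cntD_eq (D : ℤ) (q : ℕ) (hq : q.Prime) (h2 : q ≠ 2) (hD : ¬ (q : ℤ) ∣ D) :
    (q : ℤ) - cntD D q = jacobiSym D q * ((q : ℤ) - cnt q) := by
  have : Fact q.Prime := ⟨hq⟩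
  have hD0 : (D : ZMod q) ≠ 0 := by
    intro hh
    exact hD ((ZMod.intCast_zmod_eq_zero_iff_dvd D q).1 hh)
  have h3 : (cntD D q : ℤ) = q + ∑ x : ZMod q, quadraticChar (ZMod q) (x * (x - D) * (x - 9 * D)) :=
    count_char q h2 (fun x ↦ x * (x - D) * (x - 9 * D))
  have h4 : (cnt q : ℤ) = q + ∑ x : ZMod q, quadraticChar (ZMod q) (x * (x - 1) * (x - 9)) :=
    count_char q h2 (fun x ↦ x * (x - 1) * (x - 9))
  have h5 : ∑ x : ZMod q, quadraticChar (ZMod q) (x * (x - D) * (x - 9 * D)) =
      quadraticChar (ZMod q) (D : ZMod q) * ∑ x : ZMod q, quadraticChar (ZMod q) (x * (x - 1) * (x - 9)) := by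
    rw [Finset.mul_sum, ← Equiv.sum_comp (Equiv.mulLeft₀ (D : ZMod q) hD0)]
    refine Finset.sum_congr rfl fun x _ ↦ ?_
    rw [Equiv.mulLeft₀_apply, ← map_mul]
    have h6 : (D : ZMod q) * x * (D * x - D) * (D * x - 9 * D) =
        (D : ZMod q) ^ 2 * (D * (x * (x - 1) * (x - 9))) := by ring
    rw [h6, map_mul, quadraticChar_sq_one' hD0, one_mul]
  have h6 : jacobiSym D q = quadraticChar (ZMod q) (D : ZMod q) := by
    rw [← jacobiSym.legendreSym.to_jacobiSym]
    rfl
  rw [h3, h4, h5, h6]
  ring

/-! ### The L-function -/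

section

open NumberField IsDedekindDomain

private theorem base_eq (L : Type*) [Field L] [Algebra ℚ L] (D : ℤ) : (E D).baseChange L = cE L D := by
  have : CharZero L := algebraRat.charZero L
  ext <;> simp [E, cE, WeierstrassCurve.baseChange]

private theorem coeff_dvd (D : ℤ) (q : ℕ) (hq : q.Prime) (hD : (q : ℤ) ∣ D) : jacobiSym D q = 0 := by
  have : Fact q.Prime := ⟨hq⟩
  rw [← jacobiSym.legendreSym.to_jacobiSym, legendreSym.eq_zero_iff,
    ZMod.intCast_zmod_eq_zero_iff_dvd]
  exact hD

theorem LFunction_rec_E (ha2 : a 2 = 0) (ha3 : a 3 = -1)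
    (ha : ∀ q : ℕ, q.Prime → ¬ q ∣ 6 → a q = (q : ℤ) - cnt q) (D : ℤ) (hD : Squarefree D) :
    (E D).LFunction 1 = 1 ∧ ∀ q n : ℕ, q.Prime → 0 < n →
      (E D).LFunction (q * n) = A D q * (E D).LFunction n -
        (if q ∣ (6 * D).natAbs then 0 else (q : ℤ)) *
          (if q ∣ n then (E D).LFunction (n / q) else 0) := by
  refine LFunction_rec (E D) (fun q ↦ A D q) (fun q ↦ if q ∣ (6 * D).natAbs then 0 else (q : ℤ)) ?_
  intro v
  rw [base_eq]
  have hq := Rat.HeightOneSpectrum.prime_natGenerator v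
  have hirr := irreducible_natGenerator v
  have hcard := residue_card v
  have : CharZero (v.adicCompletion ℚ) := algebraRat.charZero _
  generalize hqd : Rat.HeightOneSpectrum.natGenerator v = q at *
  have habs : (6 * D).natAbs = 6 * D.natAbs := by rw [Int.natAbs_mul]; rfl
  have hprime : Prime (q : ℤ) := Nat.prime_iff_prime_int.1 hq
  have hD0 : D ≠ 0 := hD.ne_zero
  by_cases hN : q ∣ (6 * D).natAbs
  · rw [if_pos hN]
    by_cases h2 : q = 2
    · -- the prime 2
      subst h2
      have hA : A D 2 = 0 := by rw [A, ha2, mul_zero]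
      rw [hA]
      rcases Int.even_or_odd D with he | ho
      · obtain ⟨m, hm⟩ := he.two_dvd
        have hm2 : ¬ 2 ∣ m.natAbs := by
          intro hh
          have h3 : (2 : ℤ) ∣ m := Int.natCast_dvd.2 hh
          obtain ⟨c, rfl⟩ := h3
          have := hD 2 ⟨c, by rw [hm]; ring⟩
          rw [Int.isUnit_iff] at this
          omega
        have hu := unit_int (R := v.adicCompletionIntegers ℚ) 2 m Nat.prime_two hirr hm2
        have h81 := unit_int (R := v.adicCompletionIntegers ℚ) 2 81 Nat.prime_two hirr (by norm_num)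
        have h73 := unit_int (R := v.adicCompletionIntegers ℚ) 2 73 Nat.prime_two hirr (by norm_num)
        rw [localPolynomial_add (v.adicCompletionIntegers ℚ) D ((2 : ℕ) : v.adicCompletionIntegers ℚ)
          (((81 : ℤ) : v.adicCompletionIntegers ℚ) * (m : v.adicCompletionIntegers ℚ) ^ 6)
          (((73 : ℤ) : v.adicCompletionIntegers ℚ) * (m : v.adicCompletionIntegers ℚ) ^ 2) hirr
          (h81.mul (hu.pow 6)) (h73.mul (hu.pow 2)) 16 6 (by norm_num) (by omega)
          (by rw [hm]; push_cast; ring) (by rw [hm]; push_cast; ring)]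
        simp
      · have hm2 : ¬ 2 ∣ D.natAbs := by
          rw [← Int.natCast_dvd]
          intro hh
          rw [Int.odd_iff] at ho
          omega
        have hu := unit_int (R := v.adicCompletionIntegers ℚ) 2 D Nat.prime_two hirr hm2
        have h81 := unit_int (R := v.adicCompletionIntegers ℚ) 2 81 Nat.prime_two hirr (by norm_num)
        have h73 := unit_int (R := v.adicCompletionIntegers ℚ) 2 73 Nat.prime_two hirr (by norm_num)
        rw [localPolynomial_add (v.adicCompletionIntegers ℚ) D ((2 : ℕ) : v.adicCompletionIntegers ℚ)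
          (((81 : ℤ) : v.adicCompletionIntegers ℚ) * (D : v.adicCompletionIntegers ℚ) ^ 6)
          (((73 : ℤ) : v.adicCompletionIntegers ℚ) * (D : v.adicCompletionIntegers ℚ) ^ 2) hirr
          (h81.mul (hu.pow 6)) (h73.mul (hu.pow 2)) 10 4 (by norm_num) (by omega)
          (by push_cast; ring) (by push_cast; ring)]
        simp
    · by_cases hqD : (q : ℤ) ∣ D
      · have hA : A D q = 0 := by rw [A, coeff_dvd D q hq hqD, zero_mul]
        rw [hA]
        obtain ⟨m, hm⟩ := hqD
        have hqm : ¬ q ∣ m.natAbs := by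
          intro hh
          have h3 : (q : ℤ) ∣ m := Int.natCast_dvd.2 hh
          obtain ⟨c, rfl⟩ := h3
          have := hD q ⟨c, by rw [hm]; ring⟩
          exact hprime.not_isUnit this
        have hu := unit_int (R := v.adicCompletionIntegers ℚ) q m hq hirr hqm
        have hq2 : ¬ q ∣ 2 := fun hh ↦ h2 ((Nat.prime_dvd_prime_iff_eq hq Nat.prime_two).1 hh)
        by_cases h3 : q = 3
        · subst h3
          have h1024 := unit_int (R := v.adicCompletionIntegers ℚ) 3 1024 hq hirr (by norm_num)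
          have h1168 := unit_int (R := v.adicCompletionIntegers ℚ) 3 1168 hq hirr (by norm_num)
          rw [localPolynomial_add (v.adicCompletionIntegers ℚ) D ((3 : ℕ) : v.adicCompletionIntegers ℚ)
            (((1024 : ℤ) : v.adicCompletionIntegers ℚ) * (m : v.adicCompletionIntegers ℚ) ^ 6)
            (((1168 : ℤ) : v.adicCompletionIntegers ℚ) * (m : v.adicCompletionIntegers ℚ) ^ 2) hirr
            (h1024.mul (hu.pow 6)) (h1168.mul (hu.pow 2)) 10 2 (by norm_num) (by omega)
            (by rw [hm]; push_cast; ring) (by rw [hm]; push_cast; ring)]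
          simp
        · have hq3 : ¬ q ∣ 3 := fun hh ↦ h3 ((Nat.prime_dvd_prime_iff_eq hq Nat.prime_three).1 hh)
          have hΔu := unit_int (R := v.adicCompletionIntegers ℚ) q 82944 hq hirr (by
            show ¬ q ∣ 82944
            have : 82944 = 2 ^ 10 * 3 ^ 4 := by norm_num
            rw [this, hq.dvd_mul]
            rintro (hh | hh)
            · exact hq2 (hq.dvd_of_dvd_pow hh)
            · exact hq3 (hq.dvd_of_dvd_pow hh))
          by_cases h73 : q = 73
          · subst h73
            have h16 := unit_int (R := v.adicCompletionIntegers ℚ) 73 16 hq hirr (by norm_num)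
            rw [localPolynomial_add (v.adicCompletionIntegers ℚ) D ((73 : ℕ) : v.adicCompletionIntegers ℚ)
              (((82944 : ℤ) : v.adicCompletionIntegers ℚ) * (m : v.adicCompletionIntegers ℚ) ^ 6)
              (((16 : ℤ) : v.adicCompletionIntegers ℚ) * (m : v.adicCompletionIntegers ℚ) ^ 2) hirr
              (hΔu.mul (hu.pow 6)) (h16.mul (hu.pow 2)) 6 3 (by norm_num) (by omega)
              (by rw [hm]; push_cast; ring) (by rw [hm]; push_cast; ring)]
            simp
          · have h1168 := unit_int (R := v.adicCompletionIntegers ℚ) q 1168 hq hirr (by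
              show ¬ q ∣ 1168
              have : 1168 = 2 ^ 4 * 73 := by norm_num
              rw [this, hq.dvd_mul]
              rintro (hh | hh)
              · exact hq2 (hq.dvd_of_dvd_pow hh)
              · exact h73 ((Nat.prime_dvd_prime_iff_eq hq (by norm_num)).1 hh))
            rw [localPolynomial_add (v.adicCompletionIntegers ℚ) D ((q : ℕ) : v.adicCompletionIntegers ℚ)
              (((82944 : ℤ) : v.adicCompletionIntegers ℚ) * (m : v.adicCompletionIntegers ℚ) ^ 6)
              (((1168 : ℤ) : v.adicCompletionIntegers ℚ) * (m : v.adicCompletionIntegers ℚ) ^ 2) hirr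
              (hΔu.mul (hu.pow 6)) (h1168.mul (hu.pow 2)) 6 2 (by norm_num) (by omega)
              (by rw [hm]; push_cast; ring) (by rw [hm]; push_cast; ring)]
            simp
      · have h3 : q = 3 := by
          rw [habs] at hN
          rcases (Nat.Prime.dvd_mul hq).1 hN with hh | hh
          · have : (6 : ℕ) = 2 * 3 := by norm_num
            rw [this] at hh
            rcases (Nat.Prime.dvd_mul hq).1 hh with hh | hh
            · exact absurd ((Nat.prime_dvd_prime_iff_eq hq Nat.prime_two).1 hh) h2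
            · exact (Nat.prime_dvd_prime_iff_eq hq Nat.prime_three).1 hh
          · exact absurd (Int.natCast_dvd.2 hh) hqD
        subst h3
        rw [localPolynomial_three (v.adicCompletionIntegers ℚ) D hcard hirr hqD]
        have hA : A D 3 = -(jacobiSym D 3) := by rw [A, ha3]; ring
        rw [hA]
        simp
  · rw [if_neg hN]
    rw [localPolynomial_good (v.adicCompletionIntegers ℚ) D q hq hcard hirr hN]
    rw [habs] at hN
    have hq6 : ¬ q ∣ 6 := fun hh ↦ hN (hh.mul_right _)
    have hqD : ¬ (q : ℤ) ∣ D := fun hh ↦ hN ((Int.natCast_dvd.1 hh).mul_left _)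
    have h2 : q ≠ 2 := by
      rintro rfl
      exact hq6 (by norm_num)
    rw [cntD_eq D q hq h2 hqD, ← ha q hq hq6]
    rfl

/-- The coefficients of the L-series of `E D`. -/
theorem LFunction_E' (hrec : a 1 = 1 ∧ ∀ q n : ℕ, q.Prime → 0 < n →
      a (q * n) = a q * a n - (if q ∣ 6 then 0 else (q : ℤ)) * (if q ∣ n then a (n / q) else 0))
    (ha2 : a 2 = 0) (ha3 : a 3 = -1)
    (ha : ∀ q : ℕ, q.Prime → ¬ q ∣ 6 → a q = (q : ℤ) - cnt q) (D : ℤ) (hD : Squarefree D) (n : ℕ) :
    (E D).LFunction n = A D n := by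
  obtain ⟨h1, h2⟩ := LFunction_rec_E ha2 ha3 ha D hD
  obtain ⟨h3, h4⟩ := hrec
  have habs : (6 * D).natAbs = 6 * D.natAbs := by rw [Int.natAbs_mul]; rfl
  induction n using Nat.strong_induction_on with
  | _ n ih =>
    rcases Nat.eq_zero_or_pos n with rfl | hn
    · have : a 0 = 0 := by
        rw [a, if_neg (by decide)]
      rw [ArithmeticFunction.map_zero, A, this, mul_zero]
    · by_cases hn1 : n = 1
      · subst hn1
        rw [h1, A, h3, jacobiSym.one_right, one_mul]
      · obtain ⟨q, hq, m, rfl⟩ := Nat.exists_prime_and_dvd hn1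
        have hm : 0 < m := Nat.pos_of_mul_pos_left hn |> fun _ ↦ by
          rcases Nat.eq_zero_or_pos m with rfl | hm
          · simp at hn
          · exact hm
        have hmlt : m < q * m := by
          have := hq.two_le
          nlinarith
        rw [h2 q m hq hm, ih m hmlt]
        have : NeZero q := ⟨hq.ne_zero⟩
        have : NeZero m := ⟨hm.ne'⟩
        rw [A, A, A, h4 q m hq hm, jacobiSym.mul_right]
        by_cases hqm : q ∣ m
        · obtain ⟨l, rfl⟩ := hqm
          have hl : 0 < l := by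
            rcases Nat.eq_zero_or_pos l with rfl | hl
            · simp at hm
            · exact hl
          have : NeZero l := ⟨hl.ne'⟩
          have hllt : l < q * (q * l) := by
            have := hq.two_le
            nlinarith
          rw [if_pos (dvd_mul_right q l), if_pos (dvd_mul_right q l), Nat.mul_div_cancel_left _ hq.pos,
            ih l hllt, A, jacobiSym.mul_right]
          by_cases hqD : (q : ℤ) ∣ D
          · rw [coeff_dvd D q hq hqD, if_pos (by
              rw [habs]
              exact (Int.natCast_dvd.1 hqD).mul_left _)]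
            ring
          · have hsq : jacobiSym D q * jacobiSym D q = 1 := by
              have hg : D.gcd q = 1 := by
                rw [← Int.isCoprime_iff_gcd_eq_one]
                exact ((Nat.prime_iff_prime_int.1 hq).coprime_iff_not_dvd.2 hqD).symm
              have := jacobiSym.sq_one hg
              rwa [sq] at this
            have hiff : (q ∣ (6 * D).natAbs) ↔ q ∣ 6 := by
              rw [habs, hq.dvd_mul]
              refine ⟨fun hh ↦ ?_, Or.inl⟩
              rcases hh with hh | hh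
              · exact hh
              · exact absurd (Int.natCast_dvd.2 hh) hqD
            by_cases h6 : q ∣ 6
            · rw [if_pos h6, if_pos (hiff.2 h6)]
              ring
            · rw [if_neg h6, if_neg (fun hh ↦ h6 (hiff.1 hh))]
              linear_combination ((q : ℤ) * a l * jacobiSym D l) * hsq
        · rw [if_neg hqm, if_neg hqm]
          ring

end

end Pool.Agent.NC
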