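import Pool.Agent.NC.Defs

/-!
# Part 2, formal identities: the logarithmic derivative of `H`
-/

namespace Pool.Agent.NC

open scoped BigOperators PowerSeries
open PowerSeries (coeff X)

/- MODULE FA -/
/-- The coefficients of `th φ`. PROOF: `PowerSeries.coeff_derivative`, `coeff_succ_X_mul`. -/
theorem coeff_th (φ : ℤ⟦X⟧) (n : ℕ) : coeff n (th φ) = n * coeff n φ := by
  unfold th
  cases n with
  | zero => simp
  | succ m =>
    rw [PowerSeries.coeff_succ_X_mul, PowerSeries.coeff_derivative]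
    push_cast
    ring

/-- PROOF: derivation. -/
theorem th_mul (φ ψ : ℤ⟦X⟧) : th (φ * ψ) = φ * th ψ + ψ * th φ := by
  unfold th
  rw [Derivation.leibniz, smul_eq_mul, smul_eq_mul]
  ring

theorem th_add (φ ψ : ℤ⟦X⟧) : th (φ + ψ) = th φ + th ψ := by
  unfold th
  rw [map_add]
  ring

/-- If `th φ = α φ` and `th ψ = β ψ`, then `th (φ ψ) = (α + β) φ ψ`, `th (φ^k) = k α φ^k`. -/
theorem th_log_mul (φ ψ α β : ℤ⟦X⟧) (h : th φ = α * φ) (h' : th ψ = β * ψ) :
    th (φ * ψ) = (α + β) * (φ * ψ) := by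
  rw [th_mul, h, h']
  ring

theorem th_log_pow (φ α : ℤ⟦X⟧) (h : th φ = α * φ) (k : ℕ) :
    th (φ ^ k) = (k * α) * φ ^ k := by
  induction k with
  | zero =>
    unfold th
    simp
  | succ m ih =>
    rw [pow_succ, th_log_mul _ _ _ _ ih h]
    push_cast
    ring

/-- PROOF: `φ * ψ = 1` with `ψ = invOfUnit φ 1` (`PowerSeries.mul_invOfUnit`); `0 = th (φ ψ) =
φ th ψ + ψ α φ`, multiply by `ψ`. -/
theorem th_log_inv (φ α : ℤ⟦X⟧) (h : th φ = α * φ) (h1 : PowerSeries.constantCoeff φ = 1) :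
    th (PowerSeries.invOfUnit φ 1) = -α * PowerSeries.invOfUnit φ 1 := by
  have hm : φ * PowerSeries.invOfUnit φ 1 = 1 :=
    PowerSeries.mul_invOfUnit φ 1 (by simpa using h1)
  have h0 : th (φ * PowerSeries.invOfUnit φ 1) = 0 := by
    rw [hm]
    unfold th
    simp
  rw [th_mul, h] at h0
  generalize PowerSeries.invOfUnit φ 1 = ψ at hm h0
  have e : th ψ = (φ * ψ) * th ψ := by rw [hm, one_mul]
  have e2 : -α * ψ = -α * ψ * (φ * ψ) := by rw [hm, mul_one]
  rw [e, e2]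
  linear_combination ψ * h0

/-- PROOF: compare coefficients (`PowerSeries.coeff_expand`, `coeff_th`); `expand` is an algebra
homomorphism. -/
theorem th_log_expand (φ α : ℤ⟦X⟧) (h : th φ = α * φ) (d : ℕ) (hd : d ≠ 0) :
    th (PowerSeries.expand d hd φ) =
      (d * PowerSeries.expand d hd α) * PowerSeries.expand d hd φ := by
  have h2 : th (PowerSeries.expand d hd φ) = (d : ℤ⟦X⟧) * PowerSeries.expand d hd (th φ) := by
    ext n
    have hc : ((d : ℤ⟦X⟧)) = PowerSeries.C (d : ℤ) := by simp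
    rw [coeff_th, hc, PowerSeries.coeff_C_mul, PowerSeries.coeff_expand, PowerSeries.coeff_expand,
      coeff_th]
    split_ifs with hdn
    · obtain ⟨m, rfl⟩ := hdn
      rw [Nat.mul_div_cancel_left _ (Nat.pos_of_ne_zero hd)]
      push_cast
      ring
    · simp
  rw [h2, h, map_mul, mul_assoc]
/- END FA -/

/-- `∑ σ(n) X^n`. -/
noncomputable def Sg : ℤ⟦X⟧ := PowerSeries.mk fun n ↦ (ArithmeticFunction.sigma 1 n : ℤ)

/- MODULE FB -/
/-- For the finite product `Q = ∏_(i < N) (1 - X^(i+1))`: `th Q = - T Q` where `T` is a series whose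
coefficients at `n ≤ N` are `σ(n)`.
PROOF: `T = ∑_(i < N) (i+1) ∑_(k ≥ 1) X^(k (i+1))` (coefficient at `n ≥ 1`: the sum of the divisors
`≤ N` of `n`); `(1 - X^m) (∑_(k ≥ 1) X^(k m)) = X^m`, `th (1 - X^m) = - m X^m`, and induction on `N`
with `th_log_mul`. -/
private noncomputable def FB_g (m : ℕ) : ℤ⟦X⟧ :=
  if hm : m ≠ 0 then X ^ m * PowerSeries.expand m hm (PowerSeries.mk 1) else 0

private theorem FB_g_mul (m : ℕ) (hm : m ≠ 0) : FB_g m * (1 - X ^ m) = X ^ m := by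
  unfold FB_g
  rw [dif_pos hm]
  have h1 : (1 - X ^ m : ℤ⟦X⟧) = PowerSeries.expand m hm (1 - X) := by
    rw [map_sub, map_one, PowerSeries.expand_X]
  rw [h1, mul_assoc, ← map_mul, PowerSeries.mk_one_mul_one_sub_eq_one, map_one, mul_one]

private theorem FB_g_coeff (m n : ℕ) (hm : m ≠ 0) :
    coeff n (FB_g m) = if n ≠ 0 ∧ m ∣ n then 1 else 0 := by
  unfold FB_g
  rw [dif_pos hm, PowerSeries.coeff_X_pow_mul', PowerSeries.coeff_expand]
  by_cases h : n ≠ 0 ∧ m ∣ n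
  · have hle : m ≤ n := Nat.le_of_dvd (Nat.pos_of_ne_zero h.1) h.2
    rw [if_pos hle, if_pos h, if_pos (Nat.dvd_sub h.2 (dvd_refl m))]
    simp
  · rw [if_neg h]
    by_cases hle : m ≤ n
    · rw [if_pos hle]
      have h3 : ¬ m ∣ n - m := by
        intro h4
        apply h
        refine ⟨by omega, ?_⟩
        have h5 : m ∣ (n - m) + m := Dvd.dvd.add h4 (dvd_refl m)
        rwa [Nat.sub_add_cancel hle] at h5
      rw [if_neg h3]
    · rw [if_neg hle]

private noncomputable def FB_T (N : ℕ) : ℤ⟦X⟧ :=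
  ∑ i ∈ Finset.range N, ((i + 1 : ℕ) : ℤ⟦X⟧) * FB_g (i + 1)

private theorem FB_th_one (m : ℕ) (hm : m ≠ 0) :
    th (1 - X ^ m : ℤ⟦X⟧) = -(((m : ℕ) : ℤ⟦X⟧) * FB_g m) * (1 - X ^ m) := by
  have h1 : -(((m : ℕ) : ℤ⟦X⟧) * FB_g m) * (1 - X ^ m) =
      -(((m : ℕ) : ℤ⟦X⟧) * (FB_g m * (1 - X ^ m))) := by ring
  rw [h1, FB_g_mul m hm]
  have hc : ((m : ℤ⟦X⟧)) = PowerSeries.C (m : ℤ) := by simp
  ext n
  rw [coeff_th, hc, map_neg, PowerSeries.coeff_C_mul, map_sub, PowerSeries.coeff_one,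
    PowerSeries.coeff_X_pow]
  by_cases h : n = m
  · subst h
    rw [if_neg hm, if_pos rfl]
    ring
  · rw [if_neg h]
    by_cases h0 : n = 0
    · subst h0
      simp
    · rw [if_neg h0]
      ring

theorem th_prod (N : ℕ) : ∃ T : ℤ⟦X⟧, (∀ n ≤ N, coeff n T = coeff n Sg) ∧
    th (∏ i ∈ Finset.range N, (1 - X ^ (i + 1) : ℤ⟦X⟧)) =
      -T * ∏ i ∈ Finset.range N, (1 - X ^ (i + 1) : ℤ⟦X⟧) := by
  refine ⟨FB_T N, ?_, ?_⟩
  · intro n hn
    unfold FB_T Sg
    rw [map_sum, PowerSeries.coeff_mk, ArithmeticFunction.sigma_one_apply]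
    have h1 : ∀ i ∈ Finset.range N, coeff n (((i + 1 : ℕ) : ℤ⟦X⟧) * FB_g (i + 1)) =
        (fun m : ℕ ↦ if n ≠ 0 ∧ m ∣ n then (m : ℤ) else 0) (i + 1) := by
      intro i _
      have hc : (((i + 1 : ℕ) : ℤ⟦X⟧)) = PowerSeries.C ((i + 1 : ℕ) : ℤ) := by simp
      rw [hc, PowerSeries.coeff_C_mul, FB_g_coeff _ _ (Nat.succ_ne_zero i)]
      simp only [mul_ite, mul_one, mul_zero]
    rw [Finset.sum_congr rfl h1]
    have h2 : ∑ i ∈ Finset.range N, (fun m : ℕ ↦ if n ≠ 0 ∧ m ∣ n then (m : ℤ) else 0) (i + 1) =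
        ∑ m ∈ Finset.Ico 1 (N + 1), (fun m : ℕ ↦ if n ≠ 0 ∧ m ∣ n then (m : ℤ) else 0) m := by
      rw [Finset.range_eq_Ico,
        Finset.sum_Ico_add' (fun m : ℕ ↦ if n ≠ 0 ∧ m ∣ n then (m : ℤ) else 0) 0 N 1]
    rw [h2, ← Finset.sum_filter]
    push_cast
    refine Finset.sum_congr ?_ (fun _ _ ↦ rfl)
    ext m
    rw [Finset.mem_filter, Finset.mem_Ico, Nat.mem_divisors]
    constructor
    · rintro ⟨_, h3, h4⟩
      exact ⟨h4, h3⟩
    · rintro ⟨h4, h3⟩
      have h5 := Nat.pos_of_dvd_of_pos h4 (Nat.pos_of_ne_zero h3)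
      have h6 := Nat.le_of_dvd (Nat.pos_of_ne_zero h3) h4
      exact ⟨by omega, h3, h4⟩
  · induction N with
    | zero =>
      unfold FB_T th
      simp
    | succ N ih =>
      rw [Finset.prod_range_succ, th_log_mul _ _ _ _ ih (FB_th_one (N + 1) (Nat.succ_ne_zero N))]
      have h3 : FB_T (N + 1) = FB_T N + ((N + 1 : ℕ) : ℤ⟦X⟧) * FB_g (N + 1) := by
        unfold FB_T
        rw [Finset.sum_range_succ]
      rw [h3]
      ring
/- END FB -/

/- MODULE FC -/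
/-- PROOF: compare the coefficients at `n`: choose `N ≥ n` so large that the coefficients of
`∏_(i < N) (1 - X^(i+1))` at all `m ≤ n` are those of `eul`
(`PowerSeries.coeff_prod_one_sub_X_pow_eventually_eq` for the finitely many `m ≤ n`: there is a finite
set `s` such that every finset containing `s` works, take `range N ⊇ s`), and `th_prod`. -/
theorem th_eul : th eul = -Sg * eul := by
  ext n
  have h1 : ∀ᶠ s : Finset ℕ in Filter.atTop, ∀ m ∈ Finset.range (n + 1),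
      coeff m (∏ i ∈ s, (1 - X ^ (i + 1) : ℤ⟦X⟧)) = coeff m eul :=
    (Filter.eventually_all_finset _).2 fun m _ => PowerSeries.coeff_prod_one_sub_X_pow_eventually_eq ℤ m
  obtain ⟨N, hN, hNn⟩ := ((Filter.tendsto_finset_range.eventually h1).and
    (Filter.eventually_ge_atTop n)).exists
  have h2 : ∀ m ≤ n, coeff m (∏ i ∈ Finset.range N, (1 - X ^ (i + 1) : ℤ⟦X⟧)) = coeff m eul :=
    fun m hm => hN m (Finset.mem_range.2 (by omega))
  obtain ⟨T, hT, hQ⟩ := th_prod N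
  have h3 := congrArg (coeff n) hQ
  rw [coeff_th, h2 n le_rfl] at h3
  rw [coeff_th, h3, neg_mul, neg_mul, map_neg, map_neg, PowerSeries.coeff_mul, PowerSeries.coeff_mul]
  congr 1
  refine Finset.sum_congr rfl fun ij hij => ?_
  have h4 := Finset.HasAntidiagonal.mem_antidiagonal.1 hij
  rw [hT _ (by omega), h2 _ (by omega)]
/- END FC -/

/- MODULE FD -/
/-- PROOF: coefficients (`PowerSeries.coeff_expand`; `σ(0) = 0`). -/
theorem G_eq : G = -1 - 5 * Sg + 2 * PowerSeries.expand 2 (by norm_num) Sg -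
    3 * PowerSeries.expand 3 (by norm_num) Sg + 30 * PowerSeries.expand 6 (by norm_num) Sg := by
  have hn : ∀ (k : ℕ) (φ : ℤ⟦X⟧) (n : ℕ), coeff n ((k : ℤ⟦X⟧) * φ) = k * coeff n φ := by
    intro k φ n
    rw [← nsmul_eq_mul, map_nsmul, nsmul_eq_mul]
  have e5 : (5 : ℤ⟦X⟧) = ((5 : ℕ) : ℤ⟦X⟧) := rfl
  have e2' : (2 : ℤ⟦X⟧) = ((2 : ℕ) : ℤ⟦X⟧) := rfl
  have e3' : (3 : ℤ⟦X⟧) = ((3 : ℕ) : ℤ⟦X⟧) := rfl
  have e30 : (30 : ℤ⟦X⟧) = ((30 : ℕ) : ℤ⟦X⟧) := rfl
  ext n
  rw [e5, e2', e3', e30, map_add, map_sub, map_add, map_sub, map_neg, hn, hn, hn, hn,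
    PowerSeries.coeff_expand, PowerSeries.coeff_expand, PowerSeries.coeff_expand, PowerSeries.coeff_one]
  unfold G Sg
  simp only [PowerSeries.coeff_mk]
  by_cases h0 : n = 0
  · subst h0
    simp
  · rw [if_neg h0, if_neg h0]
    push_cast
    ring

private theorem FD_const (d : ℕ) (hd : d ≠ 0) :
    PowerSeries.constantCoeff (PowerSeries.expand d hd eul) = 1 := by
  have h0 : PowerSeries.constantCoeff eul = 1 := by
    have h := PowerSeries.coeff_pentagonalSeries_pentagonal ℤ 0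
    have h1 : pentagonal 0 = 0 := rfl
    rw [h1] at h
    rw [← PowerSeries.coeff_zero_eq_constantCoeff_apply]
    exact h.trans (by simp)
  rw [← PowerSeries.coeff_zero_eq_constantCoeff_apply, PowerSeries.coeff_expand, if_pos (dvd_zero _),
    Nat.zero_div, PowerSeries.coeff_zero_eq_constantCoeff_apply, h0]

/-- PROOF: `th_eul`, `th_log_expand` (`th e2 = - 2 S2 e2`, ...), `th_log_pow`, `th_log_mul`,
`th_log_inv` (the constant coefficient of `e2 * e6 ^ 5` is `1`): `th H = α H` with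
`α = -5 S1 - 3 S3 + 2 S2 + 30 S6`, and `G_eq`. -/
theorem th_H : th H - H = G * H := by
  have h1 := th_eul
  have h2 : th e2 = _ * e2 := th_log_expand eul _ h1 2 (by norm_num)
  have h3 : th e3 = _ * e3 := th_log_expand eul _ h1 3 (by norm_num)
  have h6 : th e6 = _ * e6 := th_log_expand eul _ h1 6 (by norm_num)
  have h4 := th_log_mul _ _ _ _ (th_log_pow eul _ h1 5) h3
  have h5 := th_log_mul _ _ _ _ h2 (th_log_pow e6 _ h6 5)
  have hc : PowerSeries.constantCoeff (e2 * e6 ^ 5) = 1 := by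
    rw [map_mul, map_pow]
    unfold e2 e6
    rw [FD_const, FD_const, one_pow, one_mul]
  have h7 := th_log_mul _ _ _ _ h4 (th_log_inv _ _ h5 hc)
  have h8 : th H = _ * H := h7
  rw [h8, G_eq, map_neg, map_neg, map_neg]
  push_cast
  ring
/- END FD -/

/- MODULE FE -/
private def FE_T (φ : ℤ⟦X⟧) (a b c : ℤ) : Prop := coeff 0 φ = a ∧ coeff 1 φ = b ∧ coeff 2 φ = c

private theorem FE_mul {φ ψ : ℤ⟦X⟧} {a b c a' b' c' : ℤ} (h : FE_T φ a b c) (h' : FE_T ψ a' b' c') :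
    FE_T (φ * ψ) (a * a') (a * b' + b * a') (a * c' + b * b' + c * a') := by
  obtain ⟨h1, h2, h3⟩ := h
  obtain ⟨h1', h2', h3'⟩ := h'
  refine ⟨?_, ?_, ?_⟩
  · have e : Finset.HasAntidiagonal.antidiagonal 0 = {((0 : ℕ), (0 : ℕ))} := rfl
    rw [PowerSeries.coeff_mul, e, Finset.sum_singleton, h1, h1']
  · have e : Finset.HasAntidiagonal.antidiagonal 1 = {((0 : ℕ), (1 : ℕ)), (1, 0)} := rfl
    rw [PowerSeries.coeff_mul, e, Finset.sum_insert (by decide), Finset.sum_singleton, h1, h1', h2, h2']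
  · have e : Finset.HasAntidiagonal.antidiagonal 2 = {((0 : ℕ), (2 : ℕ)), (1, 1), (2, 0)} := rfl
    rw [PowerSeries.coeff_mul, e, Finset.sum_insert (by decide), Finset.sum_insert (by decide),
      Finset.sum_singleton, h1, h1', h2, h2', h3, h3']
    ring

private theorem FE_add {φ ψ : ℤ⟦X⟧} {a b c a' b' c' : ℤ} (h : FE_T φ a b c) (h' : FE_T ψ a' b' c') :
    FE_T (φ + ψ) (a + a') (b + b') (c + c') := by
  obtain ⟨h1, h2, h3⟩ := h
  obtain ⟨h1', h2', h3'⟩ := h'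
  exact ⟨by rw [map_add, h1, h1'], by rw [map_add, h2, h2'], by rw [map_add, h3, h3']⟩

private theorem FE_cast {φ : ℤ⟦X⟧} {a b c a' b' c' : ℤ} (h : FE_T φ a b c) (ha : a = a') (hb : b = b')
    (hc : c = c') : FE_T φ a' b' c' := by
  rw [← ha, ← hb, ← hc]
  exact h

private theorem FE_eul : FE_T eul 1 (-1) (-1) := by
  have p0 : pentagonal 0 = 0 := rfl
  have p1 : pentagonal 1 = 1 := rfl
  have p2 : pentagonal (-1) = 2 := rfl
  have h0 := PowerSeries.coeff_pentagonalSeries_pentagonal ℤ 0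
  have h1 := PowerSeries.coeff_pentagonalSeries_pentagonal ℤ 1
  have h2 := PowerSeries.coeff_pentagonalSeries_pentagonal ℤ (-1)
  rw [p0] at h0
  rw [p1] at h1
  rw [p2] at h2
  exact ⟨h0.trans (by simp), h1.trans (by simp), h2.trans (by simp)⟩

private theorem FE_e2 : FE_T e2 1 0 (-1) := by
  obtain ⟨h0, h1, _⟩ := FE_eul
  unfold e2
  refine ⟨?_, ?_, ?_⟩
  · rw [PowerSeries.coeff_expand, if_pos (by norm_num)]
    exact h0
  · rw [PowerSeries.coeff_expand, if_neg (by norm_num)]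
  · rw [PowerSeries.coeff_expand, if_pos (by norm_num)]
    exact h1

private theorem FE_e3 : FE_T e3 1 0 0 := by
  obtain ⟨h0, h1, _⟩ := FE_eul
  unfold e3
  refine ⟨?_, ?_, ?_⟩
  · rw [PowerSeries.coeff_expand, if_pos (by norm_num)]
    exact h0
  · rw [PowerSeries.coeff_expand, if_neg (by norm_num)]
  · rw [PowerSeries.coeff_expand, if_neg (by norm_num)]

private theorem FE_e6 : FE_T e6 1 0 0 := by
  obtain ⟨h0, h1, _⟩ := FE_eul
  unfold e6
  refine ⟨?_, ?_, ?_⟩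
  · rw [PowerSeries.coeff_expand, if_pos (by norm_num)]
    exact h0
  · rw [PowerSeries.coeff_expand, if_neg (by norm_num)]
  · rw [PowerSeries.coeff_expand, if_neg (by norm_num)]

private theorem FE_one : FE_T 1 1 0 0 := by
  refine ⟨?_, ?_, ?_⟩
  · rw [PowerSeries.coeff_one, if_pos rfl]
  · rw [PowerSeries.coeff_one, if_neg (by norm_num)]
  · rw [PowerSeries.coeff_one, if_neg (by norm_num)]

private theorem FE_X (k : ℕ) : FE_T ((k : ℤ⟦X⟧) * X) 0 k 0 := by
  refine ⟨?_, ?_, ?_⟩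
  · rw [← nsmul_eq_mul, map_nsmul, PowerSeries.coeff_X, if_neg (by norm_num), nsmul_zero]
  · rw [← nsmul_eq_mul, map_nsmul, PowerSeries.coeff_X, if_pos rfl, nsmul_one]
  · rw [← nsmul_eq_mul, map_nsmul, PowerSeries.coeff_X, if_neg (by norm_num), nsmul_zero]

private theorem FE_P : FE_T P 1 (-1) (-2) :=
  FE_cast (FE_mul (FE_mul (FE_mul FE_eul FE_e2) FE_e3) FE_e6) (by norm_num) (by norm_num) (by norm_num)

private theorem FE_G : FE_T G (-1) (-5) (-13) := by
  have s1 : ArithmeticFunction.sigma 1 1 = 1 := by simp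
  have s2 : ArithmeticFunction.sigma 1 2 = 3 := by
    rw [ArithmeticFunction.sigma_one_apply]
    decide
  unfold G
  refine ⟨?_, ?_, ?_⟩
  · rw [PowerSeries.coeff_mk, if_pos rfl]
  · rw [PowerSeries.coeff_mk, if_neg (by norm_num), if_neg (by norm_num), if_neg (by norm_num),
      if_neg (by norm_num), s1]
    norm_num
  · rw [PowerSeries.coeff_mk, if_neg (by norm_num), if_pos (by norm_num), if_neg (by norm_num),
      if_neg (by norm_num), s2, show 2 / 2 = 1 from rfl, s1]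
    norm_num

private theorem FE_inv : FE_T (PowerSeries.invOfUnit (e2 * e6 ^ 5) 1) 1 0 1 := by
  have h6 : FE_T (e6 ^ 5) 1 0 0 := by
    have e : e6 ^ 5 = e6 * e6 * e6 * e6 * e6 := by ring
    rw [e]
    exact FE_cast (FE_mul (FE_mul (FE_mul (FE_mul FE_e6 FE_e6) FE_e6) FE_e6) FE_e6) (by norm_num)
      (by norm_num) (by norm_num)
  have hD : FE_T (e2 * e6 ^ 5) 1 0 (-1) := FE_cast (FE_mul FE_e2 h6) (by norm_num) (by norm_num)
    (by norm_num)
  have hc : PowerSeries.constantCoeff (e2 * e6 ^ 5) = ((1 : ℤˣ) : ℤ) := by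
    rw [← PowerSeries.coeff_zero_eq_constantCoeff_apply]
    exact hD.1
  have hm := PowerSeries.mul_invOfUnit (e2 * e6 ^ 5) 1 hc
  obtain ⟨x, y, z, h⟩ : ∃ x y z, FE_T (PowerSeries.invOfUnit (e2 * e6 ^ 5) 1) x y z :=
    ⟨_, _, _, rfl, rfl, rfl⟩
  obtain ⟨m1, m2, m3⟩ := FE_mul hD h
  rw [hm] at m1 m2 m3
  obtain ⟨o1, o2, o3⟩ := FE_one
  rw [o1] at m1
  rw [o2] at m2
  rw [o3] at m3
  exact FE_cast h (by linarith) (by linarith) (by linarith)

private theorem FE_H : FE_T H 1 (-5) 6 := by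
  have h5 : FE_T (eul ^ 5) 1 (-5) 5 := by
    have e : eul ^ 5 = eul * eul * eul * eul * eul := by ring
    rw [e]
    exact FE_cast (FE_mul (FE_mul (FE_mul (FE_mul FE_eul FE_eul) FE_eul) FE_eul) FE_eul) (by norm_num)
      (by norm_num) (by norm_num)
  exact FE_cast (FE_mul (FE_mul h5 FE_e3) FE_inv) (by norm_num) (by norm_num) (by norm_num)

/-- The first coefficients. PROOF: `eul = 1 - X - X² + ...` (`pentagonal 0 = 0`, `pentagonal 1 = 1`,
`pentagonal (-1) = 2`, `PowerSeries.coeff_pentagonalSeries_pentagonal`); the coefficients at `0, 1, 2`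
of `P` are `1, -1, -2`, of `H`: `1, -5, 6`, of `G`: `-1, -5, -13`, of `G² H`: `1, 5, 7`, of
`(H + 8X)(H + 9X)`: `1, 7, 24`, of `P²`: `1, -2, -3`, of the right side: `1, 5, 7`.
Practical: work with `coeff_mul` and antidiagonals, or show `φ = p + X^3 ψ` for explicit polynomials
`p` (stable under products), e.g. `eul = 1 - X - X^2 + X^3 * ψ`. -/
theorem N_coeff (n : ℕ) (hn : n < 3) :
    coeff n (G ^ 2 * H - P ^ 2 * (H + 8 * X) * (H + 9 * X)) = 0 := by
  have h1 : FE_T (G ^ 2 * H) 1 5 7 := by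
    rw [pow_two]
    exact FE_cast (FE_mul (FE_mul FE_G FE_G) FE_H) (by norm_num) (by norm_num) (by norm_num)
  have h8 : FE_T (H + 8 * X) 1 3 6 := FE_cast (FE_add FE_H (FE_X 8)) (by norm_num) (by norm_num)
    (by norm_num)
  have h9 : FE_T (H + 9 * X) 1 4 6 := FE_cast (FE_add FE_H (FE_X 9)) (by norm_num) (by norm_num)
    (by norm_num)
  have h2 : FE_T (P ^ 2 * (H + 8 * X) * (H + 9 * X)) 1 5 7 := by
    rw [pow_two]
    exact FE_cast (FE_mul (FE_mul (FE_mul FE_P FE_P) h8) h9) (by norm_num) (by norm_num) (by norm_num)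
  rw [map_sub]
  have hn' : n = 0 ∨ n = 1 ∨ n = 2 := by omega
  rcases hn' with rfl | rfl | rfl
  · rw [h1.1, h2.1, sub_self]
  · rw [h1.2.1, h2.2.1, sub_self]
  · rw [h1.2.2, h2.2.2, sub_self]
/- END FE -/

end Pool.Agent.NC
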