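import Pool.Agent.NC.Modu
import Pool.Agent.NC.P2F

/-!
# Part 2, the identity `G_sq` (one application of the Liouville theorem for `Γ_0(6)`)
-/

namespace Pool.Agent.NC

open scoped BigOperators PowerSeries
open PowerSeries (coeff X)
open ModularForm (eta)
open Complex (I exp)
open Real (pi)

/-- `h` at the cusp of `W_3`. -/
noncomputable def hc3 (z : ℂ) : ℂ := eta (3 * z) ^ 5 * eta z / (eta (6 * z) * eta (2 * z) ^ 5)

/-- `h` at the cusp of `W_2`. -/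
noncomputable def hc2 (z : ℂ) : ℂ := eta (2 * z) ^ 5 * eta (6 * z) / (eta z * eta (3 * z) ^ 5)

/- MODULE AA -/
private theorem AA_eta (a b c d : ℤ) (h : a * d - b * c = 1) (z : ℂ) (hz : 0 < z.im) (w : ℂ)
    (hw : w * (c * z + d) = a * z + b) : eta w ^ 24 = (c * z + d) ^ 12 * eta z ^ 24 := by
  have h1 := (moeb_im_int a b c d (by omega) z hz).1
  rw [← eta24 a b c d h z hz, ← hw, mul_div_cancel_right₀ _ h1]

private theorem AA_im (d : ℕ) (hd : 0 < d) (z : ℂ) (hz : 0 < z.im) : 0 < ((d : ℂ) * z).im := by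
  have h1 : ((d : ℂ) * z).im = d * z.im := by simp [Complex.mul_im]
  rw [h1]
  have h2 : (0 : ℝ) < d := by exact_mod_cast hd
  positivity

private theorem AA_im' (z : ℂ) (hz : 0 < z.im) : 0 < (2 * z).im ∧ 0 < (3 * z).im ∧
    0 < (6 * z).im := by
  have h2 := AA_im 2 (by norm_num) z hz
  have h3 := AA_im 3 (by norm_num) z hz
  have h6 := AA_im 6 (by norm_num) z hz
  push_cast at h2 h3 h6
  exact ⟨h2, h3, h6⟩

private theorem AA_ne (z : ℂ) (hz : 0 < z.im) :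
    eta z ≠ 0 ∧ eta (2 * z) ≠ 0 ∧ eta (3 * z) ≠ 0 ∧ eta (6 * z) ≠ 0 := by
  obtain ⟨h2, h3, h6⟩ := AA_im' z hz
  exact ⟨ModularForm.eta_ne_zero hz, ModularForm.eta_ne_zero h2, ModularForm.eta_ne_zero h3,
    ModularForm.eta_ne_zero h6⟩

private theorem AA_diff (d : ℕ) (hd : 0 < d) :
    DifferentiableOn ℂ (fun z : ℂ => eta ((d : ℂ) * z)) {z | 0 < z.im} := by
  intro z hz
  apply DifferentiableAt.differentiableWithinAt
  have h1 : DifferentiableAt ℂ eta ((d : ℂ) * z) :=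
    ModularForm.differentiableAt_eta_of_mem_upperHalfPlaneSet (AA_im d hd z hz)
  exact h1.comp z (by fun_prop)

private theorem AA_diff' : DifferentiableOn ℂ eta {z | 0 < z.im} ∧
    DifferentiableOn ℂ (fun z : ℂ => eta (2 * z)) {z | 0 < z.im} ∧
    DifferentiableOn ℂ (fun z : ℂ => eta (3 * z)) {z | 0 < z.im} ∧
    DifferentiableOn ℂ (fun z : ℂ => eta (6 * z)) {z | 0 < z.im} := by
  have h2 := AA_diff 2 (by norm_num)
  have h3 := AA_diff 3 (by norm_num)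
  have h6 := AA_diff 6 (by norm_num)
  push_cast at h2 h3 h6
  refine ⟨fun z hz => ?_, h2, h3, h6⟩
  exact (ModularForm.differentiableAt_eta_of_mem_upperHalfPlaneSet hz).differentiableWithinAt

private theorem AA_pow (x y u v : ℂ) :
    (x ^ 5 * y / (u * v ^ 5)) ^ 24 = (x ^ 24) ^ 5 * y ^ 24 / (u ^ 24 * (v ^ 24) ^ 5) := by
  have h1 : (x ^ 5 * y) ^ 24 = (x ^ 24) ^ 5 * y ^ 24 := by ring
  have h2 : (u * v ^ 5) ^ 24 = u ^ 24 * (v ^ 24) ^ 5 := by ring
  rw [div_pow, h1, h2]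

private theorem AA_hc3 : DifferentiableOn ℂ hc3 {z | 0 < z.im} ∧
    ∀ z : ℂ, 0 < z.im → hc3 z ≠ 0 := by
  obtain ⟨d1, d2, d3, d6⟩ := AA_diff'
  constructor
  · refine ((d3.pow 5).mul d1).div (d6.mul (d2.pow 5)) ?_
    intro z hz
    obtain ⟨n1, n2, n3, n6⟩ := AA_ne z hz
    exact mul_ne_zero n6 (pow_ne_zero _ n2)
  · intro z hz
    obtain ⟨n1, n2, n3, n6⟩ := AA_ne z hz
    exact div_ne_zero (mul_ne_zero (pow_ne_zero _ n3) n1) (mul_ne_zero n6 (pow_ne_zero _ n2))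

private theorem AA_hc2 : DifferentiableOn ℂ hc2 {z | 0 < z.im} ∧
    ∀ z : ℂ, 0 < z.im → hc2 z ≠ 0 := by
  obtain ⟨d1, d2, d3, d6⟩ := AA_diff'
  constructor
  · refine ((d2.pow 5).mul d6).div (d1.mul (d3.pow 5)) ?_
    intro z hz
    obtain ⟨n1, n2, n3, n6⟩ := AA_ne z hz
    exact mul_ne_zero n1 (pow_ne_zero _ n3)
  · intro z hz
    obtain ⟨n1, n2, n3, n6⟩ := AA_ne z hz
    exact div_ne_zero (mul_ne_zero (pow_ne_zero _ n2) n6) (mul_ne_zero n1 (pow_ne_zero _ n3))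

/-- PROOF: `eta (d * (-1/(6z))) = eta (-1/((6/d) z))`, so by `eta24` with the matrix `(0 -1; 1 0)`
the 24th power of `u z = h (-1/(6z)) * h z` is
`(6z)^(60) (2z)^12 / ((3z)^12 z^60) = 6^60 2^12 / 3^12`; `const_of_pow`. (The constant is `72`.) -/
theorem h_W6 : ∃ k : ℂ, k ≠ 0 ∧ ∀ z : ℂ, 0 < z.im → h (-1 / (6 * z)) * h z = k := by
  have hne : ∀ z : ℂ, 0 < z.im → (6 : ℂ) * z ≠ 0 := by
    intro z hz h0
    have := (AA_im' z hz).2.2
    rw [h0] at this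
    simp at this
  have him : ∀ z : ℂ, 0 < z.im → 0 < (-1 / (6 * z)).im := by
    intro z hz
    have h1 := (moeb_im_int 0 (-1) 6 0 (by norm_num) z hz).2
    simpa using h1
  obtain ⟨k, hk, hk2⟩ := const_of_pow (fun z => h (-1 / (6 * z)) * h z)
    ((differentiableOn_h.comp (DifferentiableOn.div (by fun_prop) (by fun_prop)
      (fun z hz => hne z hz)) (fun z hz => him z hz)).mul differentiableOn_h) (72 ^ 24)
    (by norm_num) (by
      intro z hz
      obtain ⟨i2, i3, i6⟩ := AA_im' z hz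
      obtain ⟨n1, n2, n3, n6⟩ := AA_ne z hz
      have hz0 : z ≠ 0 := fun h0 => hne z hz (by rw [h0, mul_zero])
      have hw : (-1 / (6 * z)) * (6 * z) = -1 := div_mul_cancel₀ _ (hne z hz)
      show (h (-1 / (6 * z)) * h z) ^ 24 = 72 ^ 24
      set w : ℂ := -1 / (6 * z)
      have e1 := AA_eta 0 (-1) 1 0 (by norm_num) (6 * z) i6 w
        (by push_cast; linear_combination hw)
      have e2 := AA_eta 0 (-1) 1 0 (by norm_num) (3 * z) i3 (2 * w)
        (by push_cast; linear_combination hw)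
      have e3 := AA_eta 0 (-1) 1 0 (by norm_num) (2 * z) i2 (3 * w)
        (by push_cast; linear_combination hw)
      have e6 := AA_eta 0 (-1) 1 0 (by norm_num) z hz (6 * w)
        (by push_cast; linear_combination hw)
      have p1 := pow_ne_zero 24 n1
      have p2 := pow_ne_zero 24 n2
      have p3 := pow_ne_zero 24 n3
      have p6 := pow_ne_zero 24 n6
      rw [mul_pow, h, h, AA_pow, AA_pow, e1, e2, e3, e6, div_mul_div_comm]
      generalize eta z ^ 24 = x1 at *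
      generalize eta (2 * z) ^ 24 = x2 at *
      generalize eta (3 * z) ^ 24 = x3 at *
      generalize eta (6 * z) ^ 24 = x6 at *
      push_cast
      simp only [one_mul, add_zero]
      rw [div_eq_iff]
      · ring
      · exact mul_ne_zero (mul_ne_zero (mul_ne_zero (pow_ne_zero _ (mul_ne_zero (by norm_num) hz0))
          p3) (pow_ne_zero _ (mul_ne_zero (pow_ne_zero _ hz0) p1)))
          (mul_ne_zero p2 (pow_ne_zero _ p6)))
  refine ⟨k, ?_, hk2⟩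
  rintro rfl
  norm_num at hk

/-- PROOF: as in `f_W3`: with `w = (3z-2)/(6z-3)`: `w = (1·(3z) - 2)/(2·(3z) - 3)`,
`2w = (1·(6z) - 4)/(1·(6z) - 3)`, `3w = (3z - 2)/(2z - 1)`, `6w = (3·(2z) - 4)/(1·(2z) - 1)`, so by
`eta24` `h(w)^24 = (6z-3)^60 (2z-1)^12 / ((6z-3)^12 (2z-1)^60) hc3(z)^24 = 3^48 hc3(z)^24`;
`const_of_pow` for `u = h(w)/hc3`. -/
theorem h_W3 : ∃ k : ℂ, k ≠ 0 ∧ ∀ z : ℂ, 0 < z.im → h ((3 * z - 2) / (6 * z - 3)) = k * hc3 z := by
  have hne : ∀ z : ℂ, 0 < z.im → (6 : ℂ) * z - 3 ≠ 0 := by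
    intro z hz h0
    have h1 : (6 * z - 3 : ℂ).im = 6 * z.im := by simp [Complex.mul_im]
    rw [h0] at h1
    simp at h1
    linarith
  have him : ∀ z : ℂ, 0 < z.im → 0 < ((3 * z - 2) / (6 * z - 3)).im := by
    intro z hz
    have h1 := (moeb_im_int 3 (-2) 6 (-3) (by norm_num) z hz).2
    push_cast at h1
    simpa [sub_eq_add_neg] using h1
  obtain ⟨d3, ne3⟩ := AA_hc3
  obtain ⟨k, hk, hk2⟩ := const_of_pow (fun z => h ((3 * z - 2) / (6 * z - 3)) / hc3 z)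
    ((differentiableOn_h.comp (DifferentiableOn.div (by fun_prop) (by fun_prop)
      (fun z hz => hne z hz)) (fun z hz => him z hz)).div d3 (fun z hz => ne3 z hz)) (3 ^ 48)
    (by norm_num) (by
      intro z hz
      obtain ⟨i2, i3, i6⟩ := AA_im' z hz
      obtain ⟨n1, n2, n3, n6⟩ := AA_ne z hz
      have hw : ((3 * z - 2) / (6 * z - 3)) * (6 * z - 3) = 3 * z - 2 :=
        div_mul_cancel₀ _ (hne z hz)
      show (h ((3 * z - 2) / (6 * z - 3)) / hc3 z) ^ 24 = 3 ^ 48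
      set w : ℂ := (3 * z - 2) / (6 * z - 3)
      have e1 := AA_eta 1 (-2) 2 (-3) (by norm_num) (3 * z) i3 w
        (by push_cast; linear_combination hw)
      have e2 := AA_eta 1 (-4) 1 (-3) (by norm_num) (6 * z) i6 (2 * w)
        (by push_cast; linear_combination 2 * hw)
      have e3 := AA_eta 3 (-2) 2 (-1) (by norm_num) z hz (3 * w)
        (by push_cast; linear_combination hw)
      have e6 := AA_eta 3 (-4) 1 (-1) (by norm_num) (2 * z) i2 (6 * w)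
        (by push_cast; linear_combination 2 * hw)
      have hm : (2 : ℂ) * z - 1 ≠ 0 := by
        intro h0
        exact hne z hz (by linear_combination 3 * h0)
      have p1 := pow_ne_zero 24 n1
      have p2 := pow_ne_zero 24 n2
      have p3 := pow_ne_zero 24 n3
      have p6 := pow_ne_zero 24 n6
      rw [div_pow, h, hc3, AA_pow, AA_pow, e1, e2, e3, e6]
      generalize eta z ^ 24 = x1 at *
      generalize eta (2 * z) ^ 24 = x2 at *
      generalize eta (3 * z) ^ 24 = x3 at *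
      generalize eta (6 * z) ^ 24 = x6 at *
      have c1 : ((2 : ℤ) : ℂ) * (3 * z) + ((-3 : ℤ) : ℂ) = 3 * (2 * z - 1) := by push_cast; ring
      have c2 : ((1 : ℤ) : ℂ) * (6 * z) + ((-3 : ℤ) : ℂ) = 3 * (2 * z - 1) := by push_cast; ring
      have c3 : ((2 : ℤ) : ℂ) * z + ((-1 : ℤ) : ℂ) = 2 * z - 1 := by push_cast; ring
      have c6 : ((1 : ℤ) : ℂ) * (2 * z) + ((-1 : ℤ) : ℂ) = 2 * z - 1 := by push_cast; ring
      rw [c1, c2, c3, c6]
      generalize (2 * z - 1 : ℂ) = y at *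
      have q1 : x3 ^ 5 * x1 ≠ 0 := mul_ne_zero (pow_ne_zero _ p3) p1
      have q2 : x6 * x2 ^ 5 ≠ 0 := mul_ne_zero p6 (pow_ne_zero _ p2)
      have q3 : (3 * y) ^ 12 * x6 * (y ^ 12 * x2) ^ 5 ≠ 0 :=
        mul_ne_zero (mul_ne_zero (pow_ne_zero _ (mul_ne_zero (by norm_num) hm)) p6)
          (pow_ne_zero _ (mul_ne_zero (pow_ne_zero _ hm) p2))
      rw [div_div_div_eq, div_eq_iff (mul_ne_zero q3 q1)]
      ring)
  refine ⟨k, ?_, fun z hz => ?_⟩
  · rintro rfl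
    norm_num at hk
  · exact (div_eq_iff (ne3 z hz)).1 (hk2 z hz)

/-- PROOF: as in `f_W2`: with `w = (2z-1)/(6z-2)`: `w = (1·(2z) - 1)/(3·(2z) - 2)`,
`2w = (2z-1)/(3z-1)`, `3w = (1·(6z) - 3)/(1·(6z) - 2)`, `6w = (2·(3z) - 3)/(1·(3z) - 1)`:
`h(w)^24 = (6z-2)^60 (6z-2)^12 / ((3z-1)^12 (3z-1)^60) hc2(z)^24 = 2^72 hc2(z)^24`. -/
theorem h_W2 : ∃ k : ℂ, k ≠ 0 ∧ ∀ z : ℂ, 0 < z.im → h ((2 * z - 1) / (6 * z - 2)) = k * hc2 z := by
  have hne : ∀ z : ℂ, 0 < z.im → (6 : ℂ) * z - 2 ≠ 0 := by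
    intro z hz h0
    have h1 : (6 * z - 2 : ℂ).im = 6 * z.im := by simp [Complex.mul_im]
    rw [h0] at h1
    simp at h1
    linarith
  have him : ∀ z : ℂ, 0 < z.im → 0 < ((2 * z - 1) / (6 * z - 2)).im := by
    intro z hz
    have h1 := (moeb_im_int 2 (-1) 6 (-2) (by norm_num) z hz).2
    push_cast at h1
    simpa [sub_eq_add_neg] using h1
  obtain ⟨d2, ne2⟩ := AA_hc2
  obtain ⟨k, hk, hk2⟩ := const_of_pow (fun z => h ((2 * z - 1) / (6 * z - 2)) / hc2 z)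
    ((differentiableOn_h.comp (DifferentiableOn.div (by fun_prop) (by fun_prop)
      (fun z hz => hne z hz)) (fun z hz => him z hz)).div d2 (fun z hz => ne2 z hz)) (2 ^ 72)
    (by norm_num) (by
      intro z hz
      obtain ⟨i2, i3, i6⟩ := AA_im' z hz
      obtain ⟨n1, n2, n3, n6⟩ := AA_ne z hz
      have hw : ((2 * z - 1) / (6 * z - 2)) * (6 * z - 2) = 2 * z - 1 :=
        div_mul_cancel₀ _ (hne z hz)
      show (h ((2 * z - 1) / (6 * z - 2)) / hc2 z) ^ 24 = 2 ^ 72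
      set w : ℂ := (2 * z - 1) / (6 * z - 2)
      have e1 := AA_eta 1 (-1) 3 (-2) (by norm_num) (2 * z) i2 w
        (by push_cast; linear_combination hw)
      have e2 := AA_eta 2 (-1) 3 (-1) (by norm_num) z hz (2 * w)
        (by push_cast; linear_combination hw)
      have e3 := AA_eta 1 (-3) 1 (-2) (by norm_num) (6 * z) i6 (3 * w)
        (by push_cast; linear_combination 3 * hw)
      have e6 := AA_eta 2 (-3) 1 (-1) (by norm_num) (3 * z) i3 (6 * w)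
        (by push_cast; linear_combination 3 * hw)
      have hm : (3 : ℂ) * z - 1 ≠ 0 := by
        intro h0
        exact hne z hz (by linear_combination 2 * h0)
      have p1 := pow_ne_zero 24 n1
      have p2 := pow_ne_zero 24 n2
      have p3 := pow_ne_zero 24 n3
      have p6 := pow_ne_zero 24 n6
      rw [div_pow, h, hc2, AA_pow, AA_pow, e1, e2, e3, e6]
      generalize eta z ^ 24 = x1 at *
      generalize eta (2 * z) ^ 24 = x2 at *
      generalize eta (3 * z) ^ 24 = x3 at *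
      generalize eta (6 * z) ^ 24 = x6 at *
      have c1 : ((3 : ℤ) : ℂ) * (2 * z) + ((-2 : ℤ) : ℂ) = 2 * (3 * z - 1) := by push_cast; ring
      have c2 : ((3 : ℤ) : ℂ) * z + ((-1 : ℤ) : ℂ) = 3 * z - 1 := by push_cast; ring
      have c3 : ((1 : ℤ) : ℂ) * (6 * z) + ((-2 : ℤ) : ℂ) = 2 * (3 * z - 1) := by push_cast; ring
      have c6 : ((1 : ℤ) : ℂ) * (3 * z) + ((-1 : ℤ) : ℂ) = 3 * z - 1 := by push_cast; ring
      rw [c1, c2, c3, c6]
      generalize (3 * z - 1 : ℂ) = y at *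
      have q1 : x2 ^ 5 * x6 ≠ 0 := mul_ne_zero (pow_ne_zero _ p2) p6
      have q3 : y ^ 12 * x1 * (y ^ 12 * x3) ^ 5 ≠ 0 :=
        mul_ne_zero (mul_ne_zero (pow_ne_zero _ hm) p1)
          (pow_ne_zero _ (mul_ne_zero (pow_ne_zero _ hm) p3))
      rw [div_div_div_eq, div_eq_iff (mul_ne_zero q3 q1)]
      ring)
  refine ⟨k, ?_, fun z hz => ?_⟩
  · rintro rfl
    norm_num at hk
  · exact (div_eq_iff (ne2 z hz)).1 (hk2 z hz)
/- END AA -/

/- MODULE AB -/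
private theorem AB_addn (n : ℕ) (z : ℂ) : eta (z + n) = exp (pi * I / 12) ^ n * eta z := by
  induction n with
  | zero => simp
  | succ n ih => rw [Nat.cast_succ, ← add_assoc, eta_add_one, ih, pow_succ]; ring

private theorem AB_shift (z : ℂ) :
    eta (2 * (z + 1)) = exp (pi * I / 12) ^ 2 * eta (2 * z) ∧
    eta (3 * (z + 1)) = exp (pi * I / 12) ^ 3 * eta (3 * z) ∧
    eta (6 * (z + 1)) = exp (pi * I / 12) ^ 6 * eta (6 * z) := by
  refine ⟨?_, ?_, ?_⟩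
  · rw [← AB_addn]; congr 1; push_cast; ring
  · rw [← AB_addn]; congr 1; push_cast; ring
  · rw [← AB_addn]; congr 1; push_cast; ring

/-- PROOF: `eta_add_one`, total exponents `15 + 1 - 6 - 10 = 0`, `10 + 6 - 1 - 15 = 0`. -/
theorem hc3_add_one (z : ℂ) : hc3 (z + 1) = hc3 z := by
  obtain ⟨h2, h3, h6⟩ := AB_shift z
  rw [hc3, hc3, eta_add_one, h2, h3, h6]
  have hu : exp (pi * I / 12) ≠ 0 := Complex.exp_ne_zero _
  generalize exp (pi * I / 12) = u at *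
  have e1 : (u ^ 3 * eta (3 * z)) ^ 5 * (u * eta z) = u ^ 16 * (eta (3 * z) ^ 5 * eta z) := by ring
  have e2 : u ^ 6 * eta (6 * z) * (u ^ 2 * eta (2 * z)) ^ 5 =
      u ^ 16 * (eta (6 * z) * eta (2 * z) ^ 5) := by ring
  rw [e1, e2, mul_div_mul_left _ _ (pow_ne_zero _ hu)]

theorem hc2_add_one (z : ℂ) : hc2 (z + 1) = hc2 z := by
  obtain ⟨h2, h3, h6⟩ := AB_shift z
  rw [hc2, hc2, eta_add_one, h2, h3, h6]
  have hu : exp (pi * I / 12) ≠ 0 := Complex.exp_ne_zero _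
  generalize exp (pi * I / 12) = u at *
  have e1 : (u ^ 2 * eta (2 * z)) ^ 5 * (u ^ 6 * eta (6 * z)) =
      u ^ 16 * (eta (2 * z) ^ 5 * eta (6 * z)) := by ring
  have e2 : u * eta z * (u ^ 3 * eta (3 * z)) ^ 5 = u ^ 16 * (eta z * eta (3 * z) ^ 5) := by ring
  rw [e1, e2, mul_div_mul_left _ _ (pow_ne_zero _ hu)]

theorem hc3_ne_zero (z : ℂ) (hz : 0 < z.im) : hc3 z ≠ 0 := by
  exact AA_hc3.2 z hz

theorem hc2_ne_zero (z : ℂ) (hz : 0 < z.im) : hc2 z ≠ 0 := by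
  exact AA_hc2.2 z hz

theorem differentiableOn_hc3 : DifferentiableOn ℂ hc3 {z | 0 < z.im} := by
  exact AA_hc3.1

theorem differentiableOn_hc2 : DifferentiableOn ℂ hc2 {z | 0 < z.im} := by
  exact AA_hc2.1
/- END AB -/

/- MODULE AC -/
private theorem AC_U (z : ℂ) (hz : 0 < z.im) (s : ℂ) (hs : s = 1 ∨ s = -1) :
    h (z / (6 * s * z + 1)) = h z := by
  obtain ⟨k, hk, hW⟩ := h_W6
  have hz0 : z ≠ 0 := by
    rintro rfl
    simp at hz
  have hw : 0 < (-1 / (6 * z)).im := by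
    have h1 := (moeb_im_int 0 (-1) 6 0 (by norm_num) z hz).2
    simpa using h1
  have hws : 0 < (-1 / (6 * z) - s).im := by
    rcases hs with rfl | rfl
    · simpa using hw
    · simpa using hw
  have e1 := hW (-1 / (6 * z) - s) hws
  have e2 := hW z hz
  have e3 : -1 / (6 * (-1 / (6 * z) - s)) = z / (6 * s * z + 1) := by
    have e4 : 6 * (-1 / (6 * z) - s) = -((6 * s * z + 1) / z) := by
      field_simp
      ring
    rw [e4, neg_div_neg_eq, one_div_div]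
  have e5 : h (-1 / (6 * z) - s) = h (-1 / (6 * z)) := by
    rcases hs with rfl | rfl
    · rw [← h_add_one (-1 / (6 * z) - 1), sub_add_cancel]
    · rw [sub_neg_eq_add, h_add_one]
  rw [e3, e5, ← e2, mul_comm] at e1
  exact mul_left_cancel₀ (h_ne_zero _ hw) e1

private theorem AC_V (z : ℂ) (hz : 0 < z.im) :
    h ((7 * z - 3) / (12 * z - 5)) = h z ∧ h ((-5 * z + 3) / (-12 * z + 7)) = h z := by
  obtain ⟨k, hk, hW⟩ := h_W3
  have hw : 0 < ((3 * z - 2) / (6 * z - 3)).im := by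
    have h1 := (moeb_im_int 3 (-2) 6 (-3) (by norm_num) z hz).2
    push_cast at h1
    simpa [sub_eq_add_neg] using h1
  have hne : (6 : ℂ) * z - 3 ≠ 0 := by
    intro h0
    have h1 : (6 * z - 3 : ℂ).im = 6 * z.im := by simp [Complex.mul_im]
    rw [h0] at h1
    simp at h1
    linarith
  have hww : ((3 * z - 2) / (6 * z - 3)) * (6 * z - 3) = 3 * z - 2 := div_mul_cancel₀ _ hne
  have key : ∀ (t : ℂ) (p q r s : ℂ), hc3 ((3 * z - 2) / (6 * z - 3) + t) =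
      hc3 ((3 * z - 2) / (6 * z - 3)) → 0 < ((3 * z - 2) / (6 * z - 3) + t).im →
      (3 * (3 * z - 2) + (3 * t - 2) * (6 * z - 3) = -3 * (p * z + q)) →
      (6 * (3 * z - 2) + (6 * t - 3) * (6 * z - 3) = -3 * (r * z + s)) →
      h ((p * z + q) / (r * z + s)) = h ((3 * ((3 * z - 2) / (6 * z - 3)) - 2) /
        (6 * ((3 * z - 2) / (6 * z - 3)) - 3)) := by
    intro t p q r s h1 h2 h3 h4
    rw [hW _ hw, ← h1, ← hW _ h2]
    congr 1
    set w : ℂ := (3 * z - 2) / (6 * z - 3)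
    have e1 : (3 * (w + t) - 2) * (6 * z - 3) = -3 * (p * z + q) := by
      linear_combination 3 * hww + h3
    have e2 : (6 * (w + t) - 3) * (6 * z - 3) = -3 * (r * z + s) := by
      linear_combination 6 * hww + h4
    rw [← mul_div_mul_right (3 * (w + t) - 2) _ hne, e1, e2,
      mul_div_mul_left _ _ (by norm_num : (-3 : ℂ) ≠ 0)]
  have hid : (3 * ((3 * z - 2) / (6 * z - 3)) - 2) / (6 * ((3 * z - 2) / (6 * z - 3)) - 3) = z := by
    set w : ℂ := (3 * z - 2) / (6 * z - 3)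
    have e1 : (3 * w - 2) * (6 * z - 3) = -3 * z := by linear_combination 3 * hww
    have e2 : (6 * w - 3) * (6 * z - 3) = -3 := by linear_combination 6 * hww
    rw [← mul_div_mul_right (3 * w - 2) _ hne, e1, e2]
    field_simp
  rw [hid] at key
  constructor
  · have h1 := key (-1) 7 (-3) 12 (-5) (by
      rw [← hc3_add_one, neg_add_cancel_right]) (by simpa using hw) (by ring) (by ring)
    simpa [sub_eq_add_neg] using h1
  · have h1 := key 1 (-5) 3 (-12) 7 (hc3_add_one _) (by simpa using hw) (by ring) (by ring)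
    exact h1

private theorem AC_step (a b c d a' b' c' d' : ℤ) (g p q r s : ℂ) (z : ℂ) (hg : g * (r * z + s) = p * z + q)
    (hrs : r * z + s ≠ 0) (h1 : (a : ℂ) * p + b * r = a') (h2 : (a : ℂ) * q + b * s = b')
    (h3 : (6 : ℂ) * c * p + d * r = 6 * c') (h4 : (6 : ℂ) * c * q + d * s = d') :
    ((a' : ℂ) * z + b') / (6 * c' * z + d') = (a * g + b) / (6 * c * g + d) := by
  rw [← mul_div_mul_right (a * g + b) _ hrs]
  congr 1
  · rw [← h1, ← h2]
    linear_combination (-(a : ℂ)) * hg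
  · rw [← h3, ← h4]
    linear_combination (-(6 : ℂ) * c) * hg

/-- `h` is invariant under `Γ_0(6)`. PROOF: `gamma_induction` for
`Q a b c d := a d - 6 b c = 1 ∧ ∀ z, 0 < Im z → h (γ z) = h z`. `T`: `h_add_one`. `U^(±1)`:
`z/(±6z+1) = -1/(6 (w ∓ 1))` with `w = -1/(6z)` (as in `f_U`), so by `h_W6` twice
`h (U z) = k / h(w ∓ 1) = k / h(w) = h z`. `V^(±1)`: `V z = W(W z - 1)`, `V⁻¹ z = W (W z + 1)`,
`W = W_3`, `W W z = z`: by `h_W3`: `h (V z) = k hc3 (W z - 1) = k hc3 (W z) = h (W (W z)) = h z`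
(`hc3_add_one`). -/
theorem h_one : Inv h := by
  have key := gamma_induction (fun a b c d => a * d - 6 * b * c = 1 ∧ ∀ z : ℂ, 0 < z.im →
    h ((a * z + b) / (6 * c * z + d)) = h z) ?_ ?_ ?_ ?_ ?_ ?_ ?_ ?_
  · exact fun a b c d hd => (key a b c d hd).2
  · refine ⟨by norm_num, fun z _ => ?_⟩
    congr 1
    push_cast
    simp
  · rintro a b c d ⟨hd, hh⟩
    refine ⟨by linear_combination hd, fun z hz => ?_⟩
    rw [← hh z hz]
    congr 1
    rw [← neg_div_neg_eq]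
    push_cast
    congr 1 <;> ring
  · rintro a b c d ⟨hd, hh⟩
    refine ⟨by linear_combination hd, fun z hz => ?_⟩
    have hz1 : 0 < (z + 1).im := by simpa using hz
    rw [← h_add_one z, ← hh (z + 1) hz1]
    congr 1
    push_cast
    congr 1 <;> ring
  · rintro a b c d ⟨hd, hh⟩
    refine ⟨by linear_combination hd, fun z hz => ?_⟩
    have hz1 : 0 < (z - 1).im := by simpa using hz
    have e1 : h z = h (z - 1) := by rw [← h_add_one (z - 1), sub_add_cancel]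
    rw [e1, ← hh (z - 1) hz1]
    congr 1
    push_cast
    congr 1 <;> ring
  · rintro a b c d ⟨hd, hh⟩
    refine ⟨by linear_combination hd, fun z hz => ?_⟩
    obtain ⟨n1, n2⟩ := moeb_im_int 1 0 6 1 (by norm_num) z hz
    push_cast at n1 n2
    have e1 := AC_U z hz 1 (Or.inl rfl)
    rw [mul_one] at e1
    rw [one_mul, add_zero] at n2
    rw [← e1, ← hh _ n2]
    congr 1
    exact AC_step a b c d _ _ _ _ (z / (6 * z + 1)) 1 0 6 1 z
      (by rw [div_mul_cancel₀ _ n1]; ring) n1 (by push_cast; ring) (by ring)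
      (by push_cast; ring) (by ring)
  · rintro a b c d ⟨hd, hh⟩
    refine ⟨by linear_combination hd, fun z hz => ?_⟩
    obtain ⟨n1, n2⟩ := moeb_im_int 1 0 (-6) 1 (by norm_num) z hz
    push_cast at n1 n2
    have e1 := AC_U z hz (-1) (Or.inr rfl)
    rw [mul_neg_one] at e1
    rw [one_mul, add_zero] at n2
    rw [← e1, ← hh _ n2]
    congr 1
    exact AC_step a b c d _ _ _ _ (z / (-6 * z + 1)) 1 0 (-6) 1 z
      (by rw [div_mul_cancel₀ _ n1]; ring) n1 (by push_cast; ring) (by ring)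
      (by push_cast; ring) (by ring)
  · rintro a b c d ⟨hd, hh⟩
    refine ⟨by linear_combination hd, fun z hz => ?_⟩
    obtain ⟨n1, n2⟩ := moeb_im_int 7 (-3) 12 (-5) (by norm_num) z hz
    push_cast at n1 n2
    have e1 := (AC_V z hz).1
    rw [sub_eq_add_neg, sub_eq_add_neg] at e1
    rw [← e1, ← hh _ n2]
    congr 1
    exact AC_step a b c d _ _ _ _ ((7 * z + -3) / (12 * z + -5)) 7 (-3) 12 (-5) z
      (by rw [div_mul_cancel₀ _ n1]) n1 (by push_cast; ring) (by push_cast; ring)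
      (by push_cast; ring) (by push_cast; ring)
  · rintro a b c d ⟨hd, hh⟩
    refine ⟨by linear_combination hd, fun z hz => ?_⟩
    obtain ⟨n1, n2⟩ := moeb_im_int (-5) 3 (-12) 7 (by norm_num) z hz
    push_cast at n1 n2
    have e1 := (AC_V z hz).2
    rw [← e1, ← hh _ n2]
    congr 1
    exact AC_step a b c d _ _ _ _ ((-5 * z + 3) / (-12 * z + 7)) (-5) 3 (-12) 7 z
      (by rw [div_mul_cancel₀ _ n1]) n1 (by push_cast; ring) (by push_cast; ring)
      (by push_cast; ring) (by push_cast; ring)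
/- END AC -/

/-- `q h' / h = (2 π i)⁻¹ h'/h`. -/
noncomputable def K (z : ℂ) : ℂ := deriv h z / (2 * pi * I * h z)
noncomputable def K3 (z : ℂ) : ℂ := deriv hc3 z / (2 * pi * I * hc3 z)
noncomputable def K2 (z : ℂ) : ℂ := deriv hc2 z / (2 * pi * I * hc2 z)

/- MODULE AD -/
/-- Chain rule. PROOF: `HasDerivAt` of `(a z + b)/(c z + d)` is `(a d - b c)/(c z + d)²`; `u` is
differentiable at the image (`moeb_im_int`). -/
theorem deriv_moeb (u : ℂ → ℂ) (hu : DifferentiableOn ℂ u {z | 0 < z.im}) (a b c d : ℤ)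
    (h : 0 < a * d - b * c) (z : ℂ) (hz : 0 < z.im) :
    HasDerivAt (fun t : ℂ ↦ u ((a * t + b) / (c * t + d)))
      (deriv u ((a * z + b) / (c * z + d)) * (((a * d - b * c : ℤ) : ℂ) / (c * z + d) ^ 2)) z := by
  obtain ⟨h1, h2⟩ := moeb_im_int a b c d h z hz
  have hopen : IsOpen {z : ℂ | 0 < z.im} := isOpen_lt continuous_const Complex.continuous_im
  have hu1 : HasDerivAt u (deriv u ((a * z + b) / (c * z + d))) ((a * z + b) / (c * z + d)) :=
    (hu.differentiableAt (hopen.mem_nhds h2)).hasDerivAt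
  have hnum : HasDerivAt (fun t : ℂ => (a : ℂ) * t + b) (a : ℂ) z := by
    simpa using ((hasDerivAt_id z).const_mul (a : ℂ)).add_const (b : ℂ)
  have hden : HasDerivAt (fun t : ℂ => (c : ℂ) * t + d) (c : ℂ) z := by
    simpa using ((hasDerivAt_id z).const_mul (c : ℂ)).add_const (d : ℂ)
  have hdiv := hnum.fun_div hden h1
  have hcomp := hu1.comp z hdiv
  have e : ((a : ℂ) * (c * z + d) - (a * z + b) * c) / (c * z + d) ^ 2 =
      ((a * d - b * c : ℤ) : ℂ) / (c * z + d) ^ 2 := by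
    congr 1
    push_cast
    ring
  rw [e] at hcomp
  exact hcomp

private theorem AD_nhds (z : ℂ) (hz : 0 < z.im) : {z : ℂ | 0 < z.im} ∈ nhds z :=
  (isOpen_lt continuous_const Complex.continuous_im).mem_nhds hz

private theorem AD_deriv (u : ℂ → ℂ) (hu : DifferentiableOn ℂ u {z | 0 < z.im}) (z : ℂ)
    (hz : 0 < z.im) : HasDerivAt u (deriv u z) z :=
  (hu.differentiableAt (AD_nhds z hz)).hasDerivAt

private theorem AD_key (w : ℂ → ℂ) (a b c d : ℤ) (hdet : 0 < a * d - b * c)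
    (hw : ∀ t : ℂ, w t = (a * t + b) / (c * t + d)) (z : ℂ) (hz : 0 < z.im) :
    HasDerivAt (fun t => h (w t))
      (deriv h (w z) * (((a * d - b * c : ℤ) : ℂ) / (c * z + d) ^ 2)) z := by
  have h1 := deriv_moeb h differentiableOn_h a b c d hdet z hz
  simp only [← hw] at h1
  exact h1

private theorem AD_pi : (2 * (pi : ℂ) * I) ≠ 0 :=
  mul_ne_zero (mul_ne_zero two_ne_zero (by exact_mod_cast Real.pi_ne_zero)) Complex.I_ne_zero

private theorem AD_gen (v : ℂ → ℂ) (hv : DifferentiableOn ℂ v {z | 0 < z.im}) (k : ℂ) (hk : k ≠ 0)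
    (w : ℂ → ℂ) (a b c d : ℤ) (hdet : 0 < a * d - b * c)
    (hw : ∀ t : ℂ, w t = (a * t + b) / (c * t + d)) (hvw : ∀ z : ℂ, 0 < z.im → h (w z) = k * v z)
    (hv0 : ∀ z : ℂ, 0 < z.im → v z ≠ 0) (z : ℂ) (hz : 0 < z.im) :
    deriv h (w z) / (2 * pi * I * h (w z)) =
      ((c * z + d) ^ 2 / ((a * d - b * c : ℤ) : ℂ)) * (deriv v z / (2 * pi * I * v z)) := by
  have h1 := AD_key w a b c d hdet hw z hz
  have h2 : HasDerivAt (fun t => h (w t)) (k * deriv v z) z := by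
    refine ((AD_deriv v hv z hz).const_mul k).congr_of_eventuallyEq ?_
    filter_upwards [AD_nhds z hz] with t ht
    exact hvw t ht
  have h3 := h1.unique h2
  have h4 := (moeb_im_int a b c d hdet z hz).1
  have hD : ((a * d - b * c : ℤ) : ℂ) ≠ 0 := by
    rw [Int.cast_ne_zero]
    exact hdet.ne'
  rw [hvw z hz]
  have h5 : deriv h (w z) = k * deriv v z * ((c * z + d) ^ 2 / ((a * d - b * c : ℤ) : ℂ)) := by
    rw [← h3]
    field_simp
  rw [h5]
  have h6 := hv0 z hz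
  have h7 := AD_pi
  generalize ((a * d - b * c : ℤ) : ℂ) = D at *
  generalize (2 * (pi : ℂ) * I) = P at *
  field_simp

/-- PROOF: differentiate `h (γ t) = h t` (an equality near `z`), `deriv_moeb`, determinant `1`. -/
theorem K_one (a b c d : ℤ) (hd : a * d - 6 * b * c = 1) (z : ℂ) (hz : 0 < z.im) :
    K ((a * z + b) / (6 * c * z + d)) = (6 * c * z + d) ^ 2 * K z := by
  have h2 : a * d - b * (6 * c) = 1 := by linear_combination hd
  have h1 := AD_gen h differentiableOn_h 1 one_ne_zero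
    (fun t => (a * t + b) / (6 * c * t + d)) a b (6 * c) d (by rw [h2]; norm_num)
    (fun t => by push_cast; rfl) (fun z hz => by rw [one_mul]; exact h_one a b c d hd z hz)
    h_ne_zero z hz
  rw [h2] at h1
  rw [K, K, h1]
  push_cast
  rw [div_one]

/-- PROOF: differentiate `h (-1/(6t)) h t = k`. -/
theorem K_W6 (z : ℂ) (hz : 0 < z.im) : K (-1 / (6 * z)) = -(6 * z ^ 2) * K z := by
  obtain ⟨k, hk, hW⟩ := h_W6
  have h1 := AD_key (fun t => -1 / (6 * t)) 0 (-1) 6 0 (by norm_num)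
    (fun t => by push_cast; simp) z hz
  have h2 := h1.fun_mul (AD_deriv h differentiableOn_h z hz)
  have h3 : HasDerivAt (fun t => h (-1 / (6 * t)) * h t) 0 z := by
    refine (hasDerivAt_const z k).congr_of_eventuallyEq ?_
    filter_upwards [AD_nhds z hz] with t ht
    exact hW t ht
  have h4 := h2.unique h3
  have hz0 : z ≠ 0 := by
    rintro rfl
    simp at hz
  have hw : 0 < (-1 / (6 * z)).im := by
    have h1 := (moeb_im_int 0 (-1) 6 0 (by norm_num) z hz).2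
    simpa using h1
  have n1 := h_ne_zero z hz
  have n2 := h_ne_zero _ hw
  have h7 := AD_pi
  rw [K, K]
  push_cast at h4
  generalize h (-1 / (6 * z)) = y at *
  generalize deriv h (-1 / (6 * z)) = x at *
  generalize deriv h z = u at *
  generalize h z = v at *
  generalize (2 * (pi : ℂ) * I) = P at *
  have h5 : x * v = -(6 * z ^ 2) * (y * u) := by
    field_simp at h4
    linear_combination (1 / 6) * h4
  rw [div_eq_iff (mul_ne_zero h7 n2), ← mul_div_assoc, div_mul_eq_mul_div,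
    eq_div_iff (mul_ne_zero h7 n1)]
  linear_combination P * h5

/-- PROOF: differentiate `h (W t) = k hc3 t`; determinant `3`. -/
theorem K_W3 (z : ℂ) (hz : 0 < z.im) :
    K ((3 * z - 2) / (6 * z - 3)) = ((6 * z - 3) ^ 2 / 3) * K3 z := by
  obtain ⟨k, hk, hW⟩ := h_W3
  have h1 := AD_gen hc3 differentiableOn_hc3 k hk
    (fun t => (3 * t - 2) / (6 * t - 3)) 3 (-2) 6 (-3) (by norm_num)
    (fun t => by push_cast; simp only [sub_eq_add_neg]) hW hc3_ne_zero z hz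
  rw [K, K3]
  push_cast at h1
  simp only [← sub_eq_add_neg] at h1
  rw [h1]

/-- PROOF: differentiate `h (W t) = k hc2 t`; determinant `2`. -/
theorem K_W2 (z : ℂ) (hz : 0 < z.im) :
    K ((2 * z - 1) / (6 * z - 2)) = ((6 * z - 2) ^ 2 / 2) * K2 z := by
  obtain ⟨k, hk, hW⟩ := h_W2
  have h1 := AD_gen hc2 differentiableOn_hc2 k hk
    (fun t => (2 * t - 1) / (6 * t - 2)) 2 (-1) 6 (-2) (by norm_num)
    (fun t => by push_cast; simp only [sub_eq_add_neg]) hW hc2_ne_zero z hz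
  rw [K, K2]
  push_cast at h1
  simp only [← sub_eq_add_neg] at h1
  rw [h1]
/- END AD -/

/-- The function which is to be shown to vanish. -/
noncomputable def R (z : ℂ) : ℂ := K z ^ 2 * h z / f z ^ 2 - (h z + 8) * (h z + 9)

/- MODULE AE -/
private theorem AE_open : IsOpen {z : ℂ | 0 < z.im} := isOpen_lt continuous_const Complex.continuous_im

private theorem AE_two : (2 * pi * I : ℂ) ≠ 0 := Complex.two_pi_I_ne_zero

theorem differentiableOn_R : DifferentiableOn ℂ R {z | 0 < z.im} := by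
  have h1 : DifferentiableOn ℂ (deriv h) {z : ℂ | 0 < z.im} := differentiableOn_h.deriv AE_open
  have hK : DifferentiableOn ℂ K {z : ℂ | 0 < z.im} := by
    refine h1.div (differentiableOn_h.const_mul _) ?_
    intro z hz
    exact mul_ne_zero AE_two (h_ne_zero z hz)
  have h2 : DifferentiableOn ℂ (fun z ↦ K z ^ 2 * h z / f z ^ 2) {z : ℂ | 0 < z.im} := by
    refine ((hK.pow 2).mul differentiableOn_h).div (differentiableOn_f.pow 2) ?_
    intro z hz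
    exact pow_ne_zero 2 (f_ne_zero z hz)
  exact h2.sub ((differentiableOn_h.add_const _).mul (differentiableOn_h.add_const _))

/-- PROOF: `K_one`, `h_one`, `f_one` (the square of the sign is `1`). -/
theorem R_inv : Inv R := by
  intro a b c d hd z hz
  have hm := moeb_im_int a b (6 * c) d (by linarith) z hz
  push_cast at hm
  have h1 := h_one a b c d hd z hz
  have h2 := K_one a b c d hd z hz
  have h3 := f_one a b c d hd z hz
  unfold R
  rw [h1, h2, h3]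
  have h4 : f z ≠ 0 := f_ne_zero z hz
  have h5 : (6 * c * z + d : ℂ) ≠ 0 := hm.1
  have h6 : ((-1 : ℂ) ^ (b + c)) ^ 2 = 1 := by
    rw [← zpow_natCast, ← zpow_mul, mul_comm, zpow_mul]
    norm_num
  have h7 : ((-1 : ℂ) ^ (b + c) * (6 * c * z + d) ^ 2 * f z) ^ 2 =
      (6 * c * z + d) ^ 4 * f z ^ 2 := by
    rw [mul_pow, mul_pow, h6]; ring
  rw [h7]
  congr 1
  field_simp
/- END AE -/

/- MODULE AF -/
private theorem AF_pow (q : ℂ) (hq : ‖q‖ < 1) (d : ℕ) (hd : d ≠ 0) : ‖q ^ d‖ < 1 := by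
  rw [norm_pow]
  exact pow_lt_one₀ (norm_nonneg _) hq hd

private theorem AF_HF (q : ℂ) (hq : ‖q‖ < 1) : HF q ≠ 0 := by
  unfold HF
  refine mul_ne_zero (mul_ne_zero (pow_ne_zero _ (eulF_ne_zero q hq))
    (eulF_ne_zero _ (AF_pow q hq 3 (by norm_num)))) (inv_ne_zero ?_)
  exact mul_ne_zero (eulF_ne_zero _ (AF_pow q hq 2 (by norm_num)))
    (pow_ne_zero _ (eulF_ne_zero _ (AF_pow q hq 6 (by norm_num))))

private theorem AF_PF (q : ℂ) (hq : ‖q‖ < 1) : PF q ≠ 0 := by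
  unfold PF
  refine mul_ne_zero (mul_ne_zero (mul_ne_zero (eulF_ne_zero q hq) ?_) ?_) ?_
  · exact eulF_ne_zero _ (AF_pow q hq 2 (by norm_num))
  · exact eulF_ne_zero _ (AF_pow q hq 3 (by norm_num))
  · exact eulF_ne_zero _ (AF_pow q hq 6 (by norm_num))

private theorem AF_diff {φ : ℤ⟦X⟧} {F : ℂ → ℂ} (hF : Rep φ F) (q : ℂ) (hq : ‖q‖ < 1) :
    DifferentiableAt ℂ F q :=
  (hF.differentiableOn q (by simpa using hq)).differentiableAt
    (Metric.isOpen_ball.mem_nhds (by simpa using hq))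

private theorem AF_exp (z : ℂ) : HasDerivAt (fun t : ℂ ↦ exp (2 * pi * I * t))
    (2 * pi * I * exp (2 * pi * I * z)) z := by
  have h1 : HasDerivAt (fun t : ℂ ↦ 2 * pi * I * t) (2 * pi * I) z := by
    simpa using (hasDerivAt_id z).const_mul (2 * pi * I : ℂ)
  have h2 := h1.cexp
  rwa [mul_comm (exp _)] at h2

private theorem AF_comp {φ : ℤ⟦X⟧} {F : ℂ → ℂ} (hF : Rep φ F) (z : ℂ) (hz : 0 < z.im) :
    HasDerivAt (fun t : ℂ ↦ F (exp (2 * pi * I * t)))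
      (deriv F (exp (2 * pi * I * z)) * (2 * pi * I * exp (2 * pi * I * z))) z :=
  HasDerivAt.comp z (AF_diff hF _ (norm_q_lt z hz)).hasDerivAt (AF_exp z)

/-- The values of `G`. PROOF: `G = (th H - H) * invOfUnit H 1` by `th_H` and
`PowerSeries.mul_invOfUnit` (`const_H`), so `Rep G GF` with `GF q = (q HF'(q) - HF(q)) / HF(q)`
(`rep_H`, `Rep.th`, `Rep.sub`, `Rep.mul`, `Rep.inv`; `HF q ≠ 0` by `eulF_ne_zero`). And from `h_eq`:
`h' = 2 π i (- q⁻¹ HF + HF') `, so `K = GF (q)`. -/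
theorem rep_G : ∃ GF : ℂ → ℂ, Rep G GF ∧ ∀ z : ℂ, 0 < z.im → K z = GF (exp (2 * pi * I * z)) := by
  refine ⟨fun q ↦ (q * deriv HF q - HF q) * (HF q)⁻¹, ?_, ?_⟩
  · have h1 := (rep_H.th.sub rep_H).mul (rep_H.inv const_H AF_HF)
    rw [th_H, mul_assoc, PowerSeries.mul_invOfUnit H 1 (by rw [const_H]; rfl), mul_one] at h1
    exact h1
  · intro z hz
    have h0 : exp (2 * pi * I * z) ≠ 0 := Complex.exp_ne_zero _
    have h1 : HasDerivAt h (-(2 * pi * I) * exp (-(2 * pi * I * z)) * HF (exp (2 * pi * I * z)) +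
        exp (-(2 * pi * I * z)) *
          (deriv HF (exp (2 * pi * I * z)) * (2 * pi * I * exp (2 * pi * I * z)))) z := by
      have h2 : HasDerivAt (fun t : ℂ ↦ exp (-(2 * pi * I * t)))
          (-(2 * pi * I) * exp (-(2 * pi * I * z))) z := by
        have h3' : HasDerivAt (fun t : ℂ ↦ 2 * pi * I * t) (2 * pi * I) z := by
          simpa using (hasDerivAt_id z).const_mul (2 * pi * I : ℂ)
        have h3 : HasDerivAt (fun t : ℂ ↦ -(2 * pi * I * t)) (-(2 * pi * I)) z := h3'.neg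
        have h4 := h3.cexp
        rwa [mul_comm (exp _)] at h4
      have h5 := h2.mul (AF_comp rep_H z hz)
      have h6 : h = fun t : ℂ ↦ exp (-(2 * pi * I * t)) * HF (exp (2 * pi * I * t)) :=
        funext h_eq
      rw [h6]
      exact h5
    have hH : HF (exp (2 * pi * I * z)) ≠ 0 := AF_HF _ (norm_q_lt z hz)
    unfold K
    rw [h1.deriv, h_eq z]
    have h7 : exp (-(2 * pi * I * z)) = (exp (2 * pi * I * z))⁻¹ := Complex.exp_neg _
    rw [h7]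
    have h8 := AE_two
    field_simp
    ring

/-- PROOF: `R z = q⁻² PF(q)⁻² NF(q)`, `q = exp (2 π i z)`, where `NF` is the value of
`N = G² H - P² (H + 8X)(H + 9X)` (`Rep.mul`, `Rep.sub`, `Rep.pow`, ...), from `h_eq`, `f_eq`,
`rep_G`. -/
theorem R_eq : ∃ NF : ℂ → ℂ, Rep (G ^ 2 * H - P ^ 2 * (H + 8 * X) * (H + 9 * X)) NF ∧
    ∀ z : ℂ, 0 < z.im → R z * (exp (2 * pi * I * z) ^ 2 * PF (exp (2 * pi * I * z)) ^ 2) =
      NF (exp (2 * pi * I * z)) := by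
  obtain ⟨GF, hGF, hK⟩ := rep_G
  have h8 : Rep (8 : ℤ⟦X⟧) fun _ ↦ (8 : ℂ) := by
    have := Rep.natCast 8
    simpa using this
  have h9 : Rep (9 : ℤ⟦X⟧) fun _ ↦ (9 : ℂ) := by
    have := Rep.natCast 9
    simpa using this
  refine ⟨_, ((hGF.pow 2).mul rep_H).sub (((rep_P.pow 2).mul (rep_H.add (h8.mul Rep.X))).mul
    (rep_H.add (h9.mul Rep.X))), ?_⟩
  intro z hz
  have h0 : exp (2 * pi * I * z) ≠ 0 := Complex.exp_ne_zero _
  have hP : PF (exp (2 * pi * I * z)) ≠ 0 := AF_PF _ (norm_q_lt z hz)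
  have h7 : exp (-(2 * pi * I * z)) = (exp (2 * pi * I * z))⁻¹ := Complex.exp_neg _
  have hf : f z ^ 2 = exp (2 * pi * I * z) * PF (exp (2 * pi * I * z)) ^ 2 := by
    rw [f_eq z, mul_pow, ← Complex.exp_nat_mul]
    congr 2
    push_cast
    ring
  unfold R
  rw [hK z hz, hf, h_eq z, h7]
  field_simp
/- END AF -/

/- MODULE AG -/
private theorem AG_norm (z : ℂ) : ‖exp (2 * pi * I * z)‖ = Real.exp (-(2 * pi * z.im)) := by
  rw [Complex.norm_exp]
  congr 1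
  simp [Complex.mul_re, Complex.mul_im]

private theorem AG_small (δ : ℝ) (hδ : 0 < δ) : ∃ Y : ℝ, ∀ z : ℂ, Y ≤ z.im →
    ‖exp (2 * pi * I * z)‖ < δ := by
  refine ⟨(1 - Real.log δ) / (2 * pi), fun z hz ↦ ?_⟩
  have h1 : 0 < 2 * pi := by positivity
  rw [div_le_iff₀ h1] at hz
  rw [AG_norm]
  calc Real.exp (-(2 * pi * z.im)) ≤ Real.exp (Real.log δ - 1) := by
        apply Real.exp_le_exp.2
        nlinarith
    _ < Real.exp (Real.log δ) := Real.exp_lt_exp.2 (by linarith)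
    _ = δ := Real.exp_log hδ

private theorem AG_zero {φ : ℤ⟦X⟧} {F : ℂ → ℂ} (hF : Rep φ F) : F 0 = ((coeff 0 φ : ℤ) : ℂ) := by
  have h1 := hF 0 (by simp)
  have h2 : HasSum (fun n : ℕ ↦ ((coeff n φ : ℤ) : ℂ) * 0 ^ n) (((coeff 0 φ : ℤ) : ℂ) * 0 ^ 0) := by
    refine hasSum_single 0 ?_
    intro n hn
    rw [zero_pow hn, mul_zero]
  rw [h1.unique h2, pow_zero, mul_one]

/-- Values near `q = 0`. PROOF: `PF`, `HF`, `GF` are continuous at `0` (`Rep.differentiableOn`) with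
`PF 0 = HF 0 = 1`, `‖q‖ = exp (-2 π Im z)`. -/
theorem near_inf (F : ℂ → ℂ) (φ : ℤ⟦X⟧) (hF : Rep φ F) (ε : ℝ) (hε : 0 < ε) :
    ∃ Y : ℝ, ∀ z : ℂ, 0 < z.im → Y ≤ z.im →
      ‖F (exp (2 * pi * I * z)) - ((coeff 0 φ : ℤ) : ℂ)‖ ≤ ε := by
  have h1 : ContinuousAt F 0 := (AF_diff hF 0 (by simp)).continuousAt
  rw [Metric.continuousAt_iff] at h1
  obtain ⟨δ, hδ, h2⟩ := h1 ε hε
  obtain ⟨Y, hY⟩ := AG_small δ hδ
  refine ⟨Y, fun z _ hz ↦ ?_⟩
  have h3 := h2 (x := exp (2 * pi * I * z)) (by rw [dist_zero_right]; exact hY z hz)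
  rw [dist_eq_norm, AG_zero hF] at h3
  exact h3.le

/-- PROOF: if the coefficients of `φ` at `n < m` vanish then `φ = X^m ψ`
(`PowerSeries.X_pow_dvd_iff`), `F q = q^m * (value of ψ)`, hence `‖F q‖ ≤ C ‖q‖^m` near `0`. (The
value of `ψ`: `∑ coeff (n + m) φ q^n`, it converges in the disc.) -/
theorem near_zero (F : ℂ → ℂ) (φ : ℤ⟦X⟧) (hF : Rep φ F) (m : ℕ) (h : ∀ n < m, coeff n φ = 0) :
    ∃ C Y : ℝ, ∀ z : ℂ, 0 < z.im → Y ≤ z.im →
      ‖F (exp (2 * pi * I * z))‖ ≤ C * ‖exp (2 * pi * I * z)‖ ^ m := by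
  have h1 := hF.abs (1 / 2) (by norm_num)
  have h2 : Summable fun n : ℕ ↦ ‖((coeff (n + m) φ : ℤ) : ℂ)‖ * (1 / 2 : ℝ) ^ n := by
    have h3 := ((summable_nat_add_iff m).2 h1).mul_left ((2 : ℝ) ^ m)
    refine h3.congr fun n ↦ ?_
    have h4 : ‖(1 / 2 : ℂ)‖ = 1 / 2 := by norm_num
    rw [norm_mul, norm_pow, h4, pow_add]
    have h5 : (2 : ℝ) ^ m * (1 / 2) ^ m = 1 := by
      rw [← mul_pow]; norm_num
    linear_combination (‖((coeff (n + m) φ : ℤ) : ℂ)‖ * (1 / 2 : ℝ) ^ n) * h5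
  obtain ⟨Y, hY⟩ := AG_small (1 / 2) (by norm_num)
  refine ⟨∑' n : ℕ, ‖((coeff (n + m) φ : ℤ) : ℂ)‖ * (1 / 2 : ℝ) ^ n, Y, fun z hz hzY ↦ ?_⟩
  have hq := hY z hzY
  have hs := hF _ (norm_q_lt z hz)
  have hs' := (hasSum_nat_add_iff' m).2 hs
  have h6 : ∑ i ∈ Finset.range m, ((coeff i φ : ℤ) : ℂ) * exp (2 * pi * I * z) ^ i = 0 := by
    refine Finset.sum_eq_zero fun i hi ↦ ?_
    rw [h i (Finset.mem_range.1 hi)]
    simp
  rw [h6, sub_zero] at hs'
  refine HasSum.norm_le_of_bounded hs' (h2.hasSum.mul_right (‖exp (2 * pi * I * z)‖ ^ m)) ?_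
  intro n
  rw [norm_mul, norm_pow, pow_add]
  have h7 : ‖exp (2 * pi * I * z)‖ ^ n ≤ (1 / 2) ^ n :=
    pow_le_pow_left₀ (norm_nonneg _) hq.le n
  calc ‖((coeff (n + m) φ : ℤ) : ℂ)‖ * (‖exp (2 * pi * I * z)‖ ^ n * ‖exp (2 * pi * I * z)‖ ^ m)
      ≤ ‖((coeff (n + m) φ : ℤ) : ℂ)‖ * ((1 / 2) ^ n * ‖exp (2 * pi * I * z)‖ ^ m) := by gcongr
    _ = _ := by ring

/-- PROOF: `R_eq`, `N_coeff`, `near_zero` with `m = 3`, `near_inf` for `P` (`PF → 1`):
`‖R z‖ ≤ 4 C ‖q‖`. -/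
theorem R_tend (ε : ℝ) (hε : 0 < ε) : ∃ Y : ℝ, ∀ z : ℂ, 0 < z.im → Y ≤ z.im → ‖R z‖ ≤ ε := by
  obtain ⟨NF, hNF, hR⟩ := R_eq
  obtain ⟨C, Y1, h1⟩ := near_zero NF _ hNF 3 N_coeff
  obtain ⟨Y2, h2⟩ := near_inf PF P rep_P (1 / 2) (by norm_num)
  obtain ⟨Y3, h3⟩ := AG_small (ε / (4 * |C| + 1)) (by positivity)
  refine ⟨max Y1 (max Y2 Y3), fun z hz hY ↦ ?_⟩
  have a1 := h1 z hz (le_trans (le_max_left _ _) hY)
  have a2 := h2 z hz (le_trans (le_trans (le_max_left _ _) (le_max_right _ _)) hY)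
  have a3 := h3 z (le_trans (le_trans (le_max_right _ _) (le_max_right _ _)) hY)
  have a4 := hR z hz
  have hq0 : 0 < ‖exp (2 * pi * I * z)‖ := norm_pos_iff.2 (Complex.exp_ne_zero _)
  generalize exp (2 * pi * I * z) = q at a1 a2 a3 a4 hq0
  have hc : ((coeff 0 P : ℤ) : ℂ) = 1 := by
    rw [PowerSeries.coeff_zero_eq_constantCoeff_apply, const_P]; norm_num
  rw [hc] at a2
  have hP : 1 / 2 ≤ ‖PF q‖ := by
    have h5 : ‖(1 : ℂ)‖ ≤ ‖PF q‖ + ‖PF q - 1‖ := by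
      have := norm_sub_le (PF q) (PF q - 1)
      rwa [sub_sub_cancel] at this
    rw [norm_one] at h5
    linarith
  have e1 : ‖R z‖ * (‖q‖ ^ 2 * ‖PF q‖ ^ 2) ≤ C * ‖q‖ ^ 3 := by
    rw [← norm_pow, ← norm_pow, ← norm_mul, ← norm_mul, a4]; exact a1
  have hP2 : 1 / 4 ≤ ‖PF q‖ ^ 2 := by nlinarith
  have e2 : ‖R z‖ * ‖q‖ ^ 2 ≤ (4 * C * ‖q‖) * ‖q‖ ^ 2 := by
    have e3 : ‖R z‖ * (‖q‖ ^ 2 * (1 / 4)) ≤ ‖R z‖ * (‖q‖ ^ 2 * ‖PF q‖ ^ 2) := by gcongr
    nlinarith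
  have e4 : ‖R z‖ ≤ 4 * C * ‖q‖ := le_of_mul_le_mul_right e2 (by positivity)
  have e5 : ‖q‖ * (4 * |C| + 1) < ε := by
    rwa [lt_div_iff₀ (by positivity)] at a3
  have e6 : C ≤ |C| := le_abs_self C
  nlinarith
/- END AG -/

/- MODULE AH -/
/-- `R` at the cusp of `W_6`. PROOF: by `h_W6`, `K_W6`, `f_W6`:
`R (W z) = k K² / (h f²) - (k/h + 8)(k/h + 9)`, and `h f² = HF(q) PF(q)² → 1`,
`1/h = q / HF(q) → 0`, `K → -1` (`rep_G`, `near_inf`). -/
theorem R_W6 : Bdd fun z ↦ R (-1 / (6 * z)) := by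
  obtain ⟨k, hk, hW⟩ := h_W6
  obtain ⟨GF, hGF, hK⟩ := rep_G
  obtain ⟨Y1, h1⟩ := near_inf PF P rep_P (1 / 2) (by norm_num)
  obtain ⟨Y2, h2⟩ := near_inf HF H rep_H (1 / 2) (by norm_num)
  obtain ⟨Y3, h3⟩ := near_inf GF G hGF 1 one_pos
  refine ⟨‖k‖ * 4 * 8 + (‖k‖ * 2 + 8) * (‖k‖ * 2 + 9), max Y1 (max Y2 Y3), fun z hz hY ↦ ?_⟩
  have a1 := h1 z hz (le_trans (le_max_left _ _) hY)
  have a2 := h2 z hz (le_trans (le_trans (le_max_left _ _) (le_max_right _ _)) hY)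
  have a3 := h3 z hz (le_trans (le_trans (le_max_right _ _) (le_max_right _ _)) hY)
  have hz0 : z ≠ 0 := by
    rintro rfl
    simp at hz
  have hf0 := f_ne_zero z hz
  have hh0 := h_ne_zero z hz
  have c1 : ((coeff 0 P : ℤ) : ℂ) = 1 := by
    rw [PowerSeries.coeff_zero_eq_constantCoeff_apply, const_P]; norm_num
  have c2 : ((coeff 0 H : ℤ) : ℂ) = 1 := by
    rw [PowerSeries.coeff_zero_eq_constantCoeff_apply, const_H]; norm_num
  have c3 : ((coeff 0 G : ℤ) : ℂ) = -1 := by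
    rw [PowerSeries.coeff_zero_eq_constantCoeff_apply, const_G]; norm_num
  rw [c1] at a1
  rw [c2] at a2
  rw [c3, ← hK z hz] at a3
  have hq1 := norm_q_lt z hz
  have hq0 : exp (2 * pi * I * z) ≠ 0 := Complex.exp_ne_zero _
  have hf : f z ^ 2 = exp (2 * pi * I * z) * PF (exp (2 * pi * I * z)) ^ 2 := by
    rw [f_eq z, mul_pow, ← Complex.exp_nat_mul]
    congr 2
    push_cast
    ring
  have hh : h z = (exp (2 * pi * I * z))⁻¹ * HF (exp (2 * pi * I * z)) := by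
    rw [h_eq z, Complex.exp_neg]
  have hP := AF_PF _ hq1
  have hH := AF_HF _ hq1
  have hhW : h (-1 / (6 * z)) = k / h z := by
    rw [eq_div_iff hh0]
    exact hW z hz
  have hR : R (-1 / (6 * z)) = k * K z ^ 2 / (h z * f z ^ 2) - (k / h z + 8) * (k / h z + 9) := by
    unfold R
    rw [hhW, K_W6 z hz, f_W6 z hz]
    congr 1
    field_simp
  have e1 : h z * f z ^ 2 = HF (exp (2 * pi * I * z)) * PF (exp (2 * pi * I * z)) ^ 2 := by
    rw [hh, hf]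
    field_simp
  have e2 : k / h z = k * exp (2 * pi * I * z) / HF (exp (2 * pi * I * z)) := by
    rw [hh]
    field_simp
  show ‖R (-1 / (6 * z))‖ ≤ _
  rw [hR, e1, e2]
  generalize exp (2 * pi * I * z) = q at a1 a2 a3 hq1 hP hH
  have hP' : 1 / 2 ≤ ‖PF q‖ := by
    have h5 : ‖(1 : ℂ)‖ ≤ ‖PF q‖ + ‖PF q - 1‖ := by
      have := norm_sub_le (PF q) (PF q - 1)
      rwa [sub_sub_cancel] at this
    rw [norm_one] at h5
    linarith
  have hH' : 1 / 2 ≤ ‖HF q‖ := by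
    have h5 : ‖(1 : ℂ)‖ ≤ ‖HF q‖ + ‖HF q - 1‖ := by
      have := norm_sub_le (HF q) (HF q - 1)
      rwa [sub_sub_cancel] at this
    rw [norm_one] at h5
    linarith
  have hK' : ‖K z‖ ≤ 2 := by
    have h5 := norm_sub_le (K z - -1) 1
    rw [norm_one] at h5
    have h6 : K z - -1 - 1 = K z := by ring
    rw [h6] at h5
    linarith
  have hk0 := norm_nonneg k
  have t1 : ‖k * K z ^ 2 / (HF q * PF q ^ 2)‖ ≤ ‖k‖ * 4 * 8 := by
    rw [norm_div, norm_mul, norm_mul, norm_pow, norm_pow]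
    have h7 : 1 / 8 ≤ ‖HF q‖ * ‖PF q‖ ^ 2 := by
      have : (1 / 2 : ℝ) * (1 / 2) ^ 2 ≤ ‖HF q‖ * ‖PF q‖ ^ 2 := by gcongr
      linarith
    have h8 : ‖K z‖ ^ 2 ≤ 4 := by
      have : ‖K z‖ ^ 2 ≤ 2 ^ 2 := pow_le_pow_left₀ (norm_nonneg _) hK' 2
      linarith
    rw [div_le_iff₀ (by linarith)]
    have h9 : ‖k‖ * ‖K z‖ ^ 2 ≤ ‖k‖ * 4 := by gcongr
    nlinarith
  have t2 : ‖k * q / HF q‖ ≤ ‖k‖ * 2 := by
    rw [norm_div, norm_mul, div_le_iff₀ (by linarith)]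
    have h9 : ‖k‖ * ‖q‖ ≤ ‖k‖ * 1 := by gcongr
    nlinarith
  have t3 : ‖k * q / HF q + 8‖ ≤ ‖k‖ * 2 + 8 := by
    refine (norm_add_le _ _).trans ?_
    have : ‖(8 : ℂ)‖ = 8 := by norm_num
    linarith
  have t4 : ‖k * q / HF q + 9‖ ≤ ‖k‖ * 2 + 9 := by
    refine (norm_add_le _ _).trans ?_
    have : ‖(9 : ℂ)‖ = 9 := by norm_num
    linarith
  refine (norm_sub_le _ _).trans (add_le_add t1 ?_)
  rw [norm_mul]
  exact mul_le_mul t3 t4 (norm_nonneg _) (by linarith)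
/- END AH -/

/- MODULE AI -/
private theorem AI_eta (d : ℕ) (z : ℂ) : eta (d * z) =
    exp (pi * I * z / 12) ^ d * eulF (exp (2 * pi * I * z) ^ d) := by
  rw [eta_eq, ← Complex.exp_nat_mul, ← Complex.exp_nat_mul]
  congr 2
  · ring
  · congr 1
    ring

private theorem AI_const (d : ℕ) (hd : d ≠ 0) :
    PowerSeries.constantCoeff (PowerSeries.expand d hd eul) = 1 := by
  rw [PowerSeries.constantCoeff_expand, const_eul]

private theorem AI_inv (φ : ℤ⟦X⟧) : PowerSeries.constantCoeff (PowerSeries.invOfUnit φ 1) = 1 := by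
  rw [PowerSeries.constantCoeff_invOfUnit]
  simp

/-- `hc3`, `hc2` as functions of `q`: power series with integer coefficients. PROOF: `eta_eq` for each
factor, the exponential factors cancel; `Rep.expand`, `Rep.mul`, `Rep.pow`, `Rep.inv`, `rep_eul`. -/
theorem rep_hc3 : ∃ (φ : ℤ⟦X⟧) (F : ℂ → ℂ), Rep φ F ∧ PowerSeries.constantCoeff φ = 1 ∧
    (∀ q : ℂ, ‖q‖ < 1 → F q ≠ 0) ∧ ∀ z : ℂ, 0 < z.im → hc3 z = F (exp (2 * pi * I * z)) := by
  have r2 := rep_eul.expand 2 (by norm_num)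
  have r3 := rep_eul.expand 3 (by norm_num)
  have r6 := rep_eul.expand 6 (by norm_num)
  have n2 : ∀ q : ℂ, ‖q‖ < 1 → eulF (q ^ 2) ≠ 0 := fun q hq ↦
    eulF_ne_zero _ (AF_pow q hq 2 (by norm_num))
  have n3 : ∀ q : ℂ, ‖q‖ < 1 → eulF (q ^ 3) ≠ 0 := fun q hq ↦
    eulF_ne_zero _ (AF_pow q hq 3 (by norm_num))
  have n6 : ∀ q : ℂ, ‖q‖ < 1 → eulF (q ^ 6) ≠ 0 := fun q hq ↦
    eulF_ne_zero _ (AF_pow q hq 6 (by norm_num))
  have hinv := (r6.mul (r2.pow 5)).inv (by simp [const_eul])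
    (fun q hq ↦ mul_ne_zero (n6 q hq) (pow_ne_zero _ (n2 q hq)))
  refine ⟨_, _, ((r3.pow 5).mul rep_eul).mul hinv, ?_, ?_, ?_⟩
  · simp only [map_mul, map_pow, AI_const, AI_inv, const_eul]
    norm_num
  · intro q hq
    exact mul_ne_zero (mul_ne_zero (pow_ne_zero _ (n3 q hq)) (eulF_ne_zero q hq))
      (inv_ne_zero (mul_ne_zero (n6 q hq) (pow_ne_zero _ (n2 q hq))))
  · intro z hz
    have hq := norm_q_lt z hz
    have m2 := n2 _ hq
    have m6 := n6 _ hq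
    have e0 : exp (pi * I * z / 12) ≠ 0 := Complex.exp_ne_zero _
    have e1 := AI_eta 1 z
    have e2 := AI_eta 2 z
    have e3 := AI_eta 3 z
    have e6 := AI_eta 6 z
    rw [Nat.cast_one, one_mul, pow_one, pow_one] at e1
    push_cast at e2 e3 e6
    unfold hc3
    rw [e1, e2, e3, e6]
    field_simp

theorem rep_hc2 : ∃ (φ : ℤ⟦X⟧) (F : ℂ → ℂ), Rep φ F ∧ PowerSeries.constantCoeff φ = 1 ∧
    (∀ q : ℂ, ‖q‖ < 1 → F q ≠ 0) ∧ ∀ z : ℂ, 0 < z.im → hc2 z = F (exp (2 * pi * I * z)) := by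
  have r2 := rep_eul.expand 2 (by norm_num)
  have r3 := rep_eul.expand 3 (by norm_num)
  have r6 := rep_eul.expand 6 (by norm_num)
  have n2 : ∀ q : ℂ, ‖q‖ < 1 → eulF (q ^ 2) ≠ 0 := fun q hq ↦
    eulF_ne_zero _ (AF_pow q hq 2 (by norm_num))
  have n3 : ∀ q : ℂ, ‖q‖ < 1 → eulF (q ^ 3) ≠ 0 := fun q hq ↦
    eulF_ne_zero _ (AF_pow q hq 3 (by norm_num))
  have n6 : ∀ q : ℂ, ‖q‖ < 1 → eulF (q ^ 6) ≠ 0 := fun q hq ↦
    eulF_ne_zero _ (AF_pow q hq 6 (by norm_num))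
  have hinv := (rep_eul.mul (r3.pow 5)).inv (by simp [const_eul])
    (fun q hq ↦ mul_ne_zero (eulF_ne_zero q hq) (pow_ne_zero _ (n3 q hq)))
  refine ⟨_, _, ((r2.pow 5).mul r6).mul hinv, ?_, ?_, ?_⟩
  · simp only [map_mul, map_pow, AI_const, AI_inv]
    norm_num
  · intro q hq
    exact mul_ne_zero (mul_ne_zero (pow_ne_zero _ (n2 q hq)) (n6 q hq))
      (inv_ne_zero (mul_ne_zero (eulF_ne_zero q hq) (pow_ne_zero _ (n3 q hq))))
  · intro z hz
    have hq := norm_q_lt z hz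
    have m1 := eulF_ne_zero _ hq
    have m3 := n3 _ hq
    have e0 : exp (pi * I * z / 12) ≠ 0 := Complex.exp_ne_zero _
    have e1 := AI_eta 1 z
    have e2 := AI_eta 2 z
    have e3 := AI_eta 3 z
    have e6 := AI_eta 6 z
    rw [Nat.cast_one, one_mul, pow_one, pow_one] at e1
    push_cast at e2 e3 e6
    unfold hc2
    rw [e1, e2, e3, e6]
    field_simp
/- END AI -/

/- MODULE AJ -/
private theorem AJ_size (u : ℂ → ℂ) (φ : ℤ⟦X⟧) (F : ℂ → ℂ) (hF : Rep φ F)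
    (h1 : PowerSeries.constantCoeff φ = 1) (h0 : ∀ q : ℂ, ‖q‖ < 1 → F q ≠ 0)
    (hu : ∀ z : ℂ, 0 < z.im → u z = F (exp (2 * pi * I * z))) :
    ∃ C Y : ℝ, ∀ z : ℂ, 0 < z.im → Y ≤ z.im →
      ‖deriv u z / (2 * pi * I * u z)‖ ≤ C * ‖exp (2 * pi * I * z)‖ ∧ ‖u z‖ ≤ C := by
  obtain ⟨C, Y1, hC⟩ := near_zero _ _ hF.th 1 (fun n hn ↦ by
    rw [coeff_th, Nat.lt_one_iff.1 hn]; simp)
  obtain ⟨Y2, h2⟩ := near_inf F φ hF (1 / 2) (by norm_num)
  refine ⟨max (2 * C) (3 / 2), max Y1 Y2, fun z hz hY ↦ ?_⟩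
  have a1 := hC z hz (le_trans (le_max_left _ _) hY)
  have a2 := h2 z hz (le_trans (le_max_right _ _) hY)
  rw [PowerSeries.coeff_zero_eq_constantCoeff_apply, h1, Int.cast_one] at a2
  have hd : HasDerivAt u (deriv F (exp (2 * pi * I * z)) * (2 * pi * I * exp (2 * pi * I * z))) z := by
    refine (AF_comp hF z hz).congr_of_eventuallyEq ?_
    filter_upwards [AE_open.mem_nhds (show z ∈ {z : ℂ | 0 < z.im} from hz)] with t ht
    exact hu t ht
  have hFz := h0 _ (norm_q_lt z hz)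
  rw [hd.deriv, hu z hz]
  have e1 : deriv F (exp (2 * pi * I * z)) * (2 * pi * I * exp (2 * pi * I * z)) /
      (2 * pi * I * F (exp (2 * pi * I * z))) =
      (exp (2 * pi * I * z) * deriv F (exp (2 * pi * I * z))) / F (exp (2 * pi * I * z)) := by
    have h8 := AE_two
    field_simp
  rw [e1]
  generalize exp (2 * pi * I * z) = q at a1 a2 hFz
  have hF1 : 1 / 2 ≤ ‖F q‖ := by
    have h5 : ‖(1 : ℂ)‖ ≤ ‖F q‖ + ‖F q - 1‖ := by
      have := norm_sub_le (F q) (F q - 1)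
      rwa [sub_sub_cancel] at this
    rw [norm_one] at h5
    linarith
  have hF2 : ‖F q‖ ≤ 3 / 2 := by
    have h5 := norm_add_le (F q - 1) 1
    rw [norm_one, sub_add_cancel] at h5
    linarith
  refine ⟨?_, hF2.trans (le_max_right _ _)⟩
  rw [pow_one] at a1
  rw [norm_div, div_le_iff₀ (by linarith)]
  have hm : 2 * C ≤ max (2 * C) (3 / 2) := le_max_left _ _
  have hm0 : 0 ≤ max (2 * C) (3 / 2) := le_trans (by norm_num) (le_max_right _ _)
  have hq := norm_nonneg q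
  calc _ ≤ C * ‖q‖ := a1
    _ ≤ max (2 * C) (3 / 2) * ‖q‖ * (1 / 2) := by nlinarith
    _ ≤ max (2 * C) (3 / 2) * ‖q‖ * ‖F q‖ := by gcongr

private theorem AJ_bound (k K3 c3 F q : ℂ) (C c : ℝ) (hc : 0 < c) (h1 : ‖K3‖ ≤ C * ‖q‖)
    (h2 : ‖c3‖ ≤ C) (h3 : c ^ 2 * ‖q‖ ≤ ‖F‖ ^ 2) (hq : ‖q‖ ≤ 1) (hq0 : 0 < ‖q‖) :
    ‖K3 ^ 2 * (k * c3) / F ^ 2 - (k * c3 + 8) * (k * c3 + 9)‖ ≤
      C ^ 2 * (‖k‖ * C) / c ^ 2 + (‖k‖ * C + 8) * (‖k‖ * C + 9) := by
  have hC : 0 ≤ C := (norm_nonneg _).trans h2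
  have hkc : ‖k * c3‖ ≤ ‖k‖ * C := by
    rw [norm_mul]
    gcongr
  have t1 : ‖K3 ^ 2 * (k * c3) / F ^ 2‖ ≤ C ^ 2 * (‖k‖ * C) / c ^ 2 := by
    rw [norm_div, norm_mul, norm_pow, norm_pow]
    have h4 : ‖K3‖ ^ 2 ≤ (C * ‖q‖) ^ 2 := pow_le_pow_left₀ (norm_nonneg _) h1 2
    have h5 : ‖K3‖ ^ 2 * ‖k * c3‖ ≤ (C * ‖q‖) ^ 2 * (‖k‖ * C) := by gcongr
    calc ‖K3‖ ^ 2 * ‖k * c3‖ / ‖F‖ ^ 2 ≤ (C * ‖q‖) ^ 2 * (‖k‖ * C) / (c ^ 2 * ‖q‖) := by gcongr
      _ = C ^ 2 * (‖k‖ * C) / c ^ 2 * ‖q‖ := by field_simp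
      _ ≤ C ^ 2 * (‖k‖ * C) / c ^ 2 * 1 := by gcongr
      _ = _ := mul_one _
  have t3 : ‖k * c3 + 8‖ ≤ ‖k‖ * C + 8 := by
    refine (norm_add_le _ _).trans ?_
    have : ‖(8 : ℂ)‖ = 8 := by norm_num
    linarith
  have t4 : ‖k * c3 + 9‖ ≤ ‖k‖ * C + 9 := by
    refine (norm_add_le _ _).trans ?_
    have : ‖(9 : ℂ)‖ = 9 := by norm_num
    linarith
  refine (norm_sub_le _ _).trans (add_le_add t1 ?_)
  rw [norm_mul]
  exact mul_le_mul t3 t4 (norm_nonneg _) (by positivity)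

private theorem AJ_f : ∃ c : ℝ, 0 < c ∧ ∀ z : ℂ, 1 ≤ z.im →
    c ^ 2 * ‖exp (2 * pi * I * z)‖ ≤ ‖f z‖ ^ 2 := by
  obtain ⟨c, C, hc, -, h⟩ := f_size
  refine ⟨c, hc, fun z hz ↦ ?_⟩
  have h1 := (h z hz).1
  have h2 : (c * Real.exp (-(pi * z.im))) ^ 2 ≤ ‖f z‖ ^ 2 :=
    pow_le_pow_left₀ (by positivity) h1 2
  rw [AG_norm]
  refine le_trans (le_of_eq ?_) h2
  rw [mul_pow, ← Real.exp_nat_mul]
  congr 2
  push_cast
  ring

/-- PROOF: `K3 z = q F'(q) / F(q)` with the `F` of `rep_hc3` (chain rule), a bounded multiple of `q`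
for small `q` (`near_zero` for `th φ` with `m = 1`, `near_inf`). -/
theorem K3_size : ∃ C Y : ℝ, ∀ z : ℂ, 0 < z.im → Y ≤ z.im →
    ‖K3 z‖ ≤ C * ‖exp (2 * pi * I * z)‖ ∧ ‖hc3 z‖ ≤ C := by
  obtain ⟨φ, F, hF, h1, h0, hu⟩ := rep_hc3
  exact AJ_size hc3 φ F hF h1 h0 hu

theorem K2_size : ∃ C Y : ℝ, ∀ z : ℂ, 0 < z.im → Y ≤ z.im →
    ‖K2 z‖ ≤ C * ‖exp (2 * pi * I * z)‖ ∧ ‖hc2 z‖ ≤ C := by
  obtain ⟨φ, F, hF, h1, h0, hu⟩ := rep_hc2
  exact AJ_size hc2 φ F hF h1 h0 hu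

/-- `R` at the cusp of `W_3`. PROOF: `h_W3`, `K_W3`, `f_W3`:
`R (W z) = K3² k hc3 / f² - (k hc3 + 8)(k hc3 + 9)`, and `‖K3² / f²‖ ≤ C² ‖q‖² / (c² ‖q‖)` by `f_size`
(`exp (-2 π Im z) = ‖q‖`). -/
theorem R_W3 : Bdd fun z ↦ R ((3 * z - 2) / (6 * z - 3)) := by
  obtain ⟨k, hk, hW⟩ := h_W3
  obtain ⟨C, Y, hC⟩ := K3_size
  obtain ⟨c, hc, hf⟩ := AJ_f
  refine ⟨C ^ 2 * (‖k‖ * C) / c ^ 2 + (‖k‖ * C + 8) * (‖k‖ * C + 9), max Y 1, fun z hz hY ↦ ?_⟩
  have a1 := hC z hz (le_trans (le_max_left _ _) hY)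
  have a2 := hf z (le_trans (le_max_right _ _) hY)
  have hm := (moeb_im_int 3 (-2) 6 (-3) (by norm_num) z hz).1
  push_cast at hm
  have hd : (6 * z - 3 : ℂ) ≠ 0 := by rwa [← sub_eq_add_neg] at hm
  have hf0 := f_ne_zero z hz
  have hR : R ((3 * z - 2) / (6 * z - 3)) =
      K3 z ^ 2 * (k * hc3 z) / f z ^ 2 - (k * hc3 z + 8) * (k * hc3 z + 9) := by
    unfold R
    rw [hW z hz, K_W3 z hz, f_W3 z hz]
    congr 1
    field_simp
  show ‖R ((3 * z - 2) / (6 * z - 3))‖ ≤ _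
  rw [hR]
  exact AJ_bound k (K3 z) (hc3 z) (f z) (exp (2 * pi * I * z)) C c hc a1.1 a1.2 a2
    (norm_q_lt z hz).le (norm_pos_iff.2 (Complex.exp_ne_zero _))

/-- PROOF: the same with `h_W2`, `K_W2`, `f_W2`. -/
theorem R_W2 : Bdd fun z ↦ R ((2 * z - 1) / (6 * z - 2)) := by
  obtain ⟨k, hk, hW⟩ := h_W2
  obtain ⟨C, Y, hC⟩ := K2_size
  obtain ⟨c, hc, hf⟩ := AJ_f
  refine ⟨C ^ 2 * (‖k‖ * C) / c ^ 2 + (‖k‖ * C + 8) * (‖k‖ * C + 9), max Y 1, fun z hz hY ↦ ?_⟩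
  have a1 := hC z hz (le_trans (le_max_left _ _) hY)
  have a2 := hf z (le_trans (le_max_right _ _) hY)
  have hm := (moeb_im_int 2 (-1) 6 (-2) (by norm_num) z hz).1
  push_cast at hm
  have hd : (6 * z - 2 : ℂ) ≠ 0 := by rwa [← sub_eq_add_neg] at hm
  have hf0 := f_ne_zero z hz
  have hR : R ((2 * z - 1) / (6 * z - 2)) =
      K2 z ^ 2 * (k * hc2 z) / f z ^ 2 - (k * hc2 z + 8) * (k * hc2 z + 9) := by
    unfold R
    rw [hW z hz, K_W2 z hz, f_W2 z hz]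
    congr 1
    field_simp
  show ‖R ((2 * z - 1) / (6 * z - 2))‖ ≤ _
  rw [hR]
  exact AJ_bound k (K2 z) (hc2 z) (f z) (exp (2 * pi * I * z)) C c hc a1.1 a1.2 a2
    (norm_q_lt z hz).le (norm_pos_iff.2 (Complex.exp_ne_zero _))
/- END AJ -/

/- MODULE AK -/
/-- PROOF: `R = k` by `const_of_bdd` (`differentiableOn_R`, `R_inv`, `R_tend`, `R_W2`, `R_W3`,
`R_W6`), and `k = 0` by `R_tend`. By `R_eq` `NF (exp (2 π i z)) = 0` for all `z` in the upper half
plane; every `q ≠ 0` with `‖q‖ < 1` is such an exponential, and `NF 0 = 0` by `N_coeff 0`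
(`Rep` at `q = 0`). So `N = 0` by `Rep.unique` (with `Rep 0 0`). -/
theorem G_sq : G ^ 2 * H = P ^ 2 * (H + 8 * X) * (H + 9 * X) := by
  have hb : Bdd R := by
    obtain ⟨Y, hY⟩ := R_tend 1 one_pos
    exact ⟨1, Y, hY⟩
  obtain ⟨k, hk⟩ := const_of_bdd R differentiableOn_R R_inv hb R_W2 R_W3 R_W6
  have hk0 : k = 0 := by
    rw [← norm_le_zero_iff]
    refine le_of_forall_pos_le_add fun ε hε ↦ ?_
    obtain ⟨Y, hY⟩ := R_tend ε hε
    have hm : 0 < (((max Y 1 : ℝ) : ℂ) * I).im := by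
      simp
    have h1 := hY (((max Y 1 : ℝ) : ℂ) * I) hm (by simp)
    rw [hk _ hm] at h1
    linarith
  obtain ⟨NF, hNF, hR⟩ := R_eq
  have h0 : ∀ q : ℂ, ‖q‖ < 1 → NF q = 0 := by
    intro q hq
    by_cases hq0 : q = 0
    · rw [hq0, AG_zero hNF, N_coeff 0 (by norm_num)]
      simp
    · have h2 : exp (2 * pi * I * (Complex.log q / (2 * pi * I))) = q := by
        rw [mul_div_cancel₀ _ AE_two, Complex.exp_log hq0]
      have h3 : 0 < (Complex.log q / (2 * pi * I)).im := by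
        have h4 := AG_norm (Complex.log q / (2 * pi * I))
        rw [h2] at h4
        rw [h4, Real.exp_lt_one_iff] at hq
        have h5 : 0 < 2 * pi := by positivity
        by_contra h6
        have h7 : 2 * pi * (Complex.log q / (2 * pi * I)).im ≤ 0 :=
          mul_nonpos_of_nonneg_of_nonpos h5.le (not_lt.1 h6)
        linarith
      have h8 := hR _ h3
      rw [h2, hk _ h3, hk0, zero_mul] at h8
      exact h8.symm
  have h1 : Rep (0 : ℤ⟦X⟧) NF := fun q hq ↦ by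
    rw [h0 q hq]
    simp
  exact sub_eq_zero.1 (hNF.unique h1)
/- END AK -/

/-- The hypothesis of `a_eq_of`. -/
theorem param : Param := ⟨th_H, G_sq⟩

end Pool.Agent.NC
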