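import Pool.Agent.NC.Defs

/-!
# Part 3, the quadratic characters and their Gauss sums
-/

namespace Pool.Agent.NC

open scoped BigOperators
open Complex (I exp)
open Real (pi)

/-- The period of the character: `|D|` for `D = 1` modulo `4`, otherwise `4 |D|`. -/
def per (D : ℤ) : ℕ := if D % 4 = 1 then D.natAbs else 4 * D.natAbs

/-- The quadratic character of conductor `per D` (`D` squarefree), on the integers: it is
`n ↦ jacobiSym D n` for odd `n > 0`. -/
def chi (D v : ℤ) : ℤ :=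
  if D % 4 = 1 then jacobiSym v D.natAbs
  else if v % 2 = 1 then jacobiSym D (v % (4 * D.natAbs)).toNat else 0

/- MODULE CA -/
theorem per_pos (D : ℤ) (hD : D ≠ 0) : 0 < per D := by
  have h := Int.natAbs_pos.2 hD
  unfold per
  split_ifs <;> omega

/-- PROOF: `jacobiSym.mod_left`; for the second case `(v + 4|D|) % (4|D|) = v % (4|D|)`. -/
theorem chi_add_per (D v k : ℤ) : chi D (v + per D * k) = chi D v := by
  unfold chi per
  split_ifs with h1 h2 h3 h4
  · apply jacobiSym.mod_left'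
    rw [Int.add_mul_emod_self_left]
  · congr 2
    push_cast
    rw [Int.add_mul_emod_self_left]
  · exfalso
    apply h3
    have : ((4 * D.natAbs : ℕ) : ℤ) * k = 2 * (2 * (D.natAbs : ℤ) * k) := by
      push_cast
      ring
    rw [this] at h2
    omega
  · exfalso
    apply h2
    have : ((4 * D.natAbs : ℕ) : ℤ) * k = 2 * (2 * (D.natAbs : ℤ) * k) := by
      push_cast
      ring
    rw [this]
    omega
  · rfl

theorem chi_congr (D v v' : ℤ) (h : (per D : ℤ) ∣ v - v') : chi D v = chi D v' := by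
  obtain ⟨k, hk⟩ := h
  rw [← chi_add_per D v' k, ← hk]
  congr 1
  ring

/-- For odd natural numbers. PROOF: case `D = 1` modulo `4`: quadratic reciprocity for the Jacobi
symbol, `jacobiSym.quadratic_reciprocity_one_mod_four` and for negative `D` also `jacobiSym.neg`
(`χ₄`): `(D/n) = (n/|D|)` for `D = 1` modulo `4`, `n` odd. Other case: `jacobiSym.mod_right`
(period `4 |D|` in the lower entry, for odd `n`). -/
theorem chi_nat (D : ℤ) (hD : D ≠ 0) (n : ℕ) (hn : Odd n) : chi D n = jacobiSym D n := by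
  have hk := Int.natAbs_pos.2 hD
  unfold chi
  split_ifs with h1 h2
  · rcases lt_or_ge 0 D with h | h
    · obtain ⟨k, rfl⟩ := Int.eq_ofNat_of_zero_le h.le
      have hk4 : k % 4 = 1 := by omega
      rw [Int.natAbs_natCast]
      exact (jacobiSym.quadratic_reciprocity_one_mod_four hk4 hn).symm
    · obtain ⟨k, hk'⟩ := Int.eq_ofNat_of_zero_le (neg_nonneg.2 h)
      have hD' : D = -(k : ℤ) := by linarith
      subst hD'
      have hk4 : k % 4 = 3 := by omega
      have hko : Odd k := Nat.odd_iff.2 (by omega)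
      rw [Int.natAbs_neg, Int.natAbs_natCast, jacobiSym.neg _ hn]
      rcases Nat.odd_mod_four_iff.1 (Nat.odd_iff.1 hn) with h4 | h4
      · rw [ZMod.χ₄_nat_one_mod_four h4, one_mul,
          jacobiSym.quadratic_reciprocity_one_mod_four h4 hko]
      · rw [ZMod.χ₄_nat_three_mod_four h4, jacobiSym.quadratic_reciprocity_three_mod_four hk4 h4]
        ring
  · rw [jacobiSym.mod_right D hn]
    congr 1
  · exfalso
    have := Nat.odd_iff.1 hn
    omega
/- END CA -/

/- MODULE CB -/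
private theorem CB_odd (D : ℤ) (hD : D ≠ 0) (h : D % 4 ≠ 1) (v : ℤ) (hv : v % 2 = 1) :
    ∃ n : ℕ, Odd n ∧ (per D : ℤ) ∣ v - n ∧ chi D v = jacobiSym D n := by
  have hk := Int.natAbs_pos.2 hD
  have hp : (per D : ℤ) = 4 * (D.natAbs : ℤ) := by
    unfold per
    rw [if_neg h]
    push_cast
    rfl
  have h0 : (0 : ℤ) < per D := by
    rw [hp]
    omega
  obtain ⟨n, hn⟩ := Int.eq_ofNat_of_zero_le (Int.emod_nonneg v h0.ne')
  have h1 : (per D : ℤ) ∣ v - n := by
    rw [← hn]
    exact Int.dvd_self_sub_emod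
  have hodd : Odd n := by
    rw [Nat.odd_iff]
    obtain ⟨k, hk2⟩ := h1
    rw [hp, mul_assoc] at hk2
    omega
  refine ⟨n, hodd, h1, ?_⟩
  rw [chi_congr D v n h1, chi_nat D hD n hodd]

/-- PROOF: case `D = 1` modulo `4`: `jacobiSym.mul_left`. Otherwise: if `v` or `w` is even both sides
are `0`; else choose natural numbers `v' = v`, `w' = w` modulo `4 |D|` (odd), `chi_congr`, `chi_nat`
and `jacobiSym.mul_right`. -/
theorem chi_mul (D : ℤ) (hD : D ≠ 0) (v w : ℤ) : chi D (v * w) = chi D v * chi D w := by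
  by_cases h : D % 4 = 1
  · unfold chi
    rw [if_pos h, if_pos h, if_pos h, jacobiSym.mul_left]
  · by_cases hv : v % 2 = 1
    · by_cases hw : w % 2 = 1
      · obtain ⟨n, hn, h1, h2⟩ := CB_odd D hD h v hv
        obtain ⟨m, hm, h3, h4⟩ := CB_odd D hD h w hw
        rw [h2, h4]
        have h5 : (per D : ℤ) ∣ v * w - ((n * m : ℕ) : ℤ) := by
          have : v * w - ((n * m : ℕ) : ℤ) = (v - n) * w + n * (w - m) := by
            push_cast
            ring
          rw [this]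
          exact dvd_add (Dvd.dvd.mul_right h1 _) (Dvd.dvd.mul_left h3 _)
        rw [chi_congr D _ _ h5, chi_nat D hD _ (hn.mul hm), jacobiSym.mul_right' _ ?_ ?_]
        · intro h6
          rw [h6] at hn
          exact absurd hn (by decide)
        · intro h6
          rw [h6] at hm
          exact absurd hm (by decide)
      · have h1 : ¬ (v * w) % 2 = 1 := by
          rw [Int.mul_emod]
          have : w % 2 = 0 := by omega
          rw [this]
          simp
        unfold chi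
        rw [if_neg h, if_neg h, if_neg h, if_neg h1, if_neg hw, mul_zero]
    · have h1 : ¬ (v * w) % 2 = 1 := by
        rw [Int.mul_emod]
        have : v % 2 = 0 := by omega
        rw [this]
        simp
      unfold chi
      rw [if_neg h, if_neg h, if_neg h, if_neg h1, if_neg hv, zero_mul]

/-- PROOF: `jacobiSym.eq_zero_iff_not_coprime`. -/
theorem chi_ne_zero_iff (D : ℤ) (hD : D ≠ 0) (v : ℤ) :
    chi D v ≠ 0 ↔ IsCoprime v (per D : ℤ) := by
  have hk := Int.natAbs_pos.2 hD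
  by_cases h : D % 4 = 1
  · unfold chi per
    rw [if_pos h, if_pos h, Ne, jacobiSym.eq_zero_iff, not_and_or, not_not, not_not,
      Int.isCoprime_iff_gcd_eq_one]
    constructor
    · rintro (h1 | h1)
      · omega
      · exact h1
    · exact Or.inr
  · by_cases hv : v % 2 = 1
    · obtain ⟨n, hn, h1, h2⟩ := CB_odd D hD h v hv
      have hn0 : n ≠ 0 := by
        intro h6
        rw [h6] at hn
        exact absurd hn (by decide)
      have hp : (per D : ℤ) = 4 * (D.natAbs : ℤ) := by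
        unfold per
        rw [if_neg h]
        push_cast
        rfl
      rw [h2, Ne, jacobiSym.eq_zero_iff, not_and_or, not_not, not_not]
      obtain ⟨k, hk2⟩ := h1
      have h3 : v = n + per D * k := by linarith
      rw [h3, IsCoprime.add_mul_left_left_iff]
      have h4 : IsCoprime (n : ℤ) 4 := by
        have h5 : Nat.Coprime n (2 ^ 2) := Nat.Coprime.pow_right 2 (Nat.coprime_two_right.2 hn)
        have h6 := Nat.isCoprime_iff_coprime.2 h5
        push_cast at h6
        exact h6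
      rw [hp, IsCoprime.mul_right_iff]
      have h7 : IsCoprime (n : ℤ) (D.natAbs : ℤ) ↔ Int.gcd D n = 1 := by
        rw [Int.isCoprime_iff_gcd_eq_one, Int.gcd_comm]
        rw [Int.gcd, Int.gcd, Int.natAbs_natCast, Int.natAbs_natCast]
      rw [h7]
      constructor
      · rintro (h8 | h8)
        · exact absurd h8 hn0
        · exact ⟨h4, h8⟩
      · exact fun h8 => Or.inr h8.2
    · unfold chi per
      rw [if_neg h, if_neg hv, if_neg h]
      constructor
      · intro h1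
        exact absurd rfl h1
      · intro h1 _
        have h2 : IsCoprime v 2 := by
          rw [Nat.cast_mul, Nat.cast_ofNat] at h1
          have : (4 : ℤ) * (D.natAbs : ℤ) = 2 * (2 * (D.natAbs : ℤ)) := by ring
          rw [this] at h1
          exact h1.of_mul_right_left
        have h3 : (2 : ℤ) ∣ v := by omega
        have h4 := h2.isUnit_of_dvd' h3 (dvd_refl 2)
        rw [Int.isUnit_iff] at h4
        omega

theorem chi_one (D : ℤ) (hD : D ≠ 0) : chi D 1 = 1 := by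
  have h := chi_nat D hD 1 odd_one
  rw [jacobiSym.one_right] at h
  exact_mod_cast h

/-- PROOF: the values of the Jacobi symbol are `0, 1, -1`. -/
theorem chi_sq (D : ℤ) (hD : D ≠ 0) (v : ℤ) (h : IsCoprime v (per D : ℤ)) :
    chi D v * chi D v = 1 := by
  have h1 := (chi_ne_zero_iff D hD v).2 h
  have h2 : chi D v = 0 ∨ chi D v = 1 ∨ chi D v = -1 := by
    unfold chi
    split_ifs
    · exact jacobiSym.trichotomy _ _
    · exact jacobiSym.trichotomy _ _
    · exact Or.inl rfl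
  rcases h2 with h2 | h2 | h2
  · exact absurd h2 h1
  · rw [h2]; norm_num
  · rw [h2]; norm_num
/- END CB -/

/- MODULE CC -/
private theorem CC_neg {k s : ℕ} (hs : s % 4 = 1) : jacobiSym (-(k : ℤ)) s = jacobiSym k s := by
  rw [jacobiSym.neg _ (Nat.odd_iff.2 (by omega)), ZMod.χ₄_nat_one_mod_four hs, one_mul]

private theorem CC_neg' {k s : ℕ} (hs : s % 4 = 3) : jacobiSym (-(k : ℤ)) s = -jacobiSym k s := by
  rw [jacobiSym.neg _ (Nat.odd_iff.2 (by omega)), ZMod.χ₄_nat_three_mod_four hs, neg_one_mul]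

private theorem CC_cases (D : ℤ) (hD : Squarefree D) (h : D % 4 ≠ 1) :
    (∃ k : ℕ, D = k ∧ k % 4 = 3) ∨ (∃ k : ℕ, D = -k ∧ k % 4 = 1) ∨
      (∃ m : ℕ, D = ((2 * m : ℕ) : ℤ) ∧ m % 2 = 1) ∨
      ∃ m : ℕ, D = -((2 * m : ℕ) : ℤ) ∧ m % 2 = 1 := by
  have h4 : ¬ (4 : ℤ) ∣ D := by
    intro h3
    have h5 := hD 2 (by
      have : (2 : ℤ) * 2 = 4 := by norm_num
      rw [this]
      exact h3)
    rw [Int.isUnit_iff] at h5
    omega
  have h5 : D % 4 = 2 ∨ D % 4 = 3 := by omega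
  rcases lt_or_ge 0 D with h0 | h0
  · obtain ⟨k, rfl⟩ := Int.eq_ofNat_of_zero_le h0.le
    rcases h5 with h5 | h5
    · exact Or.inr (Or.inr (Or.inl ⟨k / 2, by omega, by omega⟩))
    · exact Or.inl ⟨k, rfl, by omega⟩
  · obtain ⟨k, hk'⟩ := Int.eq_ofNat_of_zero_le (neg_nonneg.2 h0)
    have hD' : D = -(k : ℤ) := by linarith
    subst hD'
    rcases h5 with h5 | h5
    · exact Or.inr (Or.inr (Or.inr ⟨k / 2, by omega, by omega⟩))
    · exact Or.inr (Or.inl ⟨k, rfl, by omega⟩)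

private theorem CC_one {k s : ℕ} (h : (k : ℤ) ∣ (s : ℤ) - 1) : jacobiSym s k = 1 := by
  have h1 : (s : ℤ) % k = 1 % k :=
    Int.emod_eq_emod_iff_emod_sub_eq_zero.2 (Int.emod_eq_zero_of_dvd h)
  rw [jacobiSym.mod_left' h1, jacobiSym.one_left]

/-- `q = 2`. PROOF: `s = 1 + 2 |D|` is odd, positive, smaller than `4 |D|`, so the claim is
`(D / s) = -1`. Put `k = |D|`. `D = k = 3` modulo `4`: `s = 3` modulo `4`,
`(k/s) = -(s/k) = -(1/k) = -1`. `D = -k`, `k = 1` modulo `4`: `s = 3` modulo `4`,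
`(-k/s) = (-1/s)(k/s) = -(s/k) = -1`. `D = ± 2 m`, `m` odd: `s = 1 + 4 m = 5` modulo `8`,
`(2/s) = -1` (`jacobiSym.at_two`), `(-1/s) = 1`, `(m/s) = (s/m) = (1/m) = 1`. -/
theorem chi_two (D : ℤ) (hD : Squarefree D) (h : D % 4 ≠ 1) : chi D (1 + 2 * D.natAbs) = -1 := by
  have e : (1 + 2 * D.natAbs : ℤ) = ((1 + 2 * D.natAbs : ℕ) : ℤ) := by
    push_cast
    rfl
  have hodd : Odd (1 + 2 * D.natAbs) := Nat.odd_iff.2 (by omega)
  rw [e, chi_nat D hD.ne_zero _ hodd]
  have key : ∀ m : ℕ, m % 2 = 1 → jacobiSym ((2 * m : ℕ) : ℤ) (1 + 2 * (2 * m)) = -1 := by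
    intro m hm
    have h1 : Odd (1 + 2 * (2 * m)) := Nat.odd_iff.2 (by omega)
    have h2 : (1 + 2 * (2 * m)) % 8 = 5 := by omega
    push_cast
    rw [jacobiSym.mul_left, jacobiSym.at_two h1, ZMod.χ₈_nat_eq_if_mod_eight,
      if_neg (by omega), if_neg (by omega),
      jacobiSym.quadratic_reciprocity_one_mod_four' (Nat.odd_iff.2 hm) (by omega),
      CC_one (by push_cast; exact ⟨4, by ring⟩)]
    norm_num
  rcases CC_cases D hD h with ⟨k, rfl, hk⟩ | ⟨k, rfl, hk⟩ | ⟨m, rfl, hm⟩ | ⟨m, rfl, hm⟩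
  · rw [Int.natAbs_natCast, jacobiSym.quadratic_reciprocity_three_mod_four hk (by omega),
      CC_one (by push_cast; exact ⟨2, by ring⟩)]
  · rw [Int.natAbs_neg, Int.natAbs_natCast, CC_neg' (by omega),
      jacobiSym.quadratic_reciprocity_one_mod_four hk (Nat.odd_iff.2 (by omega)),
      CC_one (by push_cast; exact ⟨2, by ring⟩)]
  · rw [Int.natAbs_natCast]
    exact key m hm
  · rw [Int.natAbs_neg, Int.natAbs_natCast, CC_neg (by omega)]
    exact key m hm
/- END CC -/

/- MODULE CD -/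
private theorem CD_prime (q : ℕ) (h2 : q % 2 = 1) : ∃ q' : ℤ, q'.natAbs = q ∧ q' % 4 = 1 := by
  have h : q % 4 = 1 ∨ q % 4 = 3 := by omega
  rcases h with h | h
  · exact ⟨q, Int.natAbs_natCast q, by omega⟩
  · exact ⟨-q, by rw [Int.natAbs_neg, Int.natAbs_natCast], by omega⟩

/-- `q` odd. PROOF: `q` is prime to `per D / q` (`D` is squarefree, `q` odd). Choose a quadratic
nonresidue `t` modulo `q` (`ZMod.exists_ne_one_...`, e.g. `quadraticChar_exists_neg_one`), and by the
Chinese remainder theorem a positive integer `s` with `s = t` modulo `q`, `s = 1` modulo `per D / q`.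
`D = 1` modulo `4`: `chi D s = (s/|D|) = (s/q)(s/(|D|/q)) = -1 * 1` (`jacobiSym.mul_right`). Otherwise
`s` is odd (`per D / q` is even), in fact `s = 1` modulo `4 |D|/q`; with `q' = ± q`, `q' = 1` modulo
`4` and `D = q' D'`: `chi D s = (D/s) = (q'/s)(D'/s)`; `(q'/s) = (s/q) = -1` and
`(D'/s) = (D'/1) = 1` (`jacobiSym.mod_right`, period `4 |D'| = per D / q`). -/
theorem chi_odd (D : ℤ) (hD : Squarefree D) (q : ℕ) (hq : q.Prime) (h2 : q ≠ 2) (h : (q : ℤ) ∣ D) :
    ∃ s : ℤ, ((per D / q : ℕ) : ℤ) ∣ s - 1 ∧ chi D s = -1 := by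
  have : Fact q.Prime := ⟨hq⟩
  have hq2 : q % 2 = 1 := hq.eq_two_or_odd.resolve_left h2
  obtain ⟨q', hq', hq4⟩ := CD_prime q hq2
  have hqd : q' ∣ D := by
    rw [← Int.natAbs_dvd, hq']
    exact h
  obtain ⟨D', hD'⟩ := hqd
  have hD0 := hD.ne_zero
  have hq0 : q' ≠ 0 := by
    rintro rfl
    norm_num at hq4
  have hD'0 : D' ≠ 0 := by
    rintro rfl
    exact hD0 (by rw [hD', mul_zero])
  have hk' := Int.natAbs_pos.2 hD'0
  have hnat : D.natAbs = q * D'.natAbs := by
    rw [hD', Int.natAbs_mul, hq']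
  -- coprimality
  have hcop : Nat.Coprime q (4 * D'.natAbs) := by
    rw [Nat.coprime_mul_iff_right]
    refine ⟨?_, ?_⟩
    · have h1 : Nat.Coprime q (2 ^ 2) :=
        Nat.Coprime.pow_right 2 ((Nat.coprime_primes hq Nat.prime_two).2 h2)
      exact h1
    · rw [Nat.Prime.coprime_iff_not_dvd hq]
      intro h3
      have h4 : Squarefree D.natAbs := Int.squarefree_natAbs.2 hD
      rw [hnat] at h4
      have h5 := h4 q (Nat.mul_dvd_mul_left q h3)
      exact hq.one_lt.ne' (Nat.isUnit_iff.1 h5)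
  obtain ⟨t, ht⟩ := FiniteField.exists_nonsquare (F := ZMod q)
    (by rw [ZMod.ringChar_zmod_n]; exact h2)
  obtain ⟨s, hs1, hs2⟩ := Nat.chineseRemainder hcop t.val 1
  have hper : per D / q ∣ 4 * D'.natAbs := by
    unfold per
    rw [hnat]
    split_ifs
    · rw [Nat.mul_div_cancel_left _ hq.pos]
      exact Nat.dvd_mul_left _ _
    · rw [show 4 * (q * D'.natAbs) = q * (4 * D'.natAbs) by ring,
        Nat.mul_div_cancel_left _ hq.pos]
  have hs4 : s % (4 * D'.natAbs) = 1 := by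
    have h1 : 1 % (4 * D'.natAbs) = 1 := Nat.mod_eq_of_lt (by omega)
    rw [← h1]
    exact hs2
  have hodd : Odd s := by
    rw [Nat.odd_iff]
    have h1 : s ≡ 1 [MOD 2] := hs2.of_dvd (Dvd.dvd.mul_right (by norm_num) _)
    exact h1
  refine ⟨s, ?_, ?_⟩
  · have h1 : ((4 * D'.natAbs : ℕ) : ℤ) ∣ ((s : ℕ) : ℤ) - ((1 : ℕ) : ℤ) :=
      (Nat.modEq_iff_dvd.1 hs2.symm)
    exact (Int.natCast_dvd_natCast.2 hper).trans (by exact_mod_cast h1)
  · rw [chi_nat D hD0 s hodd, hD', jacobiSym.mul_left]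
    have h1 : jacobiSym D' s = 1 := by
      rw [jacobiSym.mod_right D' hodd, hs4, jacobiSym.one_right]
    have h3 : jacobiSym q' s = -1 := by
      rw [← chi_nat q' hq0 s hodd]
      unfold chi
      rw [if_pos hq4, hq', ZMod.nonsquare_iff_jacobiSym_eq_neg_one]
      have h4 : (((s : ℕ) : ℤ) : ZMod q) = t := by
        rw [Int.cast_natCast, (ZMod.natCast_eq_natCast_iff _ _ _).2 hs1, ZMod.natCast_zmod_val]
      rw [h4]
      exact ht
    rw [h1, h3]
    norm_num
/- END CD -/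

/-- The Gauss sum. -/
noncomputable def gs (D n : ℤ) : ℂ :=
  ∑ v ∈ Finset.range (per D), (chi D v : ℂ) * exp (2 * pi * I * n * v / per D)

/- MODULE CE -/
private theorem CE_zmod (m : ℕ) [NeZero m] (F : ℤ → ℂ) :
    ∑ v ∈ Finset.range m, F v = ∑ x : ZMod m, F (x.val : ℤ) := by
  refine Finset.sum_bij (fun v _ => (v : ZMod m)) (fun v _ => Finset.mem_univ _) ?_ ?_ ?_
  · intro v hv w hw h
    rw [Finset.mem_range] at hv hw
    have h1 := (ZMod.natCast_eq_natCast_iff' _ _ _).1 h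
    rwa [Nat.mod_eq_of_lt hv, Nat.mod_eq_of_lt hw] at h1
  · intro x _
    exact ⟨x.val, Finset.mem_range.2 (ZMod.val_lt x), ZMod.natCast_zmod_val x⟩
  · intro v hv
    rw [Finset.mem_range] at hv
    rw [ZMod.val_natCast, Nat.mod_eq_of_lt hv]

private theorem CE_congr {m : ℕ} {F : ℤ → ℂ} (hF : ∀ v k : ℤ, F (v + m * k) = F v) {v w : ℤ}
    (h : (v : ZMod m) = (w : ZMod m)) : F v = F w := by
  have h1 := (ZMod.intCast_eq_intCast_iff_dvd_sub _ _ _).1 h
  obtain ⟨k, hk⟩ := h1
  rw [← hF v k, ← hk]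
  congr 1
  ring

private theorem CE_unit {m : ℕ} {s : ℤ} (hs : IsCoprime s (m : ℤ)) : IsUnit (s : ZMod m) := by
  obtain ⟨a, b, h⟩ := hs
  refine IsUnit.of_mul_eq_one (a : ZMod m) ?_
  have h1 : ((a * s + b * m : ℤ) : ZMod m) = 1 := by
    rw [h]
    push_cast
    rfl
  push_cast at h1
  rw [ZMod.natCast_self, mul_zero, add_zero] at h1
  rw [mul_comm]
  exact h1

private theorem CE_cop {m : ℕ} {s : ℤ} (hs : IsUnit (s : ZMod m)) : IsCoprime s (m : ℤ) := by
  obtain ⟨u, hu⟩ := hs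
  have h1 : (s : ZMod m) * ((u⁻¹ : (ZMod m)ˣ) : ZMod m) = 1 := by
    rw [← hu, Units.mul_inv]
  obtain ⟨a, ha⟩ := ZMod.intCast_surjective ((u⁻¹ : (ZMod m)ˣ) : ZMod m)
  rw [← ha] at h1
  have h2 : ((s * a : ℤ) : ZMod m) = ((1 : ℤ) : ZMod m) := by
    push_cast
    exact h1
  obtain ⟨k, hk⟩ := (ZMod.intCast_eq_intCast_iff_dvd_sub _ _ _).1 h2
  exact ⟨a, k, by linarith⟩

/-- Sums over a complete system of residues: substitution `v ↦ s v` for `s` prime to the period.
PROOF: reindex over `ZMod (per D)` (`F v` depends only on `v` modulo `per D`), multiplication with a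
unit is a bijection. -/
theorem sum_mul (m : ℕ) (hm : 0 < m) (F : ℤ → ℂ) (hF : ∀ v k : ℤ, F (v + m * k) = F v) (s : ℤ)
    (hs : IsCoprime s (m : ℤ)) :
    ∑ v ∈ Finset.range m, F (s * v) = ∑ v ∈ Finset.range m, F v := by
  have : NeZero m := ⟨hm.ne'⟩
  rw [CE_zmod m (fun v => F (s * v)), CE_zmod m F]
  obtain ⟨u, hu⟩ := CE_unit hs
  rw [← Equiv.sum_comp (Units.mulLeft u) fun x : ZMod m => F (x.val : ℤ)]
  refine Finset.sum_congr rfl fun x _ => ?_
  apply CE_congr hF
  rw [Units.mulLeft_apply, hu]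
  push_cast
  rw [ZMod.natCast_zmod_val, ZMod.natCast_zmod_val]

/-- The same for the substitution `v ↦ v'` with `c v v' = 1` modulo `m`, for a function `F` which
vanishes at the `v` not prime to `m`, written as: if `F v = F' v'` whenever `m ∣ c v v' - 1`, and
`F`, `F'` vanish at `v` not prime to `m`, then the sums agree. -/
theorem sum_inv (m : ℕ) (hm : 0 < m) (F F' : ℤ → ℂ) (hF : ∀ v k : ℤ, F (v + m * k) = F v)
    (hF' : ∀ v k : ℤ, F' (v + m * k) = F' v) (c : ℤ) (hc : IsCoprime c (m : ℤ))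
    (h0 : ∀ v : ℤ, ¬ IsCoprime v (m : ℤ) → F v = 0)
    (h0' : ∀ v : ℤ, ¬ IsCoprime v (m : ℤ) → F' v = 0)
    (h : ∀ v v' : ℤ, (m : ℤ) ∣ c * v * v' - 1 → F v = F' v') :
    ∑ v ∈ Finset.range m, F v = ∑ v ∈ Finset.range m, F' v := by
  classical
  have : NeZero m := ⟨hm.ne'⟩
  rw [CE_zmod m F, CE_zmod m F']
  obtain ⟨u, hu⟩ := CE_unit hc
  obtain ⟨g, hg⟩ : ∃ g : ZMod m → ZMod m, g = fun x =>
      if hx : IsUnit x then (((u * hx.unit)⁻¹ : (ZMod m)ˣ) : ZMod m) else x := ⟨_, rfl⟩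
  have hgu : ∀ x (hx : IsUnit x), g x = (((u * hx.unit)⁻¹ : (ZMod m)ˣ) : ZMod m) := by
    intro x hx
    rw [hg]
    exact dif_pos hx
  have hgn : ∀ x, ¬ IsUnit x → g x = x := by
    intro x hx
    rw [hg]
    exact dif_neg hx
  have hginv : Function.Involutive g := by
    intro x
    by_cases hx : IsUnit x
    · have h1 := hgu x hx
      have h2 : IsUnit (g x) := by
        rw [h1]
        exact Units.isUnit _
      rw [hgu _ h2]
      have h3 : h2.unit = (u * hx.unit)⁻¹ := by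
        ext
        rw [IsUnit.unit_spec, h1]
      rw [h3, mul_inv_rev, inv_inv, mul_comm u hx.unit, mul_assoc, mul_inv_cancel, mul_one,
        IsUnit.unit_spec]
    · rw [hgn x hx, hgn x hx]
  rw [← Equiv.sum_comp hginv.toPerm fun x : ZMod m => F' (x.val : ℤ)]
  refine Finset.sum_congr rfl fun x _ => ?_
  rw [Function.Involutive.coe_toPerm]
  have hv : ∀ y : ZMod m, (((y.val : ℕ) : ℤ) : ZMod m) = y := by
    intro y
    rw [Int.cast_natCast, ZMod.natCast_zmod_val]
  by_cases hx : IsUnit x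
  · apply h
    have h4 : ((c * (x.val : ℤ) * ((g x).val : ℤ) - 1 : ℤ) : ZMod m) = 0 := by
      push_cast
      rw [ZMod.natCast_zmod_val, ZMod.natCast_zmod_val, hgu x hx]
      have h5 : (c : ZMod m) * x = ((u * hx.unit : (ZMod m)ˣ) : ZMod m) := by
        rw [Units.val_mul, hu, IsUnit.unit_spec]
      rw [h5, Units.mul_inv, sub_self]
    exact (ZMod.intCast_zmod_eq_zero_iff_dvd _ _).1 h4
  · have h1 : ¬ IsCoprime (x.val : ℤ) (m : ℤ) := by
      intro h2
      apply hx
      have h3 := CE_unit h2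
      rwa [hv] at h3
    rw [hgn x hx, h0 _ h1, h0' _ h1]
/- END CE -/

/- MODULE CF -/
private theorem CF_exp {m : ℕ} (hm : 0 < m) (x k : ℤ) :
    exp (2 * pi * I * ((x + m * k : ℤ) : ℂ) / m) = exp (2 * pi * I * (x : ℂ) / m) := by
  have hm0 : (m : ℂ) ≠ 0 := by exact_mod_cast hm.ne'
  have e : 2 * pi * I * ((x + m * k : ℤ) : ℂ) / m = 2 * pi * I * (x : ℂ) / m + k * (2 * pi * I) := by
    push_cast
    field_simp
  rw [e, Complex.exp_add, Complex.exp_int_mul_two_pi_mul_I, mul_one]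

private theorem CF_exp' {m : ℕ} (hm : 0 < m) {x y : ℤ} (h : (m : ℤ) ∣ x - y) :
    exp (2 * pi * I * (x : ℂ) / m) = exp (2 * pi * I * (y : ℂ) / m) := by
  obtain ⟨k, hk⟩ := h
  rw [← CF_exp hm y k, ← hk]
  congr 4
  ring

/-- PROOF: `F v = chi D v * exp (2 π i n v / m)`, `m = per D`, has period `m`. If `n` is prime to `m`:
`gs D n * chi D n = ∑ chi(n v) exp (2 π i (n v) / m) = gs D 1` (`sum_mul` with `s = n`), and
`chi_sq`. Otherwise there is a prime `q ∣ n`, `q ∣ m`; take the `s` of `chi_odd` (`q` odd), or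
`s = 1 + 2|D|` if `q = 2` (then `D % 4 ≠ 1` and `per D / 2 = 2 |D|`, `chi_two`): `chi D s = -1`,
`s` is prime to `m` (`chi_ne_zero_iff`), and `m ∣ n (s - 1)`. So `gs D n = ∑ F (s v) = - gs D n`
(`sum_mul`), and both sides of the claim are `0` (`chi_ne_zero_iff`). -/
theorem gs_eq (D : ℤ) (hD : Squarefree D) (n : ℤ) : gs D n = chi D n * gs D 1 := by
  have hD0 := hD.ne_zero
  have hm := per_pos D hD0
  have hk := Int.natAbs_pos.2 hD0
  have hper : ∀ v k : ℤ, ((chi D (v + per D * k) : ℤ) : ℂ) *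
      exp (2 * pi * I * ((n * (v + per D * k) : ℤ) : ℂ) / per D) =
      ((chi D v : ℤ) : ℂ) * exp (2 * pi * I * ((n * v : ℤ) : ℂ) / per D) := by
    intro v k
    rw [chi_add_per, CF_exp' hm (x := n * (v + per D * k)) (y := n * v) ⟨n * k, by ring⟩]
  have hgs : ∀ n : ℤ, gs D n = ∑ v ∈ Finset.range (per D), ((chi D v : ℤ) : ℂ) *
      exp (2 * pi * I * ((n * v : ℤ) : ℂ) / per D) := by
    intro n
    unfold gs
    refine Finset.sum_congr rfl fun v _ => ?_
    push_cast
    congr 2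
    ring
  by_cases hc : IsCoprime n (per D : ℤ)
  · have h1 := sum_mul (per D) hm (fun v => ((chi D v : ℤ) : ℂ) *
      exp (2 * pi * I * (v : ℂ) / per D)) (fun v k => by
        rw [chi_add_per, CF_exp hm]) n hc
    have h2 : ∑ v ∈ Finset.range (per D), ((chi D v : ℤ) : ℂ) * exp (2 * pi * I * (v : ℂ) / per D) =
        gs D 1 := by
      rw [hgs 1]
      refine Finset.sum_congr rfl fun v _ => ?_
      rw [one_mul]
      push_cast
      rfl
    have h3 : ∑ v ∈ Finset.range (per D), (chi D (n * v) : ℂ) *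
        exp (2 * pi * I * ((n * v : ℤ) : ℂ) / per D) = chi D n * gs D n := by
      rw [hgs n, Finset.mul_sum]
      refine Finset.sum_congr rfl fun v _ => ?_
      rw [chi_mul D hD0, Int.cast_mul, mul_assoc]
    have h4 : (chi D n : ℂ) * gs D n = gs D 1 := by
      rw [← h3, ← h2]
      exact_mod_cast h1
    rw [← h4, ← mul_assoc]
    have h5 : (chi D n : ℂ) * chi D n = 1 := by
      exact_mod_cast chi_sq D hD0 n hc
    rw [h5, one_mul]
  · have h0 : chi D n = 0 := by
      by_contra h1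
      exact hc ((chi_ne_zero_iff D hD0 n).1 h1)
    rw [h0, Int.cast_zero, zero_mul]
    -- a common prime
    obtain ⟨q, hq, hqn, hqm⟩ : ∃ q : ℕ, q.Prime ∧ (q : ℤ) ∣ n ∧ q ∣ per D := by
      have h1 : Int.gcd n (per D : ℤ) ≠ 1 := fun h2 => hc (Int.isCoprime_iff_gcd_eq_one.2 h2)
      obtain ⟨q, hq, hqd⟩ := Nat.exists_prime_and_dvd h1
      refine ⟨q, hq, ?_, ?_⟩
      · exact (Int.natCast_dvd_natCast.2 hqd).trans (Int.gcd_dvd_left _ _)
      · exact Int.natCast_dvd_natCast.1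
          ((Int.natCast_dvd_natCast.2 hqd).trans (Int.gcd_dvd_right _ _))
    obtain ⟨s, hs1, hs2⟩ : ∃ s : ℤ, ((per D / q : ℕ) : ℤ) ∣ s - 1 ∧ chi D s = -1 := by
      by_cases h2 : q = 2
      · subst h2
        have h4 : D % 4 ≠ 1 := by
          intro h5
          unfold per at hqm
          rw [if_pos h5] at hqm
          omega
        refine ⟨1 + 2 * D.natAbs, ?_, chi_two D hD h4⟩
        have h5 : per D / 2 = 2 * D.natAbs := by
          unfold per
          rw [if_neg h4]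
          omega
        rw [h5]
        refine ⟨1, ?_⟩
        rw [Nat.cast_mul, Nat.cast_ofNat]
        ring
      · refine chi_odd D hD q hq h2 ?_
        unfold per at hqm
        split_ifs at hqm
        · exact Int.natCast_dvd.2 hqm
        · rcases (Nat.Prime.dvd_mul hq).1 hqm with h3 | h3
          · exfalso
            have h4 : q ∣ 2 ^ 2 := h3
            exact h2 ((Nat.prime_dvd_prime_iff_eq hq Nat.prime_two).1 (hq.dvd_of_dvd_pow h4))
          · exact Int.natCast_dvd.2 h3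
    have hsc : IsCoprime s (per D : ℤ) := by
      rw [← chi_ne_zero_iff D hD0, hs2]
      norm_num
    have hmn : (per D : ℤ) ∣ n * (s - 1) := by
      obtain ⟨a, ha⟩ := hqn
      obtain ⟨b, hb⟩ := hs1
      obtain ⟨c, hc'⟩ := hqm
      have h5 : per D / q = c := by
        rw [hc', Nat.mul_div_cancel_left _ hq.pos]
      rw [h5] at hb
      refine ⟨a * b, ?_⟩
      rw [ha, hb, hc']
      push_cast
      ring
    have h1 := sum_mul (per D) hm (fun v => ((chi D v : ℤ) : ℂ) *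
      exp (2 * pi * I * ((n * v : ℤ) : ℂ) / per D)) hper s hsc
    have h2 : ∑ v ∈ Finset.range (per D), ((chi D (s * v) : ℤ) : ℂ) *
        exp (2 * pi * I * ((n * (s * v) : ℤ) : ℂ) / per D) = -gs D n := by
      rw [hgs n, ← Finset.sum_neg_distrib]
      refine Finset.sum_congr rfl fun v _ => ?_
      rw [chi_mul D hD0, hs2]
      have h5 : (per D : ℤ) ∣ n * (s * v) - n * v := by
        have : n * (s * v) - n * v = n * (s - 1) * v := by ring
        rw [this]
        exact Dvd.dvd.mul_right hmn _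
      rw [CF_exp' hm h5]
      push_cast
      ring
    have h3 : -gs D n = gs D n := by
      rw [← h2, hgs n]
      exact_mod_cast h1
    have h4 : gs D n + gs D n = 0 := by
      nth_rewrite 1 [← h3]
      ring
    have h5 : (2 : ℂ) * gs D n = 0 := by
      rw [two_mul]
      exact h4
    exact (mul_eq_zero.1 h5).resolve_left two_ne_zero
/- END CF -/

/- MODULE CG -/
private theorem CG_orth {m : ℕ} (hm : 0 < m) (k : ℤ) :
    ∑ n ∈ Finset.range m, exp (2 * pi * I * ((n * k : ℤ) : ℂ) / m) =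
      if (m : ℤ) ∣ k then (m : ℂ) else 0 := by
  have hm0 : (m : ℂ) ≠ 0 := by exact_mod_cast hm.ne'
  have e : ∀ n : ℕ, exp (2 * pi * I * ((n * k : ℤ) : ℂ) / m) = exp (2 * pi * I * (k : ℂ) / m) ^ n := by
    intro n
    rw [← Complex.exp_nat_mul]
    congr 1
    push_cast
    ring
  simp only [e]
  split_ifs with h
  · have h1 : exp (2 * pi * I * (k : ℂ) / m) = 1 := by
      have h2 := CF_exp' hm (x := k) (y := 0) (by rwa [sub_zero])
      rw [h2]
      simp
    rw [h1]
    simp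
  · have h1 : exp (2 * pi * I * (k : ℂ) / m) ≠ 1 := by
      intro h2
      rw [Complex.exp_eq_one_iff] at h2
      obtain ⟨j, hj⟩ := h2
      have hpi : (2 * pi * I : ℂ) ≠ 0 := Complex.two_pi_I_ne_zero
      apply h
      refine ⟨j, ?_⟩
      have h3 : (k : ℂ) = m * j := by
        rw [div_eq_iff hm0] at hj
        have h4 : (2 * pi * I : ℂ) * k = (2 * pi * I) * (m * j) := by
          rw [hj]
          ring
        exact mul_left_cancel₀ hpi h4
      exact_mod_cast h3
    have h2 := geom_sum_mul (exp (2 * pi * I * (k : ℂ) / m)) m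
    have h3 : exp (2 * pi * I * (k : ℂ) / m) ^ m = 1 := by
      rw [← Complex.exp_nat_mul]
      have : (m : ℂ) * (2 * pi * I * (k : ℂ) / m) = k * (2 * pi * I) := by
        field_simp
      rw [this, Complex.exp_int_mul_two_pi_mul_I]
    rw [h3, sub_self] at h2
    exact (mul_eq_zero.1 h2).resolve_right (sub_ne_zero.2 h1)

/-- PROOF: otherwise all `gs D n = 0`; then `0 = ∑_(n mod m) gs D n exp (-2 π i n / m) = m chi D 1 = m`
(exchange the sums, orthogonality `∑_n exp (2 π i n (v - 1) / m) = m` for `v = 1` modulo `m`, else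
`0`). -/
theorem gs_ne_zero (D : ℤ) (hD : Squarefree D) : gs D 1 ≠ 0 := by
  intro h0
  have hD0 := hD.ne_zero
  have hm := per_pos D hD0
  have hm0 : (per D : ℂ) ≠ 0 := by exact_mod_cast hm.ne'
  have hall : ∀ n : ℤ, gs D n = 0 := fun n => by rw [gs_eq D hD n, h0, mul_zero]
  have h1 : ∑ n ∈ Finset.range (per D), gs D n * exp (2 * pi * I * ((-n : ℤ) : ℂ) / per D) = 0 := by
    apply Finset.sum_eq_zero
    intro n _
    rw [hall n, zero_mul]
  have h2 : ∑ n ∈ Finset.range (per D), gs D n * exp (2 * pi * I * ((-n : ℤ) : ℂ) / per D) =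
      ∑ v ∈ Finset.range (per D), (chi D v : ℂ) *
        (if ((per D : ℕ) : ℤ) ∣ ((v : ℕ) : ℤ) - 1 then (per D : ℂ) else 0) := by
    have h3 : ∀ n ∈ Finset.range (per D),
        gs D n * exp (2 * pi * I * ((-n : ℤ) : ℂ) / per D) =
        ∑ v ∈ Finset.range (per D), (chi D v : ℂ) *
          exp (2 * pi * I * ((n * ((v : ℕ) - 1 : ℤ) : ℤ) : ℂ) / per D) := by
      intro n _
      unfold gs
      rw [Finset.sum_mul]
      refine Finset.sum_congr rfl fun v _ => ?_
      rw [mul_assoc, ← Complex.exp_add]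
      congr 2
      push_cast
      ring
    rw [Finset.sum_congr rfl h3, Finset.sum_comm]
    refine Finset.sum_congr rfl fun v _ => ?_
    rw [← Finset.mul_sum, CG_orth hm]
  rw [h2] at h1
  obtain ⟨v0, hv0, hv1⟩ : ∃ v0 ∈ Finset.range (per D), (per D : ℤ) ∣ (v0 : ℤ) - 1 := by
    refine ⟨1 % per D, Finset.mem_range.2 (Nat.mod_lt _ hm), ?_⟩
    have h3 := (Nat.mod_modEq 1 (per D)).symm
    have h4 := Nat.modEq_iff_dvd.1 h3
    exact_mod_cast h4
  rw [Finset.sum_eq_single_of_mem v0 hv0, if_pos hv1, chi_congr D v0 1 hv1, chi_one D hD0] at h1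
  · rw [Int.cast_one, one_mul] at h1
    exact hm0 h1
  · intro v hv hne
    rw [if_neg, mul_zero]
    intro h3
    apply hne
    rw [Finset.mem_range] at hv hv0
    have h4 : (per D : ℤ) ∣ (v : ℤ) - v0 := by
      have : (v : ℤ) - v0 = ((v : ℤ) - 1) - ((v0 : ℤ) - 1) := by ring
      rw [this]
      exact dvd_sub h3 hv1
    have h5 := (Nat.modEq_iff_dvd.2 h4).symm
    have h6 : v % per D = v0 % per D := h5
    rwa [Nat.mod_eq_of_lt hv, Nat.mod_eq_of_lt hv0] at h6
/- END CG -/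

/- MODULE CH -/
private theorem CH_three {m : ℕ} (h3 : ¬ 3 ∣ m) :
    jacobiSym m 3 = if m % 3 = 1 then 1 else -1 := by
  have h : m % 3 = 1 ∨ m % 3 = 2 := by omega
  rcases h with h | h
  · have h1 : (m : ℤ) % ((3 : ℕ) : ℤ) = 1 % ((3 : ℕ) : ℤ) := by
      push_cast
      omega
    rw [if_pos h, jacobiSym.mod_left' h1, jacobiSym.one_left]
  · have h1 : (m : ℤ) % ((3 : ℕ) : ℤ) = 2 % ((3 : ℕ) : ℤ) := by
      push_cast
      omega
    rw [if_neg (by omega), jacobiSym.mod_left' h1, jacobiSym.at_two (by decide)]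
    decide

private theorem CH_neg_three {m : ℕ} (hm : Odd m) : jacobiSym (-3) m = jacobiSym m 3 := by
  have h := chi_nat (-3) (by norm_num) m hm
  unfold chi at h
  rw [if_pos (by norm_num)] at h
  exact h.symm

/-- Values which enter the root number, `D = 1` modulo `4`, with `m = |D|` odd. PROOF:
`chi D v = (v/m)`, `jacobiSym.mul_left`; `(-2/m)` (`jacobiSym.at_neg_two`), `(2/m)`
(`jacobiSym.at_two`), `(-3/m) = (m/3)` (reciprocity; `(m/3) = 1` iff `m = 1` modulo `3`). -/
theorem chi_val_one (D : ℤ) (hD : D ≠ 0) (h1 : D % 4 = 1) (h3 : ¬ 3 ∣ D) :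
    chi D (-24) = (if D.natAbs % 8 = 1 ∨ D.natAbs % 8 = 7 then 1 else -1) *
      (if D.natAbs % 3 = 1 then 1 else -1) := by
  have hm : D.natAbs % 2 = 1 := by omega
  have hmo : Odd D.natAbs := Nat.odd_iff.2 hm
  unfold chi
  rw [if_pos h1, show (-24 : ℤ) = 4 * 2 * (-3) by norm_num, jacobiSym.mul_left, jacobiSym.mul_left,
    jacobiSym.at_four hmo, jacobiSym.at_two hmo, one_mul, CH_neg_three hmo,
    CH_three (by omega), ZMod.χ₈_nat_eq_if_mod_eight, if_neg (by omega)]

theorem chi_val_one3 (D : ℤ) (hD : D ≠ 0) (h1 : D % 4 = 1) (h3 : 3 ∣ D) :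
    chi D (-8) = if D.natAbs % 8 = 1 ∨ D.natAbs % 8 = 3 then 1 else -1 := by
  have hm : D.natAbs % 2 = 1 := by omega
  have hmo : Odd D.natAbs := Nat.odd_iff.2 hm
  unfold chi
  rw [if_pos h1, show (-8 : ℤ) = 4 * (-2) by norm_num, jacobiSym.mul_left,
    jacobiSym.at_four hmo, jacobiSym.at_neg_two hmo, one_mul,
    ZMod.χ₈'_nat_eq_if_mod_eight, if_neg (by omega)]
/- END CH -/

/- MODULE CI -/
private theorem CI_val (D : ℤ) (hD : D ≠ 0) (h : D % 4 ≠ 1) (r : ℕ) (hr : r % 2 = 1)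
    (hr4 : r < 4) : chi D (-r) = jacobiSym D (4 * D.natAbs - r) := by
  have hk := Int.natAbs_pos.2 hD
  have hp : (per D : ℤ) = 4 * (D.natAbs : ℤ) := by
    unfold per
    rw [if_neg h]
    push_cast
    rfl
  have e : (-(r : ℤ)) + per D * 1 = ((4 * D.natAbs - r : ℕ) : ℤ) := by
    rw [hp, Nat.cast_sub (by omega), Nat.cast_mul, Nat.cast_ofNat]
    ring
  rw [← chi_add_per D _ 1, e, chi_nat D hD _ (Nat.odd_iff.2 (by omega))]

private theorem CI_left {k n : ℕ} {r : ℤ} (h : (k : ℤ) ∣ (n : ℤ) - r) :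
    jacobiSym n k = jacobiSym r k :=
  jacobiSym.mod_left' (Int.emod_eq_emod_iff_emod_sub_eq_zero.2 (Int.emod_eq_zero_of_dvd h))

/-- `D` not `1` modulo `4` (squarefree, so `D` is odd or `D = 2 D'`, `D'` odd), `k = |D|`. PROOF:
`chi D (-1) = (D/(4k - 1))` with `4k - 1 = 3` modulo `4`: `D = k` odd, `k = 3` modulo `4`:
`(k/(4k-1)) = -((4k-1)/k) = -(-1/k) = 1`. `D = -k`, `k = 1` modulo `4`:
`(-k/(4k-1)) = -(k/(4k-1)) = -(-1/k) = -1`. `D = 2m > 0`: `8m - 1 = 7` modulo `8`, `(2/(8m-1)) = 1`,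
`(m/(8m-1)) = (m/(8m-1))`: for `m = 1` modulo `4` it is `((8m-1)/m) = (-1/m) = 1`, for `m = 3` modulo
`4` it is `-(-1/m) = 1`. `D = -2m`: times `(-1/(8m-1)) = -1`. -/
theorem chi_neg_one (D : ℤ) (hD : Squarefree D) (h : D % 4 ≠ 1) :
    chi D (-1) = if 0 < D then 1 else -1 := by
  have e := CI_val D hD.ne_zero h 1 rfl (by norm_num)
  rw [Nat.cast_one] at e
  rw [e]
  have key : ∀ m : ℕ, m % 2 = 1 → jacobiSym ((2 * m : ℕ) : ℤ) (4 * (2 * m) - 1) = 1 := by
    intro m hm
    have h1 : Odd (4 * (2 * m) - 1) := Nat.odd_iff.2 (by omega)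
    have hmo : Odd m := Nat.odd_iff.2 hm
    have h5 : jacobiSym ((4 * (2 * m) - 1 : ℕ) : ℤ) m = jacobiSym (-1) m := by
      apply CI_left
      refine ⟨8, ?_⟩
      rw [Nat.cast_sub (by omega)]
      push_cast
      ring
    push_cast
    rw [jacobiSym.mul_left, jacobiSym.at_two h1, ZMod.χ₈_nat_eq_if_mod_eight,
      if_neg (by omega), if_pos (by omega), one_mul]
    rcases Nat.odd_mod_four_iff.1 hm with h4 | h4
    · rw [jacobiSym.quadratic_reciprocity_one_mod_four h4 h1, h5, jacobiSym.at_neg_one hmo,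
        ZMod.χ₄_nat_one_mod_four h4]
    · rw [jacobiSym.quadratic_reciprocity_three_mod_four h4 (by omega), h5,
        jacobiSym.at_neg_one hmo, ZMod.χ₄_nat_three_mod_four h4]
      norm_num
  rcases CC_cases D hD h with ⟨k, rfl, hk⟩ | ⟨k, rfl, hk⟩ | ⟨m, rfl, hm⟩ | ⟨m, rfl, hm⟩
  · have h5 : jacobiSym ((4 * k - 1 : ℕ) : ℤ) k = jacobiSym (-1) k := by
      apply CI_left
      refine ⟨4, ?_⟩
      rw [Nat.cast_sub (by omega)]
      push_cast
      ring
    rw [Int.natAbs_natCast, jacobiSym.quadratic_reciprocity_three_mod_four hk (by omega), h5,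
      jacobiSym.at_neg_one (Nat.odd_iff.2 (by omega)), ZMod.χ₄_nat_three_mod_four hk,
      if_pos (by omega)]
    norm_num
  · have h5 : jacobiSym ((4 * k - 1 : ℕ) : ℤ) k = jacobiSym (-1) k := by
      apply CI_left
      refine ⟨4, ?_⟩
      rw [Nat.cast_sub (by omega)]
      push_cast
      ring
    rw [Int.natAbs_neg, Int.natAbs_natCast, CC_neg' (by omega),
      jacobiSym.quadratic_reciprocity_one_mod_four hk (Nat.odd_iff.2 (by omega)), h5,
      jacobiSym.at_neg_one (Nat.odd_iff.2 (by omega)), ZMod.χ₄_nat_one_mod_four hk,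
      if_neg (by omega)]
  · rw [Int.natAbs_natCast, key m hm, if_pos (by omega)]
  · rw [Int.natAbs_neg, Int.natAbs_natCast, CC_neg' (by omega), key m hm, if_neg (by omega)]

/-- PROOF: `chi D (-3) = (D/(4k-3))`, `4k - 3 = 1` modulo `4`, so `(-1/(4k-3)) = 1`. `D` odd:
`(k/(4k-3)) = ((4k-3)/k) = (-3/k) = (k/3)`. `D = ± 2m`: `8m - 3 = 5` modulo `8`, `(2/(8m-3)) = -1`,
`(m/(8m-3)) = ((8m-3)/m) = (-3/m) = (m/3)`; and `-(m/3) = (2m/3) = (k/3)`. For `k = 1` (`D = -1`)
it is `(-1/1) = 1`. -/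
theorem chi_neg_three (D : ℤ) (hD : Squarefree D) (h : D % 4 ≠ 1) (h3 : ¬ 3 ∣ D) :
    chi D (-3) = if D.natAbs % 3 = 1 then 1 else -1 := by
  have e := CI_val D hD.ne_zero h 3 rfl (by norm_num)
  rw [Nat.cast_ofNat] at e
  rw [e]
  have keyo : ∀ k : ℕ, k % 2 = 1 → jacobiSym k (4 * k - 3) = jacobiSym k 3 := by
    intro k hk
    have h5 : jacobiSym ((4 * k - 3 : ℕ) : ℤ) k = jacobiSym (-3) k := by
      apply CI_left
      refine ⟨4, ?_⟩
      rw [Nat.cast_sub (by omega)]
      push_cast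
      ring
    rw [jacobiSym.quadratic_reciprocity_one_mod_four' (Nat.odd_iff.2 hk) (by omega), h5,
      CH_neg_three (Nat.odd_iff.2 hk)]
  have key : ∀ m : ℕ, m % 2 = 1 →
      jacobiSym ((2 * m : ℕ) : ℤ) (4 * (2 * m) - 3) = jacobiSym ((2 * m : ℕ) : ℤ) 3 := by
    intro m hm
    have h1 : Odd (4 * (2 * m) - 3) := Nat.odd_iff.2 (by omega)
    have h5 : jacobiSym ((4 * (2 * m) - 3 : ℕ) : ℤ) m = jacobiSym (-3) m := by
      apply CI_left
      refine ⟨8, ?_⟩
      rw [Nat.cast_sub (by omega)]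
      push_cast
      ring
    have h6 : jacobiSym 2 3 = -1 := by
      rw [jacobiSym.at_two (by decide)]
      decide
    push_cast
    rw [jacobiSym.mul_left, jacobiSym.mul_left, jacobiSym.at_two h1,
      ZMod.χ₈_nat_eq_if_mod_eight, if_neg (by omega), if_neg (by omega),
      jacobiSym.quadratic_reciprocity_one_mod_four' (Nat.odd_iff.2 hm) (by omega), h5,
      CH_neg_three (Nat.odd_iff.2 hm), h6]
  rw [← CH_three (m := D.natAbs) (by omega)]
  rcases CC_cases D hD h with ⟨k, rfl, hk⟩ | ⟨k, rfl, hk⟩ | ⟨m, rfl, hm⟩ | ⟨m, rfl, hm⟩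
  · rw [Int.natAbs_natCast]
    exact keyo k (by omega)
  · rw [Int.natAbs_neg, Int.natAbs_natCast, CC_neg (by omega)]
    exact keyo k (by omega)
  · rw [Int.natAbs_natCast]
    exact key m hm
  · rw [Int.natAbs_neg, Int.natAbs_natCast, CC_neg (by omega)]
    exact key m hm
/- END CI -/

end Pool.Agent.NC
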