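import Pool.Agent.NC.Rep
import Pool.Agent.NC.P3C

/-!
# Part 3, the functional equation of all quadratic twists
-/

namespace Pool.Agent.NC

open scoped BigOperators
open Complex (I exp)
open Real (pi)

/-- The twist of `f`. -/
noncomputable def fD (D : ℤ) (z : ℂ) : ℂ :=
  (∑ v ∈ Finset.range (per D), (chi D v : ℂ) * f (z + 2 * v / per D)) / gs D 1

/-- A quarter of the conductor. -/
def qc (D : ℤ) : ℕ := (if D % 4 = 1 then 2 else 4) * (if 3 ∣ D then 1 else 3) * D.natAbs ^ 2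

theorem cond_eq (D : ℤ) : cond D = 4 * qc D := by
  unfold cond qc
  split_ifs <;> ring

/-- The constant `c`: `f` at `2v/m` goes to `f` at `2v'/m` with `c v v' = 1` modulo `m = per D`. -/
def cc (D : ℤ) : ℤ :=
  if D % 4 = 1 then (if 3 ∣ D then -8 else -24) else (if 3 ∣ D then -1 else -3)

/- MODULE TA -/
/-- PROOF: `f (w + 2 k) = f w` from `f_add_one`. -/
theorem f_add_even (w : ℂ) (k : ℤ) : f (w + 2 * k) = f w := by
  have h2 : ∀ w : ℂ, f (w + 2) = f w := by
    intro w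
    have h1 := f_add_one (w + 1)
    rw [f_add_one w, neg_neg, add_assoc, one_add_one_eq_two] at h1
    exact h1
  have hn : ∀ (n : ℕ) (w : ℂ), f (w + 2 * n) = f w := by
    intro n
    induction n with
    | zero => intro w; simp
    | succ n ih =>
      intro w
      have e : w + 2 * ((n + 1 : ℕ) : ℂ) = (w + 2 * n) + 2 := by push_cast; ring
      rw [e, h2, ih]
  obtain ⟨n, rfl | rfl⟩ := k.eq_nat_or_neg
  · have h := hn n w
    push_cast
    exact h
  · have h := hn n (w + 2 * ((-(n : ℤ) : ℤ) : ℂ))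
    rw [← h]
    congr 1
    push_cast
    ring

/-- q-expansion of the twist. PROOF: `hasSum_f` at `z + 2 v / m` (same imaginary part):
`exp (π i n (z + 2 v/m)) = exp (π i n z) exp (2 π i n v / m)`; the finite sum over `v` gives the
coefficient `a n * gs D n / gs D 1 = a n * chi D n` (`gs_eq`, `gs_ne_zero`), which is
`A D n = jacobiSym D n * a n` for odd `n` (`chi_nat`) and `0` for even `n` (`a_even`). -/
theorem hasSum_fD (D : ℤ) (hD : Squarefree D) (z : ℂ) (hz : 0 < z.im) :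
    HasSum (fun n : ℕ ↦ (A D n : ℂ) * exp (pi * I * n * z)) (fD D z) := by
  have hD0 : D ≠ 0 := hD.ne_zero
  have hg := gs_ne_zero D hD
  have hper : (per D : ℂ) ≠ 0 := by
    have := per_pos D hD0
    exact_mod_cast this.ne'
  have h1 : ∀ v ∈ Finset.range (per D), HasSum (fun n : ℕ ↦ (chi D v : ℂ) *
      ((a n : ℂ) * exp (pi * I * n * (z + 2 * v / per D))))
      ((chi D v : ℂ) * f (z + 2 * v / per D)) := by
    intro v _
    have h2 : 0 < (z + 2 * (v : ℂ) / (per D : ℂ)).im := by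
      have e : (2 * (v : ℂ) / (per D : ℂ)).im = 0 := by
        have e1 : (2 * (v : ℂ) / (per D : ℂ)) = ((2 * (v : ℝ) / (per D : ℝ) : ℝ) : ℂ) := by
          push_cast; ring
        rw [e1, Complex.ofReal_im]
      rw [Complex.add_im, e, add_zero]
      exact hz
    exact (hasSum_f _ h2).mul_left _
  have h3 := (hasSum_sum h1).div_const (gs D 1)
  have h4 : (fun n : ℕ ↦ (A D n : ℂ) * exp (pi * I * n * z)) = fun n : ℕ ↦
      (∑ v ∈ Finset.range (per D), (chi D v : ℂ) *
        ((a n : ℂ) * exp (pi * I * n * (z + 2 * v / per D)))) / gs D 1 := by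
    funext n
    have h5 : ∑ v ∈ Finset.range (per D), (chi D v : ℂ) *
        ((a n : ℂ) * exp (pi * I * n * (z + 2 * v / per D))) =
        (a n : ℂ) * exp (pi * I * n * z) * gs D n := by
      unfold gs
      rw [Finset.mul_sum]
      refine Finset.sum_congr rfl fun v _ ↦ ?_
      have e : pi * I * n * (z + 2 * v / per D) =
          pi * I * n * z + 2 * pi * I * ((n : ℤ) : ℂ) * v / per D := by
        push_cast
        field_simp
      rw [e, Complex.exp_add]
      ring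
    rw [h5, gs_eq D hD]
    unfold A
    rcases Nat.even_or_odd n with hn | hn
    · rw [a_even n hn]
      simp
    · rw [← chi_nat D hD0 n hn]
      push_cast
      field_simp
  rw [h4]
  exact h3
/- END TA -/

/- MODULE TB -/
private theorem TB_im (m v' : ℤ) (z : ℂ) (hz : 0 < z.im) :
    0 < (z + 2 * (v' : ℂ) / (m : ℂ)).im := by
  have e : (2 * (v' : ℂ) / (m : ℂ)).im = 0 := by
    have e1 : (2 * (v' : ℂ) / (m : ℂ)) = ((2 * (v' : ℝ) / (m : ℝ) : ℝ) : ℂ) := by
      push_cast; ring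
    rw [e1, Complex.ofReal_im]
  rw [Complex.add_im, e, add_zero]
  exact hz

private theorem TB_ne (z : ℂ) (hz : 0 < z.im) : z ≠ 0 := by
  intro h
  rw [h, Complex.zero_im] at hz
  exact lt_irrefl _ hz

private theorem TB_frac (K M u z X : ℂ) (hK : K ≠ 0) (hM : M ≠ 0) (hz : z ≠ 0)
    (h : X * M = K * u * M * z - 1) : X / (K * M * z) = -1 / (K * M ^ 2 * z) + u / M := by
  have e1 : X / (K * M * z) = (X * M) / (K * M ^ 2 * z) := by
    field_simp
  rw [e1, h]
  field_simp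
  ring

/-- `D = 1` modulo `4`, prime to `3`; here `m` is `± D`. PROOF: with `w = z + 2v'/m` and
`t = (24 v v' + 1)/m`: `-1/(6 m² z) + 2v/m = (12 v w - t)/(6 m w - 12 v')` (multiply out, `w m = m z +
2 v'`); this is type `6`: `f_six` with `a = 2v`, `b = -t`, `c = m`, `d = -2v'`,
`6 a d - b c = -24 v v' + t m = 1`; `a + d` is even; `6 c w + 6 d = 6 m w - 12 v' = 6 m z`. So the value is
`-((6 m z)²/6) f(w) = -6 m² z² f(w)`. (`f_six` has the arguments as integers, cast.) -/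
theorem fv_six (m v v' : ℤ) (hm : m ≠ 0) (h : m ∣ -24 * v * v' - 1) (z : ℂ) (hz : 0 < z.im) :
    f (-1 / (6 * m ^ 2 * z) + 2 * v / m) = -(6 * m ^ 2 * z ^ 2) * f (z + 2 * v' / m) := by
  obtain ⟨s, hs⟩ := h
  have hz0 := TB_ne z hz
  have hmC : (m : ℂ) ≠ 0 := by exact_mod_cast hm
  have hw := TB_im m v' z hz
  obtain ⟨w, hwd⟩ : ∃ w : ℂ, w = z + 2 * v' / m := ⟨_, rfl⟩
  rw [← hwd] at hw ⊢
  have hwm : m * w = m * z + 2 * v' := by rw [hwd]; field_simp
  have h1 := f_six (2 * v) s m (-2 * v') (by linear_combination hs) w hw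
  have h2 : (6 * (m : ℂ) * w + 6 * ((-2 * v' : ℤ) : ℂ)) = 6 * m * z := by
    push_cast
    linear_combination (6 : ℂ) * hwm
  have hsC : (-24 * v * v' - 1 : ℂ) = m * s := by exact_mod_cast hs
  have h3 : (6 * ((2 * v : ℤ) : ℂ) * w + (s : ℂ)) / (6 * m * z) =
      -1 / (6 * m ^ 2 * z) + 2 * v / m := by
    refine TB_frac 6 m (2 * v) z _ (by norm_num) hmC hz0 ?_
    push_cast
    linear_combination (12 * v : ℂ) * hwm - hsC
  have h4 : ((-1 : ℂ)) ^ (2 * v + -2 * v' : ℤ) = 1 := by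
    have : Even (2 * v + -2 * v' : ℤ) := ⟨v - v', by ring⟩
    exact this.neg_one_zpow
  rw [h2, h3, h4] at h1
  rw [h1]
  ring

/-- `D = 1` modulo `4`, divisible by `3`. PROOF: `w = z + 2v'/m`, `t = (8 v v' + 1)/m`, `m = 3 m'`,
`m` odd: `-1/(2 m² z) + 2v/m = (4 v w - t)/(2 m w - 4 v')`, type `2`: `f_two` with `a = 2v`,
`b = -t`, `c = m'` (`6 c = 2 m`), `d = -2v'`: `2 a d - 3 b c = -8 v v' + t m = 1`; `a + d` even. -/
theorem fv_two (m v v' : ℤ) (hm : m ≠ 0) (h3 : 3 ∣ m) (h : m ∣ -8 * v * v' - 1)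
    (z : ℂ) (hz : 0 < z.im) :
    f (-1 / (2 * m ^ 2 * z) + 2 * v / m) = -(2 * m ^ 2 * z ^ 2) * f (z + 2 * v' / m) := by
  obtain ⟨s, hs⟩ := h
  obtain ⟨m', hm'⟩ := h3
  have hz0 := TB_ne z hz
  have hmC : (m : ℂ) ≠ 0 := by exact_mod_cast hm
  have hw := TB_im m v' z hz
  obtain ⟨w, hwd⟩ : ∃ w : ℂ, w = z + 2 * v' / m := ⟨_, rfl⟩
  rw [← hwd] at hw ⊢
  have hwm : m * w = m * z + 2 * v' := by rw [hwd]; field_simp
  have h1 := f_two (2 * v) s m' (-2 * v') (by rw [hm'] at hs; linear_combination hs) w hw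
  have hm'C : (m : ℂ) = 3 * m' := by exact_mod_cast hm'
  have h2 : (6 * (m' : ℂ) * w + 2 * ((-2 * v' : ℤ) : ℂ)) = 2 * m * z := by
    push_cast
    linear_combination (2 : ℂ) * hwm - (2 * w) * hm'C
  have hsC : (-8 * v * v' - 1 : ℂ) = m * s := by exact_mod_cast hs
  have h3 : (2 * ((2 * v : ℤ) : ℂ) * w + (s : ℂ)) / (2 * m * z) =
      -1 / (2 * m ^ 2 * z) + 2 * v / m := by
    refine TB_frac 2 m (2 * v) z _ (by norm_num) hmC hz0 ?_
    push_cast
    linear_combination (4 * v : ℂ) * hwm - hsC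
  have h4 : ((-1 : ℂ)) ^ (2 * v + -2 * v' : ℤ) = 1 := by
    have : Even (2 * v + -2 * v' : ℤ) := ⟨v - v', by ring⟩
    exact this.neg_one_zpow
  rw [h2, h3, h4] at h1
  rw [h1]
  ring
/- END TB -/

/- MODULE TC -/
private theorem TC_w (k v' : ℤ) (hk : (k : ℂ) ≠ 0) (z : ℂ) :
    2 * k * (z + 2 * v' / (4 * k)) = 2 * k * z + v' := by
  field_simp
  ring

private theorem TC_im (k v' : ℤ) (z : ℂ) (hz : 0 < z.im) :
    0 < (z + 2 * (v' : ℂ) / (4 * (k : ℂ))).im := by
  have h := TB_im (4 * k) v' z hz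
  push_cast at h
  exact h

/-- `D` not `1` modulo `4`, prime to `3`; `m = 4 |D| = 4 k`. PROOF: `w = z + 2v'/m`,
`3 v v' + 1 = 4 k t`, so `t' = (3 v v' + 1)/(2k) = 2 t` is even. `-1/(12 k² z) + 2v/(4k) =
(3 v w - t')/(6 k w - 3 v')`: type `3`: `f_three` with `a = v`, `b = -t'`, `c = k`, `d = -v'`:
`3 a d - 2 b c = -3 v v' + 2 k t' = 1`. The sign is `(-1)^(b + c) = (-1)^k`, and
`6 c w + 3 d = 6 k z`, `(6 k z)²/3 = 12 k² z²`. -/
theorem fv_three (k v v' : ℤ) (hk : k ≠ 0) (h : 4 * k ∣ -3 * v * v' - 1) (z : ℂ) (hz : 0 < z.im) :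
    f (-1 / (12 * k ^ 2 * z) + 2 * v / (4 * k)) =
      (-1) ^ k * (12 * k ^ 2 * z ^ 2) * f (z + 2 * v' / (4 * k)) := by
  obtain ⟨s, hs⟩ := h
  have hz0 := TB_ne z hz
  have hkC : (k : ℂ) ≠ 0 := by exact_mod_cast hk
  have hw := TC_im k v' z hz
  have hwm := TC_w k v' hkC z
  obtain ⟨w, hwd⟩ : ∃ w : ℂ, w = z + 2 * v' / (4 * k) := ⟨_, rfl⟩
  rw [← hwd] at hw hwm ⊢
  have h1 := f_three v (2 * s) k (-v') (by linear_combination hs) w hw
  have h2 : (6 * (k : ℂ) * w + 3 * ((-v' : ℤ) : ℂ)) = 3 * (2 * k) * z := by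
    push_cast
    linear_combination (3 : ℂ) * hwm
  have hsC : (-3 * v * v' - 1 : ℂ) = 4 * k * s := by exact_mod_cast hs
  have h3 : (3 * (v : ℂ) * w + ((2 * s : ℤ) : ℂ)) / (3 * (2 * k) * z) =
      -1 / (12 * k ^ 2 * z) + 2 * v / (4 * k) := by
    rw [TB_frac 3 (2 * k) v z _ (by norm_num) (mul_ne_zero (by norm_num) hkC) hz0 ?_]
    · have e1 : (v : ℂ) / (2 * k) = 2 * v / (4 * k) := by field_simp; ring
      rw [e1]
      congr 2
      ring
    · push_cast
      linear_combination (3 * v : ℂ) * hwm - hsC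
  have h4 : ((-1 : ℂ)) ^ (2 * s + k : ℤ) = (-1) ^ k := by
    rw [zpow_add₀ (by norm_num)]
    have : Even (2 * s : ℤ) := even_two_mul s
    rw [this.neg_one_zpow, one_mul]
  rw [h2, h3, h4] at h1
  rw [h1]
  ring

/-- `D` not `1` modulo `4`, divisible by `3`; `k = |D| = 3 k'`. PROOF: `v v' + 1 = 4 k t`,
`t' = (v v' + 1)/(2k) = 2 t`: `-1/(4 k² z) + 2v/(4k) = (v w - t')/(2 k w - v')`: type `1`: `f_one` with
`a = v`, `b = -t'`, `6 c = 2 k`, `c = k'`, `d = -v'`: `a d - 6 b c = -v v' + 2 k t' = 1`; the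
sign is `(-1)^(b + c) = (-1)^k' = (-1)^k`; `6 c w + d = 2 k w - v' = 2 k z`. -/
theorem fv_one (k v v' : ℤ) (hk : k ≠ 0) (h3 : 3 ∣ k) (h : 4 * k ∣ -1 * v * v' - 1)
    (z : ℂ) (hz : 0 < z.im) :
    f (-1 / (4 * k ^ 2 * z) + 2 * v / (4 * k)) =
      (-1) ^ k * (4 * k ^ 2 * z ^ 2) * f (z + 2 * v' / (4 * k)) := by
  obtain ⟨s, hs⟩ := h
  obtain ⟨k', hk'⟩ := h3
  have hz0 := TB_ne z hz
  have hkC : (k : ℂ) ≠ 0 := by exact_mod_cast hk
  have hw := TC_im k v' z hz
  have hwm := TC_w k v' hkC z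
  obtain ⟨w, hwd⟩ : ∃ w : ℂ, w = z + 2 * v' / (4 * k) := ⟨_, rfl⟩
  rw [← hwd] at hw hwm ⊢
  have h1 := f_one v (2 * s) k' (-v') (by rw [hk'] at hs; linear_combination hs) w hw
  have hk'C : (k : ℂ) = 3 * k' := by exact_mod_cast hk'
  have h2 : (6 * (k' : ℂ) * w + ((-v' : ℤ) : ℂ)) = 1 * (2 * k) * z := by
    push_cast
    linear_combination hwm - (2 * w) * hk'C
  have hsC : (-1 * v * v' - 1 : ℂ) = 4 * k * s := by exact_mod_cast hs
  have h3 : ((v : ℂ) * w + ((2 * s : ℤ) : ℂ)) / (1 * (2 * k) * z) =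
      -1 / (4 * k ^ 2 * z) + 2 * v / (4 * k) := by
    rw [TB_frac 1 (2 * k) v z _ one_ne_zero (mul_ne_zero (by norm_num) hkC) hz0 ?_]
    · have e1 : (v : ℂ) / (2 * k) = 2 * v / (4 * k) := by field_simp; ring
      rw [e1]
      congr 2
      ring
    · push_cast
      linear_combination (v : ℂ) * hwm - hsC
  have h4 : ((-1 : ℂ)) ^ (2 * s + k' : ℤ) = (-1) ^ k := by
    have h5 : k = 2 * k' + k' := by rw [hk']; ring
    rw [h5, zpow_add₀ (by norm_num), zpow_add₀ (by norm_num), (even_two_mul s).neg_one_zpow,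
      (even_two_mul k').neg_one_zpow]
  rw [h2, h3, h4] at h1
  rw [h1]
  ring
/- END TC -/

/- MODULE TD -/
/-- All cases. PROOF: `per D`, `qc D`, `cc D` are: `(m, 6 m², -24)`, `(m, 2 m², -8)`,
`(4k, 12 k², -3)`, `(4k, 4 k², -1)` with `m = k = |D|`; `fv_six`, `fv_two`, `fv_three`, `fv_one`.
In the first two cases `D` is odd, and the sign is `-1`. -/
theorem fv (D : ℤ) (hD : D ≠ 0) (v v' : ℤ) (h : (per D : ℤ) ∣ cc D * v * v' - 1) (z : ℂ)
    (hz : 0 < z.im) :
    f (-1 / (qc D * z) + 2 * v / per D) =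
      (-1) ^ D.natAbs * (qc D * z ^ 2) * f (z + 2 * v' / per D) := by
  obtain ⟨n, hn⟩ : ∃ n : ℕ, D.natAbs = n := ⟨_, rfl⟩
  have hn0 : n ≠ 0 := by
    rw [← hn]
    exact Int.natAbs_ne_zero.2 hD
  have hm : (n : ℤ) ≠ 0 := by exact_mod_cast hn0
  have h3n : (3 : ℤ) ∣ D → (3 : ℤ) ∣ (n : ℤ) := by
    intro h
    rw [← hn]
    rwa [Int.dvd_natAbs]
  by_cases h1 : D % 4 = 1
  · have hodd : Odd n := by
      rw [← hn, Int.natAbs_odd, Int.odd_iff]
      omega
    have hper : per D = n := by unfold per; rw [if_pos h1, hn]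
    by_cases h3 : (3 : ℤ) ∣ D
    · have hq : (qc D : ℂ) = 2 * (n : ℂ) ^ 2 := by
        unfold qc; rw [if_pos h1, if_pos h3, hn]; push_cast; ring
      have hc : cc D = -8 := by unfold cc; rw [if_pos h1, if_pos h3]
      rw [hper, hc] at h
      have h4 := fv_two (n : ℤ) v v' hm (h3n h3) h z hz
      rw [hper, hq, hn, hodd.neg_one_pow]
      push_cast at h4
      rw [h4]
      ring
    · have hq : (qc D : ℂ) = 6 * (n : ℂ) ^ 2 := by
        unfold qc; rw [if_pos h1, if_neg h3, hn]; push_cast; ring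
      have hc : cc D = -24 := by unfold cc; rw [if_pos h1, if_neg h3]
      rw [hper, hc] at h
      have h4 := fv_six (n : ℤ) v v' hm h z hz
      rw [hper, hq, hn, hodd.neg_one_pow]
      push_cast at h4
      rw [h4]
      ring
  · have hper : per D = 4 * n := by unfold per; rw [if_neg h1, hn]
    by_cases h3 : (3 : ℤ) ∣ D
    · have hq : (qc D : ℂ) = 4 * (n : ℂ) ^ 2 := by
        unfold qc; rw [if_neg h1, if_pos h3, hn]; push_cast; ring
      have hc : cc D = -1 := by unfold cc; rw [if_neg h1, if_pos h3]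
      rw [hper, hc] at h
      push_cast at h
      have h4 := fv_one (n : ℤ) v v' hm (h3n h3) h z hz
      rw [hper, hq, hn]
      rw [zpow_natCast] at h4
      push_cast at h4 ⊢
      rw [h4]
    · have hq : (qc D : ℂ) = 12 * (n : ℂ) ^ 2 := by
        unfold qc; rw [if_neg h1, if_neg h3, hn]; push_cast; ring
      have hc : cc D = -3 := by unfold cc; rw [if_neg h1, if_neg h3]
      rw [hper, hc] at h
      push_cast at h
      have h4 := fv_three (n : ℤ) v v' hm h z hz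
      rw [hper, hq, hn]
      rw [zpow_natCast] at h4
      push_cast at h4 ⊢
      rw [h4]

/-- PROOF: in each case `cc D` is prime to `per D`. -/
theorem cc_coprime (D : ℤ) (hD : Squarefree D) : IsCoprime (cc D) (per D : ℤ) := by
  have h2 : D % 4 = 1 → IsCoprime (2 : ℤ) (D.natAbs : ℤ) := by
    intro h1
    rw [Int.isCoprime_iff_gcd_eq_one]
    have h3 : Odd D.natAbs := by
      rw [Int.natAbs_odd, Int.odd_iff]
      omega
    have h4 := (Nat.coprime_two_left (n := D.natAbs)).2 h3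
    have h5 : Int.gcd 2 (D.natAbs : ℤ) = Nat.gcd 2 D.natAbs := rfl
    rw [h5]
    exact h4
  have h3 : ¬ (3 : ℤ) ∣ D → IsCoprime (3 : ℤ) (D.natAbs : ℤ) := by
    intro h
    have hp : Prime (3 : ℤ) := Int.prime_three
    refine (hp.coprime_iff_not_dvd).2 ?_
    rwa [Int.dvd_natAbs]
  unfold cc per
  by_cases h1 : D % 4 = 1
  · rw [if_pos h1, if_pos h1]
    by_cases hd : (3 : ℤ) ∣ D
    · rw [if_pos hd]
      have e : (-8 : ℤ) = -(2 ^ 3) := by norm_num
      rw [e]
      exact (IsCoprime.pow_left (h2 h1)).neg_left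
    · rw [if_neg hd]
      have e : (-24 : ℤ) = -(2 ^ 3 * 3) := by norm_num
      rw [e]
      exact (IsCoprime.mul_left (IsCoprime.pow_left (h2 h1)) (h3 hd)).neg_left
  · rw [if_neg h1, if_neg h1]
    by_cases hd : (3 : ℤ) ∣ D
    · rw [if_pos hd]
      exact isCoprime_one_left.neg_left
    · rw [if_neg hd]
      rw [Nat.cast_mul]
      refine IsCoprime.neg_left (IsCoprime.mul_right ?_ (h3 hd))
      rw [Int.isCoprime_iff_gcd_eq_one]
      decide
/- END TD -/

/- MODULE TE -/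
/-- THE TRANSFORMATION. PROOF: `sum_inv` for `m = per D`, `c = cc D`,
`F v = chi D v * f (-1/(N z) + 2 v/m)`, `F' v' = chi D (cc D) * chi D v' * (-1)^|D| N z² f (z + 2 v'/m)`
(`N = qc D`): period `m` by `chi_add_per`, `f_add_even`; both vanish for `v` not prime to `m`
(`chi_ne_zero_iff`); if `m ∣ c v v' - 1` then `chi D v = chi D c * chi D v'` (`chi_mul`, `chi_sq`,
`chi_congr`, `chi_one`: `chi c chi v chi v' = 1`), and `fv`. -/
theorem fD_W (D : ℤ) (hD : Squarefree D) (z : ℂ) (hz : 0 < z.im) :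
    fD D (-1 / (qc D * z)) = ((-1) ^ D.natAbs * chi D (cc D) : ℤ) * (qc D * z ^ 2) * fD D z := by
  have hD0 : D ≠ 0 := hD.ne_zero
  have hm := per_pos D hD0
  have hmC : (per D : ℂ) ≠ 0 := by exact_mod_cast hm.ne'
  have hc := cc_coprime D hD
  have hshift : ∀ (u : ℂ) (v k : ℤ), u + 2 * ((v + (per D : ℤ) * k : ℤ) : ℂ) / per D =
      u + 2 * v / per D + 2 * k := by
    intro u v k
    push_cast
    field_simp
    ring
  have key := sum_inv (per D) hm
    (fun v ↦ (chi D v : ℂ) * f (-1 / (qc D * z) + 2 * v / per D))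
    (fun v' ↦ (((-1) ^ D.natAbs * chi D (cc D) : ℤ) : ℂ) * (qc D * z ^ 2) *
      ((chi D v' : ℂ) * f (z + 2 * v' / per D)))
    (fun v k ↦ by
      show (chi D (v + (per D : ℤ) * k) : ℂ) * f (-1 / (qc D * z) +
        2 * ((v + (per D : ℤ) * k : ℤ) : ℂ) / per D) = _
      rw [chi_add_per, hshift, f_add_even])
    (fun v k ↦ by
      show (((-1) ^ D.natAbs * chi D (cc D) : ℤ) : ℂ) * (qc D * z ^ 2) *
        ((chi D (v + (per D : ℤ) * k) : ℂ) * f (z +
        2 * ((v + (per D : ℤ) * k : ℤ) : ℂ) / per D)) = _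
      rw [chi_add_per, hshift, f_add_even])
    (cc D) hc
    (fun v hv ↦ by
      have h1 : chi D v = 0 := by
        by_contra h
        exact hv ((chi_ne_zero_iff D hD0 v).1 h)
      show (chi D v : ℂ) * _ = 0
      rw [h1, Int.cast_zero, zero_mul])
    (fun v hv ↦ by
      have h1 : chi D v = 0 := by
        by_contra h
        exact hv ((chi_ne_zero_iff D hD0 v).1 h)
      show _ * ((chi D v : ℂ) * _) = 0
      rw [h1, Int.cast_zero, zero_mul, mul_zero])
    (fun v v' h ↦ by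
      show (chi D v : ℂ) * f (-1 / (qc D * z) + 2 * v / per D) =
        (((-1) ^ D.natAbs * chi D (cc D) : ℤ) : ℂ) * (qc D * z ^ 2) *
          ((chi D v' : ℂ) * f (z + 2 * v' / per D))
      have h1 : chi D (cc D * v * v') = 1 := by
        rw [chi_congr D _ 1 h, chi_one D hD0]
      rw [chi_mul D hD0, chi_mul D hD0] at h1
      have h2 : chi D v = chi D (cc D) * chi D v' := by
        have e1 : IsCoprime v (per D : ℤ) := (chi_ne_zero_iff D hD0 v).1 (by
          intro h0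
          rw [h0] at h1
          simp at h1)
        have e2 : chi D v * chi D v = 1 := chi_sq D hD0 v e1
        calc chi D v = chi D v * (chi D (cc D) * chi D v * chi D v') := by rw [h1, mul_one]
          _ = (chi D v * chi D v) * (chi D (cc D) * chi D v') := by ring
          _ = chi D (cc D) * chi D v' := by rw [e2, one_mul]
      rw [fv D hD0 v v' h z hz, h2]
      push_cast
      ring)
  unfold fD
  have key' : ∑ v ∈ Finset.range (per D), (chi D v : ℂ) * f (-1 / (qc D * z) + 2 * v / per D) =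
      ∑ v' ∈ Finset.range (per D), (((-1) ^ D.natAbs * chi D (cc D) : ℤ) : ℂ) * (qc D * z ^ 2) *
      ((chi D v' : ℂ) * f (z + 2 * v' / per D)) := by
    simpa using key
  rw [key', ← Finset.mul_sum, mul_div_assoc]
/- END TE -/

/- MODULE TF -/
/-- The root number. PROOF: the cases of `w`: `chi_val_one`, `chi_val_one3` (`D` odd: `(-1)^|D| = -1`),
`chi_neg_three`, `chi_neg_one`. (`D` squarefree: `D % 4 ≠ 0`.) -/
theorem w_eq (D : ℤ) (hD : Squarefree D) : w D = -((-1) ^ D.natAbs * chi D (cc D)) := by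
  have hD0 : D ≠ 0 := hD.ne_zero
  have h4 : D % 4 ≠ 0 := by
    intro h
    have h1 : (2 : ℤ) * 2 ∣ D := by norm_num; omega
    have h2 := hD 2 h1
    rw [Int.isUnit_iff] at h2
    omega
  unfold w cc
  by_cases h1 : D % 4 = 1
  · have hodd : Odd D.natAbs := by
      rw [Int.natAbs_odd, Int.odd_iff]
      omega
    by_cases h3 : (3 : ℤ) ∣ D
    · rw [if_pos h3, if_pos h1, if_pos h1, if_pos h3, chi_val_one3 D hD0 h1 h3,
        hodd.neg_one_pow]
      ring
    · rw [if_neg h3, if_pos h1, if_pos h1, if_neg h3, chi_val_one D hD0 h1 h3,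
        hodd.neg_one_pow]
      ring
  · by_cases h5 : D % 4 = 3
    · have hodd : Odd D.natAbs := by
        rw [Int.natAbs_odd, Int.odd_iff]
        omega
      by_cases h3 : (3 : ℤ) ∣ D
      · rw [if_pos h3, if_neg h1, if_pos h5, if_neg h1, if_pos h3, chi_neg_one D hD h1,
          hodd.neg_one_pow]
        ring
      · rw [if_neg h3, if_neg h1, if_pos h5, if_neg h1, if_neg h3, chi_neg_three D hD h1 h3,
          hodd.neg_one_pow]
        ring
    · have heven : Even D.natAbs := by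
        rw [Int.natAbs_even, Int.even_iff]
        omega
      by_cases h3 : (3 : ℤ) ∣ D
      · rw [if_pos h3, if_neg h1, if_neg h5, if_neg h1, if_pos h3, chi_neg_one D hD h1,
          heven.neg_one_pow]
        split_ifs <;> ring
      · rw [if_neg h3, if_neg h1, if_neg h5, if_neg h1, if_neg h3, chi_neg_three D hD h1 h3,
          heven.neg_one_pow]
        ring
/- END TF -/

/- MODULE TG -/
private theorem TG_im (x : ℝ) : ((x : ℂ) * I).im = x := by
  rw [Complex.mul_im, Complex.ofReal_re, Complex.ofReal_im, Complex.I_im, Complex.I_re]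
  ring

/-- PROOF: put `N = qc D`, `cond D = 4 N`, `√(cond D) = 2 √N`, `z = i y / √N` (upper half plane). Then
`exp (π i n z) = exp (- π n y / √N) = exp (-2 π n y / √(cond D))`, `-1/(N z) = i / (y √N)`,
`N z² = - y²`. So `hasSum_fD` at both points (real terms: `Complex.ofReal` of the real series,
`HasSum.tsum_eq`, `Complex.ofReal_tsum`), `fD_W` and `w_eq`. -/
theorem theta_fe (D : ℤ) (hD : Squarefree D) (y : ℝ) (hy : 0 < y) :
    ∑' n : ℕ, (A D n : ℝ) * Real.exp (-2 * Real.pi * n / (y * Real.sqrt (cond D))) =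
      w D * y ^ 2 * ∑' n : ℕ, (A D n : ℝ) * Real.exp (-2 * Real.pi * n * y / Real.sqrt (cond D)) := by
  have hqc : 0 < qc D := by
    have h1 : 0 < D.natAbs := Int.natAbs_pos.2 hD.ne_zero
    unfold qc
    split_ifs <;> positivity
  have hN : (0 : ℝ) < qc D := by exact_mod_cast hqc
  set s : ℝ := Real.sqrt (qc D) with hs
  have hs0 : 0 < s := Real.sqrt_pos.2 hN
  have hss : s * s = qc D := Real.mul_self_sqrt hN.le
  have hcond : Real.sqrt (cond D) = 2 * s := by
    rw [cond_eq, Nat.cast_mul, Real.sqrt_mul (Nat.cast_nonneg _)]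
    have h4 : Real.sqrt ((4 : ℕ) : ℝ) = 2 := by
      rw [show ((4 : ℕ) : ℝ) = 2 ^ 2 by norm_num]
      exact Real.sqrt_sq (by norm_num)
    rw [h4]
  have hsC : (s : ℂ) ≠ 0 := by exact_mod_cast hs0.ne'
  have hyC : (y : ℂ) ≠ 0 := by exact_mod_cast hy.ne'
  have hssC : (qc D : ℂ) = s * s := by
    rw [← Complex.ofReal_mul, hss, Complex.ofReal_natCast]
  set z : ℂ := ((y / s : ℝ) : ℂ) * I with hz
  have hzim : 0 < z.im := by
    rw [hz, TG_im]
    positivity
  have hwz : -1 / ((qc D : ℂ) * z) = ((1 / (y * s) : ℝ) : ℂ) * I := by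
    rw [hssC, hz]
    push_cast
    have hI : I ≠ 0 := Complex.I_ne_zero
    field_simp
    rw [Complex.I_sq]
  have hwim : 0 < (-1 / ((qc D : ℂ) * z)).im := by
    rw [hwz, TG_im]
    positivity
  have hW := fD_W D hD z hzim
  have h1 := hasSum_fD D hD z hzim
  have h2 := hasSum_fD D hD (-1 / (qc D * z)) hwim
  have e1 : ∀ n : ℕ, (A D n : ℂ) * exp (pi * I * n * z) =
      (((A D n : ℝ) * Real.exp (-2 * Real.pi * n * y / Real.sqrt (cond D)) : ℝ) : ℂ) := by
    intro n
    rw [Complex.ofReal_mul, Complex.ofReal_exp, Complex.ofReal_intCast]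
    congr 2
    rw [hz, hcond]
    push_cast
    field_simp
    rw [Complex.I_sq]
    ring
  have e2 : ∀ n : ℕ, (A D n : ℂ) * exp (pi * I * n * (-1 / (qc D * z))) =
      (((A D n : ℝ) * Real.exp (-2 * Real.pi * n / (y * Real.sqrt (cond D))) : ℝ) : ℂ) := by
    intro n
    rw [Complex.ofReal_mul, Complex.ofReal_exp, Complex.ofReal_intCast]
    congr 2
    rw [hwz, hcond]
    push_cast
    field_simp
    rw [Complex.I_sq]
    ring
  simp only [e1] at h1
  simp only [e2] at h2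
  have t1 := h1.tsum_eq
  have t2 := h2.tsum_eq
  rw [← Complex.ofReal_tsum] at t1 t2
  have hNz : (qc D : ℂ) * z ^ 2 = -((y : ℂ) ^ 2) := by
    rw [hssC, hz]
    push_cast
    rw [mul_pow, Complex.I_sq]
    field_simp
  have hw : ((w D : ℤ) : ℂ) = -(((-1) ^ D.natAbs * chi D (cc D) : ℤ) : ℂ) := by
    rw [w_eq D hD]
    push_cast
    ring
  apply Complex.ofReal_injective
  rw [t2, Complex.ofReal_mul, Complex.ofReal_mul, t1, hW, hNz, Complex.ofReal_intCast, hw,
    Complex.ofReal_pow]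
  ring
/- END TG -/

end Pool.Agent.NC
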