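import Pool.Agent.NC.Mel
import Pool.Agent.NC.P2A
import Pool.Agent.NC.P3F
import Pool.Agent.NCD.Part5

/-!
# Rank parity for prime twists of quadratic twists of `y² = x (x - 1) (x - 9)`
-/

namespace Pool.Agent.NC

/-- The functional equation of every quadratic twist. -/
theorem hasFE (D : ℤ) (hD : Squarefree D) : HasFE (E D) (cond D) (w D) :=
  hasFE' a_rec a_values.2.1 a_values.2.2 (fun q hq h ↦ a_eq_of param q hq h) summable_a D hD
    fun y hy ↦ theta_fe D hD y hy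

theorem w_six (D : ℤ) (h : 0 < D) (h6 : 6 ∣ D) : w D = -1 := by
  have h3 : (3 : ℤ) ∣ D := (by norm_num : (3 : ℤ) ∣ 6).trans h6
  have h2 : (2 : ℤ) ∣ D := (by norm_num : (2 : ℤ) ∣ 6).trans h6
  have h1 : ¬ D % 4 = 1 := by omega
  have h4 : ¬ D % 4 = 3 := by omega
  simp [w, h3, h1, h4, h]

/-- The theorem. -/
theorem main (n : ℤ) (hn : Squarefree n) :
    (¬ (0 < n ∧ 6 ∣ n) → ∃ c : ℕ, c.Coprime (24 * n.natAbs) ∧
      ∀ p : ℕ, p.Prime → ¬ p ∣ 24 * n.natAbs → IsSquare ((c * p : ℕ) : ZMod (24 * n.natAbs)) →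
        Finite (E (n * p)).toAffine.Point ∧ HasFE (E (n * p)) (cond (n * p)) 1) ∧
    (0 < n ∧ 6 ∣ n → ∀ p : ℕ, p.Prime → ¬ (p : ℤ) ∣ n → HasFE (E (n * p)) (cond (n * p)) (-1)) := by
  have hsq : ∀ p : ℕ, p.Prime → ¬ (p : ℤ) ∣ n → Squarefree (n * p) := by
    intro p hp hpn
    have hp' : Prime (p : ℤ) := Nat.prime_iff_prime_int.1 hp
    rw [mul_comm]
    refine (squarefree_mul_iff).2 ⟨?_, hp'.squarefree, hn⟩
    exact (hp'.irreducible.coprime_iff_not_dvd.2 hpn).isRelPrime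
  constructor
  · intro h6
    obtain ⟨c, hc, h⟩ := NCD.exists_class_E n hn h6
    refine ⟨c, hc, fun p hp hpn hs ↦ ?_⟩
    obtain ⟨hw, hfin⟩ := h p hp hpn hs
    refine ⟨hfin, ?_⟩
    have hpn' : ¬ (p : ℤ) ∣ n := fun hd ↦ hpn ((Int.natCast_dvd.1 hd).mul_left _)
    have h1 := hasFE (n * p) (hsq p hp hpn')
    rwa [hw] at h1
  · intro h6 p hp hpn
    have h1 := hasFE (n * p) (hsq p hp hpn)
    rwa [w_six (n * p) (mul_pos h6.1 (by exact_mod_cast hp.pos)) (h6.2.mul_right _)] at h1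

end Pool.Agent.NC
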