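import Pool.Agent.NC.Loc
import Pool.Agent.PTR.Theta

/-!
# From the theta function to the functional equation of the L-series
-/

namespace Pool.Agent.NC

open scoped BigOperators

/-- Domination of the exponential sum. -/
private theorem summable_exp (c : ℕ → ℤ)
    (hsum : ∀ σ : ℝ, 3 / 2 < σ → Summable fun n : ℕ ↦ |(c n : ℝ)| * (n : ℝ) ^ (-σ)) (t : ℝ) (ht : 0 < t) :
    Summable fun n : ℕ ↦ |(c n : ℝ)| * Real.exp (-Real.pi * n * t) := by
  have hpt : 0 < Real.pi * t := mul_pos Real.pi_pos ht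
  have h1 := (isLittleO_exp_neg_mul_rpow_atTop hpt (-2)).isBigO
  obtain ⟨C, hC⟩ := h1.bound
  have h2 := hC.natCast_atTop
  have h3 := (hsum 2 (by norm_num)).mul_left C
  refine h3.of_norm_bounded_eventually_nat ?_
  filter_upwards [h2] with n hn
  rw [Real.norm_eq_abs, abs_of_pos (Real.exp_pos _), Real.norm_eq_abs,
    abs_of_nonneg (Real.rpow_nonneg (Nat.cast_nonneg n) _)] at hn
  rw [Real.norm_eq_abs, abs_mul, abs_abs, abs_of_pos (Real.exp_pos _)]
  have e : -Real.pi * n * t = -(Real.pi * t) * n := by ring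
  rw [e]
  calc |(c n : ℝ)| * Real.exp (-(Real.pi * t) * n) ≤ |(c n : ℝ)| * (C * (n : ℝ) ^ (-2 : ℝ)) :=
        mul_le_mul_of_nonneg_left hn (abs_nonneg _)
    _ = C * (|(c n : ℝ)| * (n : ℝ) ^ (-2 : ℝ)) := by ring

/-- The theta function of the coefficients `c`. -/
noncomputable def thc (c : ℕ → ℤ) (t : ℝ) : ℂ :=
  ∑' n : ℕ, (c n : ℂ) * Real.exp (-Real.pi * n * t)

private theorem hasSum_thc (c : ℕ → ℤ)
    (hsum : ∀ σ : ℝ, 3 / 2 < σ → Summable fun n : ℕ ↦ |(c n : ℝ)| * (n : ℝ) ^ (-σ)) (t : ℝ) (ht : 0 < t) :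
    HasSum (fun n : ℕ ↦ (c n : ℂ) * Real.exp (-Real.pi * n * t)) (thc c t) := by
  refine Summable.hasSum ?_
  refine Summable.of_norm_bounded (summable_exp c hsum t ht) ?_
  intro n
  rw [norm_mul, Complex.norm_real, Real.norm_eq_abs, abs_of_pos (Real.exp_pos _), Complex.norm_intCast]

private theorem continuousOn_thc (c : ℕ → ℤ)
    (hsum : ∀ σ : ℝ, 3 / 2 < σ → Summable fun n : ℕ ↦ |(c n : ℝ)| * (n : ℝ) ^ (-σ)) :
    ContinuousOn (thc c) (Set.Ioi 0) := by
  intro t ht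
  have ht0 : 0 < t := ht
  refine ContinuousAt.continuousWithinAt ?_
  have hc : ContinuousOn (thc c) (Set.Ioi (t / 2)) := by
    refine continuousOn_tsum (u := fun n : ℕ ↦ |(c n : ℝ)| * Real.exp (-Real.pi * n * (t / 2))) ?_
      (summable_exp c hsum (t / 2) (by positivity)) ?_
    · intro n
      refine Continuous.continuousOn ?_
      fun_prop
    · intro n x hx
      have hx' : t / 2 < x := hx
      rw [norm_mul, Complex.norm_real, Real.norm_eq_abs, abs_of_pos (Real.exp_pos _),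
        Complex.norm_intCast]
      refine mul_le_mul_of_nonneg_left (Real.exp_le_exp.2 ?_) (abs_nonneg _)
      have h1 : 0 ≤ Real.pi * n := by positivity
      nlinarith
  exact hc.continuousAt (Ioi_mem_nhds (by linarith))

private theorem isBigO_thc (c : ℕ → ℤ) (h0 : c 0 = 0)
    (hsum : ∀ σ : ℝ, 3 / 2 < σ → Summable fun n : ℕ ↦ |(c n : ℝ)| * (n : ℝ) ^ (-σ)) (r : ℝ) :
    thc c =O[Filter.atTop] (fun t : ℝ ↦ t ^ r) := by
  have h1 : thc c =O[Filter.atTop] (fun t : ℝ ↦ Real.exp (-(Real.pi / 2) * t)) := by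
    refine Asymptotics.IsBigO.of_bound (∑' n : ℕ, |(c n : ℝ)| * Real.exp (-Real.pi * n * (1 / 2))) ?_
    filter_upwards [Filter.eventually_ge_atTop 1] with t ht
    rw [Real.norm_eq_abs, abs_of_pos (Real.exp_pos _), ← tsum_mul_right]
    refine tsum_of_norm_bounded ((summable_exp c hsum (1 / 2) (by norm_num)).mul_right _).hasSum ?_
    intro n
    rw [norm_mul, Complex.norm_real, Real.norm_eq_abs, abs_of_pos (Real.exp_pos _),
      Complex.norm_intCast]
    rcases Nat.eq_zero_or_pos n with rfl | hn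
    · rw [h0]
      simp
    · rw [mul_assoc |(c n : ℝ)|, ← Real.exp_add]
      refine mul_le_mul_of_nonneg_left (Real.exp_le_exp.2 ?_) (abs_nonneg _)
      have hn1 : (1 : ℝ) ≤ n := by exact_mod_cast hn
      have h2 : (n : ℝ) / 2 + t / 2 ≤ n * t := by nlinarith
      have h3 := mul_le_mul_of_nonneg_left h2 Real.pi_pos.le
      linarith
  exact h1.trans (isLittleO_exp_neg_mul_rpow_atTop (by positivity) r).isBigO

private theorem cst (A : ℝ) (hA : 0 < A) (s : ℂ) :
    (A : ℂ) ^ (-(1 / 4) : ℂ) * (Real.pi : ℂ) ^ (1 / 2 : ℂ) *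
      ((A : ℂ) ^ ((s + 1 / 2) / 2) * (Real.pi : ℂ) ^ (-(s + 1 / 2))) =
      ((4 * A : ℝ) : ℂ) ^ (s / 2) * (2 * (Real.pi : ℂ)) ^ (-s) := by
  have hp : 0 < Real.pi := Real.pi_pos
  have h1 : (A : ℂ) ≠ 0 := by exact_mod_cast hA.ne'
  have h2 : (Real.pi : ℂ) ≠ 0 := by exact_mod_cast hp.ne'
  have h3 : ((4 * A : ℝ) : ℂ) ≠ 0 := by exact_mod_cast (by positivity : (4 * A : ℝ) ≠ 0)
  have h4 : (2 * (Real.pi : ℂ)) = ((2 * Real.pi : ℝ) : ℂ) := by push_cast; ring
  have h5 : ((2 * Real.pi : ℝ) : ℂ) ≠ 0 := by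
    exact_mod_cast (by positivity : (2 * Real.pi : ℝ) ≠ 0)
  have e1 : Complex.log (A : ℂ) = ((Real.log A : ℝ) : ℂ) := (Complex.ofReal_log hA.le).symm
  have e2 : Complex.log (Real.pi : ℂ) = ((Real.log Real.pi : ℝ) : ℂ) :=
    (Complex.ofReal_log hp.le).symm
  have e3 : Complex.log ((4 * A : ℝ) : ℂ) = ((2 * Real.log 2 + Real.log A : ℝ) : ℂ) := by
    rw [← Complex.ofReal_log (by positivity), Real.log_mul (by norm_num) hA.ne',
      show (4 : ℝ) = 2 ^ 2 by norm_num, Real.log_pow]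
    push_cast
    ring
  have e4 : Complex.log ((2 * Real.pi : ℝ) : ℂ) = ((Real.log 2 + Real.log Real.pi : ℝ) : ℂ) := by
    rw [← Complex.ofReal_log (by positivity), Real.log_mul (by norm_num) hp.ne']
  rw [h4, Complex.cpow_def_of_ne_zero h1, Complex.cpow_def_of_ne_zero h2,
    Complex.cpow_def_of_ne_zero h1, Complex.cpow_def_of_ne_zero h2,
    Complex.cpow_def_of_ne_zero h3, Complex.cpow_def_of_ne_zero h5, e1, e2, e3, e4]
  rw [← Complex.exp_add, ← Complex.exp_add, ← Complex.exp_add, ← Complex.exp_add]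
  congr 1
  push_cast
  ring

/-- The completed L-function of a sequence of coefficients with a functional equation of the
theta function. -/
theorem exists_completed (C : ℕ) (hC : 0 < C) (w : ℤ) (hw : w ^ 2 = 1) (c : ℕ → ℤ) (h0 : c 0 = 0)
    (hsum : ∀ σ : ℝ, 3 / 2 < σ → Summable fun n : ℕ ↦ |(c n : ℝ)| * (n : ℝ) ^ (-σ))
    (hfe : ∀ y : ℝ, 0 < y → ∑' n : ℕ, (c n : ℝ) * Real.exp (-2 * Real.pi * n / (y * Real.sqrt C)) =
      w * y ^ 2 * ∑' n : ℕ, (c n : ℝ) * Real.exp (-2 * Real.pi * n * y / Real.sqrt C)) :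
    ∃ Λ : ℂ → ℂ, Differentiable ℂ Λ ∧
      (∀ s : ℂ, 1 < s.re → LSeriesSummable (fun n ↦ (c n : ℂ)) (s + 1 / 2) ∧
        Λ s = (C : ℂ) ^ (s / 2) * (2 * (Real.pi : ℂ)) ^ (-s) *
          Complex.Gamma (s + 1 / 2) * LSeries (fun n ↦ (c n : ℂ)) (s + 1 / 2)) ∧
      ∀ s : ℂ, Λ s = w * Λ (1 - s) := by
  have hC0 : (0 : ℝ) < C := by exact_mod_cast hC
  set A : ℝ := (C : ℝ) / 4 with hAdef
  have hA0 : 0 < A := by positivity
  have hw' : ((w : ℤ) : ℂ) ^ 2 = 1 := by exact_mod_cast hw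
  have hreal : ∀ t : ℝ, thc c t = ((∑' n : ℕ, (c n : ℝ) * Real.exp (-Real.pi * n * t) : ℝ) : ℂ) := by
    intro t
    rw [thc, Complex.ofReal_tsum]
    refine tsum_congr fun n ↦ ?_
    push_cast
    ring
  have hsqrt : Real.sqrt C * Real.sqrt C = C := Real.mul_self_sqrt hC0.le
  have hsq0 : 0 < Real.sqrt C := Real.sqrt_pos.2 hC0
  have hfe' : ∀ t : ℝ, 0 < t → thc c t = (w : ℂ) / ((A : ℂ) * (t : ℂ) ^ 2) * thc c (1 / (A * t)) := by
    intro t ht
    have hy : 0 < 2 / (t * Real.sqrt C) := by positivity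
    have h1 := hfe _ hy
    have e1 : ∀ n : ℕ, -2 * Real.pi * n / (2 / (t * Real.sqrt C) * Real.sqrt C) = -Real.pi * n * t := by
      intro n
      field_simp
    have e2 : ∀ n : ℕ, -2 * Real.pi * n * (2 / (t * Real.sqrt C)) / Real.sqrt C =
        -Real.pi * n * (1 / (A * t)) := by
      intro n
      rw [hAdef]
      have : -2 * Real.pi * n * (2 / (t * Real.sqrt C)) / Real.sqrt C =
          -4 * Real.pi * n / (t * (Real.sqrt C * Real.sqrt C)) := by
        field_simp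
        ring
      rw [this, hsqrt]
      field_simp
    simp only [e1, e2] at h1
    rw [hreal, hreal, h1]
    have e3 : (2 / (t * Real.sqrt C)) ^ 2 = 1 / (A * t ^ 2) := by
      rw [hAdef, div_pow, mul_pow, sq (Real.sqrt C), hsqrt]
      field_simp
      ring
    rw [e3]
    push_cast
    ring
  obtain ⟨hD, hF⟩ := PTR.exists_entire (thc c) A hA0 ((w : ℤ) : ℂ) hw'
    (continuousOn_thc c hsum) (isBigO_thc c h0 hsum) hfe'
  set k : ℂ := (A : ℂ) ^ (-(1 / 4) : ℂ) * (Real.pi : ℂ) ^ (1 / 2 : ℂ) with hk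
  have hA' : (A : ℂ) ≠ 0 := by exact_mod_cast hA0.ne'
  refine ⟨fun s ↦ k * ((A : ℂ) ^ ((s + 1 / 2) / 2) * mellin (thc c) (s + 1 / 2)), ?_, ?_, ?_⟩
  · refine Differentiable.const_mul ?_ _
    refine Differentiable.mul ?_ ?_
    · exact Differentiable.const_cpow (by fun_prop) (Or.inl hA')
    · exact hD.comp (by fun_prop : Differentiable ℂ (fun s : ℂ ↦ s + 1 / 2))
  · intro s hs1
    have hre : (s + 1 / 2).re = s.re + 1 / 2 := by
      rw [Complex.add_re]
      norm_num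
    have hs2 : 3 / 2 < (s + 1 / 2).re := by
      rw [hre]
      linarith
    have hS0 := hsum _ hs2
    have hS1 : Summable fun n : ℕ ↦ ‖(c n : ℂ)‖ / (n : ℝ) ^ (s + 1 / 2).re := by
      refine hS0.congr fun n ↦ ?_
      rw [Complex.norm_intCast, Real.rpow_neg (Nat.cast_nonneg n)]
      exact (div_eq_mul_inv _ _).symm
    have hmel := hasSum_mellin_pi_mul (a := fun n : ℕ ↦ (c n : ℂ)) (q := fun n : ℕ ↦ (n : ℝ))
      (F := thc c) (s := s + 1 / 2) (by
        intro n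
        rcases Nat.eq_zero_or_pos n with rfl | hn
        · left
          rw [h0, Int.cast_zero]
        · right
          exact_mod_cast hn) (by linarith) (by
        intro t ht
        exact hasSum_thc c hsum t ht) hS1
    have hS : LSeriesSummable (fun n ↦ (c n : ℂ)) (s + 1 / 2) := by
      refine Summable.of_norm_bounded hS1 ?_
      intro n
      rcases Nat.eq_zero_or_pos n with rfl | hn
      · rw [LSeries.term_zero, norm_zero]
        positivity
      · rw [LSeries.norm_term_eq, if_neg hn.ne']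
    refine ⟨hS, ?_⟩
    have heq : mellin (thc c) (s + 1 / 2) =
        (Real.pi : ℂ) ^ (-(s + 1 / 2)) * Complex.Gamma (s + 1 / 2) *
          LSeries (fun n ↦ (c n : ℂ)) (s + 1 / 2) := by
      refine hmel.unique ?_
      have h5 := (hS.LSeriesHasSum.mul_left
        ((Real.pi : ℂ) ^ (-(s + 1 / 2)) * Complex.Gamma (s + 1 / 2)))
      refine h5.congr_fun ?_
      intro n
      rcases Nat.eq_zero_or_pos n with rfl | hn
      · rw [LSeries.term_zero, h0]
        simp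
      · rw [LSeries.term_of_ne_zero hn.ne']
        push_cast
        ring
    have hcst := cst A hA0 s
    have h4A : ((C : ℕ) : ℂ) = ((4 * A : ℝ) : ℂ) := by
      rw [hAdef]
      push_cast
      ring
    dsimp only
    rw [heq, h4A, ← hcst, ← hk]
    ring
  · intro s
    dsimp only
    have h := hF (s + 1 / 2)
    have h2 : (2 : ℂ) - (s + 1 / 2) = 1 - s + 1 / 2 := by ring
    rw [h2] at h
    rw [h]
    ring

private theorem w_sq (D : ℤ) : w D ^ 2 = 1 := by
  unfold w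
  split_ifs <;> norm_num

private theorem cond_pos (D : ℤ) (hD : Squarefree D) : 0 < cond D := by
  have h1 : 0 < D.natAbs := Int.natAbs_pos.2 hD.ne_zero
  unfold cond
  split_ifs <;> positivity

/-- The functional equation of the L-function of `E D`. -/
theorem hasFE' (hrec : a 1 = 1 ∧ ∀ q n : ℕ, q.Prime → 0 < n →
      a (q * n) = a q * a n - (if q ∣ 6 then 0 else (q : ℤ)) * (if q ∣ n then a (n / q) else 0))
    (ha2 : a 2 = 0) (ha3 : a 3 = -1)
    (ha : ∀ q : ℕ, q.Prime → ¬ q ∣ 6 → a q = (q : ℤ) - cnt q)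
    (hsum : ∀ σ : ℝ, 3 / 2 < σ → Summable fun n : ℕ ↦ |(a n : ℝ)| * (n : ℝ) ^ (-σ))
    (D : ℤ) (hD : Squarefree D)
    (hfe : ∀ y : ℝ, 0 < y →
      ∑' n : ℕ, (A D n : ℝ) * Real.exp (-2 * Real.pi * n / (y * Real.sqrt (cond D))) =
      w D * y ^ 2 * ∑' n : ℕ, (A D n : ℝ) * Real.exp (-2 * Real.pi * n * y / Real.sqrt (cond D))) :
    HasFE (E D) (cond D) (w D) := by
  have h0 : A D 0 = 0 := by
    rw [A, a, if_neg (by decide), mul_zero]
  have hsumA : ∀ σ : ℝ, 3 / 2 < σ → Summable fun n : ℕ ↦ |(A D n : ℝ)| * (n : ℝ) ^ (-σ) := by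
    intro σ hσ
    refine Summable.of_nonneg_of_le (fun n ↦ by positivity) (fun n ↦ ?_) (hsum σ hσ)
    refine mul_le_mul_of_nonneg_right ?_ (by positivity)
    rw [A]
    push_cast
    rw [abs_mul]
    rcases jacobiSym.trichotomy D n with h | h | h <;> rw [h] <;> simp
  obtain ⟨Λ, h1, h2, h3⟩ := exists_completed (cond D) (cond_pos D hD) (w D) (w_sq D) (A D) h0 hsumA hfe
  have hLF : ∀ n : ℕ, (E D).LFunction n = A D n := LFunction_E' hrec ha2 ha3 ha D hD
  have hfun : (fun n ↦ ((E D).LFunction n : ℂ)) = fun n ↦ (A D n : ℂ) := by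
    funext n
    rw [hLF n]
  refine ⟨Λ, h1, ?_, h3⟩
  intro s hs
  obtain ⟨h4, h5⟩ := h2 s hs
  have hLS : (E D).LSeries (s + 1 / 2) = LSeries (fun n ↦ (A D n : ℂ)) (s + 1 / 2) := by
    rw [← hfun]
    rfl
  rw [hfun, hLS]
  exact ⟨h4, h5⟩

end Pool.Agent.NC
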