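import Pool.Agent.NC.Size

/-!
# Modularity: `a p = p - cnt p`

The two formal identities `th_H`, `G_sq` are hypotheses here (they are proved in the part of
helper90).
-/

namespace Pool.Agent.NC

open scoped BigOperators PowerSeries
open PowerSeries (coeff X)

/-- The two formal identities. -/
structure Param : Prop where
  th_H : th H - H = G * H
  G_sq : G ^ 2 * H = P ^ 2 * (H + 8 * X) * (H + 9 * X)

/-- The polynomial `T (T - 1) (T - 9)`. -/
noncomputable def cub (R : Type*) [CommRing R] : Polynomial R :=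
  Polynomial.X * (Polynomial.X - 1) * (Polynomial.X - 9)

/- MODULE MO1 -/
/-- The constant coefficients: `P`, `H`, `eul` have `1`, `G` has `-1`. PROOF:
`PowerSeries.constantCoeff_expand`, `pentagonal 0 = 0`, `PowerSeries.constantCoeff_invOfUnit`. -/
theorem const_eul : PowerSeries.constantCoeff eul = 1 := by
  have h := PowerSeries.coeff_pentagonalSeries_pentagonal ℤ 0
  have h0 : pentagonal 0 = 0 := by rw [pentagonal_def]; simp
  rw [h0, PowerSeries.coeff_zero_eq_constantCoeff_apply] at h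
  rw [eul, h]
  simp
theorem const_P : PowerSeries.constantCoeff P = 1 := by
  simp only [P, e2, e3, e6, map_mul, PowerSeries.constantCoeff_expand, const_eul, mul_one]
theorem const_H : PowerSeries.constantCoeff H = 1 := by
  simp only [H, e2, e3, e6, map_mul, map_pow, PowerSeries.constantCoeff_expand, const_eul, mul_one,
    one_pow, PowerSeries.constantCoeff_invOfUnit, inv_one, Units.val_one]
theorem const_G : PowerSeries.constantCoeff G = -1 := by
  rw [← PowerSeries.coeff_zero_eq_constantCoeff_apply, G, PowerSeries.coeff_mk, if_pos rfl]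

/-- The series `Y` (`y = q^(-3/2) Y`), and `Z` (`x = q⁻¹ Z`). -/
noncomputable def Y : ℤ⟦X⟧ := G * H * PowerSeries.invOfUnit P 1
noncomputable def Z : ℤ⟦X⟧ := H + 9 * X

/-- PROOF: `P * invOfUnit P 1 = 1` (`PowerSeries.mul_invOfUnit`), `Param`. -/
theorem Y_sq (hP : Param) : P * Y = th Z - Z ∧ Y ^ 2 = Z * (Z - X) * (Z - 9 * X) := by
  have hinv : P * PowerSeries.invOfUnit P 1 = 1 :=
    PowerSeries.mul_invOfUnit P 1 (by rw [const_P, Units.val_one])
  have h1 := hP.th_H
  have h2 := hP.G_sq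
  have hthX : th (9 * X) = 9 * X := by
    have h9 : (9 : ℤ⟦X⟧) = PowerSeries.C (9 : ℤ) := by simp
    rw [th, h9, Derivation.leibniz, PowerSeries.derivative_C, PowerSeries.derivative_X]
    simp only [smul_eq_mul]
    ring
  have hthZ : th Z = th H + 9 * X := by
    have : th Z = th H + th (9 * X) := by
      simp only [th, Z, map_add]
      ring
    rw [this, hthX]
  refine ⟨?_, ?_⟩
  · rw [hthZ]
    calc P * Y = G * H * (P * PowerSeries.invOfUnit P 1) := by rw [Y]; ring
      _ = G * H := by rw [hinv, mul_one]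
      _ = _ := by rw [← h1, Z]; ring
  · calc Y ^ 2 = (G ^ 2 * H) * H * PowerSeries.invOfUnit P 1 ^ 2 := by rw [Y]; ring
      _ = (P * PowerSeries.invOfUnit P 1) ^ 2 * ((H + 8 * X) * (H + 9 * X) * H) := by
        rw [h2]; ring
      _ = _ := by rw [hinv, Z]; ring

theorem const_Y : PowerSeries.constantCoeff Y = -1 := by
  simp only [Y, map_mul, const_G, const_H, PowerSeries.constantCoeff_invOfUnit, inv_one,
    Units.val_one, mul_one]
theorem const_Z : PowerSeries.constantCoeff Z = 1 := by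
  simp only [Z, map_add, map_mul, const_H, PowerSeries.constantCoeff_X, mul_zero, add_zero]
/- END MO1 -/

/- MODULE MO2 -/
private theorem mo2_step (q : Polynomial ℤ) (N : ℕ) (a : ℤ) (hq : q.natDegree ≤ N) :
    ∑ k ∈ Finset.range (N + 1 + 1), PowerSeries.C ((q * (Polynomial.X - Polynomial.C a)).coeff k) *
        (X : ℤ⟦X⟧) ^ (N + 1 - k) * Z ^ k =
      (∑ k ∈ Finset.range (N + 1), PowerSeries.C (q.coeff k) * X ^ (N - k) * Z ^ k) *
        (Z - PowerSeries.C a * X) := by
  have hc : ∀ k, (q * (Polynomial.X - Polynomial.C a)).coeff k =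
      (q * Polynomial.X).coeff k - q.coeff k * a := by
    intro k
    rw [mul_sub, Polynomial.coeff_sub, Polynomial.coeff_mul_C]
  have hs : ∑ k ∈ Finset.range (N + 1 + 1),
      PowerSeries.C ((q * (Polynomial.X - Polynomial.C a)).coeff k) *
        (X : ℤ⟦X⟧) ^ (N + 1 - k) * Z ^ k =
      ∑ k ∈ Finset.range (N + 1 + 1), PowerSeries.C ((q * Polynomial.X).coeff k) *
        (X : ℤ⟦X⟧) ^ (N + 1 - k) * Z ^ k -
      ∑ k ∈ Finset.range (N + 1 + 1), PowerSeries.C (q.coeff k) * PowerSeries.C a *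
        (X : ℤ⟦X⟧) ^ (N + 1 - k) * Z ^ k := by
    rw [← Finset.sum_sub_distrib]
    refine Finset.sum_congr rfl fun k _ ↦ ?_
    rw [hc, map_sub, map_mul]
    ring
  rw [hs]
  have h1 : ∑ k ∈ Finset.range (N + 1 + 1), PowerSeries.C ((q * Polynomial.X).coeff k) *
        (X : ℤ⟦X⟧) ^ (N + 1 - k) * Z ^ k =
      (∑ k ∈ Finset.range (N + 1), PowerSeries.C (q.coeff k) * X ^ (N - k) * Z ^ k) * Z := by
    rw [Finset.sum_range_succ', Polynomial.mul_coeff_zero, Polynomial.coeff_X_zero, mul_zero,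
      map_zero, zero_mul, zero_mul, add_zero, Finset.sum_mul]
    refine Finset.sum_congr rfl fun k _ ↦ ?_
    rw [Polynomial.coeff_mul_X, Nat.add_sub_add_right]
    ring
  have h2 : ∑ k ∈ Finset.range (N + 1 + 1), PowerSeries.C (q.coeff k) * PowerSeries.C a *
        (X : ℤ⟦X⟧) ^ (N + 1 - k) * Z ^ k =
      (∑ k ∈ Finset.range (N + 1), PowerSeries.C (q.coeff k) * X ^ (N - k) * Z ^ k) *
        (PowerSeries.C a * X) := by
    rw [Finset.sum_range_succ, Polynomial.coeff_eq_zero_of_natDegree_lt (by omega), map_zero,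
      zero_mul, zero_mul, zero_mul, add_zero, Finset.sum_mul]
    refine Finset.sum_congr rfl fun k hk ↦ ?_
    have hk' : N + 1 - k = (N - k) + 1 := by
      have := Finset.mem_range.1 hk
      omega
    rw [hk', pow_succ]
    ring
  rw [h1, h2]
  ring

private theorem mo2_deg (m : ℕ) : (cub ℤ ^ m).natDegree ≤ 3 * m := by
  refine (Polynomial.natDegree_pow_le).trans ?_
  have h : (cub ℤ).natDegree ≤ 3 := by
    rw [cub]
    compute_degree
  calc m * (cub ℤ).natDegree ≤ m * 3 := Nat.mul_le_mul_left m h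
    _ = 3 * m := by ring

private theorem mo2_cub (m : ℕ) :
    ∑ k ∈ Finset.range (3 * m + 1), PowerSeries.C ((cub ℤ ^ m).coeff k) *
      (X : ℤ⟦X⟧) ^ (3 * m - k) * Z ^ k = (Z * (Z - X) * (Z - 9 * X)) ^ m := by
  induction m with
  | zero => simp
  | succ m ih =>
    have hdeg := mo2_deg m
    have e0 : cub ℤ ^ (m + 1) = cub ℤ ^ m * (Polynomial.X - Polynomial.C 0) *
        (Polynomial.X - Polynomial.C 1) * (Polynomial.X - Polynomial.C 9) := by
      rw [pow_succ, cub]
      have h9 : (9 : Polynomial ℤ) = Polynomial.C 9 := by simp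
      rw [h9, map_zero, map_one]
      ring
    have d1 : (cub ℤ ^ m * (Polynomial.X - Polynomial.C 0)).natDegree ≤ 3 * m + 1 := by
      refine (Polynomial.natDegree_mul_le).trans ?_
      have := Polynomial.natDegree_X_sub_C (R := ℤ) 0
      omega
    have d2 : (cub ℤ ^ m * (Polynomial.X - Polynomial.C 0) *
        (Polynomial.X - Polynomial.C 1)).natDegree ≤ 3 * m + 1 + 1 := by
      refine (Polynomial.natDegree_mul_le).trans ?_
      have := Polynomial.natDegree_X_sub_C (R := ℤ) 1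
      omega
    have s1 := mo2_step (cub ℤ ^ m) (3 * m) 0 hdeg
    have s2 := mo2_step _ (3 * m + 1) 1 d1
    have s3 := mo2_step _ (3 * m + 1 + 1) 9 d2
    have e3 : 3 * (m + 1) = 3 * m + 1 + 1 + 1 := by ring
    rw [e0, e3, s3, s2, s1, ih, pow_succ]
    have h9 : (PowerSeries.C (9 : ℤ) : ℤ⟦X⟧) = 9 := by simp
    rw [h9, map_zero, map_one]
    ring

/-- PROOF: `p = 2m + 1`; `(Y^2)^m = (Z (Z-X) (Z-9X))^m = ∑ c_k X^(3m-k) Z^k` (homogenisation of
`cub^m`: `Polynomial.sum` / `Finset.range (3m+1)`, `c_k = (cub ℤ ^ m).coeff k`, the homogeneous form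
of a product is the product of the homogeneous forms; for instance evaluate
`∑_k c_k X^(3m-k) Z^k` by induction on `m`, or use `Polynomial.eval₂` with `Z/X` in the Laurent
series), and `P Y^p = (P Y)(Y^2)^m`. -/
theorem key_formal (hP : Param) (m : ℕ) :
    P * Y ^ (2 * m + 1) = (th Z - Z) *
      ∑ k ∈ Finset.range (3 * m + 1), PowerSeries.C ((cub ℤ ^ m).coeff k) * X ^ (3 * m - k) * Z ^ k := by
  obtain ⟨h1, h2⟩ := Y_sq hP
  have e : P * Y ^ (2 * m + 1) = (P * Y) * (Y ^ 2) ^ m := by ring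
  rw [e, h1, h2]
  congr 1
  exact (mo2_cub m).symm
/- END MO2 -/

/- MODULE MO3 -/
/-- PROOF: modulo `p` the map `φ ↦ φ^p` is `φ(X) ↦ φ(X^p)`: map to `(ZMod p)⟦X⟧`
(`PowerSeries.map (Int.castRingHom (ZMod p))`, a `CharP` ring): the coefficients of `Y^p` at
`0 < n < p` are divisible by `p` (`Y = C (-1) + X * Y'`, `add_pow_char`), and at `0` it is
`(-1)^p`, so `coeff m (P * Y^p) = - coeff m P = - a p` modulo `p`, for `m = (p-1)/2 < p`. -/
theorem coeff_left (p m : ℕ) (hp : p.Prime) (hm : p = 2 * m + 1) :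
    (p : ℤ) ∣ coeff m (P * Y ^ p) + a p := by
  have : Fact p.Prime := ⟨hp⟩
  have : CharP (ZMod p)⟦X⟧ p := charP_of_injective_ringHom (PowerSeries.C_injective) p
  have hodd : Odd p := ⟨m, hm⟩
  have ha : a p = coeff m P := by
    rw [a, if_pos hodd]
    congr 2
    omega
  have hmp : ¬ p ≤ m := by omega
  set φ := PowerSeries.map (Int.castRingHom (ZMod p)) with hφ
  have h1 : φ Y ^ p = X ^ p * (PowerSeries.mk fun q ↦ coeff (q + 1) (φ Y)) ^ p - 1 := by
    have h := PowerSeries.eq_X_mul_shift_add_const (φ Y)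
    have hc : PowerSeries.constantCoeff (φ Y) = -1 := by
      rw [hφ, ← PowerSeries.coeff_zero_eq_constantCoeff_apply, PowerSeries.coeff_map,
        PowerSeries.coeff_zero_eq_constantCoeff_apply, const_Y]
      simp
    rw [hc] at h
    calc φ Y ^ p = (X * (PowerSeries.mk fun q ↦ coeff (q + 1) (φ Y)) +
        PowerSeries.C (-1)) ^ p := by rw [← h]
      _ = _ := by
        rw [add_pow_char, mul_pow, ← map_pow, hodd.neg_one_pow, map_neg, map_one, sub_eq_add_neg]
  have h2 : coeff m (φ (P * Y ^ p)) = - coeff m (φ P) := by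
    rw [map_mul, map_pow, h1, mul_sub, mul_one, map_sub]
    have e : φ P * (X ^ p * (PowerSeries.mk fun q ↦ coeff (q + 1) (φ Y)) ^ p) =
        X ^ p * (φ P * (PowerSeries.mk fun q ↦ coeff (q + 1) (φ Y)) ^ p) := by ring
    rw [e, PowerSeries.coeff_X_pow_mul', if_neg hmp, zero_sub]
  rw [← ZMod.intCast_zmod_eq_zero_iff_dvd, ha]
  rw [hφ, PowerSeries.coeff_map, PowerSeries.coeff_map] at h2
  simp only [eq_intCast] at h2
  rw [Int.cast_add, h2]
  ring
/- END MO3 -/

/- MODULE MO4 -/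
private theorem mo4_th (φ : ℤ⟦X⟧) (j : ℕ) : coeff j (th φ) = (j : ℤ) * coeff j φ := by
  rw [th]
  cases j with
  | zero => simp
  | succ j =>
    rw [PowerSeries.coeff_succ_X_mul, PowerSeries.coeff_derivative]
    push_cast
    ring

/-- PROOF: `(k + 1) (th Z - Z) Z^k = th (Z^(k+1)) - (k+1) Z^(k+1)` (derivation), and the coefficient
of `th φ` at `j` is `j * coeff j φ`. So
`(k+1) coeff j ((th Z - Z) Z^k) = (j - k - 1) coeff j (Z^(k+1))`. -/
theorem coeff_thZ (k j : ℕ) : ((k : ℤ) + 1) * coeff j ((th Z - Z) * Z ^ k) =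
    ((j : ℤ) - k - 1) * coeff j (Z ^ (k + 1)) := by
  have h1 : th (Z ^ (k + 1)) = ((k : ℤ⟦X⟧) + 1) * (th Z * Z ^ k) := by
    rw [th, th, PowerSeries.derivative_pow]
    rw [Nat.add_sub_cancel]
    push_cast
    ring
  have h2 : ((k : ℤ⟦X⟧) + 1) * ((th Z - Z) * Z ^ k) =
      th (Z ^ (k + 1)) - ((k : ℤ⟦X⟧) + 1) * Z ^ (k + 1) := by
    rw [h1]
    ring
  have h3 : ((k : ℤ⟦X⟧) + 1) = PowerSeries.C ((k : ℤ) + 1) := by simp
  have h4 := congrArg (coeff j) h2
  rw [h3, map_sub, PowerSeries.coeff_C_mul, PowerSeries.coeff_C_mul, mo4_th] at h4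
  rw [h4]
  ring

private theorem mo4_zero (k : ℕ) : coeff 0 ((th Z - Z) * Z ^ k) = -1 := by
  have h := mo4_th Z 0
  rw [Nat.cast_zero, zero_mul, PowerSeries.coeff_zero_eq_constantCoeff_apply] at h
  rw [PowerSeries.coeff_zero_eq_constantCoeff_apply, map_mul, map_sub, map_pow, h, const_Z]
  simp

private theorem mo4_dvd (p m j : ℕ) (hp : p.Prime) (hm : p = 2 * m + 1) (hj : 1 ≤ j) (hjm : j ≤ m) :
    (p : ℤ) ∣ coeff j ((th Z - Z) * Z ^ (2 * m + j)) := by
  have h := coeff_thZ (2 * m + j) j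
  have hpi : Prime (p : ℤ) := Nat.prime_iff_prime_int.1 hp
  have h1 : (p : ℤ) ∣ (((2 * m + j : ℕ) : ℤ) + 1) * coeff j ((th Z - Z) * Z ^ (2 * m + j)) := by
    rw [h]
    refine Dvd.dvd.mul_right ⟨-1, ?_⟩ _
    rw [hm]
    push_cast
    ring
  rcases hpi.dvd_or_dvd h1 with h2 | h2
  · exfalso
    have h3 : p ∣ (2 * m + j + 1) := by exact_mod_cast h2
    have h4 : p ∣ j := by
      have e : 2 * m + j + 1 = p + j := by omega
      rw [e] at h3
      exact (Nat.dvd_add_right (dvd_refl p)).1 h3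
    have := Nat.le_of_dvd (by omega) h4
    omega
  · exact h2

/-- PROOF: the coefficient of `X^m` in `(th Z - Z) * C c * X^(3m-k) * Z^k` is
`c * coeff (k - 2m) ((th Z - Z) Z^k)` for `2m ≤ k` and `0` for `k < 2m` (`PowerSeries.coeff_X_pow_mul'`);
`k = 2m`: `coeff 0 = -1`; `k = 2m + j`, `1 ≤ j ≤ m`: by `coeff_thZ`
`(p + j) coeff j = - p coeff j (Z^(k+1))` (`j - k - 1 = -p`), and `p ∤ p + j`. -/
theorem coeff_right (p m : ℕ) (hp : p.Prime) (hm : p = 2 * m + 1) :
    (p : ℤ) ∣ coeff m ((th Z - Z) * ∑ k ∈ Finset.range (3 * m + 1),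
      PowerSeries.C ((cub ℤ ^ m).coeff k) * X ^ (3 * m - k) * Z ^ k) + (cub ℤ ^ m).coeff (2 * m) := by
  have h0 : (cub ℤ ^ m).coeff (2 * m) =
      ∑ k ∈ Finset.range (3 * m + 1), if k = 2 * m then (cub ℤ ^ m).coeff k else 0 := by
    rw [Finset.sum_ite_eq' (Finset.range (3 * m + 1)) (2 * m) fun k ↦ (cub ℤ ^ m).coeff k,
      if_pos (Finset.mem_range.2 (by omega))]
  rw [Finset.mul_sum, map_sum, h0, ← Finset.sum_add_distrib]
  refine Finset.dvd_sum fun k hk ↦ ?_
  have hk' : k ≤ 3 * m := by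
    have := Finset.mem_range.1 hk
    omega
  have e : (th Z - Z) * (PowerSeries.C ((cub ℤ ^ m).coeff k) * X ^ (3 * m - k) * Z ^ k) =
      PowerSeries.C ((cub ℤ ^ m).coeff k) * (X ^ (3 * m - k) * ((th Z - Z) * Z ^ k)) := by ring
  rw [e, PowerSeries.coeff_C_mul, PowerSeries.coeff_X_pow_mul']
  rcases lt_trichotomy k (2 * m) with hlt | heq | hgt
  · rw [if_neg (by omega), if_neg (by omega)]
    simp
  · rw [if_pos (by omega), if_pos heq]
    have e1 : m - (3 * m - k) = 0 := by omega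
    rw [e1, mo4_zero]
    simp
  · rw [if_pos (by omega), if_neg (by omega), add_zero]
    obtain ⟨j, rfl⟩ : ∃ j, k = 2 * m + j := ⟨k - 2 * m, by omega⟩
    have e1 : m - (3 * m - (2 * m + j)) = j := by omega
    rw [e1]
    exact (mo4_dvd p m j hp hm (by omega) (by omega)).mul_left _
/- END MO4 -/

/- MODULE MO5 -/
private theorem MO5_powsum (p m k : ℕ) [Fact p.Prime] (hm : p = 2 * m + 1) (h0 : 0 < m)
    (hk : k < 4 * m) : ∑ x : ZMod p, x ^ k = if k = 2 * m then -1 else 0 := by
  have hc : Fintype.card (ZMod p) = p := ZMod.card p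
  rcases Nat.lt_trichotomy k (2 * m) with h | h | h
  · rw [if_neg (by omega)]
    apply FiniteField.sum_pow_lt_card_sub_one
    rw [hc]; omega
  · rw [if_pos h]
    have h1 : ∀ x : ZMod p, x ^ k = 1 - (if x = 0 then 1 else 0) := by
      intro x
      by_cases hx : x = 0
      · rw [hx, if_pos rfl, zero_pow (by omega), sub_self]
      · rw [if_neg hx, sub_zero, h, show 2 * m = p - 1 by omega]
        exact ZMod.pow_card_sub_one_eq_one hx
    rw [Finset.sum_congr rfl fun x _ => h1 x, Finset.sum_sub_distrib, Finset.sum_const,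
      Finset.card_univ, hc, Finset.sum_ite_eq' Finset.univ (0 : ZMod p) (fun _ => (1 : ZMod p)),
      if_pos (Finset.mem_univ _)]
    simp
  · rw [if_neg (by omega)]
    have h1 : ∀ x : ZMod p, x ^ k = x ^ (k - 2 * m) := by
      intro x
      by_cases hx : x = 0
      · rw [hx, zero_pow (by omega), zero_pow (by omega)]
      · have h2 : x ^ k = x ^ (k - 2 * m) * x ^ (p - 1) := by
          rw [← pow_add]; congr 1; omega
        rw [h2, ZMod.pow_card_sub_one_eq_one hx, mul_one]
    rw [Finset.sum_congr rfl fun x _ => h1 x]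
    apply FiniteField.sum_pow_lt_card_sub_one
    rw [hc]; omega

private theorem MO5_deg (m : ℕ) : (cub ℤ ^ m).natDegree ≤ 3 * m := by
  have h1 : (cub ℤ).natDegree ≤ 3 := by
    unfold cub
    have e1 : (Polynomial.X : Polynomial ℤ).natDegree ≤ 1 := Polynomial.natDegree_X_le
    have e2 : (Polynomial.X - 1 : Polynomial ℤ).natDegree ≤ 1 := by
      have := Polynomial.natDegree_X_sub_C_le (1 : ℤ)
      simpa using this
    have e3 : (Polynomial.X - 9 : Polynomial ℤ).natDegree ≤ 1 := by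
      have := Polynomial.natDegree_X_sub_C_le (9 : ℤ)
      exact this
    exact (Polynomial.natDegree_mul_le_of_le (Polynomial.natDegree_mul_le_of_le e1 e2) e3)
  calc (cub ℤ ^ m).natDegree ≤ m * (cub ℤ).natDegree := Polynomial.natDegree_pow_le
    _ ≤ m * 3 := Nat.mul_le_mul_left _ h1
    _ = 3 * m := by ring

private theorem MO5_cnt (p : ℕ) [Fact p.Prime] (h2 : p ≠ 2) :
    (cnt p : ℤ) = ∑ x : ZMod p, (quadraticChar (ZMod p) (x * (x - 1) * (x - 9)) + 1) := by
  classical
  have hr : ringChar (ZMod p) ≠ 2 := by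
    rw [ZMod.ringChar_zmod_n]
    exact h2
  have h1 : cnt p = ∑ x : ZMod p, Nat.card {y : ZMod p // y ^ 2 = x * (x - 1) * (x - 9)} := by
    unfold cnt
    rw [← Nat.card_sigma]
    exact Nat.card_congr
      { toFun := fun P => ⟨P.1.1, P.1.2, P.2⟩
        invFun := fun P => ⟨(P.1, P.2.1), P.2.2⟩
        left_inv := fun P => rfl
        right_inv := fun P => rfl }
  rw [h1]
  push_cast
  refine Finset.sum_congr rfl fun x _ => ?_
  rw [← quadraticChar_card_sqrts hr]
  congr 1
  rw [Nat.card_eq_fintype_card, Set.toFinset_card]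
  exact Fintype.card_congr (Equiv.refl _)

/-- PROOF: `∑_(x : ZMod p) x^k = 0` unless `k > 0` and `(p-1) ∣ k`, then `-1`
(`FiniteField.sum_pow_lt_card_sub_one`, `FiniteField.sum_pow_units`; for `k = 0` it is `p = 0`). The
polynomial `cub^m` has degree `3m < 2 (p-1)` and no constant coefficient (`m > 0`). -/
theorem sum_cub (p m : ℕ) [Fact p.Prime] (hm : p = 2 * m + 1) (h0 : 0 < m) :
    ∑ x : ZMod p, (x * (x - 1) * (x - 9)) ^ m = -(((cub ℤ ^ m).coeff (2 * m) : ℤ) : ZMod p) := by
  have h1 : ∀ x : ZMod p, (x * (x - 1) * (x - 9)) ^ m =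
      ∑ k ∈ Finset.range (3 * m + 1), (((cub ℤ ^ m).coeff k : ℤ) : ZMod p) * x ^ k := by
    intro x
    have h2 : (x * (x - 1) * (x - 9)) ^ m =
        Polynomial.eval₂ (Int.castRingHom (ZMod p)) x (cub ℤ ^ m) := by
      rw [Polynomial.eval₂_pow]
      unfold cub
      rw [Polynomial.eval₂_mul, Polynomial.eval₂_mul, Polynomial.eval₂_sub, Polynomial.eval₂_sub,
        Polynomial.eval₂_X, Polynomial.eval₂_one]
      have h9 : Polynomial.eval₂ (Int.castRingHom (ZMod p)) x (9 : Polynomial ℤ) = 9 := by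
        have := Polynomial.eval₂_ofNat (Int.castRingHom (ZMod p)) (n := 9) x
        exact this
      rw [h9]
    rw [h2, Polynomial.eval₂_eq_sum_range' (Int.castRingHom (ZMod p))
      (Nat.lt_succ_of_le (MO5_deg m)) x]
    rfl
  rw [Finset.sum_congr rfl fun x _ => h1 x, Finset.sum_comm]
  have h2 : ∀ k ∈ Finset.range (3 * m + 1),
      ∑ x : ZMod p, (((cub ℤ ^ m).coeff k : ℤ) : ZMod p) * x ^ k =
      if k = 2 * m then -(((cub ℤ ^ m).coeff (2 * m) : ℤ) : ZMod p) else 0 := by
    intro k hk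
    rw [Finset.mem_range] at hk
    rw [← Finset.mul_sum, MO5_powsum p m k hm h0 (by omega)]
    by_cases h : k = 2 * m
    · rw [if_pos h, if_pos h, h, mul_neg, mul_one]
    · rw [if_neg h, if_neg h, mul_zero]
  rw [Finset.sum_congr rfl h2, Finset.sum_ite_eq' (Finset.range (3 * m + 1)) (2 * m),
    if_pos (Finset.mem_range.2 (by omega))]

/-- PROOF: for each `x` the number of `y` with `y² = c` is `1 + χ(c)`, `χ` the quadratic character
(`quadraticChar_card_sqrts`), and `χ(c) = c^((p-1)/2)` in `ZMod p` (`quadraticChar_eq_pow_of_char_ne_two'`). -/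
theorem cnt_cast (p m : ℕ) [Fact p.Prime] (hm : p = 2 * m + 1) (h0 : 0 < m) :
    (cnt p : ZMod p) = ∑ x : ZMod p, (x * (x - 1) * (x - 9)) ^ m := by
  have h2 : p ≠ 2 := by omega
  have hr : ringChar (ZMod p) ≠ 2 := by
    rw [ZMod.ringChar_zmod_n]
    exact h2
  have h1 := congrArg (Int.cast : ℤ → ZMod p) (MO5_cnt p h2)
  push_cast at h1
  rw [h1, Finset.sum_add_distrib]
  simp only [quadraticChar_eq_pow_of_char_ne_two' hr, ZMod.card, show p / 2 = m by omega]
  simp
/- END MO5 -/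

/- MODULE MO6 -/
/-- PROOF: `p - cnt p = - ∑_x χ(x (x-1)(x-9))`, three of the `p` terms are `0` (`0, 1, 9` are
different modulo `p`), the others `± 1`: at most `p - 3` in absolute value, and `p - 3` is even. -/
theorem cnt_size (p : ℕ) (hp : p.Prime) (h6 : ¬ p ∣ 6) :
    |(p : ℤ) - cnt p| ≤ p - 3 ∧ Even ((p : ℤ) - cnt p) := by
  classical
  have : Fact p.Prime := ⟨hp⟩
  have h2 : p ≠ 2 := by rintro rfl; exact h6 (by norm_num)
  have h3 : p ≠ 3 := by rintro rfl; exact h6 (by norm_num)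
  have hge := hp.two_le
  have hodd : p % 2 = 1 := by
    rcases hp.eq_two_or_odd with h | h
    · exact absurd h h2
    · exact h
  have h5 : 5 ≤ p := by omega
  obtain ⟨Z, hZ⟩ : ∃ Z : Finset (ZMod p), Z = {0, 1, 9} := ⟨_, rfl⟩
  have hcard : Z.card = 3 := by
    have n9 : (9 : ZMod p) ≠ 0 := by
      intro h
      have h' : ((9 : ℕ) : ZMod p) = 0 := by exact_mod_cast h
      rw [ZMod.natCast_eq_zero_iff] at h'
      have := (Nat.Prime.dvd_of_dvd_pow hp (show p ∣ 3 ^ 2 by norm_num; exact h'))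
      exact h3 ((Nat.prime_dvd_prime_iff_eq hp Nat.prime_three).1 this)
    have n8 : (1 : ZMod p) ≠ 9 := by
      intro h
      have h' : ((8 : ℕ) : ZMod p) = 0 := by
        have : (9 : ZMod p) - 1 = 0 := by rw [← h]; ring
        rw [← this]; norm_num
      rw [ZMod.natCast_eq_zero_iff] at h'
      have := (Nat.Prime.dvd_of_dvd_pow hp (show p ∣ 2 ^ 3 by norm_num; exact h'))
      exact h2 ((Nat.prime_dvd_prime_iff_eq hp Nat.prime_two).1 this)
    rw [hZ]
    rw [Finset.card_insert_of_notMem, Finset.card_insert_of_notMem, Finset.card_singleton]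
    · rw [Finset.mem_singleton]; exact n8
    · rw [Finset.mem_insert, Finset.mem_singleton, not_or]
      exact ⟨zero_ne_one, n9.symm⟩
  have hs : (p : ℤ) - cnt p = -∑ x : ZMod p, quadraticChar (ZMod p) (x * (x - 1) * (x - 9)) := by
    rw [MO5_cnt p h2, Finset.sum_add_distrib]
    simp
  have hz : ∑ x : ZMod p, quadraticChar (ZMod p) (x * (x - 1) * (x - 9)) =
      ∑ x ∈ Zᶜ, quadraticChar (ZMod p) (x * (x - 1) * (x - 9)) := by
    rw [← Finset.sum_add_sum_compl Z]
    have : ∑ x ∈ Z, quadraticChar (ZMod p) (x * (x - 1) * (x - 9)) = 0 := by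
      apply Finset.sum_eq_zero
      intro x hx
      rw [hZ, Finset.mem_insert, Finset.mem_insert, Finset.mem_singleton] at hx
      rcases hx with h | h | h <;> rw [h] <;> simp
    rw [this, zero_add]
  have hpm : ∀ x ∈ Zᶜ, quadraticChar (ZMod p) (x * (x - 1) * (x - 9)) = 1 ∨
      quadraticChar (ZMod p) (x * (x - 1) * (x - 9)) = -1 := by
    intro x hx
    rw [hZ, Finset.mem_compl, Finset.mem_insert, Finset.mem_insert, Finset.mem_singleton, not_or,
      not_or] at hx
    apply quadraticChar_dichotomy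
    exact mul_ne_zero (mul_ne_zero hx.1 (sub_ne_zero.2 hx.2.1)) (sub_ne_zero.2 hx.2.2)
  have hcc : ((Zᶜ).card : ℤ) = p - 3 := by
    have := Finset.card_compl Z
    rw [hcard, ZMod.card] at this
    rw [this]
    push_cast [Nat.cast_sub (show 3 ≤ p by omega)]
    ring
  rw [hs, abs_neg, hz]
  constructor
  · calc |∑ x ∈ Zᶜ, quadraticChar (ZMod p) (x * (x - 1) * (x - 9))|
        ≤ ∑ x ∈ Zᶜ, |quadraticChar (ZMod p) (x * (x - 1) * (x - 9))| :=
          Finset.abs_sum_le_sum_abs _ _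
      _ = ∑ x ∈ Zᶜ, 1 := by
          refine Finset.sum_congr rfl fun x hx => ?_
          rcases hpm x hx with h | h <;> rw [h] <;> norm_num
      _ = p - 3 := by
          rw [Finset.sum_const, nsmul_eq_mul, mul_one, hcc]
  · rw [even_neg, ← ZMod.intCast_eq_zero_iff_even]
    push_cast
    have h1 : ∑ x ∈ Zᶜ, ((quadraticChar (ZMod p) (x * (x - 1) * (x - 9)) : ℤ) : ZMod 2) =
        ∑ x ∈ Zᶜ, (1 : ZMod 2) := by
      refine Finset.sum_congr rfl fun x hx => ?_
      rcases hpm x hx with h | h <;> rw [h]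
      · rfl
      · decide
    rw [h1, Finset.sum_const, nsmul_eq_mul, mul_one]
    have h2' : ((Zᶜ).card : ZMod 2) = (((p : ℤ) - 3 : ℤ) : ZMod 2) := by
      rw [← hcc]; push_cast; rfl
    rw [h2', ZMod.intCast_eq_zero_iff_even]
    exact ⟨((p : ℤ) - 3) / 2, by omega⟩
/- END MO6 -/

/- MODULE MO7 -/
/-- The image in characteristic `2`. -/
noncomputable def r2 : ℤ⟦X⟧ →+* (ZMod 2)⟦X⟧ := PowerSeries.map (Int.castRingHom (ZMod 2))

private theorem MO7_th (φ : ℤ⟦X⟧) :
    r2 (th φ) = X * PowerSeries.derivative (ZMod 2) (r2 φ) := by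
  unfold th r2
  rw [map_mul, PowerSeries.map_X]
  congr 1
  ext n
  rw [PowerSeries.coeff_map, PowerSeries.coeff_derivative, PowerSeries.coeff_derivative,
    PowerSeries.coeff_map]
  simp

private theorem MO7_two (φ : (ZMod 2)⟦X⟧) : φ + φ = 0 := by
  ext n
  rw [map_add, map_zero]
  exact CharTwo.add_self_eq_zero _

/-- PROOF (all in `(ZMod 2)⟦X⟧`, squares are even series, `φ² = expand 2 φ`, derivatives of even
series vanish): `G² H = P² H (H + X)`, `H` is a unit (constant coefficient `1`), so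
`G² = P² (H + X)`; multiply by the square of the inverse of `P`: `H + X = (G P⁻¹)²` is even, so
`th H = th X = X`, and `th H = (1 + G) H`, so `(1 + G) H = X`. Then
`(1 + G)(H + X) = X + (1 + G) X = X G`, and `(1 + G) G² = P² (1 + G)(H + X) = P² X G`; cancel `G`
(a unit): `X P² = G + G²`. -/
theorem mod_two (hP : Param) : r2 X * r2 P ^ 2 = r2 G + r2 G ^ 2 := by
  have hX : r2 X = X := PowerSeries.map_X _
  have htwo : (2 : (ZMod 2)⟦X⟧) = 0 := by
    have := MO7_two 1
    rwa [one_add_one_eq_two] at this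
  have h8 : r2 (H + 8 * X) = r2 H := by
    rw [map_add, map_mul, hX]
    have : r2 8 = 0 := by
      have e : (8 : ℤ⟦X⟧) = 2 * 4 := by norm_num
      rw [e, map_mul, map_ofNat, htwo, zero_mul]
    rw [this, zero_mul, add_zero]
  have h9 : r2 (H + 9 * X) = r2 H + X := by
    rw [map_add, map_mul, hX]
    have : r2 9 = 1 := by
      have e : (9 : ℤ⟦X⟧) = 2 * 4 + 1 := by norm_num
      rw [e, map_add, map_mul, map_ofNat, htwo, zero_mul, zero_add, map_one]
    rw [this, one_mul]
  have hHne : r2 H ≠ 0 := by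
    intro h
    have h1 := congrArg (PowerSeries.coeff 0) h
    unfold r2 at h1
    rw [PowerSeries.coeff_map, PowerSeries.coeff_zero_eq_constantCoeff_apply, const_H] at h1
    simp at h1
  have hPne : r2 P ≠ 0 := by
    intro h
    have h1 := congrArg (PowerSeries.coeff 0) h
    unfold r2 at h1
    rw [PowerSeries.coeff_map, PowerSeries.coeff_zero_eq_constantCoeff_apply, const_P] at h1
    simp at h1
  have hGne : r2 G ≠ 0 := by
    intro h
    have h1 := congrArg (PowerSeries.coeff 0) h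
    unfold r2 at h1
    rw [PowerSeries.coeff_map, PowerSeries.coeff_zero_eq_constantCoeff_apply, const_G] at h1
    simp at h1
  -- G² = P² (H + X)
  have e1 : r2 G ^ 2 = r2 P ^ 2 * (r2 H + X) := by
    have h1 := congrArg r2 hP.G_sq
    rw [map_mul, map_pow, map_mul, map_mul, map_pow, h8, h9] at h1
    have h2 : r2 H * (r2 G ^ 2) = r2 H * (r2 P ^ 2 * (r2 H + X)) := by
      linear_combination h1
    exact mul_left_cancel₀ hHne h2
  -- the derivative
  have hd : ∀ φ : (ZMod 2)⟦X⟧, PowerSeries.derivative (ZMod 2) (φ ^ 2) = 0 := by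
    intro φ
    rw [pow_two, Derivation.leibniz, smul_eq_mul]
    exact MO7_two _
  have e2 : PowerSeries.derivative (ZMod 2) (r2 H + X) = 0 := by
    have h1 := congrArg (PowerSeries.derivative (ZMod 2)) e1
    rw [hd, Derivation.leibniz, hd, smul_zero, add_zero, smul_eq_mul] at h1
    exact (mul_eq_zero.1 h1.symm).resolve_left (pow_ne_zero 2 hPne)
  have e3 : PowerSeries.derivative (ZMod 2) (r2 H) = 1 := by
    rw [map_add] at e2
    have h1 : PowerSeries.derivative (ZMod 2) (X : (ZMod 2)⟦X⟧) = 1 := PowerSeries.derivative_X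
    rw [h1] at e2
    have h2 := MO7_two 1
    exact add_right_cancel (e2.trans h2.symm)
  -- (1 + G) H = X
  have e4 : (1 + r2 G) * r2 H = X := by
    have h1 := congrArg r2 hP.th_H
    rw [map_sub, MO7_th, e3, mul_one, map_mul] at h1
    linear_combination -h1
  have e5 : (1 + r2 G) * (r2 H + X) = X * r2 G := by
    have h1 := MO7_two X
    linear_combination e4 + h1
  have e6 : r2 G * ((1 + r2 G) * r2 G) = r2 G * (X * r2 P ^ 2) := by
    calc r2 G * ((1 + r2 G) * r2 G) = (1 + r2 G) * r2 G ^ 2 := by ring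
      _ = r2 P ^ 2 * ((1 + r2 G) * (r2 H + X)) := by rw [e1]; ring
      _ = _ := by rw [e5]; ring
  have e7 := mul_left_cancel₀ hGne e6
  rw [hX, ← e7]
  ring
/- END MO7 -/

/- MODULE MO8 -/
private theorem MO8_odd (φ : (ZMod 2)⟦X⟧) (n : ℕ) (hn : n % 2 = 1) : coeff n (φ ^ 2) = 0 := by
  rw [pow_two, PowerSeries.coeff_mul]
  apply Finset.sum_involution (fun x _ => (x.2, x.1))
  · intro x _
    rw [mul_comm]
    exact CharTwo.add_self_eq_zero _
  · intro x hx _ h
    rw [Finset.HasAntidiagonal.mem_antidiagonal] at hx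
    have h1 : x.2 = x.1 := congrArg Prod.fst h
    omega
  · intro x hx
    rw [Finset.HasAntidiagonal.mem_antidiagonal] at hx ⊢
    rw [← hx, add_comm]
  · intro x _
    rfl

private theorem MO8_even (φ : (ZMod 2)⟦X⟧) (m : ℕ) : coeff (2 * m) (φ ^ 2) = coeff m φ := by
  rw [pow_two, PowerSeries.coeff_mul]
  have hmem : (m, m) ∈ Finset.HasAntidiagonal.antidiagonal (2 * m) := by
    rw [Finset.HasAntidiagonal.mem_antidiagonal]; ring
  rw [← Finset.add_sum_erase _ _ hmem]
  have h0 : ∑ x ∈ (Finset.HasAntidiagonal.antidiagonal (2 * m)).erase (m, m), coeff x.1 φ * coeff x.2 φ = 0 := by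
    apply Finset.sum_involution (fun x _ => (x.2, x.1))
    · intro x _
      rw [mul_comm]
      exact CharTwo.add_self_eq_zero _
    · intro x hx _ h
      rw [Finset.mem_erase, Finset.HasAntidiagonal.mem_antidiagonal] at hx
      have h1 : x.2 = x.1 := congrArg Prod.fst h
      apply hx.1
      ext
      · show x.1 = m; omega
      · show x.2 = m; omega
    · intro x hx
      rw [Finset.mem_erase, Finset.HasAntidiagonal.mem_antidiagonal] at hx ⊢
      refine ⟨?_, by rw [← hx.2, add_comm]⟩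
      intro h
      apply hx.1
      have h1 : x.2 = m := congrArg Prod.fst h
      have h2 : x.1 = m := congrArg Prod.snd h
      ext
      · exact h2
      · exact h1
    · intro x _
      rfl
  rw [h0, add_zero]
  have : ∀ a : ZMod 2, a * a = a := by decide
  exact this _

/-- PROOF: coefficient of `X^p` in `mod_two`, `p = 2m + 1`: left `coeff (2m) (P²) = coeff m P = a p`
(`φ² = expand 2 φ` over `ZMod 2`), right `coeff p G + 0`; `coeff p G = -5 σ(p) = -5 (p+1)` for
`p ≠ 2, 3`, which is even. -/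
theorem a_prime_even (hP : Param) (p : ℕ) (hp : p.Prime) (h6 : ¬ p ∣ 6) : Even (a p) := by
  have h2 : p ≠ 2 := by rintro rfl; exact h6 (by norm_num)
  have h3 : p ≠ 3 := by rintro rfl; exact h6 (by norm_num)
  obtain ⟨m, hm⟩ : ∃ m, p = 2 * m + 1 := hp.eq_two_or_odd'.resolve_left h2
  have h1 := congrArg (coeff p) (mod_two hP)
  have hX : r2 X = X := PowerSeries.map_X _
  rw [map_add, MO8_odd _ p (by omega), add_zero, hX] at h1
  have h4 : coeff p (X * r2 P ^ 2) = coeff m (r2 P) := by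
    rw [hm, PowerSeries.coeff_succ_X_mul, MO8_even]
  rw [h4] at h1
  unfold r2 at h1
  rw [PowerSeries.coeff_map, PowerSeries.coeff_map] at h1
  have h5 : coeff p G = -5 * ((p : ℤ) + 1) := by
    unfold G
    rw [PowerSeries.coeff_mk, if_neg hp.ne_zero]
    have d2 : ¬ 2 ∣ p := by omega
    have d3 : ¬ 3 ∣ p := fun h => h3 ((Nat.prime_dvd_prime_iff_eq Nat.prime_three hp).1 h).symm
    have d6 : ¬ 6 ∣ p := fun h => d2 (Dvd.dvd.trans (by norm_num) h)
    rw [if_neg d2, if_neg d3, if_neg d6, ArithmeticFunction.sigma_one_apply,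
      Nat.Prime.sum_divisors hp]
    push_cast
    ring
  rw [h5] at h1
  have h7 : a p = coeff m P := by
    unfold a
    rw [if_pos (by rw [hm]; exact odd_two_mul_add_one m), show (p - 1) / 2 = m by omega]
  rw [h7, ← ZMod.intCast_eq_zero_iff_even]
  have h8 : ((coeff m P : ℤ) : ZMod 2) = ((-5 * ((p : ℤ) + 1) : ℤ) : ZMod 2) := h1
  rw [h8, ZMod.intCast_eq_zero_iff_even, hm]
  exact ⟨-5 * ((m : ℤ) + 1), by push_cast; ring⟩
/- END MO8 -/

/-- MODULARITY. -/
theorem a_eq_of (hP : Param) (q : ℕ) (hq : q.Prime) (h6 : ¬ q ∣ 6) : a q = (q : ℤ) - cnt q := by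
  have h2 : q ≠ 2 := by rintro rfl; exact h6 (by norm_num)
  have h3 : q ≠ 3 := by rintro rfl; exact h6 (by norm_num)
  obtain ⟨m, hm⟩ : ∃ m, q = 2 * m + 1 := hq.eq_two_or_odd'.resolve_left h2
  have hq5 : 5 ≤ q := by
    have := hq.two_le
    omega
  have h0 : 0 < m := by omega
  have : Fact q.Prime := ⟨hq⟩
  have e1 : (q : ℤ) ∣ a q - ((q : ℤ) - cnt q) := by
    have h1 := coeff_left q m hq hm
    have h2' := coeff_right q m hq hm
    have h3' := key_formal hP m
    rw [← hm] at h3'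
    rw [← h3'] at h2'
    have h4 : (q : ℤ) ∣ a q - (cub ℤ ^ m).coeff (2 * m) := by
      have := dvd_sub h1 h2'
      have e : coeff m (P * Y ^ q) + a q - (coeff m (P * Y ^ q) + (cub ℤ ^ m).coeff (2 * m)) =
        a q - (cub ℤ ^ m).coeff (2 * m) := by ring
      rwa [e] at this
    have h5 := cnt_cast q m hm h0
    rw [sum_cub q m hm h0] at h5
    have h6' : (q : ℤ) ∣ (cub ℤ ^ m).coeff (2 * m) + cnt q := by
      rw [← ZMod.intCast_zmod_eq_zero_iff_dvd]
      push_cast
      rw [h5]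
      ring
    have := dvd_add (dvd_add h4 h6') (dvd_neg.2 (dvd_refl (q : ℤ)))
    have e : a q - (cub ℤ ^ m).coeff (2 * m) + ((cub ℤ ^ m).coeff (2 * m) + cnt q) + -(q : ℤ) =
      a q - ((q : ℤ) - cnt q) := by ring
    rwa [e] at this
  have e2 : (2 : ℤ) ∣ a q - ((q : ℤ) - cnt q) :=
    dvd_sub (a_prime_even hP q hq h6).two_dvd (cnt_size q hq h6).2.two_dvd
  have hcop : IsCoprime (2 : ℤ) (q : ℤ) := by
    have : Nat.Coprime 2 q := (Nat.coprime_primes Nat.prime_two hq).2 (Ne.symm h2)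
    exact_mod_cast Nat.isCoprime_iff_coprime.2 this
  have e3 : 2 * (q : ℤ) ∣ a q - ((q : ℤ) - cnt q) := hcop.mul_dvd e2 e1
  have b1 := abs_le.1 (a_prime_le q hq h6)
  have b2 := abs_le.1 (cnt_size q hq h6).1
  obtain ⟨t, ht⟩ := e3
  have ht0 : t = 0 := by
    by_contra h
    rcases lt_or_gt_of_ne h with h | h
    · nlinarith [b1.1, b1.2, b2.1, b2.2]
    · nlinarith [b1.1, b1.2, b2.1, b2.2]
  rw [ht0, mul_zero] at ht
  linarith

end Pool.Agent.NC
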