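import Pool.Agent.NC.Cusp

/-!
# Integer power series as functions on the unit disc
-/

namespace Pool.Agent.NC

open scoped BigOperators PowerSeries
open PowerSeries (coeff X)
open ModularForm (eta)
open Complex (I exp)
open Real (pi)

/-- The power series `φ` converges in the unit disc to `F`. -/
def Rep (φ : ℤ⟦X⟧) (F : ℂ → ℂ) : Prop :=
  ∀ q : ℂ, ‖q‖ < 1 → HasSum (fun n : ℕ ↦ ((coeff n φ : ℤ) : ℂ) * q ^ n) (F q)

/- MODULE RP1 -/
/-- PROOF: convergence at a point of norm `r`, `‖q‖ < r < 1`, bounds `|φ_n| r^n`. -/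
theorem Rep.abs {φ : ℤ⟦X⟧} {F : ℂ → ℂ} (h : Rep φ F) (q : ℂ) (hq : ‖q‖ < 1) :
    Summable fun n : ℕ ↦ ‖((coeff n φ : ℤ) : ℂ) * q ^ n‖ := by
  exact (h q hq).summable.norm

private theorem RP1_fps {φ : ℤ⟦X⟧} {F : ℂ → ℂ} (h : Rep φ F) :
    HasFPowerSeriesOnBall F
      (FormalMultilinearSeries.ofScalars ℂ fun n : ℕ ↦ ((coeff n φ : ℤ) : ℂ)) 0 1 := by
  refine ⟨?_, one_pos, ?_⟩
  · refine le_of_forall_lt fun r hr ↦ ?_
    lift r to NNReal using hr.ne_top
    have hr1 : r < 1 := by exact_mod_cast hr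
    obtain ⟨s, hs, hs1⟩ := exists_between hr1
    refine lt_of_lt_of_le (ENNReal.coe_lt_coe.2 hs) ?_
    apply FormalMultilinearSeries.le_radius_of_summable
    have h0 : ‖((s : ℝ) : ℂ)‖ = s := by
      rw [Complex.norm_real, NNReal.norm_eq]
    have h1 : ‖((s : ℝ) : ℂ)‖ < 1 := by
      rw [h0]
      exact_mod_cast hs1
    refine (h _ h1).summable.norm.of_nonneg_of_le (fun n ↦ by positivity) fun n ↦ ?_
    rw [norm_mul, norm_pow, h0]
    refine mul_le_mul_of_nonneg_right ?_ (by positivity)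
    exact le_of_eq (FormalMultilinearSeries.ofScalars_norm ℂ _ n)
  · intro y hy
    rw [zero_add]
    have hy1 : ‖y‖ < 1 := by
      rw [Metric.mem_eball, edist_zero_right] at hy
      simpa [enorm, ← NNReal.coe_lt_coe] using hy
    have h1 := h y hy1
    simpa [FormalMultilinearSeries.ofScalars_apply_eq, smul_eq_mul, mul_comm] using h1

theorem Rep.differentiableOn {φ : ℤ⟦X⟧} {F : ℂ → ℂ} (h : Rep φ F) :
    DifferentiableOn ℂ F (Metric.ball 0 1) := by
  have h1 := (RP1_fps h).differentiableOn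
  have h2 : Metric.eball (0 : ℂ) 1 = Metric.ball 0 1 := by
    have := Metric.eball_ofReal (x := (0 : ℂ)) (ε := 1)
    simpa using this
  rw [h2] at h1
  exact h1

/-- PROOF: uniqueness of the coefficients of a power series (`HasFPowerSeriesOnBall`,
`HasFPowerSeriesAt.eq_formalMultilinearSeries`). -/
theorem Rep.unique {φ ψ : ℤ⟦X⟧} {F : ℂ → ℂ} (h : Rep φ F) (h' : Rep ψ F) : φ = ψ := by
  have h1 := (RP1_fps h).hasFPowerSeriesAt.eq_formalMultilinearSeries
    (RP1_fps h').hasFPowerSeriesAt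
  ext n
  have h2 := congrArg (fun p : FormalMultilinearSeries ℂ ℂ ℂ ↦ p.coeff n) h1
  simp only [FormalMultilinearSeries.coeff_ofScalars] at h2
  exact_mod_cast h2
/- END RP1 -/

/- MODULE RP2 -/
theorem Rep.add {φ ψ : ℤ⟦X⟧} {F K : ℂ → ℂ} (h : Rep φ F) (h' : Rep ψ K) :
    Rep (φ + ψ) fun q ↦ F q + K q := by
  intro q hq
  have h1 := (h q hq).add (h' q hq)
  have h2 : (fun n : ℕ ↦ ((coeff n (φ + ψ) : ℤ) : ℂ) * q ^ n) =
      fun n : ℕ ↦ ((coeff n φ : ℤ) : ℂ) * q ^ n + ((coeff n ψ : ℤ) : ℂ) * q ^ n := by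
    funext n
    rw [map_add, Int.cast_add, add_mul]
  rw [h2]
  exact h1

theorem Rep.sub {φ ψ : ℤ⟦X⟧} {F K : ℂ → ℂ} (h : Rep φ F) (h' : Rep ψ K) :
    Rep (φ - ψ) fun q ↦ F q - K q := by
  intro q hq
  have h1 := (h q hq).sub (h' q hq)
  have h2 : (fun n : ℕ ↦ ((coeff n (φ - ψ) : ℤ) : ℂ) * q ^ n) =
      fun n : ℕ ↦ ((coeff n φ : ℤ) : ℂ) * q ^ n - ((coeff n ψ : ℤ) : ℂ) * q ^ n := by
    funext n
    rw [map_sub, Int.cast_sub, sub_mul]
  rw [h2]
  exact h1

/-- PROOF: Cauchy product (`Rep.abs`, `PowerSeries.coeff_mul`,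
`summable_norm_sum_mul_antidiagonal_of_summable_norm`, `tsum_mul_tsum_eq_tsum_sum_antidiagonal_of_summable_norm`). -/
theorem Rep.mul {φ ψ : ℤ⟦X⟧} {F K : ℂ → ℂ} (h : Rep φ F) (h' : Rep ψ K) :
    Rep (φ * ψ) fun q ↦ F q * K q := by
  intro q hq
  have s1 := (h q hq).summable.norm
  have s2 := (h' q hq).summable.norm
  have h2 : (fun n : ℕ ↦ ((coeff n (φ * ψ) : ℤ) : ℂ) * q ^ n) =
      fun n : ℕ ↦ ∑ kl ∈ Finset.HasAntidiagonal.antidiagonal n,
        ((coeff kl.1 φ : ℤ) : ℂ) * q ^ kl.1 * (((coeff kl.2 ψ : ℤ) : ℂ) * q ^ kl.2) := by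
    funext n
    rw [PowerSeries.coeff_mul, Int.cast_sum, Finset.sum_mul]
    refine Finset.sum_congr rfl fun kl hkl ↦ ?_
    rw [← Finset.HasAntidiagonal.mem_antidiagonal.1 hkl, pow_add, Int.cast_mul]
    ring
  rw [h2]
  have h3 := summable_norm_sum_mul_antidiagonal_of_summable_norm s1 s2
  have h4 := tsum_mul_tsum_eq_tsum_sum_antidiagonal_of_summable_norm s1 s2
  rw [(h q hq).tsum_eq, (h' q hq).tsum_eq] at h4
  show HasSum _ (F q * K q)
  rw [h4]
  exact h3.of_norm.hasSum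

private theorem RP2_single (φ : ℤ⟦X⟧) (k : ℕ) (c : ℤ)
    (h : ∀ n, coeff n φ = if n = k then c else 0) (q : ℂ) :
    HasSum (fun n : ℕ ↦ ((coeff n φ : ℤ) : ℂ) * q ^ n) (c * q ^ k) := by
  have h2 : ((c : ℂ) * q ^ k) = ((coeff k φ : ℤ) : ℂ) * q ^ k := by rw [h, if_pos rfl]
  rw [h2]
  refine hasSum_single k fun n hn ↦ ?_
  rw [h, if_neg hn, Int.cast_zero, zero_mul]

theorem Rep.one : Rep 1 fun _ ↦ 1 := by
  intro q _
  have h1 := RP2_single 1 0 1 (fun n ↦ PowerSeries.coeff_one n) q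
  simpa using h1

theorem Rep.pow {φ : ℤ⟦X⟧} {F : ℂ → ℂ} (h : Rep φ F) (k : ℕ) : Rep (φ ^ k) fun q ↦ F q ^ k := by
  induction k with
  | zero => simpa using Rep.one
  | succ k ih =>
    have h1 := ih.mul h
    simpa [pow_succ] using h1

theorem Rep.X : Rep PowerSeries.X fun q ↦ q := by
  intro q _
  have h1 := RP2_single PowerSeries.X 1 1 (fun n ↦ PowerSeries.coeff_X n) q
  simpa using h1

theorem Rep.const (k : ℤ) : Rep (PowerSeries.C k) fun _ ↦ (k : ℂ) := by
  intro q _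
  have h1 := RP2_single (PowerSeries.C k) 0 k (fun n ↦ PowerSeries.coeff_C n k) q
  simpa using h1

theorem Rep.natCast (k : ℕ) : Rep (k : ℤ⟦X⟧) fun _ ↦ (k : ℂ) := by
  have h1 := Rep.const (k : ℤ)
  simpa using h1
/- END RP2 -/

/- MODULE RP3 -/
/-- PROOF: `PowerSeries.coeff_expand`, the sum over the multiples of `d`
(`Function.Injective.hasSum_iff` for `n ↦ d n`). -/
theorem Rep.expand {φ : ℤ⟦X⟧} {F : ℂ → ℂ} (h : Rep φ F) (d : ℕ) (hd : d ≠ 0) :
    Rep (PowerSeries.expand d hd φ) fun q ↦ F (q ^ d) := by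
  intro q hq
  have hq' : ‖q ^ d‖ < 1 := by
    rw [norm_pow]
    exact pow_lt_one₀ (norm_nonneg q) hq hd
  have hinj : Function.Injective (fun n : ℕ ↦ d * n) := fun x y hxy ↦
    Nat.eq_of_mul_eq_mul_left (Nat.pos_of_ne_zero hd) hxy
  refine (hinj.hasSum_iff ?_).1 ?_
  · intro n hn
    have hdn : ¬ d ∣ n := by
      rintro ⟨k, rfl⟩
      exact hn ⟨k, rfl⟩
    rw [PowerSeries.coeff_expand_of_not_dvd _ _ _ hdn, Int.cast_zero, zero_mul]
  · have h1 := h (q ^ d) hq'
    refine h1.congr_fun ?_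
    intro n
    show ((coeff (d * n) (PowerSeries.expand d hd φ) : ℤ) : ℂ) * q ^ (d * n) = _
    rw [PowerSeries.coeff_expand_mul, pow_mul]

private theorem RP3_fps {c : ℕ → ℂ} {F : ℂ → ℂ}
    (h : ∀ q : ℂ, ‖q‖ < 1 → HasSum (fun n : ℕ ↦ c n * q ^ n) (F q)) :
    HasFPowerSeriesOnBall F (FormalMultilinearSeries.ofScalars ℂ c) 0 1 := by
  refine ⟨?_, zero_lt_one, ?_⟩
  · refine ENNReal.le_of_forall_nnreal_lt fun r hr ↦ ?_
    have hr1 : (r : ℝ) < 1 := by exact_mod_cast hr
    have hq : ‖((r : ℝ) : ℂ)‖ < 1 := by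
      rw [Complex.norm_real, Real.norm_of_nonneg r.coe_nonneg]
      exact hr1
    have h1 := (h _ hq).summable.tendsto_atTop_zero.norm
    refine FormalMultilinearSeries.le_radius_of_tendsto _ (l := ‖(0 : ℂ)‖) ?_
    refine h1.congr fun n ↦ ?_
    rw [FormalMultilinearSeries.norm_apply_eq_norm_coef,
      FormalMultilinearSeries.coeff_ofScalars, norm_mul, norm_pow, Complex.norm_real,
      Real.norm_of_nonneg r.coe_nonneg]
  · intro y hy
    have hy' : ‖y‖ < 1 := by
      rw [Metric.mem_eball, edist_zero_right] at hy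
      have h2 : (‖y‖₊ : ENNReal) < 1 := by
        rwa [← enorm_eq_nnnorm]
      exact_mod_cast h2
    rw [zero_add]
    refine (h y hy').congr_fun fun n ↦ ?_
    rw [FormalMultilinearSeries.ofScalars_apply_eq, smul_eq_mul]

/-- PROOF: term by term differentiation inside the disc. -/
theorem Rep.th {φ : ℤ⟦X⟧} {F : ℂ → ℂ} (h : Rep φ F) : Rep (th φ) fun q ↦ q * deriv F q := by
  intro q hq
  have h1 := (RP3_fps (c := fun n ↦ ((coeff n φ : ℤ) : ℂ)) h).fderiv
  have hq' : q ∈ Metric.eball (0 : ℂ) 1 := by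
    rw [Metric.mem_eball, edist_zero_right, enorm_eq_nnnorm]
    exact_mod_cast hq
  have h2 := h1.hasSum hq'
  rw [zero_add] at h2
  have h3 := h2.mapL (ContinuousLinearMap.apply ℂ ℂ (1 : ℂ))
  have h4 : HasSum (fun n : ℕ ↦ q * ((((n : ℂ) + 1) * ((coeff (n + 1) φ : ℤ) : ℂ)) * q ^ n))
      (q * deriv F q) := by
    refine HasSum.mul_left q ?_
    have h5 : deriv F q = (ContinuousLinearMap.apply ℂ ℂ (1 : ℂ)) (fderiv ℂ F q) := rfl
    rw [h5]
    refine h3.congr_fun fun n ↦ ?_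
    rw [FormalMultilinearSeries.apply_eq_pow_smul_coeff, ContinuousLinearMap.apply_apply,
      smul_apply, FormalMultilinearSeries.derivSeries_coeff_one,
      FormalMultilinearSeries.coeff_ofScalars, nsmul_eq_mul, smul_eq_mul]
    push_cast
    ring
  have h6 : HasSum (fun n : ℕ ↦ ((coeff (n + 1) (Pool.Agent.NC.th φ) : ℤ) : ℂ) * q ^ (n + 1))
      (q * deriv F q) := by
    refine h4.congr_fun fun n ↦ ?_
    unfold Pool.Agent.NC.th
    rw [PowerSeries.coeff_succ_X_mul, PowerSeries.coeff_derivative]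
    push_cast
    ring
  have h7 := (hasSum_nat_add_iff (f := fun n : ℕ ↦
    ((coeff n (Pool.Agent.NC.th φ) : ℤ) : ℂ) * q ^ n) 1).1 h6
  rw [Finset.sum_range_one] at h7
  have h8 : coeff 0 (Pool.Agent.NC.th φ) = 0 := by
    unfold Pool.Agent.NC.th
    rw [PowerSeries.coeff_zero_X_mul]
  rw [h8, Int.cast_zero, zero_mul, add_zero] at h7
  exact h7

private theorem RP3_uniq {c d : ℕ → ℂ} {F : ℂ → ℂ}
    (h : ∀ q : ℂ, ‖q‖ < 1 → HasSum (fun n : ℕ ↦ c n * q ^ n) (F q))
    (h' : ∀ q : ℂ, ‖q‖ < 1 → HasSum (fun n : ℕ ↦ d n * q ^ n) (F q)) : c = d := by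
  have h1 := (RP3_fps h).hasFPowerSeriesAt.eq_formalMultilinearSeries
    (RP3_fps h').hasFPowerSeriesAt
  exact FormalMultilinearSeries.ofScalars_series_injective ℂ ℂ h1

private theorem RP3_abs {c : ℕ → ℂ} {F : ℂ → ℂ}
    (h : ∀ q : ℂ, ‖q‖ < 1 → HasSum (fun n : ℕ ↦ c n * q ^ n) (F q)) (q : ℂ) (hq : ‖q‖ < 1) :
    Summable fun n : ℕ ↦ ‖c n * q ^ n‖ := by
  have h1 := (RP3_fps h).r_le
  have h2 : (‖q‖₊ : ENNReal) < (FormalMultilinearSeries.ofScalars ℂ c).radius :=
    lt_of_lt_of_le (by exact_mod_cast hq) h1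
  have h3 := FormalMultilinearSeries.summable_norm_mul_pow _ h2
  refine h3.congr fun n ↦ ?_
  rw [FormalMultilinearSeries.norm_apply_eq_norm_coef,
    FormalMultilinearSeries.coeff_ofScalars, norm_mul, norm_pow, coe_nnnorm]

/-- The inverse. PROOF: `1/F` is holomorphic in the disc, so equal to a power series with complex
coefficients `c_n` there; the Cauchy product `F · (1/F) = 1` gives `φ · c = 1` in `ℂ⟦X⟧`, and
`φ ψ = 1` with `ψ = PowerSeries.invOfUnit φ 1` (`PowerSeries.mul_invOfUnit`), so `c = ψ`. -/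
theorem Rep.inv {φ : ℤ⟦X⟧} {F : ℂ → ℂ} (h : Rep φ F) (h1 : PowerSeries.constantCoeff φ = 1)
    (h0 : ∀ q : ℂ, ‖q‖ < 1 → F q ≠ 0) : Rep (PowerSeries.invOfUnit φ 1) fun q ↦ (F q)⁻¹ := by
  have hdF : DifferentiableOn ℂ F (Metric.ball 0 1) := Rep.differentiableOn h
  have hdI : DifferentiableOn ℂ (fun q ↦ (F q)⁻¹) (Metric.ball 0 1) :=
    hdF.inv fun q hq ↦ h0 q (by rwa [mem_ball_zero_iff] at hq)
  set c : ℕ → ℂ := fun n ↦ ((n.factorial : ℂ))⁻¹ * iteratedDeriv n (fun q ↦ (F q)⁻¹) 0 with hc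
  have hcs : ∀ q : ℂ, ‖q‖ < 1 → HasSum (fun n : ℕ ↦ c n * q ^ n) ((F q)⁻¹) := by
    intro q hq
    have h1 := Complex.hasSum_taylorSeries_on_ball hdI (mem_ball_zero_iff.2 hq)
    refine h1.congr_fun fun n ↦ ?_
    rw [hc, sub_zero, smul_eq_mul, smul_eq_mul]
    ring
  -- the Cauchy product
  set m : ℤ⟦X⟧ →+* ℂ⟦X⟧ := PowerSeries.map (Int.castRingHom ℂ) with hm
  have hprod : m φ * PowerSeries.mk c = 1 := by
    have h2 : (fun n : ℕ ↦ coeff n (m φ * PowerSeries.mk c)) = fun n : ℕ ↦ coeff n (1 : ℂ⟦X⟧) := by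
      refine RP3_uniq (F := fun _ ↦ 1) ?_ ?_
      · intro q hq
        have h3 := Rep.abs h q hq
        have h4 := RP3_abs hcs q hq
        have h5 := tsum_mul_tsum_eq_tsum_sum_antidiagonal_of_summable_norm h3 h4
        have h6 := (summable_norm_sum_mul_antidiagonal_of_summable_norm h3 h4).of_norm
        have h7 := h6.hasSum
        rw [← h5, (h q hq).tsum_eq, (hcs q hq).tsum_eq, mul_inv_cancel₀ (h0 q hq)] at h7
        refine h7.congr_fun fun n ↦ ?_
        rw [PowerSeries.coeff_mul, Finset.sum_mul]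
        refine Finset.sum_congr rfl fun p hp ↦ ?_
        rw [Finset.HasAntidiagonal.mem_antidiagonal] at hp
        rw [PowerSeries.coeff_mk, hm, PowerSeries.coeff_map, ← hp, pow_add]
        show ((coeff p.1 φ : ℤ) : ℂ) * c p.2 * (q ^ p.1 * q ^ p.2) = _
        ring
      · intro q _
        have h3 := hasSum_single (f := fun n : ℕ ↦ coeff n (1 : ℂ⟦X⟧) * q ^ n) 0 (by
          intro n hn
          rw [PowerSeries.coeff_one, if_neg hn, zero_mul])
        rwa [PowerSeries.coeff_one, if_pos rfl, pow_zero, mul_one] at h3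
    ext n
    exact congrFun h2 n
  have hinv : m φ * m (PowerSeries.invOfUnit φ 1) = 1 := by
    rw [← map_mul, PowerSeries.mul_invOfUnit φ 1 (by rw [h1, Units.val_one]), map_one]
  have heq : PowerSeries.mk c = m (PowerSeries.invOfUnit φ 1) := by
    calc PowerSeries.mk c = (m φ * m (PowerSeries.invOfUnit φ 1)) * PowerSeries.mk c := by
          rw [hinv, one_mul]
      _ = m (PowerSeries.invOfUnit φ 1) * (m φ * PowerSeries.mk c) := by ring
      _ = _ := by rw [hprod, mul_one]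
  intro q hq
  refine (hcs q hq).congr_fun fun n ↦ ?_
  have h8 : coeff n (PowerSeries.mk c) = coeff n (m (PowerSeries.invOfUnit φ 1)) := by rw [heq]
  rw [PowerSeries.coeff_mk, hm, PowerSeries.coeff_map] at h8
  rw [h8]
  rfl
/- END RP3 -/

/-- Euler's product as a function of `q`. -/
noncomputable def eulF (q : ℂ) : ℂ := ∏' n : ℕ, (1 - q ^ (n + 1))

/- MODULE RP4 -/
private noncomputable def RP4_pol (s : Finset ℕ) : Polynomial ℤ :=
  ∏ n ∈ s, (1 - Polynomial.X ^ (n + 1))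

private theorem RP4_coeff (s : Finset ℕ) (n : ℕ) :
    (RP4_pol s).coeff n = coeff n (∏ n ∈ s, (1 - PowerSeries.X ^ (n + 1) : ℤ⟦X⟧)) := by
  have h : ((RP4_pol s : Polynomial ℤ) : ℤ⟦X⟧) = ∏ n ∈ s, (1 - PowerSeries.X ^ (n + 1) : ℤ⟦X⟧) := by
    unfold RP4_pol
    rw [← Polynomial.coeToPowerSeries.ringHom_apply, map_prod]
    refine Finset.prod_congr rfl fun i _ ↦ ?_
    rw [map_sub, map_pow, map_one, Polynomial.coeToPowerSeries.ringHom_apply, Polynomial.coe_X]
  rw [← h, Polynomial.coeff_coe]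

private theorem RP4_eval (s : Finset ℕ) (q : ℂ) :
    ∏ n ∈ s, (1 - q ^ (n + 1)) = Polynomial.aeval q (RP4_pol s) := by
  unfold RP4_pol
  rw [map_prod]
  refine Finset.prod_congr rfl fun i _ ↦ ?_
  simp

private theorem RP4_iter (p : Polynomial ℤ) (n : ℕ) :
    deriv^[n] (fun q : ℂ ↦ Polynomial.aeval q p) = fun q : ℂ ↦
      Polynomial.aeval q (Polynomial.derivative^[n] p) := by
  induction n generalizing p with
  | zero => rfl
  | succ n ih =>
    rw [Function.iterate_succ_apply, Function.iterate_succ_apply]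
    have : deriv (fun q : ℂ ↦ Polynomial.aeval q p) = fun q : ℂ ↦
        Polynomial.aeval q (Polynomial.derivative p) := by
      funext q
      exact (Polynomial.hasDerivAt_aeval p q).deriv
    rw [this, ih]

private theorem RP4_iter_zero (p : Polynomial ℤ) (n : ℕ) :
    deriv^[n] (fun q : ℂ ↦ Polynomial.aeval q p) 0 = (n.factorial : ℂ) * ((p.coeff n : ℤ) : ℂ) := by
  rw [RP4_iter]
  show Polynomial.aeval (0 : ℂ) (Polynomial.derivative^[n] p) = _
  rw [Polynomial.aeval_def, Polynomial.eval₂_at_zero, Polynomial.coeff_iterate_derivative]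
  simp [Nat.descFactorial_self]

/-- PROOF: `eulF` is holomorphic in the unit disc (`ModularForm.differentiableOn_tprod_one_sub_pow`)
and the locally uniform limit of the partial products (polynomials), so its Taylor coefficients are
the limits of those of the partial products, which are eventually equal to the coefficients of
`eul` (`PowerSeries.coeff_prod_one_sub_X_pow_eventually_eq`); Cauchy's formula on a circle
(`ModularForm.multipliableLocallyUniformlyOn_one_sub_pow`). -/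
theorem rep_eul : Rep eul eulF := by
  intro q hq
  have hU : IsOpen (Metric.ball (0 : ℂ) 1) := Metric.isOpen_ball
  have hconv : TendstoLocallyUniformlyOn (fun (s : Finset ℕ) (q : ℂ) ↦ ∏ n ∈ s, (1 - q ^ (n + 1)))
      eulF Filter.atTop (Metric.ball (0 : ℂ) 1) := by
    have := ModularForm.multipliableLocallyUniformlyOn_one_sub_pow.hasProdLocallyUniformlyOn
    exact this
  have hdiff : DifferentiableOn ℂ eulF (Metric.ball (0 : ℂ) 1) :=
    ModularForm.differentiableOn_tprod_one_sub_pow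
  have hiter : ∀ n : ℕ, TendstoLocallyUniformlyOn
      (fun (s : Finset ℕ) ↦ deriv^[n] (fun q : ℂ ↦ Polynomial.aeval q (RP4_pol s)))
      (deriv^[n] eulF) Filter.atTop (Metric.ball (0 : ℂ) 1) := by
    intro n
    induction n with
    | zero =>
      have : (fun (s : Finset ℕ) (q : ℂ) ↦ ∏ n ∈ s, (1 - q ^ (n + 1))) =
        fun (s : Finset ℕ) (q : ℂ) ↦ Polynomial.aeval q (RP4_pol s) := by
        funext s q
        exact RP4_eval s q
      rw [this] at hconv
      exact hconv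
    | succ n ih =>
      have := ih.deriv (Filter.Eventually.of_forall fun s ↦ by
        show DifferentiableOn ℂ (deriv^[n] (fun q : ℂ ↦ Polynomial.aeval q (RP4_pol s))) _
        rw [RP4_iter]
        exact (Polynomial.differentiable_aeval _).differentiableOn) hU
      simp only [Function.iterate_succ_apply'] at *
      exact this
  have hcoeff : ∀ n : ℕ, iteratedDeriv n eulF 0 = (n.factorial : ℂ) * ((coeff n eul : ℤ) : ℂ) := by
    intro n
    rw [iteratedDeriv_eq_iterate]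
    have h1 := (hiter n).tendsto_at (Metric.mem_ball_self one_pos)
    have h2 : Filter.Tendsto (fun s : Finset ℕ ↦ (deriv^[n] (fun q : ℂ ↦
        Polynomial.aeval q (RP4_pol s))) 0) Filter.atTop
        (nhds ((n.factorial : ℂ) * ((coeff n eul : ℤ) : ℂ))) := by
      refine tendsto_const_nhds.congr' ?_
      filter_upwards [PowerSeries.coeff_prod_one_sub_X_pow_eventually_eq ℤ n] with s hs
      rw [RP4_iter_zero, RP4_coeff, hs]
      rfl
    exact tendsto_nhds_unique h1 h2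
  have h := Complex.hasSum_taylorSeries_on_ball (r := 1) hdiff (z := q) (by simpa using hq)
  have e : (fun n : ℕ ↦ (n.factorial : ℂ)⁻¹ • (q - 0) ^ n • iteratedDeriv n eulF 0) =
      fun n : ℕ ↦ ((coeff n eul : ℤ) : ℂ) * q ^ n := by
    funext n
    rw [hcoeff, sub_zero, smul_eq_mul, smul_eq_mul]
    have h0 : (n.factorial : ℂ) ≠ 0 := by exact_mod_cast n.factorial_ne_zero
    field_simp
  rw [e] at h
  exact h
/- END RP4 -/

/- MODULE RP5 -/
/-- PROOF: `tprod_one_add_ne_zero_of_summable` as in `ModularForm.eta_tprod_ne_zero`. -/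
theorem eulF_ne_zero (q : ℂ) (hq : ‖q‖ < 1) : eulF q ≠ 0 := by
  have h1 := tprod_one_add_ne_zero_of_summable (f := fun n : ℕ ↦ -q ^ (n + 1)) (fun n h ↦ ?_) ?_
  · rw [eulF]
    refine fun h2 ↦ h1 ?_
    rw [← h2]
    exact tprod_congr fun n ↦ by ring
  · have h3 : q ^ (n + 1) = 1 := by linear_combination -h
    have h4 : ‖q ^ (n + 1)‖ < 1 := by
      rw [norm_pow]
      exact pow_lt_one₀ (norm_nonneg _) hq (by omega)
    rw [h3, norm_one] at h4
    exact lt_irrefl _ h4
  · simpa using (summable_nat_add_iff 1).mpr (summable_geometric_of_lt_one (norm_nonneg _) hq)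

/-- PROOF: definition of `ModularForm.eta`, `ModularForm.eta_q_eq_pow`. -/
theorem eta_eq (z : ℂ) : eta z = exp (pi * I * z / 12) * eulF (exp (2 * pi * I * z)) := by
  rw [eta, eulF]
  congr 1
  · rw [Function.Periodic.qParam]
    congr 1
    push_cast
    ring
  · exact tprod_congr fun n ↦ by rw [ModularForm.eta_q_eq_pow]

theorem norm_q_lt (z : ℂ) (hz : 0 < z.im) : ‖exp (2 * pi * I * z)‖ < 1 := by
  rw [Complex.norm_exp]
  have h1 : (2 * pi * I * z : ℂ).re = -(2 * pi * z.im) := by simp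
  rw [h1, Real.exp_lt_one_iff]
  have := Real.pi_pos
  nlinarith

/-- The value of `P`. -/
noncomputable def PF (q : ℂ) : ℂ := eulF q * eulF (q ^ 2) * eulF (q ^ 3) * eulF (q ^ 6)

/-- The value of `H`. -/
noncomputable def HF (q : ℂ) : ℂ :=
  eulF q ^ 5 * eulF (q ^ 3) * (eulF (q ^ 2) * eulF (q ^ 6) ^ 5)⁻¹

/-- PROOF: `rep_eul`, `Rep.expand`, `Rep.mul`. -/
theorem rep_P : Rep P PF := by
  exact ((rep_eul.mul (rep_eul.expand 2 (by norm_num))).mul (rep_eul.expand 3 (by norm_num))).mul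
    (rep_eul.expand 6 (by norm_num))

/-- PROOF: the same with `Rep.inv`. -/
theorem rep_H : Rep H HF := by
  have hc : PowerSeries.constantCoeff eul = 1 := by
    have h1 := PowerSeries.coeff_pentagonalSeries_pentagonal ℤ 0
    have h2 : pentagonal 0 = 0 := by decide
    rw [h2, PowerSeries.coeff_zero_eq_constantCoeff_apply] at h1
    rw [eul, h1]
    simp
  refine ((rep_eul.pow 5).mul (rep_eul.expand 3 (by norm_num))).mul
    (((rep_eul.expand 2 (by norm_num)).mul ((rep_eul.expand 6 (by norm_num)).pow 5)).inv ?_ ?_)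
  · rw [map_mul, map_pow, PowerSeries.constantCoeff_expand, PowerSeries.constantCoeff_expand, hc]
    norm_num
  · intro q hq
    have h1 : ∀ k : ℕ, k ≠ 0 → ‖q ^ k‖ < 1 := fun k hk ↦ by
      rw [norm_pow]
      exact pow_lt_one₀ (norm_nonneg _) hq hk
    exact mul_ne_zero (eulF_ne_zero _ (h1 2 (by norm_num)))
      (pow_ne_zero 5 (eulF_ne_zero _ (h1 6 (by norm_num))))

/-- PROOF: `eta_eq` four times. -/
theorem f_eq (z : ℂ) : f z = exp (pi * I * z) * PF (exp (2 * pi * I * z)) := by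
  have h1 : ∀ k : ℕ, exp (2 * pi * I * (k * z)) = exp (2 * pi * I * z) ^ k := by
    intro k
    rw [← Complex.exp_nat_mul]
    congr 1
    ring
  have h2 := h1 2
  have h3 := h1 3
  have h6 := h1 6
  push_cast at h2 h3 h6
  rw [f, eta_eq, eta_eq, eta_eq, eta_eq, h2, h3, h6, PF]
  have h4 : exp (pi * I * z) = exp (pi * I * z / 12) * exp (pi * I * (2 * z) / 12) *
      exp (pi * I * (3 * z) / 12) * exp (pi * I * (6 * z) / 12) := by
    rw [← Complex.exp_add, ← Complex.exp_add, ← Complex.exp_add]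
    congr 1
    ring
  rw [h4]
  ring

/-- PROOF: `eta_eq`. -/
theorem h_eq (z : ℂ) : h z = exp (-(2 * pi * I * z)) * HF (exp (2 * pi * I * z)) := by
  have h1 : ∀ k : ℕ, exp (2 * pi * I * (k * z)) = exp (2 * pi * I * z) ^ k := by
    intro k
    rw [← Complex.exp_nat_mul]
    congr 1
    ring
  have h2 := h1 2
  have h3 := h1 3
  have h6 := h1 6
  push_cast at h2 h3 h6
  rw [h, eta_eq, eta_eq, eta_eq, eta_eq, h2, h3, h6, HF]
  have h4 : exp (-(2 * pi * I * z)) = exp (pi * I * z / 12) ^ 5 * exp (pi * I * (3 * z) / 12) *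
      (exp (pi * I * (2 * z) / 12) * exp (pi * I * (6 * z) / 12) ^ 5)⁻¹ := by
    rw [← Complex.exp_nat_mul, ← Complex.exp_nat_mul, ← Complex.exp_add, ← Complex.exp_add,
      ← Complex.exp_neg, ← Complex.exp_add]
    congr 1
    push_cast
    ring
  rw [h4, div_eq_mul_inv, mul_inv, mul_inv, mul_inv, mul_inv, mul_pow, mul_pow, mul_inv]
  ring
/- END RP5 -/

/- MODULE RP6 -/
/-- q-expansion of `f`. PROOF: `f_eq`, `rep_P` at `q = exp (2 π i z)`, and
`a (2 m + 1) = coeff m P`, `a (2 m) = 0`: reindex over the odd numbers. -/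
theorem hasSum_f (z : ℂ) (hz : 0 < z.im) :
    HasSum (fun n : ℕ ↦ (a n : ℂ) * exp (pi * I * n * z)) (f z) := by
  have h1 := (rep_P _ (norm_q_lt z hz)).mul_left (exp (pi * I * z))
  rw [← f_eq] at h1
  have hinj : Function.Injective fun m : ℕ ↦ 2 * m + 1 := fun x y hxy ↦ by
    simpa using hxy
  rw [← hinj.hasSum_iff (f := fun n : ℕ ↦ (a n : ℂ) * exp (pi * I * n * z))]
  · refine h1.congr_fun fun m ↦ ?_
    have h2 : a (2 * m + 1) = coeff m P := by
      have h5 : (2 * m + 1 - 1) / 2 = m := by omega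
      rw [a, if_pos (by exact ⟨m, rfl⟩), h5]
    simp only [Function.comp, h2]
    rw [← Complex.exp_nat_mul]
    have h3 : exp (pi * I * ((2 * m + 1 : ℕ) : ℂ) * z) =
        exp (pi * I * z) * exp (m * (2 * pi * I * z)) := by
      rw [← Complex.exp_add]
      congr 1
      push_cast
      ring
    rw [h3]
    ring
  · intro n hn
    have h4 : ¬ Odd n := fun ⟨m, hm⟩ ↦ hn ⟨m, hm.symm⟩
    simp [a, h4]

/-- Uniqueness of the expansion. PROOF: with `t = exp (π i z)` these are power series in `t`,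
`‖t‖ < 1`, `t ≠ 0` arbitrary. -/
theorem coeff_unique (c d : ℕ → ℂ)
    (h : ∀ z : ℂ, 0 < z.im → ∃ s : ℂ, HasSum (fun n : ℕ ↦ c n * exp (pi * I * n * z)) s ∧
      HasSum (fun n : ℕ ↦ d n * exp (pi * I * n * z)) s) : c = d := by
  have hsum : ∀ t : ℂ, t ≠ 0 → ‖t‖ < 1 → HasSum (fun n : ℕ ↦ (c n - d n) * t ^ n) 0 := by
    intro t ht0 ht
    have hz : exp (pi * I * (Complex.log t / (pi * I))) = t := by
      rw [mul_div_cancel₀ _ (by simp [Real.pi_ne_zero]), Complex.exp_log ht0]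
    have him : 0 < (Complex.log t / (pi * I)).im := by
      have h1 : Complex.log t / (pi * I) = -(Complex.log t * I) / pi := by
        have hpi : (pi : ℂ) ≠ 0 := by simp [Real.pi_ne_zero]
        field_simp
        rw [Complex.I_sq]
        ring
      rw [h1, Complex.div_ofReal_im]
      have h2 : (-(Complex.log t * I)).im = -Real.log ‖t‖ := by simp [Complex.log_re]
      rw [h2]
      exact div_pos (neg_pos.2 (Real.log_neg (norm_pos_iff.2 ht0) ht)) Real.pi_pos
    obtain ⟨s, h1, h2⟩ := h _ him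
    have h3 := h1.sub h2
    rw [sub_self] at h3
    refine h3.congr_fun fun n ↦ ?_
    have h4 : exp (pi * I * n * (Complex.log t / (pi * I))) = t ^ n := by
      have h5 : (pi * I * n * (Complex.log t / (pi * I)) : ℂ) =
          n * (pi * I * (Complex.log t / (pi * I))) := by ring
      rw [h5, Complex.exp_nat_mul, hz]
    rw [h4]
    ring
  set F : ℂ → ℂ := fun t ↦ ∑' n : ℕ, (c n - d n) * t ^ n with hF
  have hp : HasFPowerSeriesAt F (FormalMultilinearSeries.ofScalars ℂ fun n ↦ c n - d n) 0 := by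
    rw [hasFPowerSeriesAt_iff]
    filter_upwards [Metric.ball_mem_nhds (0 : ℂ) one_pos] with t ht
    rw [zero_add]
    have hs : Summable fun n : ℕ ↦ (c n - d n) * t ^ n := by
      by_cases ht0 : t = 0
      · refine summable_of_ne_finset_zero (s := {0}) fun n hn ↦ ?_
        rw [ht0, zero_pow (by simpa using hn), mul_zero]
      · exact (hsum t ht0 (by simpa using ht)).summable
    refine hs.hasSum.congr_fun fun n ↦ ?_
    rw [FormalMultilinearSeries.coeff_ofScalars, smul_eq_mul, mul_comm]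
  have h0 : F =ᶠ[nhds 0] 0 := by
    refine (hp.analyticAt.frequently_zero_iff_eventually_zero).1 ?_
    have h1 : ∀ᶠ t in nhdsWithin (0 : ℂ) {0}ᶜ, F t = 0 := by
      filter_upwards [self_mem_nhdsWithin,
        mem_nhdsWithin_of_mem_nhds (Metric.ball_mem_nhds (0 : ℂ) one_pos)] with t ht0 ht
      exact (hsum t ht0 (by simpa using ht)).tsum_eq
    exact h1.frequently
  have h1 := hp.eq_zero_of_eventually h0
  funext n
  have h2 : (FormalMultilinearSeries.ofScalars ℂ fun n ↦ c n - d n).coeff n = 0 := by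
    rw [h1]
    simp [FormalMultilinearSeries.coeff]
  rw [FormalMultilinearSeries.coeff_ofScalars] at h2
  exact sub_eq_zero.1 h2

/-- PROOF: the coefficients of `P` at `0` and `1`: `P = 1 - X + ...`
(`eul = 1 - X - X^2 + ...` from `PowerSeries.coeff_pentagonalSeries_pentagonal`). -/
theorem a_values : a 1 = 1 ∧ a 2 = 0 ∧ a 3 = -1 := by
  have h0 : coeff 0 eul = 1 := by
    have h1 := PowerSeries.coeff_pentagonalSeries_pentagonal ℤ 0
    have h2 : pentagonal 0 = 0 := by decide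
    rw [h2] at h1
    rw [eul, h1]
    simp
  have h1 : coeff 1 eul = -1 := by
    have h1 := PowerSeries.coeff_pentagonalSeries_pentagonal ℤ 1
    have h2 : pentagonal 1 = 1 := by decide
    rw [h2] at h1
    rw [eul, h1]
    simp
  have e20 : coeff 0 e2 = 1 := by rw [e2, PowerSeries.coeff_expand]; simpa using h0
  have e30 : coeff 0 e3 = 1 := by rw [e3, PowerSeries.coeff_expand]; simpa using h0
  have e60 : coeff 0 e6 = 1 := by rw [e6, PowerSeries.coeff_expand]; simpa using h0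
  have e21 : coeff 1 e2 = 0 := by rw [e2, PowerSeries.coeff_expand]; simp
  have e31 : coeff 1 e3 = 0 := by rw [e3, PowerSeries.coeff_expand]; simp
  have e61 : coeff 1 e6 = 0 := by rw [e6, PowerSeries.coeff_expand]; simp
  have m0 : ∀ A B : ℤ⟦X⟧, coeff 0 (A * B) = coeff 0 A * coeff 0 B := by
    intro A B
    rw [PowerSeries.coeff_mul]
    simp
  have m1 : ∀ A B : ℤ⟦X⟧, coeff 1 (A * B) = coeff 0 A * coeff 1 B + coeff 1 A * coeff 0 B := by
    intro A B
    rw [PowerSeries.coeff_mul, Finset.Nat.antidiagonal_succ]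
    simp
  refine ⟨?_, ?_, ?_⟩
  · rw [a, if_pos (by decide)]
    norm_num [P, m0, h0, e20, e30, e60]
  · rw [a, if_neg (by decide)]
  · rw [a, if_pos (by decide)]
    norm_num [P, m0, m1, h0, e20, e30, e60, h1, e21, e31, e61]

theorem a_even (n : ℕ) (hn : Even n) : a n = 0 := by
  rw [a, if_neg (Nat.not_odd_iff_even.2 hn)]
/- END RP6 -/

end Pool.Agent.NC
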