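import Pool.Agent.NC.Eta

/-!
# The transformation of `f` under `Γ_0(6)` and the Atkin-Lehner involutions
-/

namespace Pool.Agent.NC

open scoped BigOperators MatrixGroups
open ModularForm (eta)
open Complex (I exp)
open Real (pi)

/- MODULE SG1 -/
private theorem sg1_gen (w m : ℂ → ℂ) (hw : ∀ z : ℂ, 0 < z.im → 0 < (w z).im)
    (hwd : DifferentiableOn ℂ w {z | 0 < z.im}) (hmd : DifferentiableOn ℂ m {z | 0 < z.im})
    (hm0 : ∀ z : ℂ, 0 < z.im → m z ≠ 0)
    (hp : ∀ z : ℂ, 0 < z.im → f (w z) ^ 24 = m z ^ 24 * f z ^ 24)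
    (z0 : ℂ) (hz0 : 0 < z0.im) (hw0 : w z0 = z0) (hm1 : m z0 = -1) (z : ℂ) (hz : 0 < z.im) :
    f (w z) = -(m z) * f z := by
  have hne : ∀ z : ℂ, 0 < z.im → m z * f z ≠ 0 := fun z hz =>
    mul_ne_zero (hm0 z hz) (f_ne_zero z hz)
  obtain ⟨k, -, hk⟩ := const_of_pow (fun z => f (w z) / (m z * f z))
    ((differentiableOn_f.comp hwd (fun z hz => hw z hz)).div (hmd.mul differentiableOn_f) hne) 1
    one_ne_zero (by
      intro z hz
      rw [div_pow, hp z hz, mul_pow]
      exact div_self (mul_ne_zero (pow_ne_zero _ (hm0 z hz)) (pow_ne_zero _ (f_ne_zero z hz))))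
  have h1 := hk z0 hz0
  have h2 := hk z hz
  rw [hw0, hm1, neg_one_mul, div_neg, div_self (f_ne_zero z0 hz0)] at h1
  rw [← h1, div_eq_iff (hne z hz)] at h2
  rw [h2]
  ring

private theorem sg1_eta (a b c d : ℤ) (h : a * d - b * c = 1) (z : ℂ) (hz : 0 < z.im) (w : ℂ)
    (hw : w * (c * z + d) = a * z + b) : eta w ^ 24 = (c * z + d) ^ 12 * eta z ^ 24 := by
  have h1 := (moeb_im_int a b c d (by omega) z hz).1
  rw [← eta24 a b c d h z hz, ← hw, mul_div_cancel_right₀ _ h1]

private theorem sg1_im (d : ℝ) (hd : 0 < d) (z : ℂ) (hz : 0 < z.im) : 0 < ((d : ℂ) * z).im := by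
  have h1 : ((d : ℂ) * z).im = d * z.im := by simp [Complex.mul_im]
  rw [h1]
  positivity

private theorem sg1_im' (z : ℂ) (hz : 0 < z.im) : 0 < (2 * z).im ∧ 0 < (3 * z).im ∧
    0 < (6 * z).im := by
  have h2 := sg1_im 2 (by norm_num) z hz
  have h3 := sg1_im 3 (by norm_num) z hz
  have h6 := sg1_im 6 (by norm_num) z hz
  push_cast at h2 h3 h6
  exact ⟨h2, h3, h6⟩

/-- `f | W_6 = - f`. PROOF: `eta (d * (-1/(6z))) = eta (-1/((6/d) z))` for `d = 1, 2, 3, 6`, so by
`eta24` (matrix `(0 -1; 1 0)`) the 24th power of the left side is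
`(6z)^12 (3z)^12 (2z)^12 z^12 f(z)^24 = (6 z^2)^24 f(z)^24`. By `const_of_pow`, applied to
`u z = f (-1/(6z)) / (6 z^2 f z)`, `f (-1/(6z)) = k * (6 z^2) * f z` with a constant `k`; at the
fixed point `z = i/√6`, `6 z^2 = -1`, and `f z ≠ 0`, so `k = -1`. (Or use
`ModularForm.eta_comp_eq_csqrt_I_inv` four times.) -/
theorem f_W6 (z : ℂ) (hz : 0 < z.im) : f (-1 / (6 * z)) = -(6 * z ^ 2) * f z := by
  have hne : ∀ z : ℂ, 0 < z.im → (6 : ℂ) * z ≠ 0 := by
    intro z hz h0
    have := (sg1_im' z hz).2.2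
    rw [h0] at this
    simp at this
  have hs6 : (0 : ℝ) < Real.sqrt 6 := Real.sqrt_pos.2 (by norm_num)
  have hsq : ((Real.sqrt 6 : ℝ) : ℂ) ^ 2 = 6 := by
    rw [← Complex.ofReal_pow, Real.sq_sqrt (by norm_num)]
    norm_num
  have hs0 : ((Real.sqrt 6 : ℝ) : ℂ) ≠ 0 := by exact_mod_cast hs6.ne'
  have h60 : (6 : ℂ) * (I / (Real.sqrt 6 : ℝ)) ^ 2 = -1 := by
    rw [div_pow, hsq, Complex.I_sq]
    norm_num
  have him : 0 < (I / ((Real.sqrt 6 : ℝ) : ℂ)).im := by
    have h1 : (I / ((Real.sqrt 6 : ℝ) : ℂ)).im = 1 / Real.sqrt 6 := by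
      rw [Complex.div_ofReal_im, Complex.I_im]
    rw [h1]
    positivity
  refine sg1_gen (fun z => -1 / (6 * z)) (fun z => 6 * z ^ 2) ?_ ?_ (by fun_prop) ?_ ?_
    (I / (Real.sqrt 6 : ℝ)) him ?_ h60 z hz
  · intro z hz
    have h1 := (moeb_im_int 0 (-1) 6 0 (by norm_num) z hz).2
    simpa using h1
  · exact DifferentiableOn.div (by fun_prop) (by fun_prop) (fun z hz => hne z hz)
  · intro z hz h0
    have h1 : (6 : ℂ) * z ≠ 0 := hne z hz
    have h2 : z ≠ 0 := fun h => h1 (by rw [h, mul_zero])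
    exact mul_ne_zero (by norm_num) (pow_ne_zero 2 h2) h0
  · intro z hz
    obtain ⟨i2, i3, i6⟩ := sg1_im' z hz
    have hw : (-1 / (6 * z)) * (6 * z) = -1 := div_mul_cancel₀ _ (hne z hz)
    set w : ℂ := -1 / (6 * z)
    have e1 := sg1_eta 0 (-1) 1 0 (by norm_num) (6 * z) i6 w (by push_cast; linear_combination hw)
    have e2 := sg1_eta 0 (-1) 1 0 (by norm_num) (3 * z) i3 (2 * w)
      (by push_cast; linear_combination hw)
    have e3 := sg1_eta 0 (-1) 1 0 (by norm_num) (2 * z) i2 (3 * w)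
      (by push_cast; linear_combination hw)
    have e6 := sg1_eta 0 (-1) 1 0 (by norm_num) z hz (6 * w)
      (by push_cast; linear_combination hw)
    simp only [f, mul_pow (eta w * eta (2 * w) * eta (3 * w)), mul_pow (eta w * eta (2 * w)),
      mul_pow (eta w), e1, e2, e3, e6]
    push_cast
    ring
  · have h1 : (6 : ℂ) * (I / (Real.sqrt 6 : ℝ)) ≠ 0 := hne _ him
    change -1 / (6 * (I / ((Real.sqrt 6 : ℝ) : ℂ))) = I / ((Real.sqrt 6 : ℝ) : ℂ)
    rw [div_eq_iff h1, ← h60]
    ring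
/- END SG1 -/

/- MODULE SG2 -/
/-- `f | W_3 = - f`, `W_3 = (3 -2; 6 -3)`. PROOF: with `w = (3z-2)/(6z-3)`:
`w = (1·(3z) - 2)/(2·(3z) - 3)`, `2w = (1·(6z) - 4)/(1·(6z) - 3)`, `3w = (3z - 2)/(2z - 1)`,
`6w = (3·(2z) - 4)/(1·(2z) - 1)`, four matrices of determinant `1`; so by `eta24`
`f(w)^24 = (6z-3)^12 (6z-3)^12 (2z-1)^12 (2z-1)^12 f(z)^24 = ((6z-3)^2/3)^24 f(z)^24`.
By `const_of_pow`, `f(w) = k (6z-3)^2/3 f(z)`, and at the fixed point `z = (3 + i √3)/6`,
`(6z-3)^2/3 = -1`, so `k = -1`. -/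
theorem f_W3 (z : ℂ) (hz : 0 < z.im) :
    f ((3 * z - 2) / (6 * z - 3)) = -((6 * z - 3) ^ 2 / 3) * f z := by
  have hne : ∀ z : ℂ, 0 < z.im → (6 : ℂ) * z - 3 ≠ 0 := by
    intro z hz h0
    have h1 : (6 * z - 3 : ℂ).im = 6 * z.im := by simp [Complex.mul_im]
    rw [h0] at h1
    simp at h1
    linarith
  have hs3 : (0 : ℝ) < Real.sqrt 3 := Real.sqrt_pos.2 (by norm_num)
  have hsq : ((Real.sqrt 3 : ℝ) : ℂ) ^ 2 = 3 := by
    rw [← Complex.ofReal_pow, Real.sq_sqrt (by norm_num)]
    norm_num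
  have him : 0 < ((3 + I * ((Real.sqrt 3 : ℝ) : ℂ)) / 6).im := by
    have h1 : ((3 + I * ((Real.sqrt 3 : ℝ) : ℂ)) / 6).im = Real.sqrt 3 / 6 := by
      rw [show (6 : ℂ) = ((6 : ℝ) : ℂ) by norm_num, Complex.div_ofReal_im]
      simp
    rw [h1]
    positivity
  set s : ℂ := ((Real.sqrt 3 : ℝ) : ℂ) with hs
  have hI : I ^ 2 = -1 := Complex.I_sq
  have hm1 : (6 * ((3 + I * s) / 6) - 3) ^ 2 / 3 = -1 := by
    linear_combination (I ^ 2 / 3) * hsq + hI
  refine sg1_gen (fun z => (3 * z - 2) / (6 * z - 3)) (fun z => (6 * z - 3) ^ 2 / 3) ?_ ?_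
    (by fun_prop) ?_ ?_ ((3 + I * s) / 6) him ?_ hm1 z hz
  · intro z hz
    have h1 := (moeb_im_int 3 (-2) 6 (-3) (by norm_num) z hz).2
    push_cast at h1
    simpa [sub_eq_add_neg] using h1
  · exact DifferentiableOn.div (by fun_prop) (by fun_prop) (fun z hz => hne z hz)
  · intro z hz
    exact div_ne_zero (pow_ne_zero 2 (hne z hz)) (by norm_num)
  · intro z hz
    obtain ⟨i2, i3, i6⟩ := sg1_im' z hz
    have hw : ((3 * z - 2) / (6 * z - 3)) * (6 * z - 3) = 3 * z - 2 :=
      div_mul_cancel₀ _ (hne z hz)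
    set w : ℂ := (3 * z - 2) / (6 * z - 3)
    have e1 := sg1_eta 1 (-2) 2 (-3) (by norm_num) (3 * z) i3 w
      (by push_cast; linear_combination hw)
    have e2 := sg1_eta 1 (-4) 1 (-3) (by norm_num) (6 * z) i6 (2 * w)
      (by push_cast; linear_combination 2 * hw)
    have e3 := sg1_eta 3 (-2) 2 (-1) (by norm_num) z hz (3 * w)
      (by push_cast; linear_combination hw)
    have e6 := sg1_eta 3 (-4) 1 (-1) (by norm_num) (2 * z) i2 (6 * w)
      (by push_cast; linear_combination 2 * hw)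
    simp only [f, mul_pow (eta w * eta (2 * w) * eta (3 * w)), mul_pow (eta w * eta (2 * w)),
      mul_pow (eta w), e1, e2, e3, e6]
    push_cast
    ring
  · have h1 : (6 : ℂ) * ((3 + I * s) / 6) - 3 ≠ 0 := hne _ him
    change (3 * ((3 + I * s) / 6) - 2) / (6 * ((3 + I * s) / 6) - 3) = (3 + I * s) / 6
    rw [div_eq_iff h1]
    linear_combination (-(I ^ 2) / 6) * hsq - (1 / 2) * hI
/- END SG2 -/

/- MODULE SG3 -/
/-- `f | W_2 = - f`, `W_2 = (2 -1; 6 -2)`. PROOF: with `w = (2z-1)/(6z-2)`: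
`w = (1·(2z) - 1)/(3·(2z) - 2)`, `2w = (2z-1)/(3z-1)`, `3w = (1·(6z) - 3)/(1·(6z) - 2)`,
`6w = (2·(3z) - 3)/(1·(3z) - 1)`; `f(w)^24 = (6z-2)^24 (3z-1)^24 f(z)^24`; fixed point
`z = (2 + i √2)/6`, `(6z-2)^2/2 = -1`. -/
theorem f_W2 (z : ℂ) (hz : 0 < z.im) :
    f ((2 * z - 1) / (6 * z - 2)) = -((6 * z - 2) ^ 2 / 2) * f z := by
  have hne : ∀ z : ℂ, 0 < z.im → (6 : ℂ) * z - 2 ≠ 0 := by
    intro z hz h0
    have h1 : (6 * z - 2 : ℂ).im = 6 * z.im := by simp [Complex.mul_im]
    rw [h0] at h1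
    simp at h1
    linarith
  have hs2 : (0 : ℝ) < Real.sqrt 2 := Real.sqrt_pos.2 (by norm_num)
  have hsq : ((Real.sqrt 2 : ℝ) : ℂ) ^ 2 = 2 := by
    rw [← Complex.ofReal_pow, Real.sq_sqrt (by norm_num)]
    norm_num
  have him : 0 < ((2 + I * ((Real.sqrt 2 : ℝ) : ℂ)) / 6).im := by
    have h1 : ((2 + I * ((Real.sqrt 2 : ℝ) : ℂ)) / 6).im = Real.sqrt 2 / 6 := by
      rw [show (6 : ℂ) = ((6 : ℝ) : ℂ) by norm_num, Complex.div_ofReal_im]
      simp
    rw [h1]
    positivity
  set s : ℂ := ((Real.sqrt 2 : ℝ) : ℂ) with hs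
  have hI : I ^ 2 = -1 := Complex.I_sq
  have hm1 : (6 * ((2 + I * s) / 6) - 2) ^ 2 / 2 = -1 := by
    linear_combination (I ^ 2 / 2) * hsq + hI
  refine sg1_gen (fun z => (2 * z - 1) / (6 * z - 2)) (fun z => (6 * z - 2) ^ 2 / 2) ?_ ?_
    (by fun_prop) ?_ ?_ ((2 + I * s) / 6) him ?_ hm1 z hz
  · intro z hz
    have h1 := (moeb_im_int 2 (-1) 6 (-2) (by norm_num) z hz).2
    push_cast at h1
    simpa [sub_eq_add_neg] using h1
  · exact DifferentiableOn.div (by fun_prop) (by fun_prop) (fun z hz => hne z hz)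
  · intro z hz
    exact div_ne_zero (pow_ne_zero 2 (hne z hz)) (by norm_num)
  · intro z hz
    obtain ⟨i2, i3, i6⟩ := sg1_im' z hz
    have hw : ((2 * z - 1) / (6 * z - 2)) * (6 * z - 2) = 2 * z - 1 :=
      div_mul_cancel₀ _ (hne z hz)
    set w : ℂ := (2 * z - 1) / (6 * z - 2)
    have e1 := sg1_eta 1 (-1) 3 (-2) (by norm_num) (2 * z) i2 w
      (by push_cast; linear_combination hw)
    have e2 := sg1_eta 2 (-1) 3 (-1) (by norm_num) z hz (2 * w)
      (by push_cast; linear_combination hw)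
    have e3 := sg1_eta 1 (-3) 1 (-2) (by norm_num) (6 * z) i6 (3 * w)
      (by push_cast; linear_combination 3 * hw)
    have e6 := sg1_eta 2 (-3) 1 (-1) (by norm_num) (3 * z) i3 (6 * w)
      (by push_cast; linear_combination 3 * hw)
    simp only [f, mul_pow (eta w * eta (2 * w) * eta (3 * w)), mul_pow (eta w * eta (2 * w)),
      mul_pow (eta w), e1, e2, e3, e6]
    push_cast
    ring
  · have h1 : (6 : ℂ) * ((2 + I * s) / 6) - 2 ≠ 0 := hne _ him
    change (2 * ((2 + I * s) / 6) - 1) / (6 * ((2 + I * s) / 6) - 2) = (2 + I * s) / 6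
    rw [div_eq_iff h1]
    linear_combination (-(I ^ 2) / 6) * hsq - (1 / 3) * hI
/- END SG3 -/

/- MODULE SG4 -/
private theorem SG4_step (Q : ℤ → ℤ → ℤ → ℤ → Prop)
    (hT : ∀ a b c d, Q a b c d → Q a (a + b) c (6 * c + d))
    (hT' : ∀ a b c d, Q a b c d → Q a (b - a) c (d - 6 * c)) (a b c d : ℤ) (k : ℤ)
    (h : Q a (b + k * a) c (d + 6 * k * c)) : Q a b c d := by
  have key : ∀ (n : ℕ) (b d : ℤ), Q a (b + n * a) c (d + 6 * n * c) → Q a b c d := by
    intro n
    induction n with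
    | zero => intro b d h; simpa using h
    | succ n ih =>
      intro b d h
      apply ih
      have := hT' _ _ _ _ h
      have e1 : b + ((n + 1 : ℕ) : ℤ) * a - a = b + n * a := by push_cast; ring
      have e2 : d + 6 * ((n + 1 : ℕ) : ℤ) * c - 6 * c = d + 6 * n * c := by push_cast; ring
      rwa [e1, e2] at this
  have key' : ∀ (n : ℕ) (b d : ℤ), Q a (b - n * a) c (d - 6 * n * c) → Q a b c d := by
    intro n
    induction n with
    | zero => intro b d h; simpa using h
    | succ n ih =>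
      intro b d h
      apply ih
      have := hT _ _ _ _ h
      have e1 : a + (b - ((n + 1 : ℕ) : ℤ) * a) = b - n * a := by push_cast; ring
      have e2 : 6 * c + (d - 6 * ((n + 1 : ℕ) : ℤ) * c) = d - 6 * n * c := by push_cast; ring
      rwa [e1, e2] at this
  obtain ⟨n, rfl | rfl⟩ := Int.eq_nat_or_neg k
  · exact key n b d h
  · apply key' n b d
    have e1 : b - (n : ℤ) * a = b + -(n : ℤ) * a := by ring
    have e2 : d - 6 * (n : ℤ) * c = d + 6 * -(n : ℤ) * c := by ring
    rwa [e1, e2]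

/-- Induction over `Γ_0(6)`, `Q a b c d` is a property of the matrix `(a b; 6c d)`; the group is
generated by `T = (1 1; 0 1)`, `U = (1 0; 6 1)`, `V = (7 -3; 12 -5)` and `-1`.
PROOF: strong induction on `|c|` (over all `a b d`). If `c = 0`: `a d = 1`, the matrix is `± T^b`
(induction on `|b|`). Let `c ≠ 0` and put `C = 6 c`. By `hT`, `hT'` we may replace `d` by `d + k C`
(the property for one of the two matrices gives the property for the other one; `c` does not
change), so we may assume `2 |d| ≤ |C|`. `d ≠ 0` (else `6 b c = -1`). If `3 |d| < |C|`: for the sign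
`s` with `s C d < 0` we have `|C + 6 s d| < |C|` (`0 < 6|d| < 2|C|`), and `hU` / `hU'` reduce the
matrix to one with `c + s d` in the place of `c`. Otherwise `|C| ≤ 3 |d|`, `2 |d| ≤ |C|`; equality
on either side is impossible (`C = ± 2 d` or `± 3 d` and `a d - b C = 1` give `|d| = 1`,
`|C| ≤ 3`). So `2 |d| < |C| < 3 |d|`. If `C d < 0`: the matrix times `V⁻¹` has lower left entry
`-5 C - 12 d` with `|5 C + 12 d| < |C|` (put `C = - r d`, `2 < r < 3`: `|12 - 5 r| < r`); use `hV`
to come back (`M = (M V⁻¹) V`). If `C d > 0`: the matrix times `T⁻¹ V` has lower left entry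
`7 C + 12 (d - C) = 12 d - 5 C`, again smaller in absolute value; come back with `hV'` and `hT`. -/
theorem gamma_induction (Q : ℤ → ℤ → ℤ → ℤ → Prop) (h1 : Q 1 0 0 1)
    (hm : ∀ a b c d, Q a b c d → Q (-a) (-b) (-c) (-d))
    (hT : ∀ a b c d, Q a b c d → Q a (a + b) c (6 * c + d))
    (hT' : ∀ a b c d, Q a b c d → Q a (b - a) c (d - 6 * c))
    (hU : ∀ a b c d, Q a b c d → Q (a + 6 * b) b (c + d) d)
    (hU' : ∀ a b c d, Q a b c d → Q (a - 6 * b) b (c - d) d)
    (hV : ∀ a b c d, Q a b c d → Q (7 * a + 12 * b) (-3 * a - 5 * b) (7 * c + 2 * d)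
      (-18 * c - 5 * d))
    (hV' : ∀ a b c d, Q a b c d → Q (-5 * a - 12 * b) (3 * a + 7 * b) (-5 * c - 2 * d)
      (18 * c + 7 * d)) :
    ∀ a b c d : ℤ, a * d - 6 * b * c = 1 → Q a b c d := by
  have main : ∀ (N : ℕ) (a b c d : ℤ), c.natAbs ≤ N → a * d - 6 * b * c = 1 → Q a b c d := by
    intro N
    induction N with
    | zero =>
      intro a b c d hc h
      have hc0 : c = 0 := by omega
      subst hc0
      have had : a * d = 1 := by linarith
      rcases Int.eq_one_or_neg_one_of_mul_eq_one had with ha | ha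
      · subst ha
        have hd : d = 1 := by linarith
        subst hd
        apply SG4_step Q hT hT' 1 b 0 1 (-b)
        have e1 : b + -b * 1 = 0 := by ring
        have e2 : (1 : ℤ) + 6 * -b * 0 = 1 := by ring
        rw [e1, e2]
        exact h1
      · subst ha
        have hd : d = -1 := by linarith
        subst hd
        apply SG4_step Q hT hT' (-1) b 0 (-1) b
        have e1 : b + b * -1 = -0 := by ring
        have e2 : (-1 : ℤ) + 6 * b * 0 = -1 := by ring
        rw [e1, e2]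
        exact hm _ _ _ _ h1
    | succ N ih =>
      intro a b c d hc h
      by_cases hc1 : c.natAbs ≤ N
      · exact ih a b c d hc1 h
      have hcN : c.natAbs = N + 1 := by omega
      -- reduction of d modulo 6 c
      obtain ⟨k, hk1, hk2⟩ : ∃ k : ℤ, 2 * (d + 6 * k * c) ≤ 6 * |c| ∧ -(6 * |c|) ≤ 2 * (d + 6 * k * c) := by
        have hcpos : 0 < |c| := by
          rw [abs_pos]
          intro h0
          rw [h0] at hcN
          simp at hcN
        -- take m = round
        obtain ⟨m, hm1, hm2⟩ : ∃ m : ℤ, 2 * (d - 6 * m * |c|) ≤ 6 * |c| ∧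
            -(6 * |c|) ≤ 2 * (d - 6 * m * |c|) := by
          refine ⟨(d + 3 * |c|) / (6 * |c|), ?_, ?_⟩
          · have := Int.lt_ediv_add_one_mul_self (d + 3 * |c|) (by positivity : 0 < 6 * |c|)
            nlinarith
          · have := Int.ediv_mul_le (d + 3 * |c|) (by positivity : 6 * |c| ≠ 0)
            nlinarith
        rcases abs_cases c with ⟨h2, _⟩ | ⟨h2, _⟩
        · refine ⟨-m, ?_, ?_⟩
          · have e : d + 6 * -m * c = d - 6 * m * |c| := by rw [h2]; ring
            rw [e]; exact hm1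
          · have e : d + 6 * -m * c = d - 6 * m * |c| := by rw [h2]; ring
            rw [e]; exact hm2
        · refine ⟨m, ?_, ?_⟩
          · have e : d + 6 * m * c = d - 6 * m * |c| := by rw [h2]; ring
            rw [e]; exact hm1
          · have e : d + 6 * m * c = d - 6 * m * |c| := by rw [h2]; ring
            rw [e]; exact hm2
      apply SG4_step Q hT hT' a b c d k
      generalize hb' : b + k * a = b'
      generalize hd' : d + 6 * k * c = d' at *
      have h' : a * d' - 6 * b' * c = 1 := by rw [← hb', ← hd']; linarith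
      clear hb' hd' h
      -- now 2 |d'| ≤ 6 |c|
      have hcabs : |c| = N + 1 := by
        rw [Int.abs_eq_natAbs, hcN]; push_cast; ring
      have hd0 : d' ≠ 0 := by
        rintro rfl
        have : (6 : ℤ) ∣ 1 := ⟨-(b' * c), by linarith⟩
        omega
      have lt_of : ∀ x : ℤ, |x| < |c| → x.natAbs ≤ N := by
        intro x hx
        have : (x.natAbs : ℤ) < N + 1 := by rw [← Int.abs_eq_natAbs, ← hcabs]; exact hx
        omega
      rcases lt_or_ge (|d'|) (2 * |c|) with hsm | hbig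
      · -- U steps: 0 < |d'| < 2 |c|: c ± d'
        rcases lt_or_gt_of_ne hd0 with hneg | hpos
        · rcases abs_cases c with ⟨h2, h3⟩ | ⟨h2, h3⟩
          · -- c ≥ 0, d' < 0 : c + d'
            have hlt : |c + d'| < |c| := by
              rw [abs_of_neg hneg] at hsm
              rw [h2] at hsm
              rw [h2, abs_lt]
              constructor <;> linarith
            have := hU' _ _ _ _ (ih (a + 6 * b') b' (c + d') d' (lt_of _ hlt) (by linear_combination h'))
            have e1 : a + 6 * b' - 6 * b' = a := by ring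
            have e2 : c + d' - d' = c := by ring
            rwa [e1, e2] at this
          · have hlt : |c - d'| < |c| := by
              rw [abs_of_neg hneg] at hsm
              rw [h2] at hsm
              rw [h2, abs_lt]
              constructor <;> linarith
            have := hU _ _ _ _ (ih (a - 6 * b') b' (c - d') d' (lt_of _ hlt) (by linear_combination h'))
            have e1 : a - 6 * b' + 6 * b' = a := by ring
            have e2 : c - d' + d' = c := by ring
            rwa [e1, e2] at this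
        · rcases abs_cases c with ⟨h2, h3⟩ | ⟨h2, h3⟩
          · have hlt : |c - d'| < |c| := by
              rw [abs_of_pos hpos] at hsm
              rw [h2] at hsm
              rw [h2, abs_lt]
              constructor <;> linarith
            have := hU _ _ _ _ (ih (a - 6 * b') b' (c - d') d' (lt_of _ hlt) (by linear_combination h'))
            have e1 : a - 6 * b' + 6 * b' = a := by ring
            have e2 : c - d' + d' = c := by ring
            rwa [e1, e2] at this
          · have hlt : |c + d'| < |c| := by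
              rw [abs_of_pos hpos] at hsm
              rw [h2] at hsm
              rw [h2, abs_lt]
              constructor <;> linarith
            have := hU' _ _ _ _ (ih (a + 6 * b') b' (c + d') d' (lt_of _ hlt) (by linear_combination h'))
            have e1 : a + 6 * b' - 6 * b' = a := by ring
            have e2 : c + d' - d' = c := by ring
            rwa [e1, e2] at this
      · -- 2 |c| ≤ |d'| ≤ 3 |c|
        have hd3 : |d'| ≤ 3 * |c| := by rw [abs_le]; constructor <;> linarith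
        have hcpos : 0 < |c| := by rw [hcabs]; positivity
        -- strictness
        have hne2 : |d'| ≠ 2 * |c| := by
          intro he
          have hdv : c ∣ d' := by
            rw [← abs_dvd_abs, he]; exact ⟨2, by ring⟩
          obtain ⟨t, rfl⟩ := hdv
          have hu : c ∣ 1 := ⟨a * t - 6 * b', by linarith⟩
          have hc1' : |c| = 1 := by
            have := Int.natAbs_dvd_natAbs.2 hu
            have h5 : c.natAbs = 1 := by simpa using Nat.dvd_one.1 this
            rw [Int.abs_eq_natAbs, h5]; rfl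
          rw [hc1'] at he
          have h2d : (2 : ℤ) ∣ c * t := by
            rw [← dvd_abs, he]; exact ⟨1, by ring⟩
          obtain ⟨s, hs⟩ := h2d
          rw [hs] at h'
          have : (2 : ℤ) ∣ 1 := ⟨a * s - 3 * b' * c, by linarith⟩
          omega
        have hne3 : |d'| ≠ 3 * |c| := by
          intro he
          have hdv : c ∣ d' := by
            rw [← abs_dvd_abs, he]; exact ⟨3, by ring⟩
          obtain ⟨t, rfl⟩ := hdv
          have h3d : (3 : ℤ) ∣ c * t := by
            rw [← dvd_abs, he]; exact ⟨|c|, by ring⟩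
          obtain ⟨s, hs⟩ := h3d
          rw [hs] at h'
          have : (3 : ℤ) ∣ 1 := ⟨a * s - 2 * b' * c, by linarith⟩
          omega
        have hl2 : 2 * |c| < |d'| := lt_of_le_of_ne hbig (Ne.symm hne2)
        have hl3 : |d'| < 3 * |c| := lt_of_le_of_ne hd3 hne3
        rcases lt_or_gt_of_ne hd0 with hneg | hpos
        · rcases abs_cases c with ⟨h2, h3⟩ | ⟨h2, h3⟩
          · -- c > 0, d' < 0: V⁻¹
            rw [abs_of_neg hneg] at hl2 hl3
            rw [h2] at hl2 hl3
            have hlt : |-5 * c - 2 * d'| < |c| := by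
              rw [h2, abs_lt]
              constructor <;> linarith
            have := hV _ _ _ _ (ih (-5 * a - 12 * b') (3 * a + 7 * b') (-5 * c - 2 * d')
              (18 * c + 7 * d') (lt_of _ hlt) (by linear_combination h'))
            have e1 : 7 * (-5 * a - 12 * b') + 12 * (3 * a + 7 * b') = a := by ring
            have e2 : -3 * (-5 * a - 12 * b') - 5 * (3 * a + 7 * b') = b' := by ring
            have e3 : 7 * (-5 * c - 2 * d') + 2 * (18 * c + 7 * d') = c := by ring
            have e4 : -18 * (-5 * c - 2 * d') - 5 * (18 * c + 7 * d') = d' := by ring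
            rwa [e1, e2, e3, e4] at this
          · -- c < 0, d' < 0 : T⁻¹ V
            rw [abs_of_neg hneg] at hl2 hl3
            rw [h2] at hl2 hl3
            have hlt : |7 * c + 2 * (d' - 6 * c)| < |c| := by
              rw [h2, abs_lt]
              constructor <;> linarith
            have := hV' _ _ _ _ (ih (7 * a + 12 * (b' - a)) (-3 * a - 5 * (b' - a))
              (7 * c + 2 * (d' - 6 * c)) (-18 * c - 5 * (d' - 6 * c)) (lt_of _ hlt)
              (by linear_combination h'))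
            have e1 : -5 * (7 * a + 12 * (b' - a)) - 12 * (-3 * a - 5 * (b' - a)) = a := by ring
            have e2 : 3 * (7 * a + 12 * (b' - a)) + 7 * (-3 * a - 5 * (b' - a)) = b' - a := by ring
            have e3 : -5 * (7 * c + 2 * (d' - 6 * c)) - 2 * (-18 * c - 5 * (d' - 6 * c)) = c := by
              ring
            have e4 : 18 * (7 * c + 2 * (d' - 6 * c)) + 7 * (-18 * c - 5 * (d' - 6 * c)) =
              d' - 6 * c := by ring
            rw [e1, e2, e3, e4] at this
            have := hT _ _ _ _ this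
            have e5 : a + (b' - a) = b' := by ring
            have e6 : 6 * c + (d' - 6 * c) = d' := by ring
            rwa [e5, e6] at this
        · rcases abs_cases c with ⟨h2, h3⟩ | ⟨h2, h3⟩
          · rw [abs_of_pos hpos] at hl2 hl3
            rw [h2] at hl2 hl3
            have hlt : |7 * c + 2 * (d' - 6 * c)| < |c| := by
              rw [h2, abs_lt]
              constructor <;> linarith
            have := hV' _ _ _ _ (ih (7 * a + 12 * (b' - a)) (-3 * a - 5 * (b' - a))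
              (7 * c + 2 * (d' - 6 * c)) (-18 * c - 5 * (d' - 6 * c)) (lt_of _ hlt)
              (by linear_combination h'))
            have e1 : -5 * (7 * a + 12 * (b' - a)) - 12 * (-3 * a - 5 * (b' - a)) = a := by ring
            have e2 : 3 * (7 * a + 12 * (b' - a)) + 7 * (-3 * a - 5 * (b' - a)) = b' - a := by ring
            have e3 : -5 * (7 * c + 2 * (d' - 6 * c)) - 2 * (-18 * c - 5 * (d' - 6 * c)) = c := by
              ring
            have e4 : 18 * (7 * c + 2 * (d' - 6 * c)) + 7 * (-18 * c - 5 * (d' - 6 * c)) =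
              d' - 6 * c := by ring
            rw [e1, e2, e3, e4] at this
            have := hT _ _ _ _ this
            have e5 : a + (b' - a) = b' := by ring
            have e6 : 6 * c + (d' - 6 * c) = d' := by ring
            rwa [e5, e6] at this
          · rw [abs_of_pos hpos] at hl2 hl3
            rw [h2] at hl2 hl3
            have hlt : |-5 * c - 2 * d'| < |c| := by
              rw [h2, abs_lt]
              constructor <;> linarith
            have := hV _ _ _ _ (ih (-5 * a - 12 * b') (3 * a + 7 * b') (-5 * c - 2 * d')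
              (18 * c + 7 * d') (lt_of _ hlt) (by linear_combination h'))
            have e1 : 7 * (-5 * a - 12 * b') + 12 * (3 * a + 7 * b') = a := by ring
            have e2 : -3 * (-5 * a - 12 * b') - 5 * (3 * a + 7 * b') = b' := by ring
            have e3 : 7 * (-5 * c - 2 * d') + 2 * (18 * c + 7 * d') = c := by ring
            have e4 : -18 * (-5 * c - 2 * d') - 5 * (18 * c + 7 * d') = d' := by ring
            rwa [e1, e2, e3, e4] at this
  intro a b c d h
  exact main c.natAbs a b c d le_rfl h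
/- END SG4 -/

/- MODULE SG5 -/
private theorem sg5_im6 (z : ℂ) (hz : 0 < z.im) : (6 : ℂ) * z ≠ 0 ∧ 0 < (-1 / (6 * z)).im := by
  have h1 := moeb_im_int 0 (-1) 6 0 (by norm_num) z hz
  simpa using h1

private theorem sg5_im3 (z : ℂ) (hz : 0 < z.im) :
    (6 : ℂ) * z - 3 ≠ 0 ∧ 0 < ((3 * z - 2) / (6 * z - 3)).im := by
  have h1 := moeb_im_int 3 (-2) 6 (-3) (by norm_num) z hz
  push_cast at h1
  simpa [sub_eq_add_neg] using h1

private theorem sg5_sub (z : ℂ) : f (z - 1) = -f z := by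
  have h1 := f_add_one (z - 1)
  rw [sub_add_cancel] at h1
  rw [h1, neg_neg]

/-- PROOF: `z/(6z+1) = -1/(6(w-1))`, `w = -1/(6z)`: `f_W6` twice and `f_add_one`:
`f = -6 (w-1)^2 f(w-1) = 6 (w-1)^2 f(w) = -36 (w-1)^2 z^2 f z = -(6z+1)^2 f z`. -/
theorem f_U (z : ℂ) (hz : 0 < z.im) : f (z / (6 * z + 1)) = -(6 * z + 1) ^ 2 * f z := by
  obtain ⟨h0, h1⟩ := sg5_im6 z hz
  have hw : (-1 / (6 * z)) * (6 * z) = -1 := div_mul_cancel₀ _ h0
  have hfw := f_W6 z hz
  set w : ℂ := -1 / (6 * z)
  have him : 0 < (w - 1).im := by simpa using h1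
  have h2 := f_W6 (w - 1) him
  have h3 := (sg5_im6 (w - 1) him).1
  have h4 : (6 : ℂ) * z + 1 ≠ 0 := by
    intro h5
    apply h3
    have h6 : (6 * (w - 1)) * (6 * z) = 0 := by linear_combination 6 * hw - 6 * h5
    exact (mul_eq_zero.1 h6).resolve_right h0
  have h5 : -1 / (6 * (w - 1)) = z / (6 * z + 1) := by
    rw [div_eq_div_iff h3 h4]
    linear_combination -hw
  rw [← h5, h2, sg5_sub, hfw]
  linear_combination (-(6 * (w - 1) * z) + (6 * z + 1)) * (f z) * hw
/-- PROOF: the same with `w + 1`. -/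
theorem f_U' (z : ℂ) (hz : 0 < z.im) : f (z / (-6 * z + 1)) = -(-6 * z + 1) ^ 2 * f z := by
  obtain ⟨h0, h1⟩ := sg5_im6 z hz
  have hw : (-1 / (6 * z)) * (6 * z) = -1 := div_mul_cancel₀ _ h0
  have hfw := f_W6 z hz
  set w : ℂ := -1 / (6 * z)
  have him : 0 < (w + 1).im := by simpa using h1
  have h2 := f_W6 (w + 1) him
  have h3 := (sg5_im6 (w + 1) him).1
  have h4 : (-6 : ℂ) * z + 1 ≠ 0 := by
    intro h5
    apply h3
    have h6 : (6 * (w + 1)) * (6 * z) = 0 := by linear_combination 6 * hw - 6 * h5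
    exact (mul_eq_zero.1 h6).resolve_right h0
  have h5 : -1 / (6 * (w + 1)) = z / (-6 * z + 1) := by
    rw [div_eq_div_iff h3 h4]
    linear_combination -hw
  rw [← h5, h2, f_add_one, hfw]
  linear_combination (-(6 * (w + 1) * z) + (-6 * z + 1)) * (f z) * hw
/-- PROOF: `(7z-3)/(12z-5) = W(w - 1)`, `w = W z = (3z-2)/(6z-3)`, `W = W_3`
(`6 (w - 1) - 3 = (-36 z + 15)/(6z-3)`), `f_W3` twice and `f_add_one`. -/
theorem f_V (z : ℂ) (hz : 0 < z.im) :
    f ((7 * z - 3) / (12 * z - 5)) = -(12 * z - 5) ^ 2 * f z := by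
  obtain ⟨h0, h1⟩ := sg5_im3 z hz
  have hw : ((3 * z - 2) / (6 * z - 3)) * (6 * z - 3) = 3 * z - 2 := div_mul_cancel₀ _ h0
  have hfw := f_W3 z hz
  set w : ℂ := (3 * z - 2) / (6 * z - 3)
  have him : 0 < (w - 1).im := by simpa using h1
  have h2 := f_W3 (w - 1) him
  have h3 := (sg5_im3 (w - 1) him).1
  have h8 : (6 * (w - 1) - 3) * (6 * z - 3) = -3 * (12 * z - 5) := by linear_combination 6 * hw
  have h4 : (12 : ℂ) * z - 5 ≠ 0 := by
    intro h5
    rw [h5, mul_zero] at h8
    exact mul_ne_zero h3 h0 h8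
  have h5 : (3 * (w - 1) - 2) / (6 * (w - 1) - 3) = (7 * z - 3) / (12 * z - 5) := by
    rw [div_eq_div_iff h3 h4]
    linear_combination -hw
  rw [← h5, h2, sg5_sub, hfw]
  linear_combination (-((6 * (w - 1) - 3) * (6 * z - 3)) / 9 + (12 * z - 5) / 3) * f z * h8
/-- PROOF: `(-5z+3)/(-12z+7) = W(w + 1)`, `w = W z`, `6 (w+1) - 3 = (36z-21)/(6z-3)`. -/
theorem f_V' (z : ℂ) (hz : 0 < z.im) :
    f ((-5 * z + 3) / (-12 * z + 7)) = -(-12 * z + 7) ^ 2 * f z := by
  obtain ⟨h0, h1⟩ := sg5_im3 z hz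
  have hw : ((3 * z - 2) / (6 * z - 3)) * (6 * z - 3) = 3 * z - 2 := div_mul_cancel₀ _ h0
  have hfw := f_W3 z hz
  set w : ℂ := (3 * z - 2) / (6 * z - 3)
  have him : 0 < (w + 1).im := by simpa using h1
  have h2 := f_W3 (w + 1) him
  have h3 := (sg5_im3 (w + 1) him).1
  have h8 : (6 * (w + 1) - 3) * (6 * z - 3) = -3 * (-12 * z + 7) := by linear_combination 6 * hw
  have h4 : (-12 : ℂ) * z + 7 ≠ 0 := by
    intro h5
    rw [h5, mul_zero] at h8
    exact mul_ne_zero h3 h0 h8
  have h5 : (3 * (w + 1) - 2) / (6 * (w + 1) - 3) = (-5 * z + 3) / (-12 * z + 7) := by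
    rw [div_eq_div_iff h3 h4]
    linear_combination -hw
  rw [← h5, h2, f_add_one, hfw]
  linear_combination (-((6 * (w + 1) - 3) * (6 * z - 3)) / 9 + (-12 * z + 7) / 3) * f z * h8
/- END SG5 -/

/- MODULE SG6 -/
private theorem sg6_even (m n : ℤ) (h : Even (m - n)) : (-1 : ℂ) ^ m = (-1) ^ n := by
  have h1 : m = (m - n) + n := by ring
  rw [h1, zpow_add₀ (by norm_num : (-1 : ℂ) ≠ 0), h.neg_one_zpow, one_mul]

private theorem sg6_odd (m n : ℤ) (h : Odd (m - n)) : (-1 : ℂ) ^ m = -(-1) ^ n := by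
  have h1 : m = (m - n) + n := by ring
  rw [h1, zpow_add₀ (by norm_num : (-1 : ℂ) ≠ 0), h.neg_one_zpow]
  ring_nf

private theorem sg6_step (a b c d e : ℂ)
    (hQ : ∀ z : ℂ, 0 < z.im → f ((a * z + b) / (c * z + d)) = e * (c * z + d) ^ 2 * f z)
    (p q r s g z : ℂ) (hne : r * z + s ≠ 0) (him : 0 < ((p * z + q) / (r * z + s)).im)
    (hf : f ((p * z + q) / (r * z + s)) = g * (r * z + s) ^ 2 * f z) (A B C D : ℂ)
    (hA : A * z + B = a * (p * z + q) + b * (r * z + s))
    (hC : C * z + D = c * (p * z + q) + d * (r * z + s)) :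
    f ((A * z + B) / (C * z + D)) = g * e * (C * z + D) ^ 2 * f z := by
  have hn : ((p * z + q) / (r * z + s)) * (r * z + s) = p * z + q := div_mul_cancel₀ _ hne
  set n : ℂ := (p * z + q) / (r * z + s)
  have h1 : A * z + B = (a * n + b) * (r * z + s) := by rw [hA, ← hn]; ring
  have h2 : C * z + D = (c * n + d) * (r * z + s) := by rw [hC, ← hn]; ring
  rw [h1, h2, mul_div_mul_right _ _ hne, hQ n him, hf]
  ring

/-- `f | γ = (-1)^(b + c) f` for `γ = (a b; 6c d)`. PROOF: `gamma_induction` for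
`Q a b c d := a d - 6 b c = 1 ∧ ∀ z, 0 < Im z → f (γ z) = (-1)^(b+c) (6 c z + d)^2 f z`; the step
`γ ↦ γ T` is `Q` at `z + 1` and `f_add_one`, the sign is right because `a` is odd; `γ ↦ γ U` is `Q`
at `U z` and `f_U` (`d` is odd), `(6 c (U z) + d) (6 z + 1) = 6 (c + d) z + d`; `γ ↦ γ V`: `Q` at
`V z` and `f_V`, the sign: `b ↦ -3a - 5b`, `c ↦ 7c + 2d`. -/
theorem f_one (a b c d : ℤ) (h : a * d - 6 * b * c = 1) (z : ℂ) (hz : 0 < z.im) :
    f ((a * z + b) / (6 * c * z + d)) = (-1) ^ (b + c) * (6 * c * z + d) ^ 2 * f z := by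
  have key := gamma_induction (fun a b c d : ℤ => a * d - 6 * b * c = 1 ∧ ∀ z : ℂ, 0 < z.im →
    f ((a * z + b) / (6 * c * z + d)) = (-1) ^ (b + c) * (6 * c * z + d) ^ 2 * f z)
    ⟨by norm_num, fun z _ => by simp⟩ ?_ ?_ ?_ ?_ ?_ ?_ ?_ a b c d h
  · exact key.2 z hz
  · rintro a b c d ⟨h, hQ⟩
    refine ⟨by linarith, fun z hz => ?_⟩
    have h1 := hQ z hz
    rw [sg6_even (-b + -c) (b + c) ⟨-b - c, by ring⟩]
    push_cast
    have h2 : (-(a : ℂ) * z + -b) / (6 * -c * z + -d) = (a * z + b) / (6 * c * z + d) := by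
      rw [← neg_div_neg_eq]
      congr 1 <;> ring
    rw [h2, h1]
    ring
  · rintro a b c d ⟨h, hQ⟩
    refine ⟨by linarith, fun z hz => ?_⟩
    have ha : Odd a := by
      have h1 : Odd (a * d) := ⟨3 * b * c, by linarith⟩
      exact (Int.odd_mul.1 h1).1
    rw [sg6_odd (a + b + c) (b + c) (by
      have : a + b + c - (b + c) = a := by ring
      rw [this]; exact ha)]
    have h1 := sg6_step a b (6 * c) d _ hQ 1 1 0 1 (-1) z (by simp) (by simpa using hz)
      (by simpa using f_add_one z) a (a + b) (6 * c) (6 * c + d) (by ring) (by ring)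
    push_cast
    rw [h1]
    ring
  · rintro a b c d ⟨h, hQ⟩
    refine ⟨by linarith, fun z hz => ?_⟩
    have ha : Odd a := by
      have h1 : Odd (a * d) := ⟨3 * b * c, by linarith⟩
      exact (Int.odd_mul.1 h1).1
    rw [sg6_odd (b - a + c) (b + c) (by
      have : b - a + c - (b + c) = -a := by ring
      rw [this]; exact ha.neg)]
    have h1 := sg6_step a b (6 * c) d _ hQ 1 (-1) 0 1 (-1) z (by simp) (by simpa using hz)
      (by simpa [sub_eq_add_neg] using sg5_sub z) a (b - a) (6 * c) (d - 6 * c) (by ring) (by ring)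
    push_cast
    rw [h1]
    ring
  · rintro a b c d ⟨h, hQ⟩
    refine ⟨by linarith, fun z hz => ?_⟩
    have hd : Odd d := by
      have h1 : Odd (a * d) := ⟨3 * b * c, by linarith⟩
      exact (Int.odd_mul.1 h1).2
    rw [sg6_odd (b + (c + d)) (b + c) (by
      have : b + (c + d) - (b + c) = d := by ring
      rw [this]; exact hd)]
    have hm := moeb_im_int 1 0 6 1 (by norm_num) z hz
    push_cast at hm
    have h1 := sg6_step a b (6 * c) d _ hQ 1 0 6 1 (-1) z hm.1 hm.2
      (by simpa using f_U z hz) (a + 6 * b) b (6 * (c + d)) d (by ring) (by ring)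
    push_cast
    rw [h1]
    ring
  · rintro a b c d ⟨h, hQ⟩
    refine ⟨by linarith, fun z hz => ?_⟩
    have hd : Odd d := by
      have h1 : Odd (a * d) := ⟨3 * b * c, by linarith⟩
      exact (Int.odd_mul.1 h1).2
    rw [sg6_odd (b + (c - d)) (b + c) (by
      have : b + (c - d) - (b + c) = -d := by ring
      rw [this]; exact hd.neg)]
    have hm := moeb_im_int 1 0 (-6) 1 (by norm_num) z hz
    push_cast at hm
    have h1 := sg6_step a b (6 * c) d _ hQ 1 0 (-6) 1 (-1) z hm.1 hm.2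
      (by simpa using f_U' z hz) (a - 6 * b) b (6 * (c - d)) d (by ring) (by ring)
    push_cast
    rw [h1]
    ring
  · rintro a b c d ⟨h, hQ⟩
    refine ⟨by linarith, fun z hz => ?_⟩
    have ha : Odd a := by
      have h1 : Odd (a * d) := ⟨3 * b * c, by linarith⟩
      exact (Int.odd_mul.1 h1).1
    obtain ⟨k, hk⟩ := ha
    rw [sg6_odd (-3 * a - 5 * b + (7 * c + 2 * d)) (b + c)
      ⟨-3 * k - 2 - 3 * b + 3 * c + d, by rw [hk]; ring⟩]
    have hm := moeb_im_int 7 (-3) 12 (-5) (by norm_num) z hz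
    push_cast at hm
    have h1 := sg6_step a b (6 * c) d _ hQ 7 (-3) 12 (-5) (-1) z hm.1 hm.2
      (by simpa [sub_eq_add_neg] using f_V z hz) (7 * a + 12 * b) (-3 * a - 5 * b)
      (6 * (7 * c + 2 * d)) (-18 * c - 5 * d) (by ring) (by ring)
    push_cast
    rw [h1]
    ring
  · rintro a b c d ⟨h, hQ⟩
    refine ⟨by linarith, fun z hz => ?_⟩
    have ha : Odd a := by
      have h1 : Odd (a * d) := ⟨3 * b * c, by linarith⟩
      exact (Int.odd_mul.1 h1).1
    obtain ⟨k, hk⟩ := ha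
    rw [sg6_odd (3 * a + 7 * b + (-5 * c - 2 * d)) (b + c)
      ⟨3 * k + 1 + 3 * b - 3 * c - d, by rw [hk]; ring⟩]
    have hm := moeb_im_int (-5) 3 (-12) 7 (by norm_num) z hz
    push_cast at hm
    have h1 := sg6_step a b (6 * c) d _ hQ (-5) 3 (-12) 7 (-1) z hm.1 hm.2
      (by simpa using f_V' z hz) (-5 * a - 12 * b) (3 * a + 7 * b)
      (6 * (-5 * c - 2 * d)) (18 * c + 7 * d) (by ring) (by ring)
    push_cast
    rw [h1]
    ring
/- END SG6 -/

/- MODULE SG7 -/
/-- PROOF: `(3a b; 6c 3d) = γ W_3` with `γ = (-3a-2b, 2a+b; -6(c+d), 4c+3d)`, determinant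
`3ad - 2bc = 1`; `f_one` at `W_3 z` and `f_W3`; `d` is odd. -/
theorem f_three (a b c d : ℤ) (h : 3 * a * d - 2 * b * c = 1) (z : ℂ) (hz : 0 < z.im) :
    f ((3 * a * z + b) / (6 * c * z + 3 * d)) =
      (-1) ^ (b + c) * ((6 * c * z + 3 * d) ^ 2 / 3) * f z := by
  have hd : Odd d := by
    have h1 : Odd (3 * a * d) := ⟨b * c, by linarith⟩
    exact (Int.odd_mul.1 h1).2
  obtain ⟨k, hk⟩ := hd
  have hdet : (-3 * a - 2 * b) * (4 * c + 3 * d) - 6 * (2 * a + b) * (-c - d) = 1 := by
    rw [← h]; ring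
  have hQ := f_one (-3 * a - 2 * b) (2 * a + b) (-c - d) (4 * c + 3 * d) hdet
  push_cast at hQ
  have hm := moeb_im_int 3 (-2) 6 (-3) (by norm_num) z hz
  push_cast at hm
  have h1 := sg6_step (-3 * a - 2 * b) (2 * a + b) (6 * (-c - d)) (4 * c + 3 * d) _ hQ 3 (-2) 6 (-3)
    (-1 / 3) z hm.1 hm.2 (by
      have h2 := f_W3 z hz
      rw [sub_eq_add_neg, sub_eq_add_neg] at h2
      rw [h2]
      ring) (3 * a) b (6 * c) (3 * d) (by ring) (by ring)
  rw [h1, sg6_odd (2 * a + b + (-c - d)) (b + c) ⟨a - c - k - 1, by rw [hk]; ring⟩]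
  ring
/-- PROOF: `(2a b; 6c 2d) = γ W_2` with `γ = (-2a-3b, a+b; -6(c+d), 3c+2d)`; `b`, `c` are odd. -/
theorem f_two (a b c d : ℤ) (h : 2 * a * d - 3 * b * c = 1) (z : ℂ) (hz : 0 < z.im) :
    f ((2 * a * z + b) / (6 * c * z + 2 * d)) =
      -(-1) ^ (a + d) * ((6 * c * z + 2 * d) ^ 2 / 2) * f z := by
  have hbc : Odd (3 * b * c) := ⟨a * d - 1, by linarith⟩
  obtain ⟨l, hl⟩ := (Int.odd_mul.1 hbc).2
  obtain ⟨k, hk⟩ := (Int.odd_mul.1 (Int.odd_mul.1 hbc).1).2
  have hdet : (-2 * a - 3 * b) * (3 * c + 2 * d) - 6 * (a + b) * (-c - d) = 1 := by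
    rw [← h]; ring
  have hQ := f_one (-2 * a - 3 * b) (a + b) (-c - d) (3 * c + 2 * d) hdet
  push_cast at hQ
  have hm := moeb_im_int 2 (-1) 6 (-2) (by norm_num) z hz
  push_cast at hm
  have h1 := sg6_step (-2 * a - 3 * b) (a + b) (6 * (-c - d)) (3 * c + 2 * d) _ hQ 2 (-1) 6 (-2)
    (-1 / 2) z hm.1 hm.2 (by
      have h2 := f_W2 z hz
      rw [sub_eq_add_neg, sub_eq_add_neg] at h2
      rw [h2]
      ring) (2 * a) b (6 * c) (2 * d) (by ring) (by ring)
  rw [h1, sg6_even (a + b + (-c - d)) (a + d) ⟨k - l - d, by rw [hk, hl]; ring⟩]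
  ring
/-- PROOF: `(6a b; 6c 6d) = γ W_6`, `W_6 = (0 -1; 6 0)`, `γ = (-b, a; -6d, c)`. -/
theorem f_six (a b c d : ℤ) (h : 6 * a * d - b * c = 1) (z : ℂ) (hz : 0 < z.im) :
    f ((6 * a * z + b) / (6 * c * z + 6 * d)) =
      -(-1) ^ (a + d) * ((6 * c * z + 6 * d) ^ 2 / 6) * f z := by
  have hdet : (-b) * c - 6 * a * (-d) = 1 := by
    rw [← h]; ring
  have hQ := f_one (-b) a (-d) c hdet
  push_cast at hQ
  have hm := sg5_im6 z hz
  have h1 := sg6_step (-b) a (6 * -d) c _ hQ 0 (-1) 6 0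
    (-1 / 6) z (by simpa using hm.1) (by simpa using hm.2) (by
      have h2 := f_W6 z hz
      rw [zero_mul, zero_add, add_zero, h2]
      ring) (6 * a) b (6 * c) (6 * d) (by ring) (by ring)
  rw [h1, sg6_even (a + -d) (a + d) ⟨-d, by ring⟩]
  ring
/- END SG7 -/

end Pool.Agent.NC
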