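import Pool.Agent.NC.Hecke

/-!
# Sizes of the coefficients
-/

namespace Pool.Agent.NC

open scoped BigOperators
open Complex (I exp)
open Real (pi)

/- MODULE SZ1 -/
/-- Bessel's inequality. PROOF: for `K` large compared with `N`, the average of
`|∑ c_n exp (π i n x)|²` over the `2K` points `x = k/K`, `0 ≤ k < 2K`, is
`∑_(r mod 2K) |∑_(n = r mod 2K) c_n|²`; let `K → ∞` (dominated convergence), or use
`∫_0^2 |g(x)|² dx` and term by term integration of the double series; or apply Mathlib's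
Parseval (`tsum_sq_fourierCoeff`) to the continuous function `g` on `AddCircle 2`. -/
theorem bessel (c : ℕ → ℂ) (hc : Summable fun n ↦ ‖c n‖) (M : ℝ)
    (h : ∀ x : ℝ, ‖∑' n : ℕ, c n * exp (pi * I * n * x)‖ ≤ M) (N : ℕ) :
    ∑ n ∈ Finset.range N, ‖c n‖ ^ 2 ≤ M ^ 2 := by
  have h2 : Fact ((0 : ℝ) < 2) := ⟨by norm_num⟩
  have hM0 : 0 ≤ M := (norm_nonneg _).trans (h 0)
  have hs : Summable fun n : ℕ ↦ c n • (fourier (n : ℤ) : C(AddCircle (2:ℝ), ℂ)) := by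
    refine Summable.of_norm ?_
    simpa [norm_smul, fourier_norm] using hc
  obtain ⟨G, hGs⟩ := hs
  have hG : ∀ x : ℝ, G (x : AddCircle (2:ℝ)) = ∑' n : ℕ, c n * exp (pi * I * n * x) := by
    intro x
    have h1 := (ContinuousMap.hasSum_apply hGs (x : AddCircle (2:ℝ))).tsum_eq
    rw [← h1]
    refine tsum_congr fun n ↦ ?_
    rw [ContinuousMap.smul_apply, fourier_coe_apply, smul_eq_mul]
    congr 2
    push_cast
    ring
  have hM : ‖G‖ ≤ M := by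
    rw [ContinuousMap.norm_le _ hM0]
    intro x
    induction x using QuotientAddGroup.induction_on with
    | H x => exact (hG x) ▸ h x
  set T := ContinuousMap.toLp (E := ℂ) 2 (@AddCircle.haarAddCircle 2 h2) ℂ with hT
  have h3 : HasSum (fun n : ℕ ↦ c n • @fourierLp 2 h2 2 _ (n:ℤ)) (T G) := by
    have := hGs.mapL T
    simpa only [map_smul] using this
  have h4 : ∀ m : ℕ, inner ℂ (@fourierLp 2 h2 2 _ (m:ℤ)) (T G) = c m := by
    intro m
    have h5 := h3.mapL (innerSL ℂ (@fourierLp 2 h2 2 _ (m:ℤ)))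
    have h6 : HasSum (fun n : ℕ ↦ if n = m then c m else 0) (c m) := by
      simpa using hasSum_ite_eq m (c m)
    have h7 : (fun n : ℕ ↦ (innerSL ℂ (@fourierLp 2 h2 2 _ (m:ℤ))) (c n • @fourierLp 2 h2 2 _ (n:ℤ)))
        = fun n : ℕ ↦ if n = m then c m else 0 := by
      funext n
      rw [innerSL_apply_apply, inner_smul_right, (orthonormal_iff_ite.1 (@orthonormal_fourier 2 h2)) m n]
      by_cases hnm : n = m
      · subst hnm; simp
      · rw [if_neg (fun hh : (m : ℤ) = (n : ℤ) ↦ hnm (by exact_mod_cast hh.symm)), if_neg hnm, mul_zero]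
    rw [h7] at h5
    simpa [innerSL_apply_apply] using h5.unique h6
  have h5 := ((@orthonormal_fourier 2 h2).comp (fun n : ℕ ↦ (n : ℤ)) Nat.cast_injective).sum_inner_products_le
    (T G) (s := Finset.range N)
  simp only [Function.comp, h4] at h5
  refine h5.trans ?_
  have h6 : ‖T G‖ ≤ ‖G‖ := by
    refine (T.le_opNorm G).trans ?_
    have := ContinuousMap.toLp_norm_le (E := ℂ) (𝕜 := ℂ) (p := 2) (@AddCircle.haarAddCircle 2 h2)
    have h8 : ‖T‖ ≤ 1 := by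
      refine this.trans ?_
      simp [MeasureTheory.measureUnivNNReal]
    calc ‖T‖ * ‖G‖ ≤ 1 * ‖G‖ := by gcongr
      _ = ‖G‖ := one_mul _
  exact pow_le_pow_left₀ (norm_nonneg _) (h6.trans hM) 2
/- END SZ1 -/

/- MODULE SZ2 -/
/-- PROOF: `f_bound` at `z = x + i/N`: `‖f z‖ ≤ C N`; `bessel` with `c n = a n exp (-π n / N)`:
`∑_(n < N) |a n|² exp (-2 π n / N) ≤ C² N²`, and `exp (-2 π n / N) ≥ exp (-2 π)` for `n < N`. -/
theorem a_mean_sq : ∃ C : ℝ, 0 < C ∧ ∀ N : ℕ, 1 ≤ N →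
    ∑ n ∈ Finset.range N, (a n : ℝ) ^ 2 ≤ C * (N : ℝ) ^ 2 := by
  obtain ⟨C, hC⟩ := f_bound
  have hC0 : 0 ≤ C := (mul_nonneg (norm_nonneg _) (by norm_num : (0:ℝ) ≤ (I : ℂ).im)).trans
    (hC I (by simp))
  refine ⟨Real.exp (2 * pi) * C ^ 2 + 1, by positivity, fun N hN ↦ ?_⟩
  have hN0 : (0 : ℝ) < N := by exact_mod_cast hN
  set c : ℕ → ℂ := fun n ↦ (a n : ℂ) * exp (pi * I * n * ((1 / N : ℝ) * I)) with hc
  have hsum : ∀ x : ℝ, HasSum (fun n : ℕ ↦ c n * exp (pi * I * n * x))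
      (f (x + ((1 / N : ℝ) * I))) := by
    intro x
    have him : 0 < ((x : ℂ) + ((1 / N : ℝ) * I)).im := by simp; positivity
    have h1 := hasSum_f _ him
    refine h1.congr_fun ?_
    intro n
    simp only [hc]
    rw [mul_assoc, ← Complex.exp_add]
    congr 2
    ring
  have hcn : ∀ n : ℕ, ‖c n‖ = |(a n : ℝ)| * Real.exp (-(pi * n / N)) := by
    intro n
    simp only [hc]
    rw [norm_mul, Complex.norm_exp, Complex.norm_intCast]
    congr 2
    have : (pi : ℂ) * I * n * ((1 / N : ℝ) * I) = ((-(pi * n / N) : ℝ) : ℂ) := by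
      push_cast
      have : (I : ℂ) * I = -1 := Complex.I_mul_I
      linear_combination (pi * n * (1 / N) : ℂ) * this
    rw [this, Complex.ofReal_re]
  have hcs : Summable fun n ↦ ‖c n‖ := by
    have := (hsum 0).summable.norm
    refine this.congr fun n ↦ ?_
    simp
  have hb := bessel c hcs (C * N) (fun x ↦ by
    rw [(hsum x).tsum_eq]
    have him : ((x : ℂ) + ((1 / N : ℝ) * I)).im = 1 / N := by simp
    have h1 := hC (x + ((1 / N : ℝ) * I)) (by rw [him]; positivity)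
    rw [him] at h1
    rw [mul_one_div, div_le_iff₀ hN0] at h1
    exact h1) N
  have h2 : ∀ n ∈ Finset.range N, Real.exp (-(2 * pi)) * (a n : ℝ) ^ 2 ≤ ‖c n‖ ^ 2 := by
    intro n hn
    rw [hcn, mul_pow, sq_abs, mul_comm, ← Real.exp_nat_mul]
    refine mul_le_mul_of_nonneg_left (Real.exp_le_exp.2 ?_) (sq_nonneg _)
    have h3 : (n : ℝ) / N ≤ 1 := by
      rw [div_le_one hN0]
      exact_mod_cast (Finset.mem_range.1 hn).le
    push_cast
    rw [mul_div_assoc]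
    nlinarith [Real.pi_pos]
  have h4 := (Finset.sum_le_sum h2).trans hb
  rw [← Finset.mul_sum] at h4
  have h5 : ∑ n ∈ Finset.range N, (a n : ℝ) ^ 2 ≤ Real.exp (2 * pi) * (C * N) ^ 2 := by
    rw [Real.exp_neg, inv_mul_le_iff₀ (Real.exp_pos _)] at h4
    exact h4
  refine h5.trans ?_
  nlinarith [sq_nonneg (N : ℝ)]

/-- PROOF: `a_mean_sq` for `N = n + 1`. -/
theorem a_bound : ∃ C : ℝ, 0 < C ∧ ∀ n : ℕ, 1 ≤ n → |(a n : ℝ)| ≤ C * n := by
  obtain ⟨C, hC0, hC⟩ := a_mean_sq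
  refine ⟨2 * Real.sqrt C, by positivity, fun n hn ↦ ?_⟩
  have h1 := hC (n + 1) (by omega)
  have h2 : (a n : ℝ) ^ 2 ≤ ∑ k ∈ Finset.range (n + 1), (a k : ℝ) ^ 2 :=
    Finset.single_le_sum (f := fun k ↦ (a k : ℝ) ^ 2) (fun k _ ↦ sq_nonneg _)
      (Finset.mem_range.2 (by omega))
  have hn' : (1 : ℝ) ≤ n := by exact_mod_cast hn
  have h3 : (a n : ℝ) ^ 2 ≤ (2 * Real.sqrt C * n) ^ 2 := by
    refine (h2.trans h1).trans ?_
    rw [mul_pow, mul_pow, Real.sq_sqrt hC0.le]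
    push_cast
    have h4 : ((n : ℝ) + 1) ^ 2 ≤ 2 ^ 2 * n ^ 2 := by nlinarith
    calc C * ((n : ℝ) + 1) ^ 2 ≤ C * (2 ^ 2 * n ^ 2) := mul_le_mul_of_nonneg_left h4 hC0.le
      _ = 2 ^ 2 * C * n ^ 2 := by ring
  exact abs_le_of_sq_le_sq h3 (by positivity)
/- END SZ2 -/

/- MODULE SZ3 -/
/-- PROOF: dyadic blocks: `∑_(2^k ≤ n < 2^(k+1)) a(n)² n^(-τ) ≤ C 4^(k+1) 2^(-k τ)`, geometric. -/
theorem summable_sq (τ : ℝ) (hτ : 2 < τ) : Summable fun n : ℕ ↦ (a n : ℝ) ^ 2 * (n : ℝ) ^ (-τ) := by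
  obtain ⟨C, hC0, hC⟩ := a_mean_sq
  have hO : (fun n : ℕ ↦ ∑ k ∈ Finset.Icc 1 n, (a k : ℝ) ^ 2) =O[Filter.atTop]
      fun n ↦ (n : ℝ) ^ (2 : ℝ) := by
    refine Asymptotics.IsBigO.of_bound (C * 4) ?_
    filter_upwards [Filter.eventually_ge_atTop 1] with n hn
    have hn' : (1 : ℝ) ≤ n := by exact_mod_cast hn
    have h1 := hC (n + 1) (by omega)
    rw [Real.norm_of_nonneg (Finset.sum_nonneg fun _ _ ↦ sq_nonneg _),
      Real.norm_of_nonneg (by positivity), Real.rpow_two]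
    have h2 : ∑ k ∈ Finset.Icc 1 n, (a k : ℝ) ^ 2 ≤ ∑ k ∈ Finset.range (n + 1), (a k : ℝ) ^ 2 := by
      refine Finset.sum_le_sum_of_subset_of_nonneg (fun k hk ↦ ?_) fun _ _ _ ↦ sq_nonneg _
      rw [Finset.mem_Icc] at hk
      exact Finset.mem_range.2 (by omega)
    refine (h2.trans h1).trans ?_
    push_cast
    have h4 : ((n : ℝ) + 1) ^ 2 ≤ 2 ^ 2 * n ^ 2 := by nlinarith
    calc C * ((n : ℝ) + 1) ^ 2 ≤ C * (2 ^ 2 * n ^ 2) := mul_le_mul_of_nonneg_left h4 hC0.le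
      _ = C * 4 * n ^ 2 := by ring
  have h3 := LSeriesSummable_of_sum_norm_bigO_and_nonneg hO (fun n ↦ sq_nonneg _) (by norm_num)
    (s := (τ : ℂ)) (by simpa using hτ)
  have h4 := h3.norm
  refine h4.congr fun n ↦ ?_
  rcases Nat.eq_zero_or_pos n with rfl | hn
  · simp [LSeries.term, a]
  · have hn' : (0 : ℝ) < n := by exact_mod_cast hn
    rw [LSeries.term_of_ne_zero hn.ne', norm_div, Complex.norm_real,
      Real.norm_of_nonneg (sq_nonneg _), Complex.norm_natCast_cpow_of_pos hn, Complex.ofReal_re,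
      Real.rpow_neg hn'.le, div_eq_mul_inv]

/-- PROOF: `|a| n^(-σ) ≤ (a² n^(-τ) + n^(τ - 2σ))/2` with `τ = σ + 1/2` (`2 < τ`, `2σ - τ > 1`). -/
theorem summable_a (σ : ℝ) (hσ : 3 / 2 < σ) : Summable fun n : ℕ ↦ |(a n : ℝ)| * (n : ℝ) ^ (-σ) := by
  have h1 := summable_sq (σ + 1 / 2) (by linarith)
  have h2 : Summable fun n : ℕ ↦ (n : ℝ) ^ (-(σ - 1 / 2)) := by
    rw [Real.summable_nat_rpow]
    linarith
  refine Summable.of_nonneg_of_le (fun n ↦ by positivity) (fun n ↦ ?_) ((h1.add h2).div_const 2)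
  rcases Nat.eq_zero_or_pos n with rfl | hn
  · have : (a 0 : ℝ) = 0 := by simp [a]
    rw [this, abs_zero, zero_mul]
    positivity
  · have hn' : (0 : ℝ) < n := by exact_mod_cast hn
    have e1 : (n : ℝ) ^ (-(σ + 1 / 2)) = ((n : ℝ) ^ (-(σ + 1 / 2) / 2)) ^ 2 := by
      rw [← Real.rpow_two, ← Real.rpow_mul hn'.le]
      congr 1
      ring
    have e2 : (n : ℝ) ^ (-(σ - 1 / 2)) = ((n : ℝ) ^ (-(σ - 1 / 2) / 2)) ^ 2 := by
      rw [← Real.rpow_two, ← Real.rpow_mul hn'.le]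
      congr 1
      ring
    have e3 : (n : ℝ) ^ (-σ) = (n : ℝ) ^ (-(σ + 1 / 2) / 2) * (n : ℝ) ^ (-(σ - 1 / 2) / 2) := by
      rw [← Real.rpow_add hn']
      congr 1
      ring
    rw [e1, e2, e3, ← sq_abs (a n : ℝ)]
    nlinarith [sq_nonneg (|(a n : ℝ)| * (n : ℝ) ^ (-(σ + 1 / 2) / 2) - (n : ℝ) ^ (-(σ - 1 / 2) / 2))]
/- END SZ3 -/

/- MODULE SZ4 -/
/-- PROOF: suppose `|a p| ≥ p + 2`. By `a_rec` at `n = p^k`:
`a(p^(k+1)) = a(p) a(p^k) - p a(p^(k-1))`; by induction `|a(p^(k+1))| ≥ (p+1) |a(p^k)| > 0`: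
`|a(p^(k+1))| ≥ (p+2)|a(p^k)| - p |a(p^(k-1))| ≥ (p+2) |a(p^k)| - |a(p^k)|`. So
`(p+1)^k ≤ |a(p^k)| ≤ C p^k` for all `k`, impossible (`a_bound`). -/
theorem a_prime_le (p : ℕ) (hp : p.Prime) (h6 : ¬ p ∣ 6) : |a p| ≤ p + 1 := by
  by_contra hlt
  push Not at hlt
  have h1 : (p : ℤ) + 2 ≤ |a p| := by omega
  have hp0 : 0 < p := hp.pos
  have hrec : ∀ k : ℕ, a (p ^ (k + 2)) = a p * a (p ^ (k + 1)) - p * a (p ^ k) := by
    intro k
    have h2 := a_rec.2 p (p ^ (k + 1)) hp (by positivity)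
    rw [if_neg h6, if_pos (dvd_pow_self p (by omega))] at h2
    have h3 : p * p ^ (k + 1) = p ^ (k + 2) := by ring
    have h4 : p ^ (k + 1) / p = p ^ k := by
      rw [pow_succ, Nat.mul_div_cancel _ hp0]
    rw [h3, h4] at h2
    exact h2
  have hind : ∀ k : ℕ, ((p : ℤ) + 1) * |a (p ^ k)| ≤ |a (p ^ (k + 1))| := by
    intro k
    induction k with
    | zero =>
      simp only [pow_zero, zero_add, pow_one, a_rec.1, abs_one]
      linarith
    | succ k ih =>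
      rw [hrec k]
      have h5 : |a p * a (p ^ (k + 1))| - |(p : ℤ) * a (p ^ k)| ≤
          |a p * a (p ^ (k + 1)) - p * a (p ^ k)| := abs_sub_abs_le_abs_sub _ _
      rw [abs_mul, abs_mul, Nat.abs_cast] at h5
      have h6 : 0 ≤ |a (p ^ k)| := abs_nonneg _
      have h7 : 0 ≤ |a (p ^ (k + 1))| := abs_nonneg _
      nlinarith
  have hpow : ∀ k : ℕ, ((p : ℤ) + 1) ^ k ≤ |a (p ^ k)| := by
    intro k
    induction k with
    | zero => simp [a_rec.1]
    | succ k ih =>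
      refine le_trans ?_ (hind k)
      rw [pow_succ, mul_comm]
      exact mul_le_mul_of_nonneg_left ih (by positivity)
  obtain ⟨C, hC0, hC⟩ := a_bound
  have hp0' : (0 : ℝ) < p := by exact_mod_cast hp0
  have h8 : ∀ k : ℕ, (((p : ℝ) + 1) / p) ^ k ≤ C := by
    intro k
    have h9 := hC (p ^ k) (Nat.one_le_pow _ _ hp0)
    have h10 : (((p : ℤ) + 1) ^ k : ℝ) ≤ |(a (p ^ k) : ℝ)| := by exact_mod_cast hpow k
    rw [div_pow, div_le_iff₀ (by positivity)]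
    push_cast at h9 h10
    exact h10.trans h9
  have h11 : (1 : ℝ) < ((p : ℝ) + 1) / p := by
    rw [lt_div_iff₀ hp0']
    linarith
  obtain ⟨k, hk⟩ := pow_unbounded_of_one_lt C h11
  exact absurd (h8 k) (not_le.2 hk)
/- END SZ4 -/

end Pool.Agent.NC
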